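import Mathlib
import Pool.Agent.H80.SU.AFc
import Pool.Agent.H80.SU.AFd
import Pool.Agent.H80.SU.AFe

/-!
# MP_cda23d_nt: reciprocity between the field of a nonsplit prime and an auxiliary quadratic field
-/

set_option autoImplicit false

namespace Pool.Agent.Results.MP_cda23d_nt.AuxiliaryField

open Pool.Agent.H27.SU Pool.Agent.H80.SU
open scoped NumberTheorySymbols

/-- **Theorem.** Let `E/ℚ` be an elliptic curve, `j = j(E) ≠ 0, 1728`, let `p ≥ 29` be a prime such that the image of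
`ρ_{E,p}` is contained in the normaliser of a nonsplit Cartan subgroup, and let `Q = candPrimes j p` be the set of the odd
primes `q` at which `v_q(j - 1728)` is positive and odd, without the `q = 1 mod 4` with `4 q < p²`.

(A) Let `x` be a squarefree integer such that `(x/q) = 1` for all `q ∈ Q`, `q ≥ 5` (if `p = 1 mod 4` it is enough that `q`
does not divide `x`), such that for every prime `l ≥ 5` dividing `x` either `l = p` or `v_l(j) < 0` or `3 ∤ v_l(j)` or `j`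
is ordinary modulo `l` and `4 l < p²`, and such that `x = 1 mod 8` or `v_2(j) ≤ 0` or `3 ∤ v_2(j)`, and `x = 1 mod 3` or
`v_3(j) ≤ 0` or `3 ∤ x` and `3 ∤ v_3(j)`.  Then `p` divides `B - sign(x) (-1)^n ∏_{q ∈ Q} (x/q)`, where `B` is the product
of the primes `l ∣ x` with `v_l(j) < 0` and `n` is the number of the primes `l ∣ x` with `l = p` or with `l = 2 mod 3`,
`v_l(j) > 0` and `3 ∤ v_l(j)`.

Consequences: (B) if `|num(j - 1728)|` is a sum of two squares and each of `v_2(j)`, `v_3(j)` is `≤ 0` or prime to `3`,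
then no prime `p ≥ 29` has this property; (C) if `p = 1 mod 4` then there is `c ∈ {1, 2, 3, 6}` such that
`-c |num(j - 1728)|` is a nonsquare modulo `p`, and a square modulo every prime `l ≥ 5` with `4 l < p²`, `v_l(j) ≥ 0`, at
which `j` is ordinary, and `c = 1`, `-|num(j - 1728)| = 1 mod 24` if `v_2(j), v_3(j) ≤ 0`; (D) the case
`x = 3 num(j) den(j)`; (E) for every finite set `S` of primes and every `ε > 0` there are `N`, `C` and a set `R` of at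
least `(1 - ε) N` residue classes modulo `N` such that no `p > C` has this property if all odd `q` at which
`v_q(j - 1728)` is positive and odd lie in `S` and `j` is congruent modulo `N` to an integer in a class of `R`. -/
theorem result :
    (∀ (E : WeierstrassCurve ℚ) [E.IsElliptic] (p : ℕ) [Fact p.Prime] (x : ℤ),
      E.j ≠ 0 → E.j ≠ 1728 → 29 ≤ p → InNonsplitNormaliser E p → Squarefree x →
      (∀ q ∈ candPrimes E.j p, 5 ≤ q → J(x | q) = 1 ∨ (p % 4 = 1 ∧ J(x | q) = -1)) →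
      (∀ (l : ℕ) [Fact l.Prime], 5 ≤ l → (l : ℤ) ∣ x → l = p ∨ padicValRat l E.j < 0 ∨
        ¬ (3 : ℤ) ∣ padicValRat l E.j ∨ (OrdinaryAt E.j l ∧ 4 * l < p ^ 2)) →
      (x % 8 = 1 ∨ padicValRat 2 E.j ≤ 0 ∨ ¬ (3 : ℤ) ∣ padicValRat 2 E.j) →
      (x % 3 = 1 ∨ padicValRat 3 E.j ≤ 0 ∨ ¬ (3 : ℤ) ∣ x ∧ ¬ (3 : ℤ) ∣ padicValRat 3 E.j) →
      (p : ℤ) ∣ poleProd E.j x -
        x.sign * (-1) ^ inertCount E.j x p * ∏ q ∈ candPrimes E.j p, J(x | q)) ∧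
    (∀ (E : WeierstrassCurve ℚ) [E.IsElliptic] (u v : ℤ), E.j ≠ 0 → E.j ≠ 1728 →
      (padicValRat 2 E.j ≤ 0 ∨ ¬ (3 : ℤ) ∣ padicValRat 2 E.j) →
      (padicValRat 3 E.j ≤ 0 ∨ ¬ (3 : ℤ) ∣ padicValRat 3 E.j) →
      |(E.j - 1728).num| = u ^ 2 + v ^ 2 →
      ∀ (p : ℕ) [Fact p.Prime], 29 ≤ p → ¬ InNonsplitNormaliser E p) ∧
    (∀ (E : WeierstrassCurve ℚ) [E.IsElliptic], E.j ≠ 0 → E.j ≠ 1728 →
      ∀ (p : ℕ) [Fact p.Prime], 29 ≤ p → p % 4 = 1 → InNonsplitNormaliser E p →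
      ∃ c : ℤ, (c = 1 ∨ c = 2 ∨ c = 3 ∨ c = 6) ∧
        (padicValRat 2 E.j ≤ 0 → padicValRat 3 E.j ≤ 0 →
          c = 1 ∧ (-|(E.j - 1728).num|) % 24 = 1) ∧
        legendreSym p (-(c * |(E.j - 1728).num|)) = -1 ∧
        ∀ (l : ℕ) [Fact l.Prime], 5 ≤ l → 4 * l < p ^ 2 → 0 ≤ padicValRat l E.j →
          OrdinaryAt E.j l → legendreSym l (-(c * |(E.j - 1728).num|)) ≠ -1) ∧
    (∀ (E : WeierstrassCurve ℚ) [E.IsElliptic], (∀ c : ℤ, E.j.num ≠ c ^ 3) →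
      ((2 : ℤ) ∣ E.j.num → ¬ 3 ∣ padicValInt 2 E.j.num) →
      ((3 : ℤ) ∣ E.j.num → ¬ 3 ∣ padicValInt 3 E.j.num) → ∀ (p : ℕ) [Fact p.Prime], 29 ≤ p →
      (∀ r : ℕ, r.Prime → 5 ≤ r → padicValInt r E.j.num % 6 = 3 → r % 3 = 1 ∧ 4 * r < p ^ 2) →
      InNonsplitNormaliser E p →
      p % 3 = 2 ∧ (E.j.num % 2 = 1 ∧ legendreSym p (-7) = -1 ∨ (16 : ℤ) ∣ E.j.num) ∧
        (¬ (3 : ℤ) ∣ E.j.num → (p : ℤ) ∣ E.j.den - J(E.j.num | 3)) ∧
        (p % 4 = 1 → (p : ℤ) ∣ E.j.den - (if E.j < 1728 then 1 else -1))) ∧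
    (∀ (S : Finset ℕ) (ε : ℝ), 0 < ε → ∃ (N C : ℕ) (R : Finset (ZMod N)), 0 < N ∧
      (1 - ε) * N ≤ (R.card : ℝ) ∧
      ∀ (E : WeierstrassCurve ℚ) [E.IsElliptic], E.j ≠ 0 → E.j ≠ 1728 → oddPrimes E.j ⊆ S →
        ∀ y : ℤ, (N : ℤ) ∣ (E.j - y).num → (y : ZMod N) ∈ R →
          ∀ (p : ℕ) [Fact p.Prime], C < p → ¬ InNonsplitNormaliser E p) :=
  ⟨fun E _ p _ x h0 h1 hp hE hx a b c d => aux_field E h0 h1 p hp hE x hx a b c d,
    fun E _ u v h0 h1 h2 h3 h p _ hp => cor_two_squares E h0 h1 h2 h3 u v h p hp,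
    fun E _ h0 h1 p _ hp hp4 hE => cor_one_mod_four E h0 h1 p hp hp4 hE,
    fun E _ h h2 h3 p _ hp h6 hE => cube_free7 E h h2 h3 p hp h6 hE,
    cor_dens⟩

end Pool.Agent.Results.MP_cda23d_nt.AuxiliaryField
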