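import Pool.Agent.H58.CD.Det
import Pool.Agent.H58.CD.Yao

set_option autoImplicit false
set_option maxHeartbeats 4000000

namespace Pool.Agent.Results.MP_0f984e_lc.ConstantDepth

/-! ### Orthogonal Vectors -/

/-- Positions of the `2n` input vectors: `(false, i)` is the `i`-th vector of `A`, and
`(true, j)` is the `j`-th vector of `B`. -/
abbrev Pos (n : ℕ) : Type := Bool × Fin n

/-- Vectors in `{0,1}^d`. -/
abbrev Vec (d : ℕ) : Type := Fin d → Bool

/-- An input: `n` vectors of `A` and `n` vectors of `B`, all in `{0,1}^d`. -/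
abbrev Input (n d : ℕ) : Type := Pos n → Vec d

/-- The list `A` (`b = false`) or the list `B` (`b = true`). -/
def list {n d : ℕ} (x : Input n d) (b : Bool) : Fin n → Vec d := fun i => x (b, i)

/-- Valid inputs: each of the two sets is listed in strictly increasing lexicographic order (so
each consists of exactly `n` distinct vectors, written in the canonical order). -/
def IsValid {n d : ℕ} (x : Input n d) : Prop :=
  StrictMono (fun i : Fin n => toLex (x (false, i))) ∧
  StrictMono (fun j : Fin n => toLex (x (true, j)))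

/-- The answer to the Orthogonal Vectors question: some vector of `A` and some vector of `B` have
inner product `0` over the integers. -/
def HasOrthogonalPair {n d : ℕ} (x : Input n d) : Prop :=
  ∃ i j : Fin n, ∑ k : Fin d, (x (false, i) k).toNat * (x (true, j) k).toNat = 0

/-! ### Circuits of constant depth with a few step gates -/

/-- A step function with at most `J` jumps: it is constant off and between at most `J` points. -/
def IsStep {α : Type} (J : ℕ) (f : ℝ → α) : Prop :=
  ∃ D : Finset ℝ, D.card ≤ J ∧ ∀ a b : ℝ, a ≤ b → (∀ y ∈ D, y < a ∨ b < y) → f a = f b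

/-- A circuit for inputs of size `n, d` with `s` gates in `T` layers and `H` step gates. A gate is
the AND of any number of literals: the literal `(z, b)` means that the input bit or gate `z` (of a
lower layer) has the value `b`, so NOT and OR gates are included. A step gate computes a sum with
arbitrary real weights of the values of all gates, plus an arbitrary real function of the list `A`
alone, plus an arbitrary real function of the list `B` alone, and applies a function to this sum.
The answer is an arbitrary Boolean function of the values of the `H` step gates. -/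
structure Circuit (n d T s H : ℕ) where
  /-- the layer of a gate -/
  layer : Fin s → Fin T
  /-- the literals of a gate -/
  lits : Fin s → Finset (((Pos n × Fin d) ⊕ Fin s) × Bool)
  /-- a gate reads only input bits and gates of lower layers -/
  lower : ∀ g, ∀ q ∈ lits g, ∀ h, q.1 = Sum.inr h → layer h < layer g
  /-- the weight of a gate in the sum of a step gate -/
  weight : Fin H → Fin s → ℝ
  /-- the summand of a step gate which depends on one list only -/
  free : Fin H → Bool → (Fin n → Vec d) → ℝ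
  /-- the function which a step gate applies to its sum -/
  step : Fin H → ℝ → ℕ
  /-- the answer, given the values of the step gates -/
  answer : (Fin H → ℕ) → Bool

variable {n d T s H : ℕ}

/-- The values of the gates after `t` layers have been evaluated. -/
def Circuit.valueAt (C : Circuit n d T s H) (x : Input n d) : ℕ → Fin s → Bool
  | 0, _ => false
  | t + 1, g => decide (∀ q ∈ C.lits g,
      Sum.elim (fun z : Pos n × Fin d => x z.1 z.2) (C.valueAt x t) q.1 = q.2)

/-- The value of a gate: it is true if all literals of the gate are true (theorem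
`value_iff`). -/
def Circuit.value (C : Circuit n d T s H) (x : Input n d) (g : Fin s) : Bool :=
  C.valueAt x ((C.layer g : ℕ) + 1) g

/-- The sum of a step gate. -/
noncomputable def Circuit.sum (C : Circuit n d T s H) (x : Input n d) (r : Fin H) : ℝ :=
  (∑ g : Fin s, C.weight r g * (if C.value x g = true then (1 : ℝ) else 0)) +
    C.free r false (list x false) + C.free r true (list x true)

/-- The circuit accepts the input `x`. -/
def Circuit.Accepts (C : Circuit n d T s H) (x : Input n d) : Prop :=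
  C.answer (fun r => C.step r (C.sum x r)) = true

/-- The circuit answers the Orthogonal Vectors question correctly on the input `x`. -/
def Circuit.CorrectOn (C : Circuit n d T s H) (x : Input n d) : Prop :=
  C.Accepts x ↔ HasOrthogonalPair x

/-- The gate depends only on one of the two lists. -/
def Circuit.OneSided (C : Circuit n d T s H) (g : Fin s) : Prop :=
  ∃ b : Bool, ∀ x x' : Input n d, list x b = list x' b → C.value x g = C.value x' g

open Classical in
/-- The number of gates which depend on both lists. -/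
noncomputable def Circuit.twoSided (C : Circuit n d T s H) : ℕ :=
  (Finset.univ.filter fun g : Fin s => ¬ C.OneSided g).card

/-! ### Values -/

theorem valueAt_eq (C : Circuit n d T s H) (x : Input n d) (t : ℕ) (g : Fin s)
    (h : (C.layer g : ℕ) < t) : C.valueAt x t g = C.value x g := by
  have main : ∀ m : ℕ, ∀ g : Fin s, (C.layer g : ℕ) = m → ∀ t, m < t →
      C.valueAt x t g = C.value x g := by
    intro m
    induction m using Nat.strong_induction_on with
    | _ m ih =>
      intro g hg t ht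
      obtain ⟨t', rfl⟩ : ∃ t', t = t' + 1 := ⟨t - 1, by omega⟩
      unfold Circuit.value
      rw [hg]
      show decide (∀ q ∈ C.lits g, Sum.elim _ (C.valueAt x t') q.1 = q.2) =
        decide (∀ q ∈ C.lits g, Sum.elim _ (C.valueAt x m) q.1 = q.2)
      congr 1
      apply propext
      refine forall₂_congr fun q hq => ?_
      obtain ⟨z, b⟩ := q
      rcases z with z | h
      · exact Iff.rfl
      · have h1 : (C.layer h : ℕ) < m := by
          have := C.lower g _ hq h rfl
          rw [Fin.lt_def, hg] at this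
          exact this
        show C.valueAt x t' h = b ↔ C.valueAt x m h = b
        rw [ih _ h1 h rfl t' (by omega), ih _ h1 h rfl m h1]
  exact main _ g rfl t h

/-- A gate is true if and only if all its literals are true. -/
theorem value_iff (C : Circuit n d T s H) (x : Input n d) (g : Fin s) :
    C.value x g = true ↔ ∀ q ∈ C.lits g,
      Sum.elim (fun z : Pos n × Fin d => x z.1 z.2) (C.value x) q.1 = q.2 := by
  show decide (∀ q ∈ C.lits g, Sum.elim _ (C.valueAt x (C.layer g)) q.1 = q.2) = true ↔ _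
  rw [decide_eq_true_iff]
  refine forall₂_congr fun q hq => ?_
  obtain ⟨z, b⟩ := q
  rcases z with z | h
  · exact Iff.rfl
  · show C.valueAt x (C.layer g) h = b ↔ C.value x h = b
    rw [valueAt_eq C x _ h (C.lower g _ hq h rfl)]

/-! ### The upper bounds -/

section upper

private noncomputable def stp (y : ℝ) : ℕ := if y < 1 / 2 then 0 else 1

private theorem stp_isStep : IsStep 1 stp := by
  refine ⟨{1 / 2}, by simp, ?_⟩
  intro a b hab h
  have h1 := h (1 / 2) (by simp)
  unfold stp
  rcases h1 with h1 | h1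
  · rw [if_neg (by linarith), if_neg (by linarith)]
  · rw [if_pos (by linarith), if_pos (by linarith)]

private theorem orth_iff {n d : ℕ} (x : Input n d) (i j : Fin n) :
    (∑ k : Fin d, (x (false, i) k).toNat * (x (true, j) k).toNat = 0) ↔
      ∀ k, ¬ (x (false, i) k = true ∧ x (true, j) k = true) := by
  rw [Finset.sum_eq_zero_iff]
  constructor
  · rintro h k ⟨h1, h2⟩
    have h3 := h k (Finset.mem_univ k)
    rw [h1, h2] at h3
    simp at h3
  · intro h k _
    have h3 := h k
    cases h1 : x (false, i) k <;> cases h2 : x (true, j) k <;> simp_all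

theorem upper_pairs (n d : ℕ) : ∃ A : Circuit n d 2 (n * n * d + n * n) 1,
    (∀ r, IsStep 1 (A.step r)) ∧ ∀ x, A.CorrectOn x := by
  classical
  obtain ⟨e⟩ : Nonempty (Fin (n * n * d + n * n) ≃
      (((Fin n × Fin n) × Fin d) ⊕ (Fin n × Fin n))) := by
    refine ⟨(Fintype.equivFinOfCardEq ?_).symm⟩
    simp [Fintype.card_sum, Fintype.card_prod]
  let lay : (((Fin n × Fin n) × Fin d) ⊕ (Fin n × Fin n)) → Fin 2 :=
    Sum.elim (fun _ => 0) (fun _ => 1)
  let lt : (((Fin n × Fin n) × Fin d) ⊕ (Fin n × Fin n)) →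
      Finset (((Pos n × Fin d) ⊕ Fin (n * n * d + n * n)) × Bool) :=
    Sum.elim (fun p => {(Sum.inl ((false, p.1.1), p.2), true), (Sum.inl ((true, p.1.2), p.2), true)})
      (fun p => Finset.univ.image fun c : Fin d => (Sum.inr (e.symm (Sum.inl (p, c))), false))
  let A : Circuit n d 2 (n * n * d + n * n) 1 :=
    { layer := fun g => lay (e g)
      lits := fun g => lt (e g)
      lower := by
        intro g q hq h hqh
        obtain ⟨y, hy⟩ : ∃ y, y = e g := ⟨_, rfl⟩
        rw [← hy] at hq ⊢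
        rcases y with p | p
        · have hq' : q ∈ ({(Sum.inl ((false, p.1.1), p.2), true),
              (Sum.inl ((true, p.1.2), p.2), true)} :
                Finset (((Pos n × Fin d) ⊕ Fin (n * n * d + n * n)) × Bool)) := hq
          rw [Finset.mem_insert, Finset.mem_singleton] at hq'
          rcases hq' with rfl | rfl
          · exact absurd hqh (by simp)
          · exact absurd hqh (by simp)
        · have hq' : q ∈ Finset.univ.image (fun c : Fin d =>
              ((Sum.inr (e.symm (Sum.inl (p, c))) :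
                (Pos n × Fin d) ⊕ Fin (n * n * d + n * n)), false)) := hq
          rw [Finset.mem_image] at hq'
          obtain ⟨c, -, rfl⟩ := hq'
          have h1 : e.symm (Sum.inl (p, c)) = h := Sum.inr.inj hqh
          rw [← h1, Equiv.apply_symm_apply]
          exact Nat.zero_lt_one
      weight := fun _ g => Sum.elim (fun _ => 0) (fun _ => 1) (e g)
      free := fun _ _ _ => 0
      step := fun _ => stp
      answer := fun v => decide (v 0 = 1) }
  refine ⟨A, fun r => stp_isStep, fun x => ?_⟩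
  have v1 : ∀ (p : Fin n × Fin n) (c : Fin d), A.value x (e.symm (Sum.inl (p, c))) = true ↔
      (x (false, p.1) c = true ∧ x (true, p.2) c = true) := by
    intro p c
    rw [value_iff]
    have h1 : A.lits (e.symm (Sum.inl (p, c))) =
        {(Sum.inl ((false, p.1), c), true), (Sum.inl ((true, p.2), c), true)} := by
      show lt (e (e.symm (Sum.inl (p, c)))) = _
      rw [Equiv.apply_symm_apply]
      rfl
    rw [h1]
    constructor
    · intro h
      exact ⟨h (Sum.inl ((false, p.1), c), true) (by simp),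
        h (Sum.inl ((true, p.2), c), true) (by simp)⟩
    · rintro ⟨h2, h3⟩ q hq
      rw [Finset.mem_insert, Finset.mem_singleton] at hq
      rcases hq with rfl | rfl
      · exact h2
      · exact h3
  have v2 : ∀ p : Fin n × Fin n, A.value x (e.symm (Sum.inr p)) = true ↔
      ∑ k : Fin d, (x (false, p.1) k).toNat * (x (true, p.2) k).toNat = 0 := by
    intro p
    rw [value_iff, orth_iff]
    have h1 : A.lits (e.symm (Sum.inr p)) =
        Finset.univ.image fun c : Fin d => (Sum.inr (e.symm (Sum.inl (p, c))), false) := by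
      show lt (e (e.symm (Sum.inr p))) = _
      rw [Equiv.apply_symm_apply]
      rfl
    rw [h1]
    constructor
    · intro h c hc
      have h2 := h (Sum.inr (e.symm (Sum.inl (p, c))), false)
        (Finset.mem_image.2 ⟨c, Finset.mem_univ c, rfl⟩)
      have h3 : A.value x (e.symm (Sum.inl (p, c))) = false := h2
      rw [(v1 p c).2 hc] at h3
      exact Bool.noConfusion h3
    · intro h q hq
      rw [Finset.mem_image] at hq
      obtain ⟨c, -, rfl⟩ := hq
      show A.value x (e.symm (Sum.inl (p, c))) = false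
      rw [← Bool.not_eq_true]
      intro h2
      exact h c ((v1 p c).1 h2)
  have hsum : A.sum x 0 = ∑ p : Fin n × Fin n,
      (if A.value x (e.symm (Sum.inr p)) = true then (1 : ℝ) else 0) := by
    show (∑ g : Fin (n * n * d + n * n), Sum.elim (fun _ => (0 : ℝ)) (fun _ => 1) (e g) *
      (if A.value x g = true then (1 : ℝ) else 0)) + 0 + 0 = _
    rw [add_zero, add_zero, ← Equiv.sum_comp e.symm, Fintype.sum_sum_type]
    rw [Finset.sum_eq_zero, zero_add]
    · refine Finset.sum_congr rfl fun p _ => ?_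
      rw [Equiv.apply_symm_apply]
      simp only [Sum.elim_inr, one_mul]
    · intro p _
      rw [Equiv.apply_symm_apply]
      simp only [Sum.elim_inl, zero_mul]
  show (decide (stp (A.sum x 0) = 1) = true) ↔ _
  rw [decide_eq_true_iff, hsum]
  constructor
  · intro h
    by_contra hno
    have h0 : ∑ p : Fin n × Fin n,
        (if A.value x (e.symm (Sum.inr p)) = true then (1 : ℝ) else 0) = 0 := by
      refine Finset.sum_eq_zero fun p _ => ?_
      rw [if_neg]
      intro h1
      exact hno ⟨p.1, p.2, (v2 p).1 h1⟩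
    rw [h0] at h
    unfold stp at h
    rw [if_pos (by norm_num)] at h
    exact Nat.zero_ne_one h
  · rintro ⟨i, j, hij⟩
    have h1 := (v2 (i, j)).2 hij
    have h2 : (1 : ℝ) ≤ ∑ p : Fin n × Fin n,
        (if A.value x (e.symm (Sum.inr p)) = true then (1 : ℝ) else 0) := by
      refine le_trans ?_ (Finset.single_le_sum (f := fun p : Fin n × Fin n =>
        (if A.value x (e.symm (Sum.inr p)) = true then (1 : ℝ) else 0)) (fun p _ => ?_)
        (Finset.mem_univ (i, j)))
      · rw [if_pos h1]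
      · split_ifs <;> norm_num
    unfold stp
    rw [if_neg (by linarith)]

theorem upper_read (n d : ℕ) : ∃ A : Circuit n d 1 (2 * n * d) (2 * n * d),
    (∀ r, IsStep 1 (A.step r)) ∧ A.twoSided = 0 ∧ ∀ x, A.CorrectOn x := by
  classical
  obtain ⟨e⟩ : Nonempty (Fin (2 * n * d) ≃ Pos n × Fin d) := by
    refine ⟨(Fintype.equivFinOfCardEq ?_).symm⟩
    simp [Fintype.card_prod]
  let A : Circuit n d 1 (2 * n * d) (2 * n * d) :=
    { layer := fun _ => 0
      lits := fun g => {(Sum.inl (e g), true)}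
      lower := by
        intro g q hq h hqh
        rw [Finset.mem_singleton] at hq
        subst hq
        exact absurd hqh (by simp)
      weight := fun r g => if g = r then 1 else 0
      free := fun _ _ _ => 0
      step := fun _ => stp
      answer := fun v => decide (HasOrthogonalPair (n := n) (d := d)
        (fun p c => decide (v (e.symm (p, c)) = 1))) }
  have v1 : ∀ (x : Input n d) (g : Fin (2 * n * d)), A.value x g = x (e g).1 (e g).2 := by
    intro x g
    rw [Bool.eq_iff_iff, value_iff]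
    constructor
    · intro h
      exact h (Sum.inl (e g), true) (Finset.mem_singleton_self _)
    · intro h q hq
      have hq' : q = (Sum.inl (e g), true) := Finset.mem_singleton.1 hq
      subst hq'
      exact h
  refine ⟨A, fun r => stp_isStep, ?_, fun x => ?_⟩
  · unfold Circuit.twoSided
    rw [Finset.card_eq_zero, Finset.filter_eq_empty_iff]
    intro g _ hg
    apply hg
    refine ⟨(e g).1.1, fun x x' h => ?_⟩
    rw [v1, v1]
    have h1 := congrFun (congrFun h (e g).1.2) (e g).2
    exact h1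
  · have hs : ∀ r, stp (A.sum x r) = 1 ↔ x (e r).1 (e r).2 = true := by
      intro r
      have h1 : A.sum x r = if A.value x r = true then (1 : ℝ) else 0 := by
        show (∑ g : Fin (2 * n * d), (if g = r then (1 : ℝ) else 0) *
          (if A.value x g = true then (1 : ℝ) else 0)) + 0 + 0 = _
        rw [add_zero, add_zero]
        simp only [ite_mul, one_mul, zero_mul]
        rw [Finset.sum_ite_eq' Finset.univ r
          (fun g => if A.value x g = true then (1 : ℝ) else 0)]
        rw [if_pos (Finset.mem_univ r)]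
      rw [h1, v1]
      unfold stp
      cases x (e r).1 (e r).2
      · norm_num
      · norm_num
    show (decide (HasOrthogonalPair (n := n) (d := d)
      (fun p c => decide (stp (A.sum x (e.symm (p, c))) = 1))) = true) ↔ _
    rw [decide_eq_true_iff]
    have h2 : (fun (p : Pos n) (c : Fin d) =>
        decide (stp (A.sum x (e.symm (p, c))) = 1)) = x := by
      funext p c
      rw [Bool.eq_iff_iff, decide_eq_true_iff, hs, Equiv.apply_symm_apply]
    rw [h2]

end upper

/-! ### The lower bound -/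

section lower

open Pool.Agent.H58 Pool.Agent.H58.OVAC Pool.Agent.H58.OVPR Pool.Agent.H58.CD

/-- The gates of a circuit as functions of the input. -/
def Circuit.net (A : Circuit n d T s H) : Net (OVAC.Pos n × Fin d) (OVAC.Input n d) s T where
  inp q x := x q.1 q.2
  lits := A.lits
  layer := A.layer
  lower := A.lower
  val g x := A.value x g
  val_iff g x := value_iff A x g

theorem det_bound {J L l : ℕ} (hH : 1 ≤ H) (hL : 1 ≤ L) (hl : l ≤ L) (hnl : n ≤ 2 ^ l)
    (hs : s + 1 ≤ 2 ^ L) (hT : (32 * pS₁ L) ^ (T + 1) ≤ 2 ^ (64 * L)) (hm : pm H J ≤ n)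
    (code : Fin n → Fin l → Bool) (pos : Fin (n / pm H J) → Fin (pm H J) → Fin n)
    (hpos : ∀ a t, (pos a t : ℕ) = a * pm H J + t) (A : Circuit n d T s H)
    (hA : ∀ r, IsStep J (A.step r)) :
    (29 / 30 : ℝ) ≤
      pr (fun τ : PTest n (pK T L) (pD T L l) (n / pm H J) (pm H J) =>
        ¬ A.Accepts (code₁ code (τ.y pos))) +
      pr (fun y : Co n (pD T L l) → Fin (pK T L) => A.Accepts (code₁ code y)) +
      8 * ((pS T L : ℝ) ^ 2 + 1) / ((n / pm H J : ℕ) : ℝ) ^ 2 * A.twoSided := by
  classical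
  have hnL : n ≤ 2 ^ L := hnl.trans (Nat.pow_le_pow_right (by norm_num) hl)
  have hM : 1 ≤ pM H J := by
    unfold pM
    exact Nat.mul_pos (Nat.mul_pos (by norm_num) hH) (Nat.succ_pos _)
  have hΛ1 : 1 ≤ Nat.clog 2 (2 * pM H J + 1) := Nat.clog_pos (by norm_num) (by omega)
  have hm1 : 1 ≤ pm H J := by
    unfold pm
    exact Nat.mul_pos (Nat.mul_pos (by norm_num) hH) hΛ1
  have hn' : 1 ≤ n / pm H J := Nat.div_pos hm hm1
  have hnm : n / pm H J * pm H J ≤ n := Nat.div_mul_le_self _ _
  have hk2 : 2 ≤ pK T L := by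
    unfold pK
    omega
  have hs₁ : 1 ≤ pS₁ L := by
    unfold pS₁
    omega
  have hHr : (1 : ℝ) ≤ H := by exact_mod_cast hH
  have hΛr : (1 : ℝ) ≤ (Nat.clog 2 (2 * pM H J + 1) : ℕ) := by exact_mod_cast hΛ1
  have hmr : ((pm H J : ℕ) : ℝ) = 40000 * H * (Nat.clog 2 (2 * pM H J + 1) : ℕ) := by
    unfold pm
    push_cast
    ring
  have hMr : ((pM H J : ℕ) : ℝ) = 100 * H * (J + 1) := by
    unfold pM
    push_cast
    ring
  have hx : (0 : ℝ) < 100 * H * (Nat.clog 2 (2 * pM H J + 1) : ℕ) := by positivity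
  have hxm : 2 * (100 * H * (Nat.clog 2 (2 * pM H J + 1) : ℕ) : ℝ) ≤ (pm H J : ℕ) := by
    rw [hmr]
    have : (0 : ℝ) ≤ H * (Nat.clog 2 (2 * pM H J + 1) : ℕ) := by positivity
    nlinarith
  have hG2 : (Finset.univ.filter fun g : Fin s => ¬ ∃ b : Bool, ∀ z z' : OVAC.Input n d,
      (∀ i, z (b, i) = z' (b, i)) → A.net.val g z = A.net.val g z').card ≤ A.twoSided := by
    unfold Circuit.twoSided
    apply Finset.card_le_card
    intro g hg
    rw [Finset.mem_filter] at hg ⊢
    refine ⟨Finset.mem_univ _, fun h => hg.2 ?_⟩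
    obtain ⟨b, hb⟩ := h
    exact ⟨b, fun z z' hz => hb z z' (funext hz)⟩
  have key := CD.det (d := d) (T := T) (M := pM H J) hk2 hm1 hn' hnm hM hs₁
    (le_refl (pG n s T L l)) code A.net (fun q x => rfl) A.weight A.free A.step hA A.answer
    hx hxm pos hpos (fun z => A.Accepts z) (fun z => Iff.rfl) A.twoSided hG2
  obtain ⟨e1, e2⟩ := num_tail hnL hs hl hL hT
  -- the error terms
  have t1 : (H : ℝ) * (J / (pM H J : ℕ)) ≤ 1 / 100 := by
    rw [hMr, ← mul_div_assoc, div_le_div_iff₀ (by positivity) (by norm_num)]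
    nlinarith
  have t2 : 4 * (100 * H * (Nat.clog 2 (2 * pM H J + 1) : ℕ) : ℝ) / (pm H J : ℕ) ≤ 1 / 100 := by
    rw [hmr, div_le_div_iff₀ (by positivity) (by norm_num)]
    nlinarith
  have t3 : (H : ℝ) * Real.log (2 * (pM H J : ℕ) + 1) /
      (100 * H * (Nat.clog 2 (2 * pM H J + 1) : ℕ)) ≤ 1 / 100 := by
    rw [div_le_div_iff₀ hx (by norm_num)]
    have h1 := num_log (J := J) hH
    have h2 : (H : ℝ) * Real.log (2 * (pM H J : ℕ) + 1) ≤
        H * (Nat.clog 2 (2 * pM H J + 1) : ℕ) := mul_le_mul_of_nonneg_left h1 (by positivity)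
    nlinarith
  have hSr : (((2 * pS₁ L * (32 * pS₁ L) ^ T : ℕ) : ℝ)) = (pS T L : ℕ) := rfl
  have hn'r : (0 : ℝ) < ((n / pm H J : ℕ) : ℝ) ^ 2 := by
    have : (0 : ℝ) < ((n / pm H J : ℕ) : ℝ) := by exact_mod_cast hn'
    positivity
  have t4 : (A.twoSided : ℝ) * (8 * (((2 * pS₁ L * (32 * pS₁ L) ^ T : ℕ) : ℝ) ^ 2 +
      (2 * n * pD T L l : ℝ) ^ 2 * tailB T (pS₁ L) (pG n s T L l))) /
      ((n / pm H J : ℕ) : ℝ) ^ 2 ≤
      8 * ((pS T L : ℝ) ^ 2 + 1) / ((n / pm H J : ℕ) : ℝ) ^ 2 * A.twoSided := by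
    rw [hSr, div_mul_eq_mul_div]
    apply div_le_div_of_nonneg_right _ hn'r.le
    rw [mul_comm (A.twoSided : ℝ)]
    apply mul_le_mul_of_nonneg_right _ (Nat.cast_nonneg _)
    linarith
  have hkr : ((pK T L : ℕ) : ℝ) = 4000 * ((pS T L : ℕ) + 2) := by
    unfold pK
    push_cast
    ring
  have t5 : 2 / ((pK T L : ℕ) : ℝ) * (4 * (((2 * pS₁ L * (32 * pS₁ L) ^ T : ℕ) : ℝ) + 1) +
      4 * (pD T L l : ℝ) * s * (2 * n * pD T L l : ℝ) * tailB T (pS₁ L) (pG n s T L l)) ≤
      1 / 500 := by
    rw [hSr, hkr, div_mul_eq_mul_div, div_le_div_iff₀ (by positivity) (by norm_num)]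
    have : (0 : ℝ) ≤ (pS T L : ℕ) := Nat.cast_nonneg _
    nlinarith
  -- the space of tests is not empty
  have hne : Nonempty (PTest n (pK T L) (pD T L l) (n / pm H J) (pm H J)) := by
    refine ⟨(fun _ => ⟨0, by omega⟩, ((⟨0, by omega⟩, ⟨0, by omega⟩), (⟨0, by omega⟩,
      ⟨0, by omega⟩)), ⟨(fun _ => ⟨0, by omega⟩, fun _ => ⟨1, by omega⟩), fun c h => ?_⟩)⟩
    simp at h
  rw [pr_not]
  linarith

theorem lower : ∃ C : ℕ, ∀ n d T s H J : ℕ, 2 ≤ n → 1 ≤ H →
    (C * Nat.clog 2 (n * (s + 1) * (J + 1))) ^ (C * (T + 1)) ≤ d →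
    ∀ μ : PMF (Circuit n d T s H), (∀ A ∈ μ.support, ∀ r, IsStep J (A.step r)) →
      (∀ x : Input n d, IsValid x → (2 / 3 : ENNReal) ≤ μ.toOuterMeasure {A | A.CorrectOn x}) →
      (n : ENNReal) ^ 2 ≤ ((∑' A, μ A * (A.twoSided : ENNReal)) + 1) * (H : ENNReal) ^ 2 *
        (((C * Nat.clog 2 (n * (s + 1) * (J + 1))) ^ (C * (T + 1)) : ℕ) : ENNReal) := by
  classical
  refine ⟨2 ^ 20, ?_⟩
  intro n d T s H J hn hH hd μ hstep hμ
  -- the logarithm
  have hprod : 2 ≤ n * (s + 1) * (J + 1) := by
    calc 2 ≤ n := hn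
      _ ≤ n * (s + 1) := Nat.le_mul_of_pos_right _ (by omega)
      _ ≤ n * (s + 1) * (J + 1) := Nat.le_mul_of_pos_right _ (by omega)
  have hL : 1 ≤ Nat.clog 2 (n * (s + 1) * (J + 1)) := Nat.clog_pos (by norm_num) hprod
  have hpow := Nat.le_pow_clog (b := 2) (by norm_num) (n * (s + 1) * (J + 1))
  have hle : n ≤ n * (s + 1) * (J + 1) := by
    calc n ≤ n * (s + 1) := Nat.le_mul_of_pos_right _ (by omega)
      _ ≤ n * (s + 1) * (J + 1) := Nat.le_mul_of_pos_right _ (by omega)
  have hnL : n ≤ 2 ^ Nat.clog 2 (n * (s + 1) * (J + 1)) := hle.trans hpow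
  have hsL : s + 1 ≤ 2 ^ Nat.clog 2 (n * (s + 1) * (J + 1)) := by
    refine le_trans ?_ hpow
    calc s + 1 ≤ n * (s + 1) := Nat.le_mul_of_pos_left _ (by omega)
      _ ≤ n * (s + 1) * (J + 1) := Nat.le_mul_of_pos_right _ (by omega)
  have hJL : J + 1 ≤ 2 ^ Nat.clog 2 (n * (s + 1) * (J + 1)) := by
    refine le_trans ?_ hpow
    exact Nat.le_mul_of_pos_left _ (Nat.mul_pos (by omega) (by omega))
  have hlL : Nat.clog 2 n ≤ Nat.clog 2 (n * (s + 1) * (J + 1)) := Nat.clog_mono_right 2 hle
  generalize Nat.clog 2 (n * (s + 1) * (J + 1)) = L at hL hpow hnL hsL hJL hlL hd ⊢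
  obtain ⟨P, hP⟩ : ∃ P : ℕ, P = (2 ^ 20 * L) ^ (2 ^ 20 * (T + 1)) := ⟨_, rfl⟩
  rw [← hP] at hd ⊢
  have hP1 : 1 ≤ P := by
    rw [hP]
    exact Nat.one_le_pow _ _ (by positivity)
  obtain ⟨E, hE⟩ : ∃ E : ENNReal, E = ∑' A, μ A * (A.twoSided : ENNReal) := ⟨_, rfl⟩
  rw [← hE]
  -- the trivial cases
  have htriv : n ^ 2 ≤ H ^ 2 * P → (n : ENNReal) ^ 2 ≤ (E + 1) * (H : ENNReal) ^ 2 * (P : ENNReal) := by
    intro h
    have h1 : (n : ENNReal) ^ 2 ≤ (H : ENNReal) ^ 2 * (P : ENNReal) := by exact_mod_cast h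
    refine h1.trans ?_
    have h2 : (1 : ENNReal) ≤ E + 1 := le_add_self
    calc (H : ENNReal) ^ 2 * (P : ENNReal) = 1 * (H : ENNReal) ^ 2 * (P : ENNReal) := by rw [one_mul]
      _ ≤ (E + 1) * (H : ENNReal) ^ 2 * (P : ENNReal) := by gcongr
  by_cases hT : 2 ^ (64 * L) < (32 * pS₁ L) ^ (T + 1)
  · apply htriv
    have h1 := num_triv (T := T) hnL hL hT
    rw [← hP] at h1
    exact h1.trans (Nat.le_mul_of_pos_left _ (by positivity))
  rw [not_lt] at hT
  by_cases hnH : n < H
  · apply htriv
    calc n ^ 2 ≤ H ^ 2 := Nat.pow_le_pow_left hnH.le 2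
      _ ≤ H ^ 2 * P := Nat.le_mul_of_pos_right _ hP1
  rw [not_lt] at hnH
  have hfin := num_fin (T := T) (L := L) (H := H) (J := J) hL hH (hnH.trans hnL) hJL
  rw [← hP] at hfin
  by_cases hm : n < pm H J
  · apply htriv
    calc n ^ 2 ≤ pm H J ^ 2 := Nat.pow_le_pow_left hm.le 2
      _ = 1 * pm H J ^ 2 * 1 := by ring
      _ ≤ 4000 * pm H J ^ 2 * (pS T L ^ 2 + 1) :=
          Nat.mul_le_mul (Nat.mul_le_mul (by norm_num) le_rfl) (by omega)
      _ ≤ H ^ 2 * P := hfin
  rw [not_lt] at hm
  -- the main case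
  have hm1 : 1 ≤ pm H J := by
    unfold pm
    have h1 : 1 ≤ Nat.clog 2 (2 * pM H J + 1) := Nat.clog_pos (by norm_num) (by
      unfold pM
      have : 1 ≤ 100 * H * (J + 1) := Nat.mul_pos (by omega) (by omega)
      omega)
    exact Nat.mul_pos (by omega) h1
  obtain ⟨code, hcode⟩ := OVAC.exists_code (n := n) (m := Nat.clog 2 n)
    (Nat.le_pow_clog (by norm_num) n)
  have hl1 : 1 ≤ Nat.clog 2 n := Nat.clog_pos (by norm_num) hn
  have hnl : n ≤ 2 ^ Nat.clog 2 n := Nat.le_pow_clog (by norm_num) n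
  generalize Nat.clog 2 n = l at code hcode hl1 hnl hlL
  have hdim : 2 * l + pD T L l * pK T L ≤ d := by
    have h1 := num_dim (T := T) hlL hL
    rw [← hP] at h1
    exact h1.trans hd
  have hn'1 : 1 ≤ n / pm H J := Nat.div_pos hm hm1
  have hk2 : 2 ≤ pK T L := by
    unfold pK
    omega
  have hposlt : ∀ (a : Fin (n / pm H J)) (t : Fin (pm H J)), (a : ℕ) * pm H J + t < n := by
    intro a t
    have h1 : ((a : ℕ) + 1) * pm H J ≤ n / pm H J * pm H J := Nat.mul_le_mul_right _ a.2
    have h2 : n / pm H J * pm H J ≤ n := Nat.div_mul_le_self _ _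
    have h3 := t.2
    have h4 : ((a : ℕ) + 1) * pm H J = (a : ℕ) * pm H J + pm H J := by ring
    omega
  let ps : Fin (n / pm H J) → Fin (pm H J) → Fin n := fun a t => ⟨a * pm H J + t, hposlt a t⟩
  have hcode₁ : ∀ y : Co n (pD T L l) → Fin (pK T L), code₁ (d := d) code y =
      OVAC.tst (OVAC.emb d code) (fun i c => y ((false, i), c)) fun j c => y ((true, j), c) := by
    intro y
    funext p
    obtain ⟨b, i⟩ := p
    cases b with
    | false => simp [code₁, OVAC.tst]
    | true => simp [code₁, OVAC.tst]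
  have hval : ∀ y : Co n (pD T L l) → Fin (pK T L), IsValid (code₁ (d := d) code y) := by
    intro y
    rw [hcode₁ y]
    exact OVAC.emb_valid hdim code hcode _ _
  have horth : ∀ y : Co n (pD T L l) → Fin (pK T L),
      HasOrthogonalPair (code₁ (d := d) code y) ↔ ∃ i j : Fin n,
        Off (fun c => y ((false, i), c)) (fun c => y ((true, j), c)) := by
    intro y
    rw [hcode₁ y]
    exact exists_congr fun i => exists_congr fun j => OVAC.emb_orthogonal hdim code _ _ i j
  have hneX : Nonempty (Fin (pK T L)) := ⟨⟨0, by omega⟩⟩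
  have hneT : Nonempty (PTest n (pK T L) (pD T L l) (n / pm H J) (pm H J)) := by
    refine ⟨(fun _ => ⟨0, by omega⟩, ((⟨0, by omega⟩, ⟨0, by omega⟩), (⟨0, by omega⟩,
      ⟨0, by omega⟩)), ⟨(fun _ => ⟨0, by omega⟩, fun _ => ⟨1, by omega⟩), fun c h => ?_⟩)⟩
    simp at h
  have hplant : ∀ τ : PTest n (pK T L) (pD T L l) (n / pm H J) (pm H J),
      HasOrthogonalPair (code₁ (d := d) code (τ.y ps)) := by
    intro τ
    rw [horth]
    refine ⟨ps τ.2.1.1.1 τ.2.1.2.1, ps τ.2.1.1.2 τ.2.1.2.2, ?_⟩
    have h1 : (fun c => τ.y ps ((false, ps τ.2.1.1.1 τ.2.1.2.1), c)) = τ.2.2.1.1 := by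
      funext c
      simp [PTest.y, plant]
    have h2 : (fun c => τ.y ps ((true, ps τ.2.1.1.2 τ.2.1.2.2), c)) = τ.2.2.1.2 := by
      funext c
      simp [PTest.y, plant]
    rw [h1, h2]
    exact τ.2.2.2
  have hc0 : (0 : ℝ) ≤ 8 * ((pS T L : ℝ) ^ 2 + 1) / ((n / pm H J : ℕ) : ℝ) ^ 2 := by positivity
  -- averaging
  have hyao := yao_cost μ
    (fun A (τ : PTest n (pK T L) (pD T L l) (n / pm H J) (pm H J)) =>
      ¬ A.Accepts (code₁ code (τ.y ps)))
    (fun A (y : Co n (pD T L l) → Fin (pK T L)) => A.Accepts (code₁ code y)) (fun _ => 1 / 3)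
    (fun y => if ∃ i j : Fin n, Off (fun c => y ((false, i), c)) (fun c => y ((true, j), c))
      then 1 else 1 / 3)
    (fun _ => by norm_num) (fun y => by split_ifs <;> norm_num)
    (by
      intro τ
      refine le_trans (μ.toOuterMeasure.mono ?_) (OVPR.compl_le μ _ (hμ _ (hval (τ.y ps))))
      intro A hA hcor
      exact hA (hcor.2 (hplant τ)))
    (by
      intro y
      by_cases h : ∃ i j : Fin n, Off (fun c => y ((false, i), c)) (fun c => y ((true, j), c))
      · rw [if_pos h]
        exact OVPR.le_one μ _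
      · rw [if_neg h]
        refine le_trans (μ.toOuterMeasure.mono ?_) (OVPR.compl_le μ _ (hμ _ (hval y)))
        intro A hA hcor
        exact h ((horth y).1 (hcor.1 hA)))
    (fun A => A.twoSided) (c := 8 * ((pS T L : ℝ) ^ 2 + 1) / ((n / pm H J : ℕ) : ℝ) ^ 2)
    (x := 29 / 30) hc0
    (fun A hA => det_bound hH hL hlL hnl hsL hT hm code ps (fun _ _ => rfl) A (hstep A hA))
  rw [← hE] at hyao
  have hoff := pr_off_le (n := n) (k := pK T L) (D := pD T L l) (l := l) hk2 rfl hnl
  have hb : (av fun y : Co n (pD T L l) → Fin (pK T L) =>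
      if ∃ i j : Fin n, Off (fun c => y ((false, i), c)) (fun c => y ((true, j), c))
        then (1 : ℝ) else 1 / 3) ≤ 1 / 3 + 1 / 32 := by
    have h1 : (av fun y : Co n (pD T L l) → Fin (pK T L) =>
        if ∃ i j : Fin n, Off (fun c => y ((false, i), c)) (fun c => y ((true, j), c))
          then (1 : ℝ) else 1 / 3) ≤
        av fun y : Co n (pD T L l) → Fin (pK T L) => 1 / 3 +
          (if ∃ i j : Fin n, Off (fun c => y ((false, i), c)) (fun c => y ((true, j), c))
            then (1 : ℝ) else 0) := by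
      refine av_mono fun y => ?_
      split_ifs <;> norm_num
    refine h1.trans ?_
    rw [av_add, av_const]
    refine add_le_add_right (le_of_eq_of_le ?_ hoff) _
    unfold pr
    refine av_congr fun y => ?_
    by_cases h : ∃ i j : Fin n, Off (fun c => y ((false, i), c)) (fun c => y ((true, j), c))
    · rw [if_pos h, if_pos h]
    · rw [if_neg h, if_neg h]
  rw [av_const] at hyao
  -- the conclusion
  rcases eq_or_ne E ⊤ with hEt | hEt
  · rw [hEt]
    have h1 : ((⊤ : ENNReal) + 1) * (H : ENNReal) ^ 2 * (P : ENNReal) = ⊤ := by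
      have h2 : (H : ENNReal) ^ 2 ≠ 0 := by
        have : (H : ENNReal) ≠ 0 := by exact_mod_cast (by omega : H ≠ 0)
        exact pow_ne_zero 2 this
      have h3 : (P : ENNReal) ≠ 0 := by exact_mod_cast (by omega : P ≠ 0)
      rw [top_add, ENNReal.top_mul h2, ENNReal.top_mul h3]
    rw [h1]
    exact le_top
  obtain ⟨e, he0, he⟩ : ∃ e : ℝ, 0 ≤ e ∧ E = ENNReal.ofReal e :=
    ⟨E.toReal, ENNReal.toReal_nonneg, (ENNReal.ofReal_toReal hEt).symm⟩
  rw [he] at hyao ⊢
  have hav0 : (0 : ℝ) ≤ 1 / 3 + av fun y : Co n (pD T L l) → Fin (pK T L) =>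
      if ∃ i j : Fin n, Off (fun c => y ((false, i), c)) (fun c => y ((true, j), c))
        then (1 : ℝ) else 1 / 3 := by
    have : (0 : ℝ) ≤ av fun y : Co n (pD T L l) → Fin (pK T L) =>
      if ∃ i j : Fin n, Off (fun c => y ((false, i), c)) (fun c => y ((true, j), c))
        then (1 : ℝ) else 1 / 3 := av_nonneg fun y => by split_ifs <;> norm_num
    linarith
  rw [← ENNReal.ofReal_mul hc0, ← ENNReal.ofReal_add hav0 (mul_nonneg hc0 he0)] at hyao
  have h29 := (ENNReal.ofReal_le_ofReal_iff (add_nonneg hav0 (mul_nonneg hc0 he0))).1 hyao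
  have hquarter : (1 : ℝ) / 4 ≤ 8 * ((pS T L : ℝ) ^ 2 + 1) / ((n / pm H J : ℕ) : ℝ) ^ 2 * e := by
    linarith
  have hn'0 : (0 : ℝ) < ((n / pm H J : ℕ) : ℝ) := by exact_mod_cast hn'1
  have hsq : ((n / pm H J : ℕ) : ℝ) ^ 2 ≤ 32 * ((pS T L : ℝ) ^ 2 + 1) * e := by
    have h1 : 8 * ((pS T L : ℝ) ^ 2 + 1) / ((n / pm H J : ℕ) : ℝ) ^ 2 * e =
        (8 * ((pS T L : ℝ) ^ 2 + 1) * e) / ((n / pm H J : ℕ) : ℝ) ^ 2 := by ring
    rw [h1, le_div_iff₀ (by positivity)] at hquarter
    linarith
  have hn2 : (n : ℝ) ≤ 2 * ((n / pm H J : ℕ) : ℝ) * (pm H J : ℝ) := by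
    have h1 := Nat.div_add_mod n (pm H J)
    have h2 := Nat.mod_lt n (show 0 < pm H J from hm1)
    have h3 : pm H J * 1 ≤ pm H J * (n / pm H J) := Nat.mul_le_mul_left _ hn'1
    have h4 : n ≤ 2 * (n / pm H J) * pm H J := by
      have h5 : 2 * (n / pm H J) * pm H J = 2 * (pm H J * (n / pm H J)) := by ring
      omega
    exact_mod_cast h4
  have hfin' : 4000 * (pm H J : ℝ) ^ 2 * ((pS T L : ℝ) ^ 2 + 1) ≤ (H : ℝ) ^ 2 * P := by
    exact_mod_cast hfin
  have hmain : (n : ℝ) ^ 2 ≤ e * (H : ℝ) ^ 2 * P := by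
    have h1 : (n : ℝ) ^ 2 ≤ (2 * ((n / pm H J : ℕ) : ℝ) * (pm H J : ℝ)) ^ 2 :=
      pow_le_pow_left₀ (Nat.cast_nonneg n) hn2 2
    have h2 : (2 * ((n / pm H J : ℕ) : ℝ) * (pm H J : ℝ)) ^ 2 =
        4 * (pm H J : ℝ) ^ 2 * ((n / pm H J : ℕ) : ℝ) ^ 2 := by ring
    have h3 : 4 * (pm H J : ℝ) ^ 2 * ((n / pm H J : ℕ) : ℝ) ^ 2 ≤
        4 * (pm H J : ℝ) ^ 2 * (32 * ((pS T L : ℝ) ^ 2 + 1) * e) :=
      mul_le_mul_of_nonneg_left hsq (by positivity)
    have h4 : 4 * (pm H J : ℝ) ^ 2 * (32 * ((pS T L : ℝ) ^ 2 + 1) * e) ≤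
        4000 * (pm H J : ℝ) ^ 2 * ((pS T L : ℝ) ^ 2 + 1) * e := by
      have h5 : 0 ≤ (pm H J : ℝ) ^ 2 * ((pS T L : ℝ) ^ 2 + 1) * e := by positivity
      nlinarith
    have h5 : 4000 * (pm H J : ℝ) ^ 2 * ((pS T L : ℝ) ^ 2 + 1) * e ≤ (H : ℝ) ^ 2 * P * e :=
      mul_le_mul_of_nonneg_right hfin' he0
    calc (n : ℝ) ^ 2 ≤ (H : ℝ) ^ 2 * P * e := by linarith
      _ = e * (H : ℝ) ^ 2 * P := by ring
  have h1 : (n : ENNReal) ^ 2 = ENNReal.ofReal ((n : ℝ) ^ 2) := by
    rw [ENNReal.ofReal_pow (Nat.cast_nonneg n), ENNReal.ofReal_natCast]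
  have h2 : ENNReal.ofReal (e * (H : ℝ) ^ 2 * P) =
      ENNReal.ofReal e * (H : ENNReal) ^ 2 * (P : ENNReal) := by
    rw [ENNReal.ofReal_mul (by positivity), ENNReal.ofReal_mul he0,
      ENNReal.ofReal_pow (Nat.cast_nonneg H), ENNReal.ofReal_natCast, ENNReal.ofReal_natCast]
  rw [h1]
  refine (ENNReal.ofReal_le_ofReal hmain).trans ?_
  rw [h2]
  gcongr
  exact le_self_add

end lower

/-! ### Main theorem -/

/-- There is a number `C` such that, for `n ≥ 2`, `H ≥ 1`, `L = ⌈log₂ (n (s+1) (J+1))⌉` and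
`d ≥ (C L) ^ (C (T+1))`, every probability distribution on circuits with `s` gates in `T` layers and
`H` step gates with at most `J` jumps, which answers Orthogonal Vectors correctly with probability
at least `2/3` on every valid input, satisfies
`n² ≤ (1 + expected number of two-sided gates) * H² * (C L) ^ (C (T+1))`. On the other hand there
are circuits which are correct on all inputs, with `n² d + n²` gates in two layers and one step
gate, and also with no two-sided gates at all and `2 n d` step gates. -/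
theorem result :
    (∃ C : ℕ, ∀ n d T s H J : ℕ, 2 ≤ n → 1 ≤ H →
      (C * Nat.clog 2 (n * (s + 1) * (J + 1))) ^ (C * (T + 1)) ≤ d →
      ∀ μ : PMF (Circuit n d T s H), (∀ A ∈ μ.support, ∀ r, IsStep J (A.step r)) →
        (∀ x : Input n d, IsValid x → (2 / 3 : ENNReal) ≤ μ.toOuterMeasure {A | A.CorrectOn x}) →
        (n : ENNReal) ^ 2 ≤ ((∑' A, μ A * (A.twoSided : ENNReal)) + 1) * (H : ENNReal) ^ 2 *
          (((C * Nat.clog 2 (n * (s + 1) * (J + 1))) ^ (C * (T + 1)) : ℕ) : ENNReal)) ∧
    (∀ n d : ℕ, ∃ A : Circuit n d 2 (n * n * d + n * n) 1,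
      (∀ r, IsStep 1 (A.step r)) ∧ ∀ x, A.CorrectOn x) ∧
    (∀ n d : ℕ, ∃ A : Circuit n d 1 (2 * n * d) (2 * n * d),
      (∀ r, IsStep 1 (A.step r)) ∧ A.twoSided = 0 ∧ ∀ x, A.CorrectOn x) :=
  ⟨lower, upper_pairs, upper_read⟩

end Pool.Agent.Results.MP_0f984e_lc.ConstantDepth
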