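import Pool.Agent.H58.OVPR.Det
import Pool.Agent.H58.OVAC.Embed

set_option autoImplicit false
set_option maxHeartbeats 4000000

namespace Pool.Agent.H58.Old.ConstantTimePRAM

/-! ### Orthogonal Vectors -/

/-- Positions of the `2n` input vectors: `(false, i)` is the `i`-th vector of `A`, and
`(true, j)` is the `j`-th vector of `B`. -/
abbrev Pos (n : ℕ) : Type := Bool × Fin n

/-- Vectors in `{0,1}^d`. -/
abbrev Vec (d : ℕ) : Type := Fin d → Bool

/-- An input: `n` vectors of `A` and `n` vectors of `B`, all in `{0,1}^d`. -/
abbrev Input (n d : ℕ) : Type := Pos n → Vec d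

/-- Valid inputs: each of the two sets is listed in strictly increasing lexicographic order (so
each consists of exactly `n` distinct vectors, written in the canonical order). -/
def IsValid {n d : ℕ} (x : Input n d) : Prop :=
  StrictMono (fun i : Fin n => toLex (x (false, i))) ∧
  StrictMono (fun j : Fin n => toLex (x (true, j)))

/-- The answer to the Orthogonal Vectors question: some vector of `A` and some vector of `B` have
inner product `0` over the integers. -/
def HasOrthogonalPair {n d : ℕ} (x : Input n d) : Prop :=
  ∃ i j : Fin n, ∑ k : Fin d, (x (false, i) k).toNat * (x (true, j) k).toNat = 0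

/-! ### Parallel random access machines -/

/-- The cells of the shared memory: one input cell for every input vector, and the cells
`0, 1, 2, ...`. -/
abbrev Cell (n : ℕ) : Type := Pos n ⊕ ℕ

/-- The content of a cell: a vector or a natural number. -/
abbrev Word (d : ℕ) : Type := Vec d ⊕ ℕ

/-- A parallel random access machine with `p` processors (for inputs of size `n, d`). In every
step every processor reads one cell of the shared memory, changes its local state, and may write
one word to one cell. Everything may depend in an arbitrary way on the time, on the number of the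
processor and on its local state (a natural number). -/
structure PRAM (n d p : ℕ) where
  /-- the cell which is read, given the time, the processor and its state -/
  read : ℕ → Fin p → ℕ → Cell n
  /-- the new state, given the time, the processor, its state and the word which was read -/
  next : ℕ → Fin p → ℕ → Word d → ℕ
  /-- the cell and the word written, if any, given the time, the processor and its new state -/
  write : ℕ → Fin p → ℕ → Option (Cell n × Word d)
  /-- the output cell -/
  output : Cell n
  /-- the contents of the output cell which mean acceptance -/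
  accept : Word d → Bool

variable {n d p : ℕ}

/-- A configuration: the states of the processors and the contents of the cells. -/
abbrev Config (n d p : ℕ) : Type := (Fin p → ℕ) × (Cell n → Word d)

/-- The new state of the processor `P`. -/
def PRAM.newState (A : PRAM n d p) (τ : ℕ) (z : Config n d p) (P : Fin p) : ℕ :=
  A.next τ P (z.1 P) (z.2 (A.read τ P (z.1 P)))

/-- The new content of the cell `c`: if some processors write to it, then the word of the one
with the least number, otherwise the old content. -/
def PRAM.newContent (A : PRAM n d p) (τ : ℕ) (z : Config n d p) (c : Cell n) : Word d :=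
  ((List.finRange p).findSome? fun P =>
    match A.write τ P (A.newState τ z P) with
    | some (c', w) => if c' = c then some w else none
    | none => none).getD (z.2 c)

/-- The configuration after the given number of steps on the input `x`: at the beginning all
states are `0`, the input cells contain the vectors and the other cells contain `0`. -/
def PRAM.run (A : PRAM n d p) (x : Input n d) : ℕ → Config n d p
  | 0 => (fun _ => 0, Sum.elim (fun q => Sum.inl (x q)) (fun _ => Sum.inr 0))
  | τ + 1 => (A.newState τ (A.run x τ), A.newContent τ (A.run x τ))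

/-- The machine accepts the input `x` in `T` steps. -/
def PRAM.Accepts (A : PRAM n d p) (T : ℕ) (x : Input n d) : Prop :=
  A.accept ((A.run x T).2 A.output) = true

/-- The machine answers the Orthogonal Vectors question correctly on input `x` in `T` steps. -/
def PRAM.CorrectOn (A : PRAM n d p) (T : ℕ) (x : Input n d) : Prop :=
  A.Accepts T x ↔ HasOrthogonalPair x

/-! ### The proof -/

open Pool.Agent.H58 Pool.Agent.H58.OVAC

/-- The machine in the notation of the helper files. -/
def PRAM.toMach (A : PRAM n d p) : OVPR.Mach p ((Bool × Fin n) ⊕ ℕ) ℕ (Word d) where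
  read := A.read
  next := A.next
  write := A.write

/-- The input given by strings. -/
def inp {k D : ℕ} (E : Pos n → OVAC.Str k D → Vec d) (y : Bool × Fin n → OVAC.Str k D) :
    Input n d := fun q => E q (y q)

theorem run_eq {k D : ℕ} (A : PRAM n d p) (E : Pos n → OVAC.Str k D → Vec d)
    (y : Bool × Fin n → OVAC.Str k D) (τ : ℕ) :
    A.run (inp E y) τ =
      A.toMach.run (OVPR.start 0 (Sum.inr 0) (fun q s => Sum.inl (E q s)) ℕ y) τ := by
  induction τ with
  | zero => rfl
  | succ τ ih =>
    show (A.newState τ (A.run (inp E y) τ), A.newContent τ (A.run (inp E y) τ)) = _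
    rw [ih]
    refine Prod.ext rfl ?_
    funext c
    show ((List.finRange p).findSome? _).getD _ = ((List.finRange p).findSome? _).getD _
    congr 2
    funext P
    show (match A.write τ P (A.newState τ _ P) with
      | some (c', w) => if c' = c then some w else none
      | none => none) = OVPR.item (A.write τ P (A.newState τ _ P)) c
    cases A.write τ P (A.newState τ _ P) with
    | none => rfl
    | some w => rfl

theorem inp_eq {k D : ℕ} (E : Pos n → OVAC.Str k D → Vec d) (y : Bool × Fin n → OVAC.Str k D) :
    inp E y = OVAC.tst E (fun i => y (false, i)) (fun j => y (true, j)) := by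
  funext q
  obtain ⟨b, i⟩ := q
  cases b <;> rfl

theorem pr_off {k D : ℕ} (hk : 2 ≤ k) (i j : Fin n) :
    pr (fun y : Bool × Fin n → OVAC.Str k D => Off (y (false, i)) (y (true, j))) =
      (((k : ℝ) - 1) / k) ^ D := by
  classical
  have hne : Nonempty (OVAC.Str k D) := ⟨fun _ => ⟨0, by omega⟩⟩
  have hk' : (2 : ℝ) ≤ k := by exact_mod_cast hk
  rw [← pr_mix {(false, i)} fun y : Bool × Fin n → OVAC.Str k D =>
    Off (y (false, i)) (y (true, j))]
  have h1 : ∀ u : Bool × Fin n → OVAC.Str k D, (pr fun v : Bool × Fin n → OVAC.Str k D =>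
      Off (mix {(false, i)} u v (false, i)) (mix {(false, i)} u v (true, j))) =
      (((k : ℝ) - 1) / k) ^ D := by
    intro u
    have h2 : (pr fun v : Bool × Fin n → OVAC.Str k D =>
        Off (mix {(false, i)} u v (false, i)) (mix {(false, i)} u v (true, j))) =
        pr fun v : Bool × Fin n → OVAC.Str k D => Off (u (false, i)) (v (true, j)) := by
      refine pr_congr fun v => ?_
      simp [mix]
    rw [h2, OVPR.pr_coord (true, j) fun s : OVAC.Str k D => Off (u (false, i)) s]
    unfold pr av
    have h3 := count_off' (k := k) (D := D) (by omega) (u (false, i))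
    have h4 : (∑ s : OVAC.Str k D, @ite ℝ (Off (u (false, i)) s)
        (Classical.propDecidable _) 1 0) = ((k : ℝ) - 1) ^ D := by
      rw [← h3]
      exact Finset.sum_congr rfl fun s _ => by congr
    rw [h4, div_pow]
    simp
  rw [av_congr h1]
  exact av_const _

/-- **The Orthogonal Vectors hypothesis for constant time parallel machines.** -/
theorem result : ∀ ε : ℝ, 0 < ε → ∃ K : ℕ, ∀ T : ℕ, ∃ n₀ : ℕ, ∀ n d p : ℕ, n₀ ≤ n →
    K * Nat.clog 2 n ≤ d → ∀ μ : PMF (PRAM n d p),
      (∀ x : Input n d, IsValid x →
        (2 / 3 : ENNReal) ≤ μ.toOuterMeasure {A | A.CorrectOn T x}) →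
      (n : ℝ) ^ (2 - ε) ≤ p := by
  classical
  intro ε hε
  obtain ⟨k, hk, hdet'⟩ := OVPR.det ε hε
  refine ⟨7 * k ^ 2 + 2, fun T => ?_⟩
  obtain ⟨n₀, hdet⟩ := hdet' T
  refine ⟨max n₀ 2, ?_⟩
  intro n d p hn hd μ hμ
  by_contra hp
  push Not at hp
  have hn2 : 2 ≤ n := (le_max_right _ _).trans hn
  have hk' : (2 : ℝ) ≤ k := by exact_mod_cast hk
  have hk0 : (0 : ℝ) < k := by linarith
  obtain ⟨code, hcode⟩ := exists_code (n := n) (m := Nat.clog 2 n)
    (Nat.le_pow_clog (by norm_num) n)
  have hl : 1 ≤ Nat.clog 2 n := Nat.clog_pos (by norm_num) hn2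
  have hnl : (n : ℝ) ≤ 2 ^ Nat.clog 2 n := by exact_mod_cast Nat.le_pow_clog (by norm_num) n
  generalize Nat.clog 2 n = l at code hcode hl hnl hd
  obtain ⟨D, hD⟩ : ∃ D, D = k * (2 * l + 5) := ⟨_, rfl⟩
  have hd' : 2 * l + D * k ≤ d := by
    refine le_trans ?_ hd
    rw [hD]
    nlinarith [Nat.zero_le (k ^ 2), mul_le_mul_right hl (k ^ 2)]
  let E : Pos n → OVAC.Str k D → Vec d := emb d code
  have hval : ∀ y, IsValid (inp E y) := by
    intro y
    rw [inp_eq]
    exact emb_valid hd' code hcode _ _
  have horth : ∀ y, HasOrthogonalPair (inp E y) ↔ ∃ i j, Off (y (false, i)) (y (true, j)) := by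
    intro y
    rw [inp_eq]
    exact exists_congr fun i => exists_congr fun j => emb_orthogonal hd' code _ _ i j
  have hne : Nonempty (OVAC.Str k D) := ⟨fun _ => ⟨0, by omega⟩⟩
  have hneT : Nonempty (OVPR.Test n k D) := by
    refine ⟨(fun _ => hne.some, (⟨0, by omega⟩, ⟨0, by omega⟩), ⟨(fun _ => ⟨0, by omega⟩,
      fun _ => ⟨1, by omega⟩), fun c h => ?_⟩)⟩
    simp at h
  have hplant : ∀ τ : OVPR.Test n k D, HasOrthogonalPair (inp E τ.y) := by
    intro τ
    rw [horth]
    refine ⟨τ.2.1.1, τ.2.1.2, ?_⟩
    have h1 : τ.y (false, τ.2.1.1) = τ.2.2.1.1 := by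
      simp [OVPR.Test.y, OVPR.yAB]
    have h2 : τ.y (true, τ.2.1.2) = τ.2.2.1.2 := by
      simp [OVPR.Test.y, OVPR.yAB]
    rw [h1, h2]
    exact τ.2.2.2
  -- averaging
  obtain ⟨A, -, hA⟩ := OVPR.yao μ (fun A (τ : OVPR.Test n k D) => ¬ A.Accepts T (inp E τ.y))
    (fun A (y : Bool × Fin n → OVAC.Str k D) => A.Accepts T (inp E y)) (fun _ => 1 / 3)
    (fun y => if ∃ i j, Off (y (false, i)) (y (true, j)) then 1 else 1 / 3)
    (fun _ => by norm_num) (fun y => by split_ifs <;> norm_num)
    (by
      intro τ
      refine le_trans (μ.toOuterMeasure.mono ?_) (OVPR.compl_le μ _ (hμ _ (hval τ.y)))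
      intro A hA hcor
      exact hA (hcor.2 (hplant τ)))
    (by
      intro y
      by_cases h : ∃ i j, Off (y (false, i)) (y (true, j))
      · rw [if_pos h]
        exact OVPR.le_one μ _
      · rw [if_neg h]
        refine le_trans (μ.toOuterMeasure.mono ?_) (OVPR.compl_le μ _ (hμ _ (hval y)))
        intro A hA hcor
        exact h ((horth y).1 (hcor.1 hA)))
  -- random inputs rarely have orthogonal pairs
  have hp0 : pr (fun y : Bool × Fin n → OVAC.Str k D =>
      ∃ i j, Off (y (false, i)) (y (true, j))) ≤ 1 / 32 := by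
    have h1 : pr (fun y : Bool × Fin n → OVAC.Str k D =>
        ∃ i j, Off (y (false, i)) (y (true, j))) ≤
        ∑ z ∈ (Finset.univ : Finset (Fin n × Fin n)),
          pr (fun y : Bool × Fin n → OVAC.Str k D => Off (y (false, z.1)) (y (true, z.2))) := by
      refine le_trans (pr_mono fun y hy => ?_) (pr_exists_le _ _)
      obtain ⟨i, j, hij⟩ := hy
      exact ⟨(i, j), Finset.mem_univ _, hij⟩
    refine h1.trans ?_
    simp only [pr_off hk]
    rw [Finset.sum_const, Finset.card_univ, Fintype.card_prod, Fintype.card_fin, nsmul_eq_mul]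
    have h2 : (((k : ℝ) - 1) / k) ^ k ≤ 1 / 2 := by
      have := one_sub_inv_pow_le k (by omega)
      have h3 : ((k : ℝ) - 1) / k = 1 - 1 / k := by field_simp
      rw [h3]
      exact this
    have h3 : (((k : ℝ) - 1) / k) ^ D ≤ (1 / 2) ^ (2 * l + 5) := by
      rw [hD, pow_mul]
      exact pow_le_pow_left₀ (pow_nonneg (div_nonneg (by linarith) hk0.le) _) h2 _
    have h4 : (n : ℝ) ^ 2 ≤ 2 ^ (2 * l) := by
      calc (n : ℝ) ^ 2 ≤ (2 ^ l) ^ 2 := pow_le_pow_left₀ (Nat.cast_nonneg n) hnl 2
        _ = 2 ^ (2 * l) := by rw [← pow_mul, mul_comm]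
    calc ((n * n : ℕ) : ℝ) * (((k : ℝ) - 1) / k) ^ D ≤ 2 ^ (2 * l) * (1 / 2) ^ (2 * l + 5) := by
          apply mul_le_mul _ h3 (pow_nonneg (div_nonneg (by linarith) hk0.le) _) (by positivity)
          push_cast
          rw [← sq]
          exact h4
      _ = (2 * (1 / 2)) ^ (2 * l) * (1 / 32) := by
          rw [pow_add, mul_pow]
          ring
      _ = 1 / 32 := by norm_num
  have hb : (av fun y : Bool × Fin n → OVAC.Str k D =>
      if ∃ i j, Off (y (false, i)) (y (true, j)) then (1 : ℝ) else 1 / 3) ≤ 1 / 3 + 1 / 32 := by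
    have h1 : (av fun y : Bool × Fin n → OVAC.Str k D =>
        if ∃ i j, Off (y (false, i)) (y (true, j)) then (1 : ℝ) else 1 / 3) ≤
        av fun y : Bool × Fin n → OVAC.Str k D => 1 / 3 +
          (if ∃ i j, Off (y (false, i)) (y (true, j)) then (1 : ℝ) else 0) := by
      refine av_mono fun y => ?_
      split_ifs <;> norm_num
    refine h1.trans ?_
    rw [av_add, av_const]
    refine add_le_add_right (le_of_eq_of_le ?_ hp0) _
    unfold pr
    exact av_congr fun y => by congr
  rw [av_const] at hA
  -- the deterministic bound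
  have h5 := hdet n ((le_max_left _ _).trans hn) D p ℕ (Word d) A.toMach 0 (Sum.inr 0)
    (fun q s => Sum.inl (E q s)) hp A.output A.accept
  have h6 : pr (fun τ : OVPR.Test n k D => ¬ A.Accepts T (inp E τ.y)) =
      1 - pr (fun τ : OVPR.Test n k D => A.accept ((A.toMach.run
        (OVPR.start 0 (Sum.inr 0) (fun q s => Sum.inl (E q s)) ℕ τ.y) T).2 A.output) = true) := by
    rw [pr_not]
    congr 1
    refine pr_congr fun τ => ?_
    unfold PRAM.Accepts
    rw [run_eq]
  have h7 : pr (fun y : Bool × Fin n → OVAC.Str k D => A.Accepts T (inp E y)) =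
      pr (fun y : Bool × Fin n → OVAC.Str k D => A.accept ((A.toMach.run
        (OVPR.start 0 (Sum.inr 0) (fun q s => Sum.inl (E q s)) ℕ y) T).2 A.output) = true) := by
    refine pr_congr fun y => ?_
    unfold PRAM.Accepts
    rw [run_eq]
  rw [h6, h7] at hA
  linarith

end Pool.Agent.H58.Old.ConstantTimePRAM
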