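import Mathlib

set_option autoImplicit false

namespace Pool.Agent.Results.MP_0f984e_lc.HybridMachines

/-! ### Orthogonal Vectors -/

/-- Positions of the `2n` input vectors: `(false, i)` is the `i`-th vector of `A`, and
`(true, j)` is the `j`-th vector of `B`. -/
abbrev Pos (n : ℕ) : Type := Bool × Fin n

/-- Vectors in `{0,1}^d`. -/
abbrev Vec (d : ℕ) : Type := Fin d → Bool

/-- An input: `n` vectors of `A` and `n` vectors of `B`, all in `{0,1}^d`. -/
abbrev Input (n d : ℕ) : Type := Pos n → Vec d

/-- Valid inputs: each of the two sets is listed in strictly increasing lexicographic order (so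
each consists of exactly `n` distinct vectors, written in the canonical order). -/
def IsValid {n d : ℕ} (x : Input n d) : Prop :=
  StrictMono (fun i : Fin n => toLex (x (false, i))) ∧
  StrictMono (fun j : Fin n => toLex (x (true, j)))

/-- The answer to the Orthogonal Vectors question: some vector of `A` and some vector of `B` have
inner product `0` over the integers. -/
def HasOrthogonalPair {n d : ℕ} (x : Input n d) : Prop :=
  ∃ i j : Fin n, ∑ k : Fin d, (x (false, i) k).toNat * (x (true, j) k).toNat = 0

/-! ### Machines -/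

/-- A view, which consists of `looks` whole vectors `y 0, y 1, ...` of the input `x`, those at the
positions `pos 0, pos 1, ...`, and of one real number: the sum of arbitrary real functions
`vec p y (x p)` over all positions `p` plus an arbitrary real linear combination of the results
of the routines `0, 1, 2, ...` (see below) with the coefficients `weight 0, weight 1, ...`. -/
structure View (n d : ℕ) where
  /-- the number of whole vectors which are looked at -/
  looks : ℕ
  /-- the positions of these vectors -/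
  pos : Fin looks → Pos n
  /-- the function of these vectors and of the vector at `p` -/
  vec : Pos n → (Fin looks → Vec d) → Vec d → ℝ
  /-- the coefficients of the results of the earlier routines -/
  weight : ℕ → ℝ

/-- A routine is a branching program with `size` inner nodes and `ends` ends. The inner node `v`
has the view `view v`, evaluates a function `query v` of it with `outcomes v` possible values, and
moves, according to the value, to an inner node or to an end. Cycles are allowed. At the end `e`
the result of the routine is the real number `act e` of the view `endView e`. -/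
structure Routine (n d : ℕ) where
  /-- the number of inner nodes -/
  size : ℕ
  /-- the number of ends -/
  ends : ℕ
  /-- the view of each inner node -/
  view : Fin size → View n d
  /-- the number of possible values of the function which is evaluated -/
  outcomes : Fin size → ℕ
  /-- the function which is evaluated -/
  query : (v : Fin size) → (Fin (view v).looks → Vec d) → ℝ → Fin (outcomes v)
  /-- the next inner node, or an end -/
  next : (v : Fin size) → Fin (outcomes v) → Fin size ⊕ Fin ends
  /-- the start: an inner node, or an end -/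
  start : Fin size ⊕ Fin ends
  /-- the view of each end -/
  endView : Fin ends → View n d
  /-- the result in each end -/
  act : (e : Fin ends) → (Fin (endView e).looks → Vec d) → ℝ → ℝ

/-- A machine: the routines `0, 1, ..., last`. -/
structure Machine (n d : ℕ) where
  /-- the number of the last routine -/
  last : ℕ
  /-- the routines -/
  routine : ℕ → Routine n d

variable {n d : ℕ}

/-- The whole vectors which are looked at, on input `x`. -/
def View.look (V : View n d) (x : Input n d) : Fin V.looks → Vec d := fun l => x (V.pos l)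

/-- The real number of a view, on input `x`, if the routines `t < u` have the results `r t`. -/
def View.real (V : View n d) (x : Input n d) {u : ℕ} (r : Fin u → ℝ) : ℝ :=
  ∑ p, V.vec p (V.look x) (x p) + ∑ t : Fin u, V.weight t * r t

/-- The value computed at the inner node `v`. -/
def Routine.answer (P : Routine n d) (x : Input n d) {u : ℕ} (r : Fin u → ℝ) (v : Fin P.size) :
    Fin (P.outcomes v) :=
  P.query v ((P.view v).look x) ((P.view v).real x r)

/-- One step of the computation of a routine; ends are final. -/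
def Routine.step (P : Routine n d) (x : Input n d) {u : ℕ} (r : Fin u → ℝ) :
    Fin P.size ⊕ Fin P.ends → Fin P.size ⊕ Fin P.ends
  | Sum.inl v => P.next v (P.answer x r v)
  | Sum.inr e => Sum.inr e

/-- The computation of the routine reaches the end `e` (there is at most one such end). -/
def Routine.Reaches (P : Routine n d) (x : Input n d) {u : ℕ} (r : Fin u → ℝ)
    (e : Fin P.ends) : Prop :=
  ∃ t : ℕ, (P.step x r)^[t] P.start = Sum.inr e

open Classical in
/-- The result of a routine: `act e` of the view of the end `e` which is reached, and `0` if the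
computation is endless. -/
noncomputable def Routine.value (P : Routine n d) (x : Input n d) {u : ℕ} (r : Fin u → ℝ) : ℝ :=
  ∑ e, if P.Reaches x r e then P.act e ((P.endView e).look x) ((P.endView e).real x r) else 0

/-- The result of the routine `u` of a machine on input `x`; routine `u` may use the results of
the routines `t < u`. -/
noncomputable def Machine.result (M : Machine n d) (x : Input n d) (u : ℕ) : ℝ :=
  (M.routine u).value x fun t : Fin u => M.result x t
termination_by u
decreasing_by exact t.2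

/-- The machine accepts iff the result of its last routine is positive, and it answers the
Orthogonal Vectors question correctly on input `x` if it accepts iff there is an orthogonal
pair. -/
def Machine.CorrectOn (M : Machine n d) (x : Input n d) : Prop :=
  0 < M.result x M.last ↔ HasOrthogonalPair x

/-- A step function with at most `J` jumps: it is constant on every closed interval which avoids
a certain set of at most `J` numbers. -/
def IsStep {α : Type} (J : ℕ) (f : ℝ → α) : Prop :=
  ∃ D : Finset ℝ, D.card ≤ J ∧ ∀ a b, a ≤ b → (∀ y ∈ D, y < a ∨ b < y) → f a = f b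

/-- All functions `query v y` and `act e y` of a machine are step functions with at most `J`
jumps. -/
def Machine.Steps (M : Machine n d) (J : ℕ) : Prop :=
  ∀ u ≤ M.last, (∀ v y, IsStep J ((M.routine u).query v y)) ∧
    ∀ e y, IsStep J ((M.routine u).act e y)

/-- The view `V`, which belongs to the routine `u`, sees the position `p`: it looks at `p`, or
its function of the vector at `p` is not constant (for some vectors `y` which are looked at), or it
uses, with a nonzero coefficient, the result of an earlier routine of which some inner node or end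
has a view which sees `p`. -/
def Machine.Sees (M : Machine n d) (p : Pos n) (u : ℕ) (V : View n d) : Prop :=
  (∃ l, V.pos l = p) ∨ (∃ y a a', V.vec p y a ≠ V.vec p y a') ∨
  ∃ t : Fin u, V.weight t ≠ 0 ∧ ((∃ v, M.Sees p t ((M.routine t).view v)) ∨
    ∃ e, M.Sees p t ((M.routine t).endView e))
termination_by u
decreasing_by all_goals exact t.2

/-- The routine `u` sees the position `p`: the view of one of its inner nodes or ends does. -/
def Machine.RoutineSees (M : Machine n d) (p : Pos n) (u : ℕ) : Prop :=
  (∃ v, M.Sees p u ((M.routine u).view v)) ∨ ∃ e, M.Sees p u ((M.routine u).endView e)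

/-- The cost of a machine: every inner node costs `looks + outcomes + K` for each position which
its view sees, and every end costs `looks + K` for each position which its routine sees. -/
noncomputable def Machine.cost (M : Machine n d) (K : ℕ) : ℕ :=
  ∑ u : Fin (M.last + 1),
    (∑ v, (((M.routine u).view v).looks + (M.routine u).outcomes v + K) *
        Nat.card {p // M.Sees p u ((M.routine u).view v)} +
      ∑ e, (((M.routine u).endView e).looks + K) * Nat.card {p // M.RoutineSees p u})

/-! ### Computations on a graph and their restriction to some nodes -/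

section graph

variable {N L α β : Type} {R : N → ℕ}

/-- One step of a computation with the answers `ans`. -/
def gstep (next : (v : N) → Fin (R v) → N ⊕ L) (ans : (v : N) → Fin (R v)) : N ⊕ L → N ⊕ L
  | Sum.inl v => next v (ans v)
  | Sum.inr e => Sum.inr e

open Classical in
/-- The step which stops at the labelled nodes. -/
noncomputable def skipStep (next : (v : N) → Fin (R v) → N ⊕ L) (lab : N → Option α)
    (ans : (v : N) → Fin (R v)) : N ⊕ L → N ⊕ L
  | Sum.inl v => if (lab v).isSome then Sum.inl v else next v (ans v)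
  | Sum.inr e => Sum.inr e

/-- The label of a labelled node or of an end. -/
def toStop (lab : N → Option α) (labE : L → β) : N ⊕ L → Option (α ⊕ β)
  | Sum.inl v => (lab v).map Sum.inl
  | Sum.inr e => some (Sum.inr (labE e))

open Classical in
/-- Follow the computation until a labelled node or an end is reached. -/
noncomputable def skip (next : (v : N) → Fin (R v) → N ⊕ L) (lab : N → Option α) (labE : L → β)
    (ans : (v : N) → Fin (R v)) (w : N ⊕ L) : Option (α ⊕ β) :=
  if h : ∃ t, (toStop lab labE ((skipStep next lab ans)^[t] w)).isSome then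
    toStop lab labE ((skipStep next lab ans)^[Nat.find h] w) else none

theorem iterate_gstep_inr (next : (v : N) → Fin (R v) → N ⊕ L) (ans : (v : N) → Fin (R v))
    (e : L) (t : ℕ) : (gstep next ans)^[t] (Sum.inr e) = Sum.inr e := by
  induction t with
  | zero => rfl
  | succ t ih => rw [Function.iterate_succ_apply']; rw [ih]; rfl

theorem toStop_inj (lab : N → Option α) (labE : L → β)
    (hlab : ∀ v v' a, lab v = some a → lab v' = some a → v = v')
    (hlabE : Function.Injective labE) {z z' : N ⊕ L} {σ : α ⊕ β}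
    (h : toStop lab labE z = some σ) (h' : toStop lab labE z' = some σ) : z = z' := by
  rcases z with v | b <;> rcases z' with v' | b'
  · simp only [toStop, Option.map_eq_some_iff] at h h'
    obtain ⟨a, ha, ha2⟩ := h
    obtain ⟨a', ha', ha2'⟩ := h'
    rw [← ha2'] at ha2
    have : a = a' := Sum.inl.inj ha2
    subst this
    rw [hlab v v' a ha ha']
  · simp only [toStop, Option.map_eq_some_iff] at h h'
    obtain ⟨a, ha, ha2⟩ := h
    rw [← ha2] at h'
    simp at h'
  · simp only [toStop, Option.map_eq_some_iff] at h h'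
    obtain ⟨a, ha, ha2⟩ := h'
    rw [← ha2] at h
    simp at h
  · simp only [toStop] at h h'
    rw [← h'] at h
    rw [hlabE (Sum.inr.inj (Option.some.inj h))]

theorem skip_congr (next : (v : N) → Fin (R v) → N ⊕ L) (lab : N → Option α) (labE : L → β)
    {ans ans' : (v : N) → Fin (R v)} (h : ∀ v, lab v = none → ans v = ans' v) :
    skip next lab labE ans = skip next lab labE ans' := by
  have h1 : skipStep next lab ans = skipStep next lab ans' := by
    funext w
    rcases w with v | b
    · by_cases hv : (lab v).isSome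
      · simp [skipStep, hv]
      · have h1 : lab v = none := by simpa using hv
        simp [skipStep, h1, h v h1]
    · rfl
  unfold skip
  rw [h1]

theorem iterate_gstep_eq (next : (v : N) → Fin (R v) → N ⊕ L) (lab : N → Option α)
    (labE : L → β) (ans : (v : N) → Fin (R v)) (w : N ⊕ L) (t : ℕ)
    (h : ∀ i < t, ¬ (toStop lab labE ((skipStep next lab ans)^[i] w)).isSome) :
    (gstep next ans)^[t] w = (skipStep next lab ans)^[t] w := by
  induction t with
  | zero => rfl
  | succ t ih =>
    rw [Function.iterate_succ_apply', Function.iterate_succ_apply', ih (fun i hi => h i (by omega))]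
    have hk := h t (by omega)
    generalize (skipStep next lab ans)^[t] w = z at hk
    rcases z with v | b
    · by_cases hv : (lab v).isSome
      · simp [toStop, hv] at hk
      · simp [gstep, skipStep, hv]
    · simp [toStop] at hk

theorem skip_spec (next : (v : N) → Fin (R v) → N ⊕ L) (lab : N → Option α) (labE : L → β)
    (ans : (v : N) → Fin (R v)) (w : N ⊕ L) {σ : α ⊕ β} (h : skip next lab labE ans w = some σ) :
    ∃ t, toStop lab labE ((gstep next ans)^[t] w) = some σ := by
  classical
  unfold skip at h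
  split_ifs at h with hex
  have h1 := iterate_gstep_eq next lab labE ans w (Nat.find hex)
    (fun i hi => Nat.find_min hex hi)
  exact ⟨_, by rw [h1]; exact h⟩

theorem reach_aux (next : (v : N) → Fin (R v) → N ⊕ L) (lab : N → Option α) (labE : L → β)
    (hlab : ∀ v v' a, lab v = some a → lab v' = some a → v = v')
    (hlabE : Function.Injective labE) (ans ans' : (v : N) → Fin (R v))
    (hans : ∀ v, (lab v).isSome → ans v = ans' v)
    (hnext : ∀ v, (lab v).isSome → ∀ r,
      skip next lab labE ans (next v r) = skip next lab labE ans' (next v r)) (e : L) :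
    ∀ (t : ℕ) (w w' : N ⊕ L), skip next lab labE ans w = skip next lab labE ans' w' →
      (gstep next ans)^[t] w = Sum.inr e → ∃ t', (gstep next ans')^[t'] w' = Sum.inr e := by
  classical
  intro t
  induction t using Nat.strong_induction_on with
  | _ t ih =>
    intro w w' hww ht
    have hex : ∃ s, (toStop lab labE ((skipStep next lab ans)^[s] w)).isSome := by
      by_contra hcon
      push Not at hcon
      have h1 := iterate_gstep_eq next lab labE ans w t (fun i _ => hcon i)
      have h2 := hcon t
      rw [← h1, ht] at h2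
      simp [toStop] at h2
    have hkt : Nat.find hex ≤ t := by
      by_contra hcon
      rw [not_le] at hcon
      have h1 := iterate_gstep_eq next lab labE ans w t
        (fun i hi => Nat.find_min hex (hi.trans hcon))
      have h2 := Nat.find_min hex hcon
      rw [← h1, ht] at h2
      simp [toStop] at h2
    have hgk := iterate_gstep_eq next lab labE ans w (Nat.find hex)
      (fun i hi => Nat.find_min hex hi)
    obtain ⟨σ, hσ⟩ := Option.isSome_iff_exists.1 (Nat.find_spec hex)
    have hskip : skip next lab labE ans w = some σ := by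
      unfold skip
      rw [dif_pos hex]
      exact hσ
    rw [hskip] at hww
    obtain ⟨k', hk2⟩ := skip_spec next lab labE ans' w' hww.symm
    set s := Nat.find hex with hs
    rw [← hgk] at hσ
    have hzz := toStop_inj lab labE hlab hlabE hσ hk2
    obtain ⟨u, rfl⟩ := Nat.exists_eq_add_of_le hkt
    rw [add_comm, Function.iterate_add_apply] at ht
    rcases hz : (gstep next ans)^[s] w with v | c
    · -- a labelled node
      rw [hz] at ht hzz hσ
      have hv : (lab v).isSome := by
        rcases hl : lab v with _ | a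
        · simp [toStop, hl] at hσ
        · simp
      rcases u with _ | u
      · simp at ht
      · rw [Function.iterate_succ_apply] at ht
        have hstep : gstep next ans (Sum.inl v) = next v (ans v) := rfl
        rw [hstep] at ht
        obtain ⟨t', ht'⟩ := ih u (by omega) _ _ (hnext v hv (ans v)) ht
        refine ⟨t' + (k' + 1), ?_⟩
        rw [Function.iterate_add_apply, Function.iterate_succ_apply', ← hzz]
        have hstep' : gstep next ans' (Sum.inl v) = next v (ans' v) := rfl
        rw [hstep', ← hans v hv]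
        exact ht'
    · rw [hz, iterate_gstep_inr] at ht
      rw [hz, ht] at hzz
      exact ⟨k', hzz.symm⟩

end graph

theorem Routine.step_eq (P : Routine n d) (x : Input n d) {u : ℕ} (r : Fin u → ℝ) :
    P.step x r = gstep P.next (P.answer x r) := by
  funext w
  rcases w with v | b <;> rfl

/-! ### Step functions with an offset -/

theorem exists_idx {Z α : Type} [Fintype Z] {J : ℕ} (f : Z → ℝ → α) (hf : ∀ z, IsStep J (f z))
    (h : Z → ℝ) : ∃ idx : ℝ → Fin (2 * (J * Fintype.card Z) + 1),
      ∀ c c', idx c = idx c' → ∀ z, f z (c + h z) = f z (c' + h z) := by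
  classical
  choose D hD1 hD2 using hf
  let S : Finset ℝ := Finset.univ.biUnion fun z => (D z).image fun y => y - h z
  have hS : S.card ≤ J * Fintype.card Z := by
    calc S.card ≤ ∑ z : Z, ((D z).image fun y => y - h z).card := Finset.card_biUnion_le
      _ ≤ ∑ _z : Z, J := Finset.sum_le_sum fun z _ => Finset.card_image_le.trans (hD1 z)
      _ = J * Fintype.card Z := by rw [Finset.sum_const, Finset.card_univ, smul_eq_mul, mul_comm]
  let L : ℝ → ℕ := fun c => (S.filter fun y => y < c).card
  let L' : ℝ → ℕ := fun c => (S.filter fun y => y ≤ c).card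
  have hL : ∀ c, L c ≤ S.card := fun c => Finset.card_filter_le _ _
  have hL' : ∀ c, L' c ≤ S.card := fun c => Finset.card_filter_le _ _
  have key : ∀ c c', c ≤ c' → L c + L' c = L c' + L' c' →
      ∀ z, f z (c + h z) = f z (c' + h z) := by
    intro c c' hcc0 hLL z
    rcases hcc0.eq_or_lt with rfl | hlt
    · rfl
    have hcc : c ≤ c' := hlt.le
    have hsub1 : (S.filter fun y => y < c) ⊆ S.filter fun y => y < c' := by
      intro y hy
      simp only [Finset.mem_filter] at hy ⊢
      exact ⟨hy.1, lt_of_lt_of_le hy.2 hcc⟩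
    have hsub2 : (S.filter fun y => y ≤ c) ⊆ S.filter fun y => y ≤ c' := by
      intro y hy
      simp only [Finset.mem_filter] at hy ⊢
      exact ⟨hy.1, hy.2.trans hcc⟩
    have h1 : L c ≤ L c' := Finset.card_le_card hsub1
    have h2 : L' c ≤ L' c' := Finset.card_le_card hsub2
    have e1 := Finset.eq_of_subset_of_card_le hsub1 (by
      show L c' ≤ L c
      omega)
    have e2 := Finset.eq_of_subset_of_card_le hsub2 (by
      show L' c' ≤ L' c
      omega)
    refine hD2 z _ _ (by linarith) ?_
    intro y hy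
    have hyS : y - h z ∈ S :=
      Finset.mem_biUnion.2 ⟨z, Finset.mem_univ _, Finset.mem_image.2 ⟨y, hy, rfl⟩⟩
    by_contra hcon
    rw [not_or, not_lt, not_lt] at hcon
    have h3 : y - h z ≤ c' := by linarith [hcon.2]
    have h4 : c ≤ y - h z := by linarith [hcon.1]
    have h5 : y - h z ∈ S.filter fun y => y ≤ c := by
      rw [e2]
      exact Finset.mem_filter.2 ⟨hyS, h3⟩
    have h6 : y - h z ≤ c := (Finset.mem_filter.1 h5).2
    have h7 : y - h z = c := le_antisymm h6 h4
    have h9 : y - h z ∈ S.filter fun y => y < c := by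
      rw [e1]
      exact Finset.mem_filter.2 ⟨hyS, by linarith⟩
    exact absurd (Finset.mem_filter.1 h9).2 (by linarith)
  refine ⟨fun c => ⟨L c + L' c, by
    have := hL c
    have := hL' c
    omega⟩, ?_⟩
  intro c c' hcc
  have hcc' : L c + L' c = L c' + L' c' := by simpa [Fin.ext_iff] using hcc
  rcases le_total c c' with h1 | h1
  · exact key c c' h1 hcc'
  · intro z
    exact (key c' c h1 hcc'.symm z).symm

open Classical in
/-- A code of the offset `c` which determines `z ↦ f z (c + h z)`. -/
noncomputable def idxOf {Z α : Type} [Fintype Z] (J : ℕ) (f : Z → ℝ → α) (h : Z → ℝ) (c : ℝ) :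
    Fin (2 * (J * Fintype.card Z) + 1) :=
  if hf : ∀ z, IsStep J (f z) then (exists_idx f hf h).choose c else 0

theorem idxOf_spec {Z α : Type} [Fintype Z] {J : ℕ} {f : Z → ℝ → α} (hf : ∀ z, IsStep J (f z))
    (h : Z → ℝ) {c c' : ℝ} (e : idxOf J f h c = idxOf J f h c') (z : Z) :
    f z (c + h z) = f z (c' + h z) := by
  unfold idxOf at e
  rw [dif_pos hf, dif_pos hf] at e
  exact (exists_idx f hf h).choose_spec c c' e z

/-! ### The results depend only on the positions which are seen -/

theorem Machine.result_eq (M : Machine n d) (x : Input n d) (u : ℕ) :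
    M.result x u = (M.routine u).value x fun t : Fin u => M.result x t := by
  rw [Machine.result]

theorem Machine.sees_iff (M : Machine n d) (p : Pos n) (u : ℕ) (V : View n d) :
    M.Sees p u V ↔ (∃ l, V.pos l = p) ∨ (∃ y a a', V.vec p y a ≠ V.vec p y a') ∨
      ∃ t : Fin u, V.weight t ≠ 0 ∧ M.RoutineSees p t := by
  rw [Machine.Sees]
  rfl

theorem Machine.look_congr (M : Machine n d) {x y : Input n d} (u : ℕ) (V : View n d)
    (h : ∀ p, M.Sees p u V → x p = y p) : V.look x = V.look y := by
  funext l
  exact h _ ((M.sees_iff _ u V).2 (Or.inl ⟨l, rfl⟩))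

theorem Machine.real_congr (M : Machine n d) {x y : Input n d} (u : ℕ) (V : View n d)
    (h : ∀ p, M.Sees p u V → x p = y p)
    (ih : ∀ t < u, (∀ p, M.RoutineSees p t → x p = y p) → M.result x t = M.result y t) :
    V.real x (fun t : Fin u => M.result x t) = V.real y (fun t : Fin u => M.result y t) := by
  unfold View.real
  rw [M.look_congr u V h]
  congr 1
  · apply Finset.sum_congr rfl
    intro p _
    by_contra hcon
    apply hcon
    rw [h p ((M.sees_iff p u V).2 (Or.inr (Or.inl ⟨_, _, _, hcon⟩)))]
  · apply Finset.sum_congr rfl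
    intro t _
    by_cases ht : V.weight t = 0
    · rw [ht, zero_mul, zero_mul]
    · show V.weight t * M.result x t = V.weight t * M.result y t
      rw [ih t t.2 fun p hp => h p ((M.sees_iff p u V).2 (Or.inr (Or.inr ⟨t, ht, hp⟩)))]

theorem Routine.value_congr (P : Routine n d) {x y : Input n d} {u : ℕ} {r r' : Fin u → ℝ}
    (h : ∀ e, P.Reaches x r e ↔ P.Reaches y r' e)
    (he : ∀ e, P.act e ((P.endView e).look x) ((P.endView e).real x r) =
      P.act e ((P.endView e).look y) ((P.endView e).real y r')) : P.value x r = P.value y r' := by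
  unfold Routine.value
  apply Finset.sum_congr rfl
  intro e _
  rw [he]
  by_cases hs : P.Reaches x r e
  · rw [if_pos hs, if_pos ((h e).1 hs)]
  · rw [if_neg hs, if_neg fun h3 => hs ((h e).2 h3)]

theorem Machine.result_congr (M : Machine n d) {x y : Input n d} (u : ℕ)
    (h : ∀ p, M.RoutineSees p u → x p = y p) : M.result x u = M.result y u := by
  induction u using Nat.strong_induction_on with
  | _ u ih =>
    rw [M.result_eq, M.result_eq]
    have hans : (M.routine u).answer x (fun t : Fin u => M.result x t) =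
        (M.routine u).answer y (fun t : Fin u => M.result y t) := by
      funext v
      unfold Routine.answer
      rw [M.real_congr u ((M.routine u).view v) (fun p hp => h p (Or.inl ⟨v, hp⟩)) ih,
        M.look_congr u ((M.routine u).view v) (fun p hp => h p (Or.inl ⟨v, hp⟩))]
    apply Routine.value_congr
    · intro e
      unfold Routine.Reaches
      rw [Routine.step_eq, Routine.step_eq, hans]
    · intro e
      rw [M.real_congr u ((M.routine u).endView e) (fun p hp => h p (Or.inr ⟨e, hp⟩)) ih,
        M.look_congr u ((M.routine u).endView e) (fun p hp => h p (Or.inr ⟨e, hp⟩))]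

/-! ### The signature of a machine at one position -/

/-- The inner nodes of the routines `0, ..., last`. -/
abbrev Machine.Node (M : Machine n d) : Type := (u : Fin (M.last + 1)) × Fin (M.routine u).size

/-- The inner nodes whose views see the position `p`. -/
abbrev Machine.NodesAt (M : Machine n d) (p : Pos n) : Type :=
  {v : M.Node // M.Sees p v.1 ((M.routine v.1).view v.2)}

/-- The routines which see the position `p`. -/
abbrev Machine.RoutinesAt (M : Machine n d) (p : Pos n) : Type :=
  {u : Fin (M.last + 1) // M.RoutineSees p u}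

/-- The ends of the routines which see the position `p`. -/
abbrev Machine.EndsAt (M : Machine n d) (p : Pos n) : Type :=
  (u : M.RoutinesAt p) × Fin (M.routine u.1).ends

/-- The relevant views at the position `p`. -/
abbrev Machine.ViewsAt (M : Machine n d) (p : Pos n) : Type := M.NodesAt p ⊕ M.EndsAt p

/-- The view. -/
def Machine.viewOf (M : Machine n d) (p : Pos n) : M.ViewsAt p → View n d
  | Sum.inl v => (M.routine v.1.1).view v.1.2
  | Sum.inr e => (M.routine e.1.1).endView e.2

/-- The routine of a view. -/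
def Machine.routOf (M : Machine n d) (p : Pos n) : M.ViewsAt p → Fin (M.last + 1)
  | Sum.inl v => v.1.1
  | Sum.inr e => e.1.1

/-- Pairs of a relevant view which looks at `p` and a position which it sees. -/
abbrev Machine.PairsAt (M : Machine n d) (p : Pos n) : Type :=
  (a : M.ViewsAt p) × {q : Pos n // (∃ l, (M.viewOf p a).pos l = p) ∧
    M.Sees q (M.routOf p a) (M.viewOf p a)}

section sig

variable (M : Machine n d) (p : Pos n) {B Z : Type} (X : B → Z → Input n d)

open Classical in
/-- The part of the real number of a view which depends on `z`. -/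
noncomputable def hpart (b : B) (u : ℕ) (V : View n d) (z : Z) : ℝ :=
  (if ∃ l, V.pos l = p then
    ∑ q ∈ Finset.univ.erase p, V.vec q (V.look (X b z)) (X b z q) else 0) +
  V.vec p (V.look (X b z)) (X b z p) +
    ∑ t : Fin u, if M.RoutineSees p t then V.weight t * M.result (X b z) t else 0

open Classical in
/-- The part of the real number of a view which does not depend on `z`. -/
noncomputable def offset (z0 : Z) (b : B) (u : ℕ) (V : View n d) : ℝ :=
  (if ∃ l, V.pos l = p then 0 else
    ∑ q ∈ Finset.univ.erase p, V.vec q (V.look (X b z0)) (X b z0 q)) +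
    ∑ t : Fin u, if M.RoutineSees p t then 0 else V.weight t * M.result (X b z0) t

open Classical in
/-- The inner nodes of the routine `u` which see `p` are labelled by themselves. -/
noncomputable def lab (u : Fin (M.last + 1)) (v : Fin (M.routine u).size) :
    Option (M.NodesAt p) :=
  if h : M.Sees p u ((M.routine u).view v) then some ⟨⟨u, v⟩, h⟩ else none

/-- The ends are labelled by themselves. -/
def labE (u : M.RoutinesAt p) (e : Fin (M.routine u.1).ends) : M.EndsAt p := ⟨u, e⟩

/-- The answers of the inner nodes of the routine `u`. -/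
noncomputable def ans (b : B) (z : Z) (u : Fin (M.last + 1)) (v : Fin (M.routine u).size) :
    Fin ((M.routine u).outcomes v) :=
  (M.routine u).answer (X b z) (fun t : Fin u => M.result (X b z) t) v

theorem lab_inj (u : Fin (M.last + 1)) (v v' : Fin (M.routine u).size) (a : M.NodesAt p)
    (h : lab M p u v = some a) (h' : lab M p u v' = some a) : v = v' := by
  unfold lab at h h'
  split_ifs at h h' with h1 h2
  rw [← h'] at h
  simpa using h

theorem labE_inj (u : M.RoutinesAt p) : Function.Injective (labE M p u) := by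
  intro e e' h
  unfold labE at h
  simpa using h

variable {M p X}

theorem result_const (h1 : ∀ b z z' q, q ≠ p → X b z q = X b z' q) (b : B) (z z' : Z) (u : ℕ)
    (hu : ¬ M.RoutineSees p u) : M.result (X b z) u = M.result (X b z') u := by
  apply M.result_congr
  intro q hq
  apply h1
  rintro rfl
  exact hu hq

theorem look_const (h1 : ∀ b z z' q, q ≠ p → X b z q = X b z' q) (b : B) (z z' : Z)
    (V : View n d) (hV : ¬ ∃ l, V.pos l = p) : V.look (X b z) = V.look (X b z') := by
  funext l
  exact h1 b z z' _ fun h => hV ⟨l, h⟩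

theorem real_split (h1 : ∀ b z z' q, q ≠ p → X b z q = X b z' q) (z0 : Z) (b : B) (z : Z)
    (u : ℕ) (V : View n d) :
    V.real (X b z) (fun t : Fin u => M.result (X b z) t) =
      offset M p X z0 b u V + hpart M p X b u V z := by
  classical
  unfold View.real offset hpart
  have e1 : ∑ q, V.vec q (V.look (X b z)) (X b z q) =
      ∑ q ∈ Finset.univ.erase p, V.vec q (V.look (X b z)) (X b z q) +
        V.vec p (V.look (X b z)) (X b z p) := by
    rw [Finset.sum_erase_add _ _ (Finset.mem_univ p)]
  have e2 : ∑ t : Fin u, V.weight t * M.result (X b z) t =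
      (∑ t : Fin u, if M.RoutineSees p t then 0 else V.weight t * M.result (X b z0) t) +
      ∑ t : Fin u, if M.RoutineSees p t then V.weight t * M.result (X b z) t else 0 := by
    rw [← Finset.sum_add_distrib]
    apply Finset.sum_congr rfl
    intro t _
    by_cases ht : M.RoutineSees p t
    · simp [ht]
    · simp only [if_neg ht, add_zero]
      rw [result_const h1 b z z0 t ht]
  rw [e1, e2]
  by_cases hl : ∃ l, V.pos l = p
  · rw [if_pos hl, if_pos hl]
    ring
  · rw [if_neg hl, if_neg hl]
    have e3 : ∑ q ∈ Finset.univ.erase p, V.vec q (V.look (X b z)) (X b z q) =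
        ∑ q ∈ Finset.univ.erase p, V.vec q (V.look (X b z0)) (X b z0 q) := by
      apply Finset.sum_congr rfl
      intro q hq
      rw [h1 b z z0 q (Finset.ne_of_mem_erase hq), look_const h1 b z z0 V hl]
    rw [e3]
    ring

theorem hpart_eq {b b' : B} {u : ℕ} {V : View n d} (h2 : ∀ z, X b z p = X b' z p)
    (hlook : ∀ z, V.look (X b z) = V.look (X b' z))
    (hpair : (∃ l, V.pos l = p) → ∀ q, M.Sees q u V → ∀ z, X b z q = X b' z q)
    (ih : ∀ t < u, M.RoutineSees p t → ∀ z, M.result (X b z) t = M.result (X b' z) t) :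
    hpart M p X b u V = hpart M p X b' u V := by
  classical
  funext z
  unfold hpart
  rw [h2 z, hlook z]
  congr 1
  · congr 1
    by_cases hl : ∃ l, V.pos l = p
    · rw [if_pos hl, if_pos hl]
      apply Finset.sum_congr rfl
      intro q _
      by_contra hcon
      apply hcon
      rw [hpair hl q ((M.sees_iff q u V).2 (Or.inr (Or.inl ⟨_, _, _, hcon⟩))) z]
    · rw [if_neg hl, if_neg hl]
  · apply Finset.sum_congr rfl
    intro t _
    by_cases ht : M.RoutineSees p t
    · rw [if_pos ht, if_pos ht, ih t t.2 ht z]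
    · rw [if_neg ht, if_neg ht]

/-- Equal codes give equal values of a function of the view. -/
theorem value_of_code [Fintype Z] {α : Type} {J : ℕ} {z0 : Z} {b b' : B} {u : ℕ} {V : View n d}
    (F : (Fin V.looks → Vec d) → ℝ → α) (hF : ∀ y, IsStep J (F y))
    (h1 : ∀ b z z' q, q ≠ p → X b z q = X b z' q)
    (hlook : ∀ z, V.look (X b z) = V.look (X b' z))
    (hh : hpart M p X b u V = hpart M p X b' u V)
    (hidx : idxOf J (fun z => F (V.look (X b z))) (hpart M p X b u V) (offset M p X z0 b u V) =
      idxOf J (fun z => F (V.look (X b' z))) (hpart M p X b' u V) (offset M p X z0 b' u V))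
    (z : Z) : F (V.look (X b z)) (V.real (X b z) (fun t : Fin u => M.result (X b z) t)) =
      F (V.look (X b' z)) (V.real (X b' z) (fun t : Fin u => M.result (X b' z) t)) := by
  rw [real_split h1 z0, real_split h1 z0]
  have hfam : (fun z => F (V.look (X b z))) = fun z => F (V.look (X b' z)) := by
    funext z'
    rw [hlook z']
  rw [hh, hfam] at hidx
  rw [hh, hlook z]
  exact idxOf_spec (f := fun z => F (V.look (X b' z))) (fun z => hF _) _ hidx z

theorem ans_const (h1 : ∀ b z z' q, q ≠ p → X b z q = X b z' q) (b : B) (z z' : Z)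
    (u : Fin (M.last + 1)) (v : Fin (M.routine u).size) (hv : lab M p u v = none) :
    ans M X b z u v = ans M X b z' u v := by
  have hv' : ¬ M.Sees p u ((M.routine u).view v) := by
    intro h
    unfold lab at hv
    rw [dif_pos h] at hv
    simp at hv
  have h3 : ∀ q, M.Sees q u ((M.routine u).view v) → X b z q = X b z' q := by
    intro q hq
    apply h1
    rintro rfl
    exact hv' hq
  unfold ans Routine.answer
  rw [M.look_congr u _ h3, M.real_congr u _ h3 fun t _ ht => M.result_congr t ht]

variable (M p X)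

/-- The type of the signatures. -/
abbrev Sig (w J N : ℕ) : Type :=
  (((v : M.NodesAt p) × Fin ((M.routine v.1.1).outcomes v.1.2)) → Option (M.ViewsAt p)) ×
  (M.RoutinesAt p → Option (M.ViewsAt p)) ×
  (((a : M.ViewsAt p) × Fin (M.viewOf p a).looks) → Fin w → Bool) ×
  (M.ViewsAt p → Fin (2 * (J * N) + 1)) ×
  (M.PairsAt p → Fin w → Bool) × Bool

/-- The routine of an inner node which sees `p`. -/
def toRoutine (v : M.NodesAt p) : M.RoutinesAt p := ⟨v.1.1, Or.inl ⟨v.1.2, v.2⟩⟩

/-- The code of the offset of a view. -/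
noncomputable def code [Fintype Z] (J : ℕ) (z0 : Z) (b : B) :
    M.ViewsAt p → Fin (2 * (J * Fintype.card Z) + 1)
  | Sum.inl v => idxOf J
      (fun z => (M.routine v.1.1).query v.1.2 (((M.routine v.1.1).view v.1.2).look (X b z)))
      (hpart M p X b v.1.1 ((M.routine v.1.1).view v.1.2))
      (offset M p X z0 b v.1.1 ((M.routine v.1.1).view v.1.2))
  | Sum.inr e => idxOf J
      (fun z => (M.routine e.1.1).act e.2 (((M.routine e.1.1).endView e.2).look (X b z)))
      (hpart M p X b e.1.1 ((M.routine e.1.1).endView e.2))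
      (offset M p X z0 b e.1.1 ((M.routine e.1.1).endView e.2))

/-- Where the computation of the routine `u` on input `X b z0` goes from `w`. -/
noncomputable def goes (z0 : Z) (b : B) (u : M.RoutinesAt p)
    (w : Fin (M.routine u.1).size ⊕ Fin (M.routine u.1).ends) : Option (M.ViewsAt p) :=
  skip (M.routine u.1).next (lab M p u.1) (labE M p u) (ans M X b z0 u.1) w

/-- The signature of `b` at the position `p`; the bits which determine the vectors are given. -/
noncomputable def sig [Fintype Z] (w J : ℕ) (z0 : Z) (bits : B → Pos n → Fin w → Bool) (b : B) :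
    Sig M p w J (Fintype.card Z) :=
  (fun a => goes M p X z0 b (toRoutine M p a.1) ((M.routine a.1.1.1).next a.1.1.2 a.2),
    fun u => goes M p X z0 b u (M.routine u.1).start,
    fun a => bits b ((M.viewOf p a.1).pos a.2),
    code M p X J z0 b,
    fun a => bits b a.2.1,
    decide (0 < M.result (X b z0) M.last))

variable {M p X}

theorem result_of_sig [Fintype Z] {w J : ℕ} {z0 : Z} {bits : B → Pos n → Fin w → Bool}
    (hM : M.Steps J) (h1 : ∀ b z z' q, q ≠ p → X b z q = X b z' q)
    (h2 : ∀ b b' z, X b z p = X b' z p)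
    (h3 : ∀ b b' q, bits b q = bits b' q → ∀ z, X b z q = X b' z q)
    {b b' : B} (hs : sig M p X w J z0 bits b = sig M p X w J z0 bits b') :
    ∀ m, ∀ u : Fin (M.last + 1), u.1 = m → M.RoutineSees p u →
      ∀ z, M.result (X b z) u = M.result (X b' z) u := by
  intro m
  induction m using Nat.strong_induction_on with
  | _ m ih =>
    intro u hu hsee z
    obtain ⟨s1, s2, s3, s4, s5, -⟩ : _ ∧ _ ∧ _ ∧ _ ∧ _ ∧ _ := by
      simpa only [sig, Prod.mk.injEq] using hs
    have ih' : ∀ t < u.1, M.RoutineSees p t →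
        ∀ z, M.result (X b z) t = M.result (X b' z) t := by
      intro t ht hst z'
      exact ih t (by rw [← hu]; exact ht) ⟨t, ht.trans u.2⟩ rfl hst z'
    have hlast : u.1 ≤ M.last := by
      have := u.2
      omega
    have hview : ∀ a : M.ViewsAt p, M.routOf p a = u →
        (∀ z, (M.viewOf p a).look (X b z) = (M.viewOf p a).look (X b' z)) ∧
        hpart M p X b u (M.viewOf p a) = hpart M p X b' u (M.viewOf p a) := by
      intro a ha
      have hlook : ∀ z, (M.viewOf p a).look (X b z) = (M.viewOf p a).look (X b' z) := by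
        intro z'
        funext l
        exact h3 b b' _ (congrFun s3 ⟨a, l⟩) z'
      refine ⟨hlook, hpart_eq (h2 b b') hlook ?_ ih'⟩
      intro hl q hq z'
      rw [← ha] at hq
      exact h3 b b' q (congrFun s5 ⟨a, ⟨q, hl, hq⟩⟩) z'
    -- the answers of the nodes which see `p`
    have hans : ∀ v, (lab M p u v).isSome → ans M X b z u v = ans M X b' z u v := by
      intro v hv
      have hv' : M.Sees p u ((M.routine u).view v) := by
        by_contra hcon
        unfold lab at hv
        rw [dif_neg hcon] at hv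
        simp at hv
      obtain ⟨g1, g2⟩ := hview (Sum.inl ⟨⟨u, v⟩, hv'⟩) rfl
      exact value_of_code ((M.routine u).query v) ((hM u hlast).1 v) h1 g1 g2
        (congrFun s4 (Sum.inl ⟨⟨u, v⟩, hv'⟩)) z
    have hskip : ∀ b w, skip (M.routine u).next (lab M p u) (labE M p ⟨u, hsee⟩)
          (ans M X b z u) w =
        skip (M.routine u).next (lab M p u) (labE M p ⟨u, hsee⟩) (ans M X b z0 u) w := by
      intro b w
      rw [skip_congr _ _ _ fun v hv => ans_const h1 b z z0 u v hv]
    have hreach : ∀ (b b' : B), (∀ v, (lab M p u v).isSome → ans M X b z u v = ans M X b' z u v) →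
        (∀ (a : (v : M.NodesAt p) × Fin ((M.routine v.1.1).outcomes v.1.2)),
          goes M p X z0 b (toRoutine M p a.1) ((M.routine a.1.1.1).next a.1.1.2 a.2) =
          goes M p X z0 b' (toRoutine M p a.1) ((M.routine a.1.1.1).next a.1.1.2 a.2)) →
        goes M p X z0 b ⟨u, hsee⟩ (M.routine u).start =
          goes M p X z0 b' ⟨u, hsee⟩ (M.routine u).start →
        ∀ e, (M.routine u).Reaches (X b z) (fun t : Fin u => M.result (X b z) t) e →
        (M.routine u).Reaches (X b' z) (fun t : Fin u => M.result (X b' z) t) e := by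
      intro b b' hab hnx hst e hsuc
      obtain ⟨t, ht⟩ := hsuc
      rw [(M.routine u).step_eq] at ht
      unfold Routine.Reaches
      rw [(M.routine u).step_eq]
      refine reach_aux (M.routine u).next (lab M p u) (labE M p ⟨u, hsee⟩) (lab_inj M p u)
        (labE_inj M p ⟨u, hsee⟩) (ans M X b z u) (ans M X b' z u) hab ?_ e t _ _ ?_ ht
      · intro v hv r
        have hv' : M.Sees p u ((M.routine u).view v) := by
          by_contra hcon
          unfold lab at hv
          rw [dif_neg hcon] at hv
          simp at hv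
        rw [hskip, hskip]
        exact hnx ⟨⟨⟨u, v⟩, hv'⟩, r⟩
      · rw [hskip, hskip]
        exact hst
    rw [M.result_eq, M.result_eq]
    apply Routine.value_congr
    · intro e
      constructor
      · exact hreach b b' hans (fun a => congrFun s1 a) (congrFun s2 ⟨u, hsee⟩) e
      · exact hreach b' b (fun v hv => (hans v hv).symm) (fun a => (congrFun s1 a).symm)
          (congrFun s2 ⟨u, hsee⟩).symm e
    · intro e
      obtain ⟨g1, g2⟩ := hview (Sum.inr ⟨⟨u, hsee⟩, e⟩) rfl
      exact value_of_code ((M.routine u).act e) ((hM u hlast).2 e) h1 g1 g2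
        (congrFun s4 (Sum.inr ⟨⟨u, hsee⟩, e⟩)) z

/-- Strings with equal signatures have equal answers. -/
theorem accepts_of_sig [Fintype Z] {w J : ℕ} {z0 : Z} {bits : B → Pos n → Fin w → Bool}
    (hM : M.Steps J) (h1 : ∀ b z z' q, q ≠ p → X b z q = X b z' q)
    (h2 : ∀ b b' z, X b z p = X b' z p)
    (h3 : ∀ b b' q, bits b q = bits b' q → ∀ z, X b z q = X b' z q)
    {b b' : B} (hs : sig M p X w J z0 bits b = sig M p X w J z0 bits b') (z : Z) :
    0 < M.result (X b z) M.last ↔ 0 < M.result (X b' z) M.last := by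
  by_cases hl : M.RoutineSees p M.last
  · have := result_of_sig hM h1 h2 h3 hs M.last ⟨M.last, by omega⟩ rfl hl z
    rw [this]
  · rw [result_const h1 b z z0 _ hl, result_const h1 b' z z0 _ hl]
    have : decide (0 < M.result (X b z0) M.last) = decide (0 < M.result (X b' z0) M.last) :=
      congrArg (fun s => s.2.2.2.2.2) hs
    simpa using this

end sig

/-! ### The hard instances -/

/-- A strictly increasing list of `n ≤ 2^m` vectors of length `m`. -/
theorem exists_code {n m : ℕ} (h : n ≤ 2 ^ m) :
    ∃ code : Fin n → Fin m → Bool, ∀ i j, i < j →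
      ∃ c : Fin m, (∀ l < c, code i l = code j l) ∧ code i c = false ∧ code j c = true := by
  classical
  have hcard : Fintype.card (Lex (Fin m → Bool)) = 2 ^ m := by
    rw [Fintype.card_lex, Fintype.card_fun, Fintype.card_bool, Fintype.card_fin]
  let e : Fin (2 ^ m) ≃o Lex (Fin m → Bool) := Fintype.orderIsoFinOfCardEq _ hcard
  refine ⟨fun i => ofLex (e (Fin.castLE h i)), fun i j hij => ?_⟩
  have h1 := e.strictMono (show Fin.castLE h i < Fin.castLE h j from hij)
  obtain ⟨k, hk1, hk2⟩ := h1
  refine ⟨k, hk1, ?_⟩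
  have hk3 : (ofLex (e (Fin.castLE h i)) k : Bool) < ofLex (e (Fin.castLE h j)) k := hk2
  rw [Bool.lt_iff] at hk3
  exact hk3

/-- The vectors of `A` in the hard instances. -/
def vecA {n m w : ℕ} (d : ℕ) (code : Fin n → Fin m → Bool) (b : Fin n → Fin w → Bool)
    (j : Fin n) : Vec d := fun c =>
  if c.1 = m then true
  else if h : m + 1 ≤ c.1 ∧ c.1 < 2 * m + 1 then code j ⟨c.1 - (m + 1), by omega⟩
  else if h : 2 * m + 1 ≤ c.1 ∧ c.1 < 3 * m + 1 then !(code j ⟨c.1 - (2 * m + 1), by omega⟩)
  else if h : 3 * m + 1 ≤ c.1 ∧ c.1 < 3 * m + 1 + w then !(b j ⟨c.1 - (3 * m + 1), by omega⟩)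
  else false

/-- The vectors of `B` which meet all vectors of `A`. -/
def vecB {n m : ℕ} (d : ℕ) (code : Fin n → Fin m → Bool) (q : Fin n) : Vec d := fun c =>
  if h : c.1 < m then code q ⟨c.1, h⟩
  else if c.1 = m then true
  else false

/-- The special vector of `B`. -/
def vecS {n m : ℕ} (d : ℕ) (code : Fin n → Fin m → Bool) (i j : Fin n) (r : ℕ) : Vec d := fun c =>
  if h : c.1 < m then code i ⟨c.1, h⟩
  else if h : m + 1 ≤ c.1 ∧ c.1 < 2 * m + 1 then !(code j ⟨c.1 - (m + 1), by omega⟩)
  else if h : 2 * m + 1 ≤ c.1 ∧ c.1 < 3 * m + 1 then code j ⟨c.1 - (2 * m + 1), by omega⟩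
  else if c.1 = 3 * m + 1 + r then true
  else false

/-- The hard instances. -/
def hard {n m w : ℕ} (d : ℕ) (code : Fin n → Fin m → Bool) (i : Fin n) (b : Fin n → Fin w → Bool)
    (z : Fin n × Fin w) : Input n d := fun q =>
  if q.1 = false then vecA d code b q.2
  else if q.2 = i then vecS d code i z.1 z.2 else vecB d code q.2

theorem sum_toNat_eq_zero_iff {d : ℕ} (u v : Vec d) :
    ∑ k : Fin d, (u k).toNat * (v k).toNat = 0 ↔ ∀ k, ¬ (u k = true ∧ v k = true) := by
  rw [Finset.sum_eq_zero_iff]
  constructor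
  · intro h k ⟨h1, h2⟩
    have := h k (Finset.mem_univ k)
    simp [h1, h2] at this
  · intro h k _
    have := h k
    cases hu : u k <;> cases hv : v k <;> simp_all

section coords

variable {m w : ℕ}

theorem vecA_zero (code : Fin n → Fin m → Bool) (b : Fin n → Fin w → Bool) (j : Fin n)
    (c : Fin d) (h : c.1 < m) : vecA d code b j c = false := by
  have h1 : ¬ (c.1 = m) := by omega
  have h2 : ¬ (m + 1 ≤ c.1 ∧ c.1 < 2 * m + 1) := by omega
  have h3 : ¬ (2 * m + 1 ≤ c.1 ∧ c.1 < 3 * m + 1) := by omega
  have h4 : ¬ (3 * m + 1 ≤ c.1 ∧ c.1 < 3 * m + 1 + w) := by omega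
  unfold vecA
  rw [if_neg h1, dif_neg h2, dif_neg h3, dif_neg h4]

theorem vecA_one (code : Fin n → Fin m → Bool) (b : Fin n → Fin w → Bool) (j : Fin n)
    (c : Fin d) (h : c.1 = m) : vecA d code b j c = true := by
  unfold vecA
  rw [if_pos h]

theorem vecA_two (code : Fin n → Fin m → Bool) (b : Fin n → Fin w → Bool) (j : Fin n)
    (c : Fin d) (l : Fin m) (h : c.1 = m + 1 + l) : vecA d code b j c = code j l := by
  have h1 : ¬ (c.1 = m) := by omega
  have h2 : m + 1 ≤ c.1 ∧ c.1 < 2 * m + 1 := by
    have := l.2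
    omega
  unfold vecA
  rw [if_neg h1, dif_pos h2]
  congr 1
  ext
  simp only
  omega

theorem vecA_three (code : Fin n → Fin m → Bool) (b : Fin n → Fin w → Bool) (j : Fin n)
    (c : Fin d) (l : Fin m) (h : c.1 = 2 * m + 1 + l) : vecA d code b j c = !(code j l) := by
  have h1 : ¬ (c.1 = m) := by omega
  have h2 : ¬ (m + 1 ≤ c.1 ∧ c.1 < 2 * m + 1) := by omega
  have h3 : 2 * m + 1 ≤ c.1 ∧ c.1 < 3 * m + 1 := by
    have := l.2
    omega
  unfold vecA
  rw [if_neg h1, dif_neg h2, dif_pos h3]
  congr 2
  ext
  simp only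
  omega

theorem vecA_four (code : Fin n → Fin m → Bool) (b : Fin n → Fin w → Bool) (j : Fin n)
    (c : Fin d) (r : Fin w) (h : c.1 = 3 * m + 1 + r) : vecA d code b j c = !(b j r) := by
  have h1 : ¬ (c.1 = m) := by omega
  have h2 : ¬ (m + 1 ≤ c.1 ∧ c.1 < 2 * m + 1) := by omega
  have h3 : ¬ (2 * m + 1 ≤ c.1 ∧ c.1 < 3 * m + 1) := by omega
  have h4 : 3 * m + 1 ≤ c.1 ∧ c.1 < 3 * m + 1 + w := by
    have := r.2
    omega
  unfold vecA
  rw [if_neg h1, dif_neg h2, dif_neg h3, dif_pos h4]
  congr 2
  ext
  simp only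
  omega

theorem vecS_two (code : Fin n → Fin m → Bool) (i j : Fin n) (r : ℕ)
    (c : Fin d) (l : Fin m) (h : c.1 = m + 1 + l) : vecS d code i j r c = !(code j l) := by
  have h1 : ¬ (c.1 < m) := by omega
  have h2 : m + 1 ≤ c.1 ∧ c.1 < 2 * m + 1 := by
    have := l.2
    omega
  unfold vecS
  rw [dif_neg h1, dif_pos h2]
  congr 2
  ext
  simp only
  omega

theorem vecS_three (code : Fin n → Fin m → Bool) (i j : Fin n) (r : ℕ)
    (c : Fin d) (l : Fin m) (h : c.1 = 2 * m + 1 + l) : vecS d code i j r c = code j l := by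
  have h1 : ¬ (c.1 < m) := by omega
  have h2 : ¬ (m + 1 ≤ c.1 ∧ c.1 < 2 * m + 1) := by omega
  have h3 : 2 * m + 1 ≤ c.1 ∧ c.1 < 3 * m + 1 := by
    have := l.2
    omega
  unfold vecS
  rw [dif_neg h1, dif_neg h2, dif_pos h3]
  congr 1
  ext
  simp only
  omega

theorem vecS_four (code : Fin n → Fin m → Bool) (i j : Fin n) (r : ℕ)
    (c : Fin d) (h : c.1 = 3 * m + 1 + r) : vecS d code i j r c = true := by
  have h1 : ¬ (c.1 < m) := by omega
  have h2 : ¬ (m + 1 ≤ c.1 ∧ c.1 < 2 * m + 1) := by omega
  have h3 : ¬ (2 * m + 1 ≤ c.1 ∧ c.1 < 3 * m + 1) := by omega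
  unfold vecS
  rw [dif_neg h1, dif_neg h2, dif_neg h3, if_pos h]

theorem vecS_other (code : Fin n → Fin m → Bool) (i j : Fin n) (r : ℕ)
    (c : Fin d) (h0 : m ≤ c.1) (h1 : ¬ (m + 1 ≤ c.1 ∧ c.1 < 3 * m + 1))
    (h : c.1 ≠ 3 * m + 1 + r) : vecS d code i j r c = false := by
  have h2 : ¬ (c.1 < m) := by omega
  have h3 : ¬ (m + 1 ≤ c.1 ∧ c.1 < 2 * m + 1) := by omega
  have h4 : ¬ (2 * m + 1 ≤ c.1 ∧ c.1 < 3 * m + 1) := by omega
  unfold vecS
  rw [dif_neg h2, dif_neg h3, dif_neg h4, if_neg h]

end coords

theorem hard_valid {n m w d : ℕ} (hd : 3 * m + 1 + w ≤ d) (code : Fin n → Fin m → Bool)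
    (hcode : ∀ i j, i < j →
      ∃ c : Fin m, (∀ l < c, code i l = code j l) ∧ code i c = false ∧ code j c = true)
    (i : Fin n) (b : Fin n → Fin w → Bool) (z : Fin n × Fin w) :
    IsValid (hard d code i b z) := by
  constructor
  · intro p q hpq
    obtain ⟨k, hk1, hk2, hk3⟩ := hcode p q hpq
    refine ⟨⟨m + 1 + k.1, by omega⟩, ?_, ?_⟩
    · intro l hl
      have hl' : l.1 < m + 1 + k.1 := hl
      show vecA d code b p l = vecA d code b q l
      rcases lt_trichotomy l.1 m with h1 | h1 | h1
      · rw [vecA_zero code b p l h1, vecA_zero code b q l h1]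
      · rw [vecA_one code b p l h1, vecA_one code b q l h1]
      · have h2 : l.1 - (m + 1) < m := by
          have := k.2
          omega
        have h3 : l.1 = m + 1 + (⟨l.1 - (m + 1), h2⟩ : Fin m) := by
          simp only
          omega
        rw [vecA_two code b p l _ h3, vecA_two code b q l _ h3]
        apply hk1
        rw [Fin.lt_def]
        simp only
        omega
    · show vecA d code b p _ < vecA d code b q _
      rw [vecA_two code b p _ k rfl, vecA_two code b q _ k rfl, hk2, hk3]
      decide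
  · intro p q hpq
    obtain ⟨k, hk1, hk2, hk3⟩ := hcode p q hpq
    have hpre : ∀ (r : Fin n) (l : Fin d) (hl : l.1 < m),
        hard d code i b z (true, r) l = code r ⟨l.1, hl⟩ := by
      intro r l hl
      by_cases hr : r = i
      · subst hr
        simp [hard, vecS, hl]
      · simp [hard, hr, vecB, hl]
    refine ⟨⟨k.1, by omega⟩, ?_, ?_⟩
    · intro l hl
      have hl' : l.1 < k.1 := hl
      show hard d code i b z (true, p) l = hard d code i b z (true, q) l
      rw [hpre p l (by omega), hpre q l (by omega)]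
      exact hk1 _ (by rw [Fin.lt_def]; exact hl')
    · show hard d code i b z (true, p) _ < hard d code i b z (true, q) _
      rw [hpre p _ k.2, hpre q _ k.2]
      have h3 : (⟨k.1, k.2⟩ : Fin m) = k := rfl
      rw [h3, hk2, hk3]
      decide

theorem hard_hasOrthogonalPair {n m w d : ℕ} (hd : 3 * m + 1 + w ≤ d)
    (code : Fin n → Fin m → Bool)
    (hcode : ∀ i j, i < j →
      ∃ c : Fin m, (∀ l < c, code i l = code j l) ∧ code i c = false ∧ code j c = true)
    (i : Fin n) (b : Fin n → Fin w → Bool) (z : Fin n × Fin w) :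
    HasOrthogonalPair (hard d code i b z) ↔ b z.1 z.2 = true := by
  have hinj : ∀ p q, code p = code q → p = q := by
    intro p q hpq
    rcases lt_trichotomy p q with h | h | h
    · obtain ⟨k, _, h2, h3⟩ := hcode p q h
      rw [hpq, h3] at h2
      simp at h2
    · exact h
    · obtain ⟨k, _, h2, h3⟩ := hcode q p h
      rw [hpq, h2] at h3
      simp at h3
  unfold HasOrthogonalPair
  simp only [sum_toNat_eq_zero_iff]
  have hA : ∀ p, hard d code i b z (false, p) = vecA d code b p := fun p => by simp [hard]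
  have hS : hard d code i b z (true, i) = vecS d code i z.1 z.2 := by simp [hard]
  constructor
  · rintro ⟨p, q, hpq⟩
    have hq : q = i := by
      by_contra hq
      apply hpq ⟨m, by omega⟩
      constructor
      · rw [hA]
        exact vecA_one _ _ _ _ rfl
      · simp [hard, hq, vecB]
    subst hq
    rw [hA, hS] at hpq
    have hpj : p = z.1 := by
      apply hinj
      funext l
      have hl := l.2
      have h1 := hpq ⟨m + 1 + l.1, by omega⟩
      have h2 := hpq ⟨2 * m + 1 + l.1, by omega⟩
      rw [vecA_two code b p _ l rfl, vecS_two code q z.1 _ _ l rfl] at h1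
      rw [vecA_three code b p _ l rfl, vecS_three code q z.1 _ _ l rfl] at h2
      cases hc1 : code p l <;> cases hc2 : code z.1 l <;> simp_all
    have hz := z.2.2
    have h1 := hpq ⟨3 * m + 1 + z.2.1, by omega⟩
    rw [vecA_four code b p _ z.2 rfl, vecS_four code q z.1 _ _ rfl, hpj] at h1
    cases hb : b z.1 z.2
    · simp [hb] at h1
    · rfl
  · intro hb
    refine ⟨z.1, i, ?_⟩
    rw [hA, hS]
    rintro c ⟨h1, h2⟩
    rcases lt_trichotomy c.1 m with c0 | c0 | c0
    · rw [vecA_zero _ _ _ _ c0] at h1
      simp at h1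
    · rw [vecS_other code i z.1 _ c c0.ge (by omega) (by omega)] at h2
      simp at h2
    · by_cases c1 : c.1 < 2 * m + 1
      · have h3 : c.1 = m + 1 + (⟨c.1 - (m + 1), by omega⟩ : Fin m) := by
          simp only
          omega
        rw [vecA_two code b z.1 c _ h3] at h1
        rw [vecS_two code i z.1 _ c _ h3, h1] at h2
        simp at h2
      · by_cases c2 : c.1 < 3 * m + 1
        · have h3 : c.1 = 2 * m + 1 + (⟨c.1 - (2 * m + 1), by omega⟩ : Fin m) := by
            simp only
            omega
          rw [vecA_three code b z.1 c _ h3] at h1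
          rw [vecS_three code i z.1 _ c _ h3] at h2
          rw [h2] at h1
          simp at h1
        · by_cases c3 : c.1 = 3 * m + 1 + z.2.1
          · rw [vecA_four code b z.1 c z.2 c3, hb] at h1
            simp at h1
          · rw [vecS_other code i z.1 _ c c0.le (by omega) c3] at h2
            simp at h2

/-! ### Counting -/

open Classical in
/-- Hamming balls of radius `2N/5` are small. -/
theorem ball_card {T : Type} [Fintype T] (g : T → Bool) :
    (Finset.univ.filter fun b : T → Bool =>
      5 * (Finset.univ.filter fun j => g j ≠ b j).card ≤ 2 * Fintype.card T).card ^ 5 ≤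
      29 ^ Fintype.card T := by
  set N := Fintype.card T with hN
  set B := Finset.univ.filter fun b : T → Bool =>
      5 * (Finset.univ.filter fun j => g j ≠ b j).card ≤ 2 * N with hB
  have hsum : ∑ b : T → Bool, ∏ j, (if g j ≠ b j then (2 / 3 : ℝ) else 1) = (5 / 3) ^ N := by
    have h1 := Finset.prod_univ_sum (fun _ : T => (Finset.univ : Finset Bool))
      (fun j c => (if g j ≠ c then (2 / 3 : ℝ) else 1))
    rw [Fintype.piFinset_univ] at h1
    rw [← h1]
    have h2 : ∀ j : T, ∑ c : Bool, (if g j ≠ c then (2 / 3 : ℝ) else 1) = 5 / 3 := by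
      intro j
      cases g j <;> simp <;> norm_num
    rw [Finset.prod_congr rfl (fun j _ => h2 j), Finset.prod_const, Finset.card_univ]
  have hprod : ∀ b : T → Bool, ∏ j, (if g j ≠ b j then (2 / 3 : ℝ) else 1)
      = (2 / 3) ^ (Finset.univ.filter fun j => g j ≠ b j).card := by
    intro b
    rw [Finset.prod_ite, Finset.prod_const, Finset.prod_const, one_pow, mul_one]
  let r := 2 * N / 5
  have hle : (B.card : ℝ) * (2 / 3) ^ r ≤ (5 / 3) ^ N := by
    rw [← hsum]
    calc (B.card : ℝ) * (2 / 3) ^ r = ∑ _b ∈ B, (2 / 3 : ℝ) ^ r := by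
            rw [Finset.sum_const, nsmul_eq_mul]
      _ ≤ ∑ b ∈ B, ∏ j, (if g j ≠ b j then (2 / 3 : ℝ) else 1) := by
            apply Finset.sum_le_sum
            intro b hb
            rw [hprod b]
            have hb' : 5 * (Finset.univ.filter fun j => g j ≠ b j).card ≤ 2 * N := by
              simpa [hB] using hb
            apply pow_le_pow_of_le_one (by norm_num) (by norm_num)
            omega
      _ ≤ ∑ b : T → Bool, ∏ j, (if g j ≠ b j then (2 / 3 : ℝ) else 1) := by
            apply Finset.sum_le_sum_of_subset_of_nonneg (Finset.subset_univ _)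
            intro b _ _
            apply Finset.prod_nonneg
            intro j _
            split_ifs <;> norm_num
  have h5 : (B.card : ℝ) ^ 5 * (2 / 3) ^ (2 * N) ≤ (5 / 3) ^ (5 * N) := by
    have h6 : (2 / 3 : ℝ) ^ (2 * N) ≤ ((2 / 3) ^ r) ^ 5 := by
      rw [← pow_mul]
      apply pow_le_pow_of_le_one (by norm_num) (by norm_num)
      omega
    calc (B.card : ℝ) ^ 5 * (2 / 3) ^ (2 * N) ≤ (B.card : ℝ) ^ 5 * ((2 / 3) ^ r) ^ 5 := by
            apply mul_le_mul_of_nonneg_left h6 (by positivity)
      _ = ((B.card : ℝ) * (2 / 3) ^ r) ^ 5 := by rw [mul_pow]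
      _ ≤ ((5 / 3) ^ N) ^ 5 := by
            apply pow_le_pow_left₀ (by positivity) hle
      _ = (5 / 3) ^ (5 * N) := by rw [← pow_mul, mul_comm]
  have h7 : (B.card : ℝ) ^ 5 ≤ 29 ^ N := by
    have h8 : (B.card : ℝ) ^ 5 = ((B.card : ℝ) ^ 5 * (2 / 3) ^ (2 * N)) * (3 / 2) ^ (2 * N) := by
      rw [mul_assoc, ← mul_pow]
      norm_num
    rw [h8]
    calc ((B.card : ℝ) ^ 5 * (2 / 3) ^ (2 * N)) * (3 / 2) ^ (2 * N)
        ≤ (5 / 3) ^ (5 * N) * (3 / 2) ^ (2 * N) := by
            apply mul_le_mul_of_nonneg_right h5 (by positivity)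
      _ = ((5 / 3) ^ 5 * (3 / 2) ^ 2) ^ N := by rw [pow_mul, pow_mul, ← mul_pow]
      _ ≤ 29 ^ N := by
            apply pow_le_pow_left₀ (by norm_num)
            norm_num
  exact_mod_cast h7

/-- The free bits of the vector at position `q`. -/
def bits {w : ℕ} (b : Fin n → Fin w → Bool) (q : Pos n) : Fin w → Bool :=
  if q.1 = false then b q.2 else fun _ => false

theorem hard_const {m w : ℕ} (code : Fin n → Fin m → Bool) (i : Fin n)
    (b : Fin n → Fin w → Bool) (z z' : Fin n × Fin w) (q : Pos n) (hq : q ≠ (true, i)) :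
    hard d code i b z q = hard d code i b z' q := by
  unfold hard
  split_ifs with h1 h2
  · rfl
  · exfalso
    apply hq
    ext1
    · simpa using h1
    · exact h2
  · rfl

theorem hard_bits {m w : ℕ} (code : Fin n → Fin m → Bool) (i : Fin n)
    (b b' : Fin n → Fin w → Bool) (q : Pos n) (h : bits b q = bits b' q) (z : Fin n × Fin w) :
    hard d code i b z q = hard d code i b' z q := by
  unfold bits at h
  unfold hard
  by_cases h2 : q.1 = false
  · rw [if_pos h2, if_pos h2] at h
    rw [if_pos h2, if_pos h2]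
    unfold vecA
    rw [h]
  · rw [if_neg h2, if_neg h2]

open Classical in
theorem fiber_card {m w J : ℕ} (M : Machine n d) (hM : M.Steps J)
    (code : Fin n → Fin m → Bool) (i : Fin n) (z0 : Fin n × Fin w)
    (σ : Sig M (true, i) w J (Fintype.card (Fin n × Fin w)))
    (hcorrect : ∀ (b : Fin n → Fin w → Bool) (z : Fin n × Fin w),
      (HasOrthogonalPair (hard d code i b z) ↔ b z.1 z.2 = true)) :
    (Finset.univ.filter fun b : Fin n → Fin w → Bool =>
      5 * (Finset.univ.filter fun z => ¬ M.CorrectOn (hard d code i b z)).card ≤ 2 * (n * w) ∧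
      sig M (true, i) (hard d code i) w J z0 bits b = σ).card ^ 5 ≤
      29 ^ (n * w) := by
  set B := Finset.univ.filter fun b : Fin n → Fin w → Bool =>
      5 * (Finset.univ.filter fun z => ¬ M.CorrectOn (hard d code i b z)).card ≤ 2 * (n * w) ∧
      sig M (true, i) (hard d code i) w J z0 bits b = σ with hB
  have hcT : Fintype.card (Fin n × Fin w) = n * w := by simp
  rcases B.eq_empty_or_nonempty with hemp | ⟨b0, hb0⟩
  · rw [hemp]
    simp
  · have hb0' := (Finset.mem_filter.1 hb0).2
    let g : Fin n × Fin w → Bool := fun z => decide (0 < M.result (hard d code i b0 z) M.last)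
    have hball := ball_card g
    rw [hcT] at hball
    refine le_trans (Nat.pow_le_pow_left ?_ 5) hball
    refine Finset.card_le_card_of_injOn (fun b z => b z.1 z.2) ?_ ?_
    · intro b hb
      have hb' := (Finset.mem_filter.1 (Finset.mem_coe.1 hb)).2
      simp only [Finset.coe_filter, Finset.mem_univ, true_and, Set.mem_ofPred_eq]
      refine le_trans (Nat.mul_le_mul_left 5 (Finset.card_le_card ?_)) hb'.1
      intro z hz
      simp only [Finset.mem_filter, Finset.mem_univ, true_and] at hz ⊢
      intro hc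
      apply hz
      have hacc : 0 < M.result (hard d code i b z) M.last ↔
          0 < M.result (hard d code i b0 z) M.last :=
        accepts_of_sig hM (fun b z z' q hq => hard_const code i b z z' q hq)
          (fun b b' z => hard_bits code i b b' (true, i) rfl z)
          (fun b b' q h z => hard_bits code i b b' q h z)
          (hb'.2.trans hb0'.2.symm) z
      have h1 : 0 < M.result (hard d code i b0 z) M.last ↔ b z.1 z.2 = true :=
        hacc.symm.trans (hc.trans (hcorrect b z))
      cases hbj : b z.1 z.2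
      · rw [hbj] at h1
        simpa [g] using h1
      · rw [hbj] at h1
        simpa [g] using h1
    · intro b _ b' _ h
      funext j c
      exact congrFun h (j, c)

/-- The number of outcomes of the inner nodes which see `p`. -/
noncomputable def nOut (M : Machine n d) (p : Pos n) : ℕ :=
  Nat.card ((v : M.NodesAt p) × Fin ((M.routine v.1.1).outcomes v.1.2))

/-- The number of vectors which are looked at by the relevant views at `p`. -/
noncomputable def nLook (M : Machine n d) (p : Pos n) : ℕ :=
  Nat.card ((a : M.ViewsAt p) × Fin (M.viewOf p a).looks)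

theorem card_sig (w J N : ℕ) (M : Machine n d) (p : Pos n) : Nat.card (Sig M p w J N) =
    (Nat.card (M.ViewsAt p) + 1) ^ nOut M p *
    ((Nat.card (M.ViewsAt p) + 1) ^ Nat.card (M.RoutinesAt p) *
    ((2 ^ w) ^ nLook M p *
    ((2 * (J * N) + 1) ^ Nat.card (M.ViewsAt p) *
    ((2 ^ w) ^ Nat.card (M.PairsAt p) * 2)))) := by
  classical
  unfold Sig nOut nLook
  rw [Nat.card_prod, Nat.card_prod, Nat.card_prod, Nat.card_prod, Nat.card_prod,
    Nat.card_fun, Nat.card_fun, Nat.card_fun, Nat.card_fun, Nat.card_fun, Finite.card_option,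
    Nat.card_fun]
  simp only [Nat.card_eq_fintype_card, Fintype.card_bool, Fintype.card_fin, Fintype.card_fun]

theorem finite_sig (w J N : ℕ) (M : Machine n d) (p : Pos n) : Finite (Sig M p w J N) := by
  have i1 : Finite (((v : M.NodesAt p) × Fin ((M.routine v.1.1).outcomes v.1.2)) →
    Option (M.ViewsAt p)) := inferInstance
  have i2 : Finite (M.RoutinesAt p → Option (M.ViewsAt p)) := inferInstance
  have i3 : Finite (((a : M.ViewsAt p) × Fin (M.viewOf p a).looks) → Fin w → Bool) :=
    inferInstance
  have i4 : Finite (M.ViewsAt p → Fin (2 * (J * N) + 1)) := inferInstance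
  have i5 : Finite (M.PairsAt p → Fin w → Bool) := inferInstance
  unfold Sig
  exact Finite.instProd

/-- The cost which is charged to the position `p`, up to a factor. -/
noncomputable def share (M : Machine n d) (K : ℕ) (p : Pos n) : ℕ :=
  nOut M p + nLook M p + K * Nat.card (M.ViewsAt p) + Nat.card (M.PairsAt p)

theorem sum_subtype_le {I A : Type} [Fintype I] [Fintype A] (P : I → A → Prop)
    [∀ i, Fintype {a // P i a}] (f : I → A → ℕ) (g : A → ℕ) (h : ∀ a, ∑ i, f i a ≤ g a) :
    ∑ i, ∑ a : {a // P i a}, f i a.1 ≤ ∑ a, g a := by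
  classical
  calc ∑ i, ∑ a : {a // P i a}, f i a.1 ≤ ∑ i, ∑ a, f i a := by
        apply Finset.sum_le_sum
        intro i _
        have h1 : ∑ a : {a // P i a}, f i a.1 = ∑ a ∈ Finset.univ.filter (P i), f i a := by
          rw [← Finset.sum_subtype (Finset.univ.filter (P i)) (by simp) (f i)]
        rw [h1]
        exact Finset.sum_le_sum_of_subset (Finset.subset_univ _)
    _ = ∑ a, ∑ i, f i a := Finset.sum_comm
    _ ≤ ∑ a, g a := Finset.sum_le_sum fun a _ => h a

theorem sum_ite_le (P : Pos n → Prop) [∀ i : Fin n, Decidable (P (true, i))] (c s : ℕ)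
    (hs : Nat.card {p // P p} ≤ s) : ∑ i : Fin n, (if P (true, i) then c else 0) ≤ c * s := by
  rw [← Finset.sum_filter, Finset.sum_const, smul_eq_mul, mul_comm]
  apply Nat.mul_le_mul_left
  refine le_trans ?_ hs
  rw [← Fintype.card_subtype, ← Nat.card_eq_fintype_card]
  apply Nat.card_le_card_of_injective
    (fun a : {i : Fin n // P (true, i)} => (⟨(true, a.1), a.2⟩ : {p // P p}))
  intro a a' h
  ext1
  have := congrArg (fun q => q.1.2) h
  exact this

theorem card_looks (V : View n d) : Nat.card {p // ∃ l, V.pos l = p} ≤ V.looks := by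
  have h1 : Nat.card (Fin V.looks) = V.looks := by simp
  conv_rhs => rw [← h1]
  apply Nat.card_le_card_of_surjective
    (fun l : Fin V.looks => (⟨V.pos l, l, rfl⟩ : {p // ∃ l, V.pos l = p}))
  rintro ⟨p, l, rfl⟩
  exact ⟨l, rfl⟩

open Classical in
theorem share_eq (M : Machine n d) (K : ℕ) (p : Pos n) : share M K p =
    ∑ v : M.NodesAt p, ((M.routine v.1.1).outcomes v.1.2 + ((M.routine v.1.1).view v.1.2).looks +
      K + Nat.card {q : Pos n // (∃ l, ((M.routine v.1.1).view v.1.2).pos l = p) ∧
        M.Sees q v.1.1 ((M.routine v.1.1).view v.1.2)}) +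
    ∑ u : M.RoutinesAt p, ∑ e, (((M.routine u.1).endView e).looks + K +
      Nat.card {q : Pos n // (∃ l, ((M.routine u.1).endView e).pos l = p) ∧
        M.Sees q u.1 ((M.routine u.1).endView e)}) := by
  have h1 : nOut M p = ∑ v : M.NodesAt p, (M.routine v.1.1).outcomes v.1.2 := by
    unfold nOut
    rw [Nat.card_sigma]
    simp
  have h2 : nLook M p = ∑ v : M.NodesAt p, ((M.routine v.1.1).view v.1.2).looks +
      ∑ e : M.EndsAt p, ((M.routine e.1.1).endView e.2).looks := by
    unfold nLook
    rw [Nat.card_sigma, Fintype.sum_sum_type]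
    simp [Machine.viewOf]
  have h3 : Nat.card (M.ViewsAt p) = ∑ _v : M.NodesAt p, 1 + ∑ _e : M.EndsAt p, 1 := by
    rw [Nat.card_sum, Finset.sum_const, Finset.sum_const, Finset.card_univ, Finset.card_univ,
      Nat.card_eq_fintype_card, Nat.card_eq_fintype_card]
    simp
  have h4 : Nat.card (M.PairsAt p) =
      ∑ v : M.NodesAt p, Nat.card {q : Pos n // (∃ l, ((M.routine v.1.1).view v.1.2).pos l = p) ∧
        M.Sees q v.1.1 ((M.routine v.1.1).view v.1.2)} +
      ∑ e : M.EndsAt p, Nat.card {q : Pos n //
        (∃ l, ((M.routine e.1.1).endView e.2).pos l = p) ∧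
        M.Sees q e.1.1 ((M.routine e.1.1).endView e.2)} := by
    rw [Nat.card_sigma, Fintype.sum_sum_type]
    rfl
  have h5 : ∀ f : M.EndsAt p → ℕ, ∑ e, f e = ∑ u : M.RoutinesAt p, ∑ e, f ⟨u, e⟩ :=
    fun f => Fintype.sum_sigma f
  unfold share
  rw [h1, h2, h3, h4, h5, h5, h5]
  simp only [Finset.sum_add_distrib, mul_add, Finset.mul_sum, mul_one]
  ring

open Classical in
theorem sum_share (M : Machine n d) (K : ℕ) :
    ∑ i : Fin n, share M K (true, i) ≤ 2 * M.cost K := by
  let c : M.Node → ℕ := fun v => (M.routine v.1).outcomes v.2 + ((M.routine v.1).view v.2).looks + K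
  let s : M.Node → ℕ := fun v => Nat.card {q // M.Sees q v.1 ((M.routine v.1).view v.2)}
  let F : Fin n → M.Node → ℕ := fun i v =>
    (if M.Sees (true, i) v.1 ((M.routine v.1).view v.2) then c v else 0) +
    (if ∃ l, ((M.routine v.1).view v.2).pos l = (true, i) then s v else 0)
  let s' : Fin (M.last + 1) → ℕ := fun u => Nat.card {q // M.RoutineSees q u}
  let G : Fin n → Fin (M.last + 1) → ℕ := fun i u =>
    ∑ e, ((if M.RoutineSees (true, i) u then ((M.routine u).endView e).looks + K else 0) +
      (if ∃ l, ((M.routine u).endView e).pos l = (true, i) then s' u else 0))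
  have hF : ∀ v, ∑ i, F i v ≤ 2 * (c v * s v) := by
    intro v
    simp only [F]
    rw [Finset.sum_add_distrib]
    have h1 := sum_ite_le (fun p => M.Sees p v.1 ((M.routine v.1).view v.2)) (c v) (s v) le_rfl
    have h2 := sum_ite_le (fun p => ∃ l, ((M.routine v.1).view v.2).pos l = p) (s v) _
      (card_looks _)
    have h3 : s v * ((M.routine v.1).view v.2).looks ≤ c v * s v := by
      rw [mul_comm]
      apply Nat.mul_le_mul_right
      simp only [c]
      omega
    omega
  have hG : ∀ u, ∑ i, G i u ≤ 2 * ∑ e, (((M.routine u).endView e).looks + K) * s' u := by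
    intro u
    simp only [G]
    rw [Finset.sum_comm, Finset.mul_sum]
    apply Finset.sum_le_sum
    intro e _
    rw [Finset.sum_add_distrib]
    have h1 := sum_ite_le (fun p : Pos n => M.RoutineSees p u) (((M.routine u).endView e).looks + K)
      (s' u) le_rfl
    have h2 := sum_ite_le (fun p => ∃ l, ((M.routine u).endView e).pos l = p) (s' u) _
      (card_looks _)
    have h3 : s' u * ((M.routine u).endView e).looks ≤
        (((M.routine u).endView e).looks + K) * s' u := by
      rw [mul_comm]
      apply Nat.mul_le_mul_right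
      omega
    omega
  have hsh : ∀ i : Fin n, share M K (true, i) ≤
      ∑ v : M.NodesAt (true, i), F i v.1 + ∑ u : M.RoutinesAt (true, i), G i u.1 := by
    intro i
    rw [share_eq]
    apply Nat.add_le_add
    · apply Finset.sum_le_sum
      intro v _
      simp only [F]
      rw [if_pos v.2]
      apply Nat.add_le_add_left
      by_cases hl : ∃ l, ((M.routine v.1.1).view v.1.2).pos l = (true, i)
      · rw [if_pos hl]
        apply Nat.card_le_card_of_injective
          (fun a : {q : Pos n // (∃ l, ((M.routine v.1.1).view v.1.2).pos l = (true, i)) ∧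
            M.Sees q v.1.1 ((M.routine v.1.1).view v.1.2)} =>
            (⟨a.1, a.2.2⟩ : {q // M.Sees q v.1.1 ((M.routine v.1.1).view v.1.2)}))
        intro a a' h
        ext1
        exact congrArg (fun q => q.1) h
      · rw [if_neg hl, Nat.le_zero, Finite.card_eq_zero_iff]
        exact ⟨fun a => hl a.2.1⟩
    · apply Finset.sum_le_sum
      intro u _
      simp only [G]
      apply Finset.sum_le_sum
      intro e _
      rw [if_pos u.2]
      apply Nat.add_le_add_left
      by_cases hl : ∃ l, ((M.routine u.1).endView e).pos l = (true, i)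
      · rw [if_pos hl]
        apply Nat.card_le_card_of_injective
          (fun a : {q : Pos n // (∃ l, ((M.routine u.1).endView e).pos l = (true, i)) ∧
            M.Sees q u.1 ((M.routine u.1).endView e)} =>
            (⟨a.1, Or.inr ⟨e, a.2.2⟩⟩ : {q // M.RoutineSees q u.1}))
        intro a a' h
        ext1
        exact congrArg (fun q => q.1) h
      · rw [if_neg hl, Nat.le_zero, Finite.card_eq_zero_iff]
        exact ⟨fun a => hl a.2.1⟩
  have hA : ∑ i : Fin n, ∑ v : M.NodesAt (true, i), F i v.1 ≤ ∑ v, 2 * (c v * s v) :=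
    sum_subtype_le (fun i (v : M.Node) => M.Sees (true, i) v.1 ((M.routine v.1).view v.2)) F _ hF
  have hB : ∑ i : Fin n, ∑ u : M.RoutinesAt (true, i), G i u.1 ≤ ∑ u : Fin (M.last + 1),
      2 * ∑ e, (((M.routine u).endView e).looks + K) * s' u :=
    sum_subtype_le (fun i (u : Fin (M.last + 1)) => M.RoutineSees (true, i) u) G _ hG
  have hC : ∑ v, 2 * (c v * s v) + ∑ u : Fin (M.last + 1),
      2 * ∑ e, (((M.routine u).endView e).looks + K) * s' u = 2 * M.cost K := by
    unfold Machine.cost
    rw [Fintype.sum_sigma, ← Finset.sum_add_distrib, Finset.mul_sum]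
    apply Finset.sum_congr rfl
    intro u _
    rw [← Finset.mul_sum, mul_add]
    congr 2
    apply Finset.sum_congr rfl
    intro v _
    simp only [c, s]
    congr 1
    ring
  have hD : ∑ i : Fin n, share M K (true, i) ≤ ∑ i : Fin n,
      (∑ v : M.NodesAt (true, i), F i v.1 + ∑ u : M.RoutinesAt (true, i), G i u.1) :=
    Finset.sum_le_sum fun i _ => hsh i
  rw [Finset.sum_add_distrib] at hD
  rw [← hC]
  exact hD.trans (Nat.add_le_add hA hB)

open Classical in
/-- The average-case lower bound for deterministic machines, in combinatorial form. -/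
theorem deterministic_bound {m w J : ℕ} (K : ℕ) (M : Machine n d) (hM : M.Steps J)
    (code : Fin n → Fin m → Bool) (hn : 1 ≤ n) (hw : 1 ≤ w)
    (hcorrect : ∀ (i : Fin n) (b : Fin n → Fin w → Bool) (z : Fin n × Fin w),
      (HasOrthogonalPair (hard d code i b z) ↔ b z.1 z.2 = true))
    (herr : 57 * (Finset.univ.filter fun τ : Fin n × (Fin n → Fin w → Bool) × (Fin n × Fin w) =>
      ¬ M.CorrectOn (hard d code τ.1 τ.2.1 τ.2.2)).card ≤ 20 * (n * (2 ^ (n * w) * (n * w)))) :
    ∃ p : Pos n, share M K p * n ≤ 32 * M.cost K ∧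
      32 ^ (n * w) ≤ 16 ^ 5 * ((Nat.card (M.ViewsAt p) + 1) ^ nOut M p *
        ((Nat.card (M.ViewsAt p) + 1) ^ Nat.card (M.RoutinesAt p) *
        ((2 ^ w) ^ nLook M p *
        ((2 * (J * (n * w)) + 1) ^ Nat.card (M.ViewsAt p) *
        ((2 ^ w) ^ Nat.card (M.PairsAt p) * 2))))) ^ 5 * 29 ^ (n * w) := by
  set N := n * w with hN
  have hN1 : 1 ≤ N := Nat.mul_pos hn hw
  have hcT : Fintype.card (Fin n × Fin w) = N := by simp [hN]
  have hcX : Fintype.card (Fin n → Fin w → Bool) = 2 ^ N := by
    simp only [Fintype.card_fun, Fintype.card_bool, Fintype.card_fin]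
    rw [← pow_mul, hN, mul_comm]
  let E : Fin n → ℕ := fun i => (Finset.univ.filter fun τ :
      (Fin n → Fin w → Bool) × (Fin n × Fin w) => ¬ M.CorrectOn (hard d code i τ.1 τ.2)).card
  have hE : (Finset.univ.filter fun τ : Fin n × (Fin n → Fin w → Bool) × (Fin n × Fin w) =>
      ¬ M.CorrectOn (hard d code τ.1 τ.2.1 τ.2.2)).card = ∑ i, E i := by
    simp only [E, Finset.card_filter]
    rw [Fintype.sum_prod_type]
  rw [hE] at herr
  let G : Finset (Fin n) := Finset.univ.filter fun i => 8 * E i ≤ 3 * (2 ^ N * N)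
  have hG : n ≤ 16 * G.card := by
    have h1 : (Gᶜ).card * (3 * (2 ^ N * N)) ≤ 8 * ∑ i, E i := by
      calc (Gᶜ).card * (3 * (2 ^ N * N)) = ∑ _i ∈ Gᶜ, 3 * (2 ^ N * N) := by
            rw [Finset.sum_const, smul_eq_mul]
        _ ≤ ∑ i ∈ Gᶜ, 8 * E i := by
            apply Finset.sum_le_sum
            intro i hi
            simp only [G, Finset.mem_compl, Finset.mem_filter, Finset.mem_univ, true_and,
              not_le] at hi
            exact hi.le
        _ ≤ ∑ i, 8 * E i := Finset.sum_le_sum_of_subset (Finset.subset_univ _)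
        _ = 8 * ∑ i, E i := by rw [Finset.mul_sum]
    have h2 : (Gᶜ).card + G.card = n := by
      rw [Finset.card_compl_add_card, Fintype.card_fin]
    have h3 : 171 * (Gᶜ).card * (2 ^ N * N) ≤ 160 * n * (2 ^ N * N) := by
      calc 171 * (Gᶜ).card * (2 ^ N * N) = 57 * ((Gᶜ).card * (3 * (2 ^ N * N))) := by ring
        _ ≤ 57 * (8 * ∑ i, E i) := Nat.mul_le_mul_left 57 h1
        _ = 8 * (57 * ∑ i, E i) := by ring
        _ ≤ 8 * (20 * (n * (2 ^ N * N))) := Nat.mul_le_mul_left 8 herr
        _ = 160 * n * (2 ^ N * N) := by ring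
    have h4 : 171 * (Gᶜ).card ≤ 160 * n := Nat.le_of_mul_le_mul_right h3 (by positivity)
    omega
  have hsum := sum_share M K
  obtain ⟨i, hiG, hi⟩ : ∃ i ∈ G, share M K (true, i) * n ≤ 32 * M.cost K := by
    by_contra hcon
    push Not at hcon
    have h1 : G.card * (32 * M.cost K + 1) ≤ 2 * M.cost K * n := by
      calc G.card * (32 * M.cost K + 1) = ∑ _i ∈ G, (32 * M.cost K + 1) := by
            rw [Finset.sum_const, smul_eq_mul]
        _ ≤ ∑ i ∈ G, share M K (true, i) * n := Finset.sum_le_sum fun i hi => hcon i hi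
        _ ≤ ∑ i, share M K (true, i) * n := Finset.sum_le_sum_of_subset (Finset.subset_univ _)
        _ = (∑ i, share M K (true, i)) * n := by rw [Finset.sum_mul]
        _ ≤ 2 * M.cost K * n := Nat.mul_le_mul_right n hsum
    have h2 : n * (32 * M.cost K + 1) ≤ 16 * (2 * M.cost K * n) := by
      calc n * (32 * M.cost K + 1) ≤ 16 * G.card * (32 * M.cost K + 1) :=
            Nat.mul_le_mul_right _ hG
        _ = 16 * (G.card * (32 * M.cost K + 1)) := by ring
        _ ≤ 16 * (2 * M.cost K * n) := Nat.mul_le_mul_left 16 h1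
    nlinarith
  refine ⟨(true, i), hi, ?_⟩
  -- good strings
  have hEi : 8 * E i ≤ 3 * (2 ^ N * N) := by simpa [G] using hiG
  let e : (Fin n → Fin w → Bool) → ℕ := fun b =>
    (Finset.univ.filter fun z => ¬ M.CorrectOn (hard d code i b z)).card
  have he : E i = ∑ b, e b := by
    simp only [E, e, Finset.card_filter]
    rw [Fintype.sum_prod_type]
  let Gb : Finset (Fin n → Fin w → Bool) := Finset.univ.filter fun b => 5 * e b ≤ 2 * N
  have hGb : 2 ^ N ≤ 16 * Gb.card := by
    have h1 : (Gbᶜ).card * (2 * N) ≤ 5 * E i := by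
      calc (Gbᶜ).card * (2 * N) = ∑ _b ∈ Gbᶜ, 2 * N := by
            rw [Finset.sum_const, smul_eq_mul]
        _ ≤ ∑ b ∈ Gbᶜ, 5 * e b := by
            apply Finset.sum_le_sum
            intro b hb
            simp only [Gb, Finset.mem_compl, Finset.mem_filter, Finset.mem_univ, true_and,
              not_le] at hb
            exact hb.le
        _ ≤ ∑ b, 5 * e b := Finset.sum_le_sum_of_subset (Finset.subset_univ _)
        _ = 5 * E i := by rw [he, Finset.mul_sum]
    have h2 : (Gbᶜ).card + Gb.card = 2 ^ N := by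
      rw [Finset.card_compl_add_card, hcX]
    have h3 : (16 * (Gbᶜ).card) * N ≤ (15 * 2 ^ N) * N := by
      calc (16 * (Gbᶜ).card) * N = 8 * ((Gbᶜ).card * (2 * N)) := by ring
        _ ≤ 8 * (5 * E i) := Nat.mul_le_mul_left 8 h1
        _ = 5 * (8 * E i) := by ring
        _ ≤ 5 * (3 * (2 ^ N * N)) := Nat.mul_le_mul_left 5 hEi
        _ = (15 * 2 ^ N) * N := by ring
    have h4 : 16 * (Gbᶜ).card ≤ 15 * 2 ^ N := Nat.le_of_mul_le_mul_right h3 (by omega)
    omega
  -- split according to the signature
  let z0 : Fin n × Fin w := (⟨0, by omega⟩, ⟨0, by omega⟩)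
  let S : Type := Sig M (true, i) w J (Fintype.card (Fin n × Fin w))
  have hfinS : Finite S := finite_sig w J (Fintype.card (Fin n × Fin w)) M (true, i)
  let instS : Fintype S := Fintype.ofFinite S
  let fib : S → Finset (Fin n → Fin w → Bool) := fun σ =>
    Finset.univ.filter fun b : Fin n → Fin w → Bool =>
      5 * (Finset.univ.filter fun z => ¬ M.CorrectOn (hard d code i b z)).card ≤ 2 * (n * w) ∧
      sig M (true, i) (hard d code i) w J z0 bits b = σ
  have hfib : ∀ σ, (fib σ).card ^ 5 ≤ 29 ^ N := fun σ => fiber_card M hM code i z0 σ (hcorrect i)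
  have hcover : Gb ⊆ Finset.univ.biUnion fib := by
    intro b hb
    have hb' : 5 * e b ≤ 2 * N := by simpa [Gb] using hb
    rw [Finset.mem_biUnion]
    refine ⟨sig M (true, i) (hard d code i) w J z0 bits b, Finset.mem_univ _, ?_⟩
    simp only [fib, Finset.mem_filter, Finset.mem_univ, true_and]
    exact ⟨hb', trivial⟩
  obtain ⟨D, hD1, hD2⟩ : ∃ D : ℕ, D ^ 5 ≤ 29 ^ N ∧ ∀ σ, (fib σ).card ≤ D := by
    obtain ⟨σ, _, hσ⟩ := Finset.exists_max_image (Finset.univ : Finset S)
      (fun σ => (fib σ).card) ⟨(fun _ => none, fun _ => none, fun _ _ => false, fun _ => 0,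
        fun _ _ => false, false), Finset.mem_univ _⟩
    exact ⟨(fib σ).card, hfib σ, fun τ => hσ τ (Finset.mem_univ _)⟩
  have hGb2 : Gb.card ≤ Fintype.card S * D := by
    calc Gb.card ≤ (Finset.univ.biUnion fib).card := Finset.card_le_card hcover
      _ ≤ Finset.univ.card * D := Finset.card_biUnion_le_card_mul _ _ _ fun σ _ => hD2 σ
      _ = Fintype.card S * D := by rw [Finset.card_univ]
  have hS : Fintype.card S = (Nat.card (M.ViewsAt (true, i)) + 1) ^ nOut M (true, i) *
        ((Nat.card (M.ViewsAt (true, i)) + 1) ^ Nat.card (M.RoutinesAt (true, i)) *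
        ((2 ^ w) ^ nLook M (true, i) *
        ((2 * (J * N) + 1) ^ Nat.card (M.ViewsAt (true, i)) *
        ((2 ^ w) ^ Nat.card (M.PairsAt (true, i)) * 2)))) := by
    have h1 := card_sig w J (Fintype.card (Fin n × Fin w)) M (true, i)
    rw [Nat.card_eq_fintype_card.symm.trans (show Nat.card S = _ from h1), hcT]
  rw [← hS]
  have h32 : (32 : ℕ) ^ N = (2 ^ N) ^ 5 := by
    rw [show (32 : ℕ) = 2 ^ 5 by norm_num, ← pow_mul, ← pow_mul, mul_comm]
  calc 32 ^ N = (2 ^ N) ^ 5 := h32
    _ ≤ (16 * (Fintype.card S * D)) ^ 5 :=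
        Nat.pow_le_pow_left (hGb.trans (Nat.mul_le_mul_left 16 hGb2)) 5
    _ = 16 ^ 5 * (Fintype.card S) ^ 5 * D ^ 5 := by ring
    _ ≤ 16 ^ 5 * (Fintype.card S) ^ 5 * 29 ^ N := Nat.mul_le_mul_left _ hD1

/-! ### Averaging over the random choices -/

open Classical in
theorem exists_good {Ω : Type} (μ : PMF Ω) {T : Type} [Fintype T] [Nonempty T] (C : Ω → T → Prop)
    (hx : ∀ τ, (2 / 3 : ENNReal) ≤ μ.toOuterMeasure {ω | C ω τ}) (f : Ω → ℕ) (e : ENNReal)
    (he : e ≠ ⊤) (hf : ∑' ω, μ ω * (f ω : ENNReal) < e) :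
    ∃ ω ∈ μ.support,
      57 * (Finset.univ.filter fun τ => ¬ C ω τ).card ≤ 20 * Fintype.card T ∧
      (f ω : ENNReal) ≤ 20 * e := by
  by_contra hcon
  push Not at hcon
  have herr : ∀ τ, μ.toOuterMeasure {ω | ¬ C ω τ} ≤ 1 / 3 := by
    intro τ
    have h1 : μ.toOuterMeasure {ω | C ω τ} + μ.toOuterMeasure {ω | ¬ C ω τ} = 1 := by
      rw [PMF.toOuterMeasure_apply, PMF.toOuterMeasure_apply, ← ENNReal.tsum_add,
        ← PMF.tsum_coe μ]
      congr 1
      funext ω
      by_cases h : C ω τ <;> simp [Set.indicator, h]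
    have h2 : (2 / 3 : ENNReal) + μ.toOuterMeasure {ω | ¬ C ω τ} ≤ 2 / 3 + 1 / 3 := by
      calc (2 / 3 : ENNReal) + μ.toOuterMeasure {ω | ¬ C ω τ}
          ≤ μ.toOuterMeasure {ω | C ω τ} + μ.toOuterMeasure {ω | ¬ C ω τ} := by
            gcongr
            exact hx τ
        _ = 1 := h1
        _ = 2 / 3 + 1 / 3 := by
            rw [← ENNReal.add_div]
            norm_num
            rw [ENNReal.div_self (by norm_num) (by norm_num)]
    exact (ENNReal.add_le_add_iff_left (ENNReal.div_ne_top (by norm_num) (by norm_num))).1 h2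
  let bad : Ω → ℕ := fun ω => (Finset.univ.filter fun τ => ¬ C ω τ).card
  have hbad : ∑' ω, μ ω * (3 * (bad ω : ENNReal)) ≤ Fintype.card T := by
    have h1 : ∀ ω : Ω, μ ω * (3 * (bad ω : ENNReal)) =
        3 * ∑ τ : T, {ω | ¬ C ω τ}.indicator μ ω := by
      intro ω
      simp only [bad]
      rw [Finset.card_filter]
      push_cast
      rw [← mul_assoc, mul_comm (μ ω) 3, mul_assoc, Finset.mul_sum]
      congr 1
      apply Finset.sum_congr rfl
      intro τ _
      by_cases h : C ω τ <;> simp [Set.indicator, h]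
    calc ∑' ω, μ ω * (3 * (bad ω : ENNReal))
        = ∑' ω, 3 * ∑ τ : T, {ω | ¬ C ω τ}.indicator μ ω := by
          congr 1
          funext ω
          exact h1 ω
      _ = 3 * ∑ τ : T, μ.toOuterMeasure {ω | ¬ C ω τ} := by
          rw [ENNReal.tsum_mul_left, Summable.tsum_finsetSum (fun _ _ => ENNReal.summable)]
          simp only [PMF.toOuterMeasure_apply]
      _ ≤ 3 * ∑ _τ : T, (1 / 3 : ENNReal) := by
          gcongr with τ _
          exact herr τ
      _ = Fintype.card T := by
          rw [Finset.sum_const, Finset.card_univ, nsmul_eq_mul, mul_comm, mul_assoc]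
          rw [ENNReal.div_mul_cancel (by norm_num) (by norm_num), mul_one]
  have hcT : (Fintype.card T : ENNReal) ≠ 0 := by
    exact_mod_cast Fintype.card_ne_zero
  have hlow : 20 * e * (Fintype.card T : ENNReal) ≤
      ∑' ω, μ ω * (57 * (bad ω : ENNReal) * e + (f ω : ENNReal) * Fintype.card T) := by
    calc 20 * e * (Fintype.card T : ENNReal) =
          ∑' ω, μ ω * (20 * e * (Fintype.card T : ENNReal)) := by
            rw [ENNReal.tsum_mul_right, PMF.tsum_coe, one_mul]
      _ ≤ _ := by
          apply ENNReal.tsum_le_tsum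
          intro ω
          by_cases hω : μ ω = 0
          · simp [hω]
          · gcongr
            by_cases h1 : 57 * bad ω ≤ 20 * Fintype.card T
            · have h2 := hcon ω ((PMF.mem_support_iff μ ω).2 hω) h1
              calc 20 * e * (Fintype.card T : ENNReal) ≤ f ω * Fintype.card T := by
                    gcongr
                _ ≤ _ := le_add_self
            · rw [not_le] at h1
              have h2 : (20 * Fintype.card T : ENNReal) ≤ 57 * bad ω := by exact_mod_cast h1.le
              calc 20 * e * (Fintype.card T : ENNReal) = 20 * Fintype.card T * e := by ring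
                _ ≤ 57 * bad ω * e := by gcongr
                _ ≤ _ := le_self_add
  have hup : ∑' ω, μ ω * (57 * (bad ω : ENNReal) * e + (f ω : ENNReal) * Fintype.card T) =
      19 * e * ∑' ω, μ ω * (3 * (bad ω : ENNReal)) +
      Fintype.card T * ∑' ω, μ ω * (f ω : ENNReal) := by
    rw [← ENNReal.tsum_mul_left, ← ENNReal.tsum_mul_left, ← ENNReal.tsum_add]
    congr 1
    funext ω
    ring
  have hlt : 19 * e * ∑' ω, μ ω * (3 * (bad ω : ENNReal)) +
      Fintype.card T * ∑' ω, μ ω * (f ω : ENNReal) <
      19 * e * Fintype.card T + Fintype.card T * e := by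
    apply ENNReal.add_lt_add_of_le_of_lt
    · apply ENNReal.mul_ne_top
      · exact ENNReal.mul_ne_top (by norm_num) he
      · exact ne_top_of_le_ne_top (ENNReal.natCast_ne_top _) hbad
    · gcongr
    · exact (ENNReal.mul_lt_mul_iff_right hcT (ENNReal.natCast_ne_top _)).2 hf
  rw [← hup] at hlt
  have h3 := hlow.trans_lt hlt
  have h4 : 19 * e * (Fintype.card T : ENNReal) + Fintype.card T * e =
      20 * e * Fintype.card T := by ring
  rw [h4] at h3
  exact lt_irrefl _ h3

/-! ### Numerics -/

theorem card_routinesAt_le (M : Machine n d) (p : Pos n) :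
    Nat.card (M.RoutinesAt p) ≤ Nat.card (M.ViewsAt p) := by
  classical
  have h : ∀ u : M.RoutinesAt p, ∃ a : M.ViewsAt p, M.routOf p a = u.1 := by
    intro u
    by_cases hv : ∃ v, M.Sees p u.1 ((M.routine u.1).view v)
    · obtain ⟨v, hv⟩ := hv
      exact ⟨Sum.inl ⟨⟨u.1, v⟩, hv⟩, rfl⟩
    · obtain ⟨e, _⟩ := u.2.resolve_left hv
      exact ⟨Sum.inr ⟨u, e⟩, rfl⟩
  choose f hf using h
  apply Nat.card_le_card_of_injective f
  intro u u' huu
  ext1
  rw [← hf u, ← hf u', huu]

theorem numeric {n K w a l U V P : ℕ} (hn : 1000 ≤ n) (hK : 1 ≤ K) (hw : 1 ≤ w)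
    (hnw : n ≤ 2 ^ w) (hU : U ≤ V) (hc : 10000 * (a + l + K * V + P) ≤ n)
    (h : 32 ^ (n * w) ≤ 16 ^ 5 * ((V + 1) ^ a * ((V + 1) ^ U * ((2 ^ w) ^ l *
        ((2 * (n ^ K * (n * w)) + 1) ^ V * ((2 ^ w) ^ P * 2))))) ^ 5 * 29 ^ (n * w)) : False := by
  set c := a + l + K * V + P with hcdef
  have hKV : V ≤ K * V := Nat.le_mul_of_pos_left V hK
  have hV : V + 1 ≤ 2 ^ w := by omega
  have hM : 2 * (n ^ K * (n * w)) + 1 ≤ 2 ^ (5 * K * w) := by
    have h1 : n ^ K ≤ 2 ^ (w * K) := by
      rw [pow_mul]
      exact Nat.pow_le_pow_left hnw K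
    have h2 : w ≤ 2 ^ w := Nat.lt_two_pow_self.le
    have h3 : n ^ K * (n * w) ≤ 2 ^ (w * K + w + w) := by
      rw [pow_add, pow_add, mul_assoc]
      exact Nat.mul_le_mul h1 (Nat.mul_le_mul hnw h2)
    have h4 : 2 * (n ^ K * (n * w)) + 1 ≤ 2 ^ (w * K + w + w + 2) := by
      have h5 : 1 ≤ 2 ^ (w * K + w + w) := Nat.one_le_two_pow
      calc 2 * (n ^ K * (n * w)) + 1 ≤ 2 * 2 ^ (w * K + w + w) + 1 := by omega
        _ ≤ 4 * 2 ^ (w * K + w + w) := by omega
        _ = 2 ^ (w * K + w + w + 2) := by rw [pow_add _ _ 2]; ring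
    refine h4.trans (Nat.pow_le_pow_right (by norm_num) ?_)
    have h6 : w ≤ w * K := Nat.le_mul_of_pos_right w hK
    calc w * K + w + w + 2 ≤ w * K + w * K + w * K + (w * K + w * K) := by omega
      _ = 5 * K * w := by ring
  have hS : (V + 1) ^ a * ((V + 1) ^ U * ((2 ^ w) ^ l *
        ((2 * (n ^ K * (n * w)) + 1) ^ V * ((2 ^ w) ^ P * 2)))) ≤ 2 ^ (6 * (w * c) + 1) := by
    calc (V + 1) ^ a * ((V + 1) ^ U * ((2 ^ w) ^ l *
        ((2 * (n ^ K * (n * w)) + 1) ^ V * ((2 ^ w) ^ P * 2))))
        ≤ (2 ^ w) ^ a * ((2 ^ w) ^ U * ((2 ^ w) ^ l *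
        ((2 ^ (5 * K * w)) ^ V * ((2 ^ w) ^ P * 2)))) := by
          gcongr
      _ = 2 ^ (w * a + (w * U + (w * l + (5 * K * w * V + (w * P + 1))))) := by
          simp only [← pow_mul, ← pow_add, ← pow_succ]
      _ ≤ 2 ^ (6 * (w * c) + 1) := by
          apply Nat.pow_le_pow_right (by norm_num)
          have h1 : w * U ≤ w * (K * V) := Nat.mul_le_mul_left w (hU.trans hKV)
          have h2 : 5 * K * w * V = 5 * (w * (K * V)) := by ring
          have h3 : w * c = w * a + w * l + w * (K * V) + w * P := by
            rw [hcdef]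
            ring
          omega
  have h2 : 32 ^ (n * w) ≤ 2 ^ (25 + 30 * (w * c)) * 29 ^ (n * w) := by
    refine h.trans (Nat.mul_le_mul_right _ ?_)
    calc 16 ^ 5 * ((V + 1) ^ a * ((V + 1) ^ U * ((2 ^ w) ^ l *
        ((2 * (n ^ K * (n * w)) + 1) ^ V * ((2 ^ w) ^ P * 2))))) ^ 5
        ≤ 16 ^ 5 * (2 ^ (6 * (w * c) + 1)) ^ 5 := by gcongr
      _ = 2 ^ (25 + 30 * (w * c)) := by
          rw [show (16 : ℕ) = 2 ^ 4 by norm_num, ← pow_mul, ← pow_mul, ← pow_add]
          congr 1
          ring
  have h3 : 10 * (25 + 30 * (w * c)) ≤ n * w := by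
    have h4 : 10000 * (w * c) ≤ n * w := by
      calc 10000 * (w * c) = (10000 * c) * w := by ring
        _ ≤ n * w := Nat.mul_le_mul_right w hc
    have h5 : 1000 ≤ n * w := le_trans hn (Nat.le_mul_of_pos_right n hw)
    omega
  have h4 : (32 ^ 10) ^ (n * w) ≤ (2 * 29 ^ 10) ^ (n * w) := by
    calc (32 ^ 10) ^ (n * w) = (32 ^ (n * w)) ^ 10 := by rw [← pow_mul, ← pow_mul, mul_comm]
      _ ≤ (2 ^ (25 + 30 * (w * c)) * 29 ^ (n * w)) ^ 10 := Nat.pow_le_pow_left h2 10
      _ = 2 ^ (10 * (25 + 30 * (w * c))) * (29 ^ 10) ^ (n * w) := by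
          rw [mul_pow, ← pow_mul, ← pow_mul, ← pow_mul, mul_comm 10, mul_comm 10]
      _ ≤ 2 ^ (n * w) * (29 ^ 10) ^ (n * w) :=
          Nat.mul_le_mul_right _ (Nat.pow_le_pow_right (by norm_num) h3)
      _ = (2 * 29 ^ 10) ^ (n * w) := by rw [mul_pow]
  have h5 : (2 * 29 ^ 10) ^ (n * w) < (32 ^ 10) ^ (n * w) := by
    apply Nat.pow_lt_pow_left (by norm_num)
    have : 1 ≤ n * w := Nat.mul_pos (by omega) hw
    omega
  omega

/-! ### The lower bound -/

/-- A machine of cost `0` has the same result on all inputs. -/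
theorem result_of_blind (M : Machine n d) {K : ℕ} (hK : 1 ≤ K) (h : M.cost K = 0)
    (x y : Input n d) : M.result x M.last = M.result y M.last := by
  apply M.result_congr
  intro p hp
  exfalso
  unfold Machine.cost at h
  have h1 := (Finset.sum_eq_zero_iff.1 h) ⟨M.last, by omega⟩ (Finset.mem_univ _)
  rw [Nat.add_eq_zero_iff] at h1
  obtain ⟨h2, h3⟩ := h1
  rcases hp with ⟨v, hv⟩ | ⟨e, he⟩
  · have h4 := (Finset.sum_eq_zero_iff.1 h2) v (Finset.mem_univ _)
    rcases Nat.mul_eq_zero.1 h4 with h5 | h5
    · omega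
    · rw [Finite.card_eq_zero_iff] at h5
      exact h5.elim ⟨p, hv⟩
  · have h4 := (Finset.sum_eq_zero_iff.1 h3) e (Finset.mem_univ _)
    rcases Nat.mul_eq_zero.1 h4 with h5 | h5
    · omega
    · rw [Finite.card_eq_zero_iff] at h5
      exact h5.elim ⟨p, Or.inr ⟨e, he⟩⟩

theorem lower : ∃ c : ℝ, 0 < c ∧ ∀ (n d K : ℕ), 2 ≤ n → 4 * Nat.clog 2 n + 1 ≤ d → 1 ≤ K →
    ∀ μ : PMF (Machine n d), (∀ M ∈ μ.support, M.Steps (n ^ K)) →
      (∀ x : Input n d, IsValid x →
        (2 / 3 : ENNReal) ≤ μ.toOuterMeasure {M | M.CorrectOn x}) →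
      ENNReal.ofReal (c * n ^ 2) ≤ ∑' M, μ M * (M.cost K : ENNReal) := by
  classical
  refine ⟨1 / 10 ^ 8, by norm_num, ?_⟩
  intro n d K hn hd hK μ hμ hx
  obtain ⟨code, hcode⟩ := exists_code (n := n) (m := Nat.clog 2 n)
    (Nat.le_pow_clog (by norm_num) n)
  have hw : 1 ≤ Nat.clog 2 n := Nat.clog_pos (by norm_num) hn
  have hnw : n ≤ 2 ^ Nat.clog 2 n := Nat.le_pow_clog (by norm_num) n
  generalize Nat.clog 2 n = w at hd code hcode hw hnw
  have hd' : 3 * w + 1 + w ≤ d := by omega
  have hcorrect : ∀ (i : Fin n) (b : Fin n → Fin w → Bool) (z : Fin n × Fin w),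
      (HasOrthogonalPair (hard d code i b z) ↔ b z.1 z.2 = true) :=
    fun i b z => hard_hasOrthogonalPair hd' code hcode i b z
  by_contra hcon
  rw [not_le] at hcon
  have hne : Nonempty (Fin n × (Fin n → Fin w → Bool) × (Fin n × Fin w)) :=
    ⟨(⟨0, by omega⟩, fun _ _ => false, (⟨0, by omega⟩, ⟨0, by omega⟩))⟩
  obtain ⟨M, hM, herr, hcost⟩ := exists_good μ
    (fun M (τ : Fin n × (Fin n → Fin w → Bool) × (Fin n × Fin w)) =>
      M.CorrectOn (hard d code τ.1 τ.2.1 τ.2.2))
    (fun τ => hx _ (hard_valid hd' code hcode _ _ _)) (fun M => M.cost K)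
    (ENNReal.ofReal (1 / 10 ^ 8 * n ^ 2)) ENNReal.ofReal_ne_top hcon
  have hcX : Fintype.card (Fin n → Fin w → Bool) = 2 ^ (n * w) := by
    simp only [Fintype.card_fun, Fintype.card_bool, Fintype.card_fin]
    rw [← pow_mul, mul_comm]
  have hcard : Fintype.card (Fin n × (Fin n → Fin w → Bool) × (Fin n × Fin w)) =
      n * (2 ^ (n * w) * (n * w)) := by
    rw [Fintype.card_prod, Fintype.card_prod, hcX, Fintype.card_prod, Fintype.card_fin,
      Fintype.card_fin]
  rw [hcard] at herr
  have hcost' : (M.cost K : ℝ) ≤ 20 * (1 / 10 ^ 8 * n ^ 2) := by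
    have h1 : (20 : ENNReal) * ENNReal.ofReal (1 / 10 ^ 8 * n ^ 2) =
        ENNReal.ofReal (20 * (1 / 10 ^ 8 * n ^ 2)) := by
      rw [ENNReal.ofReal_mul (by norm_num)]
      norm_num
    rw [h1, ← ENNReal.ofReal_natCast, ENNReal.ofReal_le_ofReal_iff (by positivity)] at hcost
    exact hcost
  rcases Nat.lt_or_ge n 1000 with hlt | hge
  · -- small `n`: the machine sees nothing
    have hc0 : M.cost K = 0 := by
      have h1 : (n : ℝ) ≤ 1000 := by exact_mod_cast hlt.le
      have h0 : (0 : ℝ) ≤ n := Nat.cast_nonneg n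
      have h2 : (M.cost K : ℝ) < 1 := by nlinarith
      have h3 : M.cost K < 1 := by exact_mod_cast h2
      omega
    -- flipping the string maps correct tests to incorrect ones
    let T := Fin n × (Fin n → Fin w → Bool) × (Fin n × Fin w)
    let bad : Finset T := Finset.univ.filter fun τ =>
      ¬ M.CorrectOn (hard d code τ.1 τ.2.1 τ.2.2)
    let flip : T → T := fun τ => (τ.1, (fun j c => !(τ.2.1 j c)), τ.2.2)
    have hflip : Function.Injective flip := by
      rintro ⟨i, b, z⟩ ⟨i', b', z'⟩ h
      have h1 : i = i' := congrArg Prod.fst h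
      have h2 : (fun j c => !(b j c)) = fun j c => !(b' j c) :=
        congrArg (fun y : T => y.2.1) h
      have h3 : z = z' := congrArg (fun y : T => y.2.2) h
      have h4 : b = b' := by
        funext j c
        have := congrFun (congrFun h2 j) c
        simpa using this
      rw [h1, h4, h3]
    have hmap : ∀ τ ∈ badᶜ, flip τ ∈ bad := by
      rintro ⟨i, b, z⟩ hτ
      simp only [bad, Finset.mem_compl, Finset.mem_filter, Finset.mem_univ, true_and,
        not_not] at hτ
      simp only [bad, flip, Finset.mem_filter, Finset.mem_univ, true_and]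
      intro hτ'
      unfold Machine.CorrectOn at hτ hτ'
      rw [hcorrect] at hτ hτ'
      rw [result_of_blind M hK hc0 _ (hard d code i b z)] at hτ'
      have h1 := hτ.symm.trans hτ'
      cases hbj : b z.1 z.2 <;> simp [hbj] at h1
    have h1 : (badᶜ).card ≤ bad.card :=
      Finset.card_le_card_of_injOn flip hmap hflip.injOn
    have h2 : (badᶜ).card + bad.card = n * (2 ^ (n * w) * (n * w)) := by
      rw [Finset.card_compl_add_card]
      exact hcard
    have h3 : 57 * bad.card ≤ 20 * (n * (2 ^ (n * w) * (n * w))) := herr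
    have h4 : 0 < n * (2 ^ (n * w) * (n * w)) := by
      have : 0 < n := by omega
      positivity
    omega
  · obtain ⟨p, h1, h2⟩ := deterministic_bound K M (hμ M hM) code (by omega) hw hcorrect herr
    refine numeric hge hK hw hnw (card_routinesAt_le M p) ?_ h2
    have h3 : (share M K p : ℝ) * n ≤ 32 * M.cost K := by exact_mod_cast h1
    have h4 : (1000 : ℝ) ≤ n := by exact_mod_cast hge
    have h5 : (10000 : ℝ) * (share M K p : ℝ) ≤ n := by
      by_contra h6
      rw [not_le] at h6
      have h7 : (n : ℝ) * n < 10000 * (share M K p : ℝ) * n :=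
        mul_lt_mul_of_pos_right h6 (by linarith)
      nlinarith
    have h8 : 10000 * share M K p ≤ n := by exact_mod_cast h5
    exact h8

/-! ### The upper bound -/

/-- The view of the inner nodes: one block of `h` vectors of each set. -/
def blockView (n d h q : ℕ) (hn : 1 ≤ n) (v : ℕ) : View n d where
  looks := 2 * h
  pos l := if l.1 < h then (false, ⟨min (v / q * h + l.1) (n - 1), by omega⟩)
    else (true, ⟨min (v % q * h + (l.1 - h)) (n - 1), by omega⟩)
  vec _ _ _ := 0
  weight _ := 0

/-- The view which sees nothing. -/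
def blindView (n d : ℕ) : View n d where
  looks := 0
  pos l := l.elim0
  vec _ _ _ := 0
  weight _ := 0

open Classical in
/-- The routine which tests all pairs of blocks. -/
noncomputable def blocks (n d h q : ℕ) (hn : 1 ≤ n) : Routine n d where
  size := q ^ 2
  ends := 2
  view v := blockView n d h q hn v.1
  outcomes _ := 2
  query _ y _ := if ∃ l l' : Fin h, ∑ c : Fin d, (y (⟨l.1, by omega⟩ : Fin (2 * h)) c).toNat *
    (y (⟨h + l'.1, by omega⟩ : Fin (2 * h)) c).toNat = 0 then 1 else 0
  next v r := if r = 1 then Sum.inr 1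
    else if hv : v.1 + 1 < q ^ 2 then Sum.inl ⟨v.1 + 1, hv⟩ else Sum.inr 0
  start := if h0 : 0 < q ^ 2 then Sum.inl ⟨0, h0⟩ else Sum.inr 0
  endView _ := blindView n d
  act e _ _ := if e = 1 then 1 else 0

theorem blocks_answer (n d h q : ℕ) (hn : 1 ≤ n) (x : Input n d) {u : ℕ} (e : Fin u → ℝ)
    (v : Fin (q ^ 2)) : (blocks n d h q hn).answer x e v = (1 : Fin 2) ↔
      ∃ l l' : Fin h, ∑ c : Fin d,
        (x (false, ⟨min (v.1 / q * h + l.1) (n - 1), by omega⟩) c).toNat *
        (x (true, ⟨min (v.1 % q * h + l'.1) (n - 1), by omega⟩) c).toNat = 0 := by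
  classical
  have h1 : (blocks n d h q hn).answer x e v = if ∃ l l' : Fin h, ∑ c : Fin d,
        (x ((blockView n d h q hn v.1).pos (⟨l.1, by omega⟩ : Fin (2 * h))) c).toNat *
        (x ((blockView n d h q hn v.1).pos (⟨h + l'.1, by omega⟩ : Fin (2 * h))) c).toNat = 0
        then (1 : Fin 2) else (0 : Fin 2) := rfl
  have h2 : ∀ l : Fin h, (blockView n d h q hn v.1).pos (⟨l.1, by omega⟩ : Fin (2 * h)) =
      (false, ⟨min (v.1 / q * h + l.1) (n - 1), by omega⟩) := by
    intro l
    show (if l.1 < h then _ else _) = _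
    rw [if_pos l.2]
  have h3 : ∀ l : Fin h, (blockView n d h q hn v.1).pos (⟨h + l.1, by omega⟩ : Fin (2 * h)) =
      (true, ⟨min (v.1 % q * h + l.1) (n - 1), by omega⟩) := by
    intro l
    show (if h + l.1 < h then _ else _) = _
    rw [if_neg (by omega)]
    congr 3
    simp only
    omega
  simp only [h2, h3] at h1
  rw [h1]
  split_ifs with h4
  · exact ⟨fun _ => h4, fun _ => rfl⟩
  · exact ⟨fun h5 => absurd h5 (show ¬ ((0 : Fin 2) = 1) by decide), fun h5 => absurd h5 h4⟩

theorem blocks_start (n d h q : ℕ) (hn : 1 ≤ n) (h0 : 0 < q ^ 2) :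
    (blocks n d h q hn).start = Sum.inl (⟨0, h0⟩ : Fin (q ^ 2)) := dif_pos h0

theorem blocks_next_one (n d h q : ℕ) (hn : 1 ≤ n) (v : Fin (q ^ 2)) (r : Fin 2) (hr : r = 1) :
    (blocks n d h q hn).next v r = Sum.inr (1 : Fin 2) := if_pos hr

theorem blocks_next_zero (n d h q : ℕ) (hn : 1 ≤ n) (v : Fin (q ^ 2)) (r : Fin 2) (hr : r ≠ 1)
    (hv : v.1 + 1 < q ^ 2) :
    (blocks n d h q hn).next v r = Sum.inl (⟨v.1 + 1, hv⟩ : Fin (q ^ 2)) :=
  (if_neg hr).trans (dif_pos hv)

theorem blocks_next_last (n d h q : ℕ) (hn : 1 ≤ n) (v : Fin (q ^ 2)) (r : Fin 2) (hr : r ≠ 1)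
    (hv : ¬ v.1 + 1 < q ^ 2) : (blocks n d h q hn).next v r = Sum.inr (0 : Fin 2) :=
  (if_neg hr).trans (dif_neg hv)

theorem blocks_run (n d h q : ℕ) (hn : 1 ≤ n) (x : Input n d) {u : ℕ} (e : Fin u → ℝ) :
    ∀ t (ht : t < q ^ 2), (∀ (u : ℕ) (hu : u < q ^ 2), u < t →
      (blocks n d h q hn).answer x e (⟨u, hu⟩ : Fin (q ^ 2)) ≠ (1 : Fin 2)) →
      ((blocks n d h q hn).step x e)^[t] (blocks n d h q hn).start =
        Sum.inl (⟨t, ht⟩ : Fin (q ^ 2)) := by
  intro t
  induction t with
  | zero =>
    intro ht _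
    exact blocks_start n d h q hn ht
  | succ t ih =>
    intro ht hu
    rw [Function.iterate_succ_apply', ih (by omega) fun u hu1 hu2 => hu u hu1 (by omega)]
    exact blocks_next_zero n d h q hn ⟨t, _⟩ _ (hu t (by omega) (by omega)) ht

theorem blocks_reaches (n d h q : ℕ) (hn : 1 ≤ n) (hh : 1 ≤ h) (hq : n ≤ q * h)
    (x : Input n d) {u : ℕ} (e : Fin u → ℝ) :
    (blocks n d h q hn).Reaches x e (1 : Fin 2) ↔ HasOrthogonalPair x := by
  classical
  have hq1 : 1 ≤ q := by
    rcases Nat.eq_zero_or_pos q with h0 | h0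
    · rw [h0, zero_mul] at hq
      omega
    · exact h0
  have hqq : 1 ≤ q ^ 2 := Nat.one_le_pow _ _ hq1
  have key : HasOrthogonalPair x ↔ ∃ (u : ℕ) (hu : u < q ^ 2),
      (blocks n d h q hn).answer x e (⟨u, hu⟩ : Fin (q ^ 2)) = (1 : Fin 2) := by
    constructor
    · rintro ⟨i, j, hij⟩
      have hi : i.1 / h < q := Nat.div_lt_of_lt_mul (lt_of_lt_of_le i.2 (by rw [mul_comm]; exact hq))
      have hj : j.1 / h < q := Nat.div_lt_of_lt_mul (lt_of_lt_of_le j.2 (by rw [mul_comm]; exact hq))
      have hu : i.1 / h * q + j.1 / h < q ^ 2 := by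
        calc i.1 / h * q + j.1 / h < i.1 / h * q + q := by omega
          _ = (i.1 / h + 1) * q := by ring
          _ ≤ q * q := Nat.mul_le_mul_right q hi
          _ = q ^ 2 := (sq q).symm
      refine ⟨_, hu, (blocks_answer n d h q hn x e ⟨_, hu⟩).2
        ⟨⟨i.1 % h, Nat.mod_lt _ hh⟩, ⟨j.1 % h, Nat.mod_lt _ hh⟩, ?_⟩⟩
      have e1 : (i.1 / h * q + j.1 / h) / q = i.1 / h := by
        rw [Nat.mul_comm, Nat.mul_add_div hq1, Nat.div_eq_of_lt hj, Nat.add_zero]
      have e2 : (i.1 / h * q + j.1 / h) % q = j.1 / h := by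
        rw [Nat.mul_comm, Nat.mul_add_mod, Nat.mod_eq_of_lt hj]
      have e3 : (⟨min ((i.1 / h * q + j.1 / h) / q * h + i.1 % h) (n - 1), by omega⟩ : Fin n) =
          i := by
        ext
        simp only [e1, Nat.div_add_mod']
        omega
      have e4 : (⟨min ((i.1 / h * q + j.1 / h) % q * h + j.1 % h) (n - 1), by omega⟩ : Fin n) =
          j := by
        ext
        simp only [e2, Nat.div_add_mod']
        omega
      simp only [e3, e4]
      exact hij
    · rintro ⟨u, hu, hv⟩
      obtain ⟨l, l', h1⟩ := (blocks_answer n d h q hn x e ⟨u, hu⟩).1 hv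
      exact ⟨_, _, h1⟩
  constructor
  · rintro ⟨t, ht⟩
    rw [key]
    by_contra hno
    push Not at hno
    have h1 : ((blocks n d h q hn).step x e)^[q ^ 2 - 1 + 1] (blocks n d h q hn).start =
        Sum.inr (0 : Fin 2) := by
      rw [Function.iterate_succ_apply', blocks_run n d h q hn x e (q ^ 2 - 1) (by omega)
        fun u hu _ => hno u hu]
      exact blocks_next_last n d h q hn ⟨q ^ 2 - 1, _⟩ _ (hno _ _) (by simp only; omega)
    rw [Routine.step_eq] at h1 ht
    have h2 := iterate_gstep_inr (blocks n d h q hn).next ((blocks n d h q hn).answer x e)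
      (1 : Fin 2) (q ^ 2 - 1 + 1)
    have h3 := iterate_gstep_inr (blocks n d h q hn).next ((blocks n d h q hn).answer x e)
      (0 : Fin 2) t
    rw [← ht, ← Function.iterate_add_apply, add_comm, Function.iterate_add_apply, h1] at h2
    have h4 : (0 : Fin 2) = 1 := Sum.inr.inj (h3.symm.trans (h2.trans ht))
    exact absurd h4 (by decide)
  · intro hx
    have hex := key.1 hx
    obtain ⟨hu, hv⟩ := Nat.find_spec hex
    refine ⟨Nat.find hex + 1, ?_⟩
    rw [Function.iterate_succ_apply', blocks_run n d h q hn x e (Nat.find hex) hu]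
    · exact blocks_next_one n d h q hn ⟨Nat.find hex, hu⟩ _ hv
    · intro u hu1 hu2 hu3
      exact Nat.find_min hex hu2 ⟨hu1, hu3⟩

theorem upper (n d h : ℕ) (hh : 1 ≤ h) (hn : h ≤ n) :
    ∃ M : Machine n d, M.last = 0 ∧ (∀ v, ((M.routine 0).view v).looks = 2 * h) ∧ M.Steps 0 ∧
      M.cost 1 ≤ 44 * n ^ 2 ∧ ∀ x : Input n d, M.CorrectOn x := by
  classical
  have hn1 : 1 ≤ n := hh.trans hn
  obtain ⟨q, hq1, hq2⟩ : ∃ q, n ≤ q * h ∧ q * h ≤ 2 * n := by
    refine ⟨n / h + 1, ?_, ?_⟩
    · have := Nat.lt_div_mul_add (a := n) (b := h) hh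
      rw [add_mul, one_mul]
      exact this.le
    · have := Nat.div_mul_le_self n h
      rw [add_mul, one_mul]
      omega
  let M : Machine n d := { last := 0, routine := fun _ => blocks n d h q hn1 }
  refine ⟨M, rfl, fun _ => rfl, ?_, ?_, ?_⟩
  · intro u _
    exact ⟨fun v a => ⟨∅, by simp, fun _ _ _ _ => rfl⟩, fun e y => ⟨∅, by simp, fun _ _ _ _ => rfl⟩⟩
  · have hv : ∀ v : Fin (q ^ 2),
        Nat.card {p // M.Sees p 0 (blockView n d h q hn1 v.1)} ≤ 2 * h := by
      intro v
      refine le_trans ?_ (card_looks (blockView n d h q hn1 v.1))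
      apply Nat.card_le_card_of_injective
        (fun a : {p // M.Sees p 0 (blockView n d h q hn1 v.1)} =>
          (⟨a.1, ((M.sees_iff _ _ _).1 a.2).resolve_right (by
            rintro (⟨y, a, a', h1⟩ | ⟨t, h1, _⟩)
            · exact h1 rfl
            · exact h1 rfl)⟩ : {p // ∃ l, (blockView n d h q hn1 v.1).pos l = p}))
      intro a a' h1
      ext1
      exact congrArg (fun q => q.1) h1
    have hr : Nat.card {p // M.RoutineSees p 0} ≤ 2 * n := by
      have hc : Nat.card (Pos n) = 2 * n := by simp [Pos]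
      rw [← hc]
      exact Nat.card_le_card_of_injective _ Subtype.val_injective
    have hcost : M.cost 1 = ∑ v : Fin (q ^ 2), (2 * h + 2 + 1) *
        Nat.card {p // M.Sees p 0 (blockView n d h q hn1 v.1)} +
        ∑ _e : Fin 2, (0 + 1) * Nat.card {p // M.RoutineSees p 0} := by
      unfold Machine.cost
      rw [Fin.sum_univ_eq_sum_range (fun u => ∑ v, (((M.routine u).view v).looks +
        (M.routine u).outcomes v + 1) * Nat.card {p // M.Sees p u ((M.routine u).view v)} +
        ∑ e, (((M.routine u).endView e).looks + 1) * Nat.card {p // M.RoutineSees p u}) _]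
      show ∑ u ∈ Finset.range 1, _ = _
      rw [Finset.sum_range_one]
      rfl
    rw [hcost]
    have h3 : (q * h) ^ 2 ≤ (2 * n) ^ 2 := Nat.pow_le_pow_left hq2 2
    have h4 : (2 * h + 2 + 1) * (2 * h) ≤ 10 * h ^ 2 := by
      have h5 : 2 * h + 2 + 1 ≤ 5 * h := by omega
      calc (2 * h + 2 + 1) * (2 * h) ≤ (5 * h) * (2 * h) := Nat.mul_le_mul_right _ h5
        _ = 10 * h ^ 2 := by ring
    have h5 : n ≤ n ^ 2 := by nlinarith
    calc ∑ v : Fin (q ^ 2), (2 * h + 2 + 1) *
          Nat.card {p // M.Sees p 0 (blockView n d h q hn1 v.1)} +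
          ∑ _e : Fin 2, (0 + 1) * Nat.card {p // M.RoutineSees p 0}
        ≤ ∑ _v : Fin (q ^ 2), 10 * h ^ 2 + ∑ _e : Fin 2, 2 * n := by
          apply Nat.add_le_add
          · apply Finset.sum_le_sum
            intro v _
            exact (Nat.mul_le_mul_left _ (hv v)).trans h4
          · apply Finset.sum_le_sum
            intro v _
            omega
      _ = 10 * (q * h) ^ 2 + 4 * n := by
          rw [Finset.sum_const, Finset.sum_const, Finset.card_univ, Finset.card_univ,
            Fintype.card_fin, Fintype.card_fin, smul_eq_mul, smul_eq_mul]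
          ring
      _ ≤ 10 * (2 * n) ^ 2 + 4 * n := by omega
      _ ≤ 44 * n ^ 2 := by nlinarith
  · intro x
    unfold Machine.CorrectOn
    rw [M.result_eq]
    have h1 := blocks_reaches n d h q hn1 hh hq1 x (fun t : Fin M.last => M.result x t)
    show 0 < (blocks n d h q hn1).value x _ ↔ _
    have h2 : (blocks n d h q hn1).value x (fun t : Fin M.last => M.result x t) =
        ∑ e : Fin 2, if (blocks n d h q hn1).Reaches x (fun t : Fin M.last => M.result x t) e
          then (if e = 1 then (1 : ℝ) else 0) else 0 := rfl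
    rw [h2, Fin.sum_univ_two]
    by_cases hx : HasOrthogonalPair x
    · rw [if_pos (h1.2 hx)]
      simp [hx]
    · rw [if_neg fun h2 => hx (h1.1 h2)]
      simp [hx]

/-! ### The result -/

/-- The optimal expected cost of randomized machines for Orthogonal Vectors. -/
theorem result :
    (∃ c : ℝ, 0 < c ∧ ∀ (n d K : ℕ), 2 ≤ n → 4 * Nat.clog 2 n + 1 ≤ d → 1 ≤ K →
      ∀ μ : PMF (Machine n d), (∀ M ∈ μ.support, M.Steps (n ^ K)) →
        (∀ x : Input n d, IsValid x →
          (2 / 3 : ENNReal) ≤ μ.toOuterMeasure {M | M.CorrectOn x}) →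
        ENNReal.ofReal (c * n ^ 2) ≤ ∑' M, μ M * (M.cost K : ENNReal)) ∧
    (∀ n d h : ℕ, 1 ≤ h → h ≤ n →
      ∃ M : Machine n d, M.last = 0 ∧ (∀ v, ((M.routine 0).view v).looks = 2 * h) ∧ M.Steps 0 ∧
        M.cost 1 ≤ 44 * n ^ 2 ∧ ∀ x : Input n d, M.CorrectOn x) :=
  ⟨lower, upper⟩

end Pool.Agent.Results.MP_0f984e_lc.HybridMachines
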