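import Mathlib

set_option autoImplicit false

namespace Pool.Agent.Results.MP_0f984e_lc.NegationLimited

/-! ### Orthogonal Vectors -/

/-- Positions of the `2n` input vectors: `(false, i)` is the `i`-th vector of `A`, and
`(true, j)` is the `j`-th vector of `B`. -/
abbrev Pos (n : ℕ) : Type := Bool × Fin n

/-- Vectors in `{0,1}^d`. -/
abbrev Vec (d : ℕ) : Type := Fin d → Bool

/-- An input: `n` vectors of `A` and `n` vectors of `B`, all in `{0,1}^d`. -/
abbrev Input (n d : ℕ) : Type := Pos n → Vec d

/-- Valid inputs: each of the two sets is listed in strictly increasing lexicographic order (so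
each consists of exactly `n` distinct vectors, written in the canonical order). -/
def IsValid {n d : ℕ} (x : Input n d) : Prop :=
  StrictMono (fun i : Fin n => toLex (x (false, i))) ∧
  StrictMono (fun j : Fin n => toLex (x (true, j)))

/-- The answer to the Orthogonal Vectors question: some vector of `A` and some vector of `B` have
inner product `0` over the integers. -/
def HasOrthogonalPair {n d : ℕ} (x : Input n d) : Prop :=
  ∃ i j : Fin n, ∑ k : Fin d, (x (false, i) k).toNat * (x (true, j) k).toNat = 0

/-! ### Monotone computations with few tests -/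

/-- A free quantity: an arbitrary real function of the whole list `A`, or of the whole list `B`,
which does not decrease when ones are replaced by zeros. -/
def OneSided {n d : ℕ} (u : Input n d → ℝ) : Prop :=
  (∃ ψ : (Fin n → Vec d) → ℝ, Antitone ψ ∧ ∀ x, u x = ψ (fun i => x (false, i))) ∨
  (∃ ψ : (Fin n → Vec d) → ℝ, Antitone ψ ∧ ∀ x, u x = ψ (fun i => x (true, i)))

/-- A computation with `size` gates of fan-in `r` and `t` tests. Test `k` asks whether the value
of the gate `src k` exceeds `thr k`; the tests are listed in the order in which they are made.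
For every vector `o` of outcomes, on the inputs on which the tests made before gate `g` have the
outcomes `o`, the value of gate `g` is a nondecreasing real function of `r` quantities, each of
which is one-sided or the value of an earlier gate; this function and these quantities may depend
on `o` in an arbitrary way. The computation accepts when the value of the gate `out` exceeds
`threshold`. (A NOT gate is a gate whose value is determined by the outcome of a test, so that a
circuit with `t` NOT gates is a computation with `t` tests.) -/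
structure Computation (n d r t : ℕ) where
  /-- number of gates -/
  size : ℕ
  /-- the values computed by the gates -/
  val : Fin size → Input n d → ℝ
  /-- the gates at which the tests are made -/
  src : Fin t → Fin size
  /-- the thresholds of the tests -/
  thr : Fin t → ℝ
  /-- the tests are listed in the order in which they are made -/
  ordered : Monotone src
  /-- once the outcomes of the earlier tests are known, every gate is a nondecreasing function of
  one-sided quantities and earlier gates -/
  gates : ∀ (g : Fin size) (o : Fin t → Prop), ∃ φ : (Fin r → ℝ) → ℝ, Monotone φ ∧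
    ∃ u : Fin r → Input n d → ℝ, (∀ k, OneSided (u k) ∨ ∃ g' < g, u k = val g') ∧
      ∀ x, (∀ k, src k < g → (thr k < val (src k) x ↔ o k)) → val g x = φ (fun k => u k x)
  /-- the output gate -/
  out : Fin size
  /-- the acceptance threshold -/
  threshold : ℝ

variable {n d r t m L Q K T : ℕ}

/-- The vector of the outcomes of all tests on the input `x`. -/
def Computation.outcomes (C : Computation n d r t) (x : Input n d) : Fin t → Prop :=
  fun k => C.thr k < C.val (C.src k) x

/-- The number of branches: how many different vectors of outcomes occur (at most `2 ^ t`). -/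
noncomputable def Computation.branches (C : Computation n d r t) : ℕ :=
  (Set.range C.outcomes).ncard

/-- The computation accepts the input `x`. -/
def Computation.Accepts (C : Computation n d r t) (x : Input n d) : Prop :=
  C.threshold < C.val C.out x

/-- The computation answers the Orthogonal Vectors question correctly on input `x`. -/
def Computation.CorrectOn (C : Computation n d r t) (x : Input n d) : Prop :=
  C.Accepts x ↔ HasOrthogonalPair x

/-! ### Test inputs and layers -/

/-- Test inputs: a set of zero coordinates for every position. -/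
abbrev Test (n m : ℕ) : Type := Pos n → Finset (Fin m)

/-- A layer: at every position a number (the position is activated if it is `0`) and a set. -/
abbrev Layer (n m Q : ℕ) : Type := Pos n → Fin Q × Finset (Fin m)

/-- The test given by the sets of a layer at the activated positions of `I`. -/
def fresh (I : Finset (Pos n)) (l : Layer n m Q) : Test n m := fun p =>
  if p ∈ I ∧ (l p).1.val = 0 then (l p).2 else ∅

/-- The planted tests: a pair of complementary sets at two positions, and empty sets
elsewhere. -/
def posTest (π : Fin n × Fin n × Finset (Fin m)) : Test n m := fun p =>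
  if p = (false, π.1) then π.2.2 else if p = (true, π.2.1) then π.2.2ᶜ else ∅

/-- The input obtained from the base `x` and the test `z`. -/
def inp (E : Pos n → Finset (Fin m) → Vec d) (x z : Test n m) : Input n d :=
  fun p => E p (x p ∪ z p)

theorem inp_antitone (E : Pos n → Finset (Fin m) → Vec d) (hE : ∀ p, Antitone (E p))
    (x : Test n m) {z z' : Test n m} (h : z ≤ z') : inp E x z' ≤ inp E x z := by
  intro p
  exact hE p (Finset.union_subset_union_right (h p))

/-! ### Approximators -/

/-- The approximator `max (c, max_p G_p (z_p))`. -/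
structure Apx (n m K : ℕ) (I : Finset (Pos n)) where
  c : ℝ
  G : Pos n → Finset (Fin m) → ℝ
  mono : ∀ p, Monotone (G p)
  empty : ∀ p, G p ∅ ≤ c
  small : ∑ p ∈ I, (Finset.univ.filter fun S => c < G p S).card ≤ K * 2 ^ m

variable {I : Finset (Pos n)}

/-- The approximator is at most `v` at `z`. -/
def Apx.Lower (Φ : Apx n m K I) (z : Test n m) (v : ℝ) : Prop :=
  Φ.c ≤ v ∧ ∀ p, Φ.G p (z p) ≤ v

/-- The approximator is at least `v` at `z`. -/
def Apx.Upper (Φ : Apx n m K I) (z : Test n m) (v : ℝ) : Prop :=
  v ≤ Φ.c ∨ ∃ p, v ≤ Φ.G p (z p)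

theorem prod_bound {B : ℕ} (hB : 0 < B) (a : Pos n → ℕ) (ha : ∀ p, a p ≤ B) :
    ((∏ p : Pos n, (B - a p) : ℕ) : ℝ) ≤
      Real.exp (-((∑ p, (a p : ℝ)) / B)) * (B : ℝ) ^ (2 * n) := by
  have hB' : (0 : ℝ) < B := by exact_mod_cast hB
  have h1 : ∀ p : Pos n, ((B - a p : ℕ) : ℝ) ≤ Real.exp (-(a p / B)) * B := by
    intro p
    rw [Nat.cast_sub (ha p)]
    have h2 := Real.add_one_le_exp (-((a p : ℝ) / B))
    calc (B : ℝ) - a p = (-((a p : ℝ) / B) + 1) * B := by field_simp; ring
      _ ≤ Real.exp (-(a p / B)) * B := mul_le_mul_of_nonneg_right h2 hB'.le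
  push_cast
  calc (∏ p : Pos n, ((B - a p : ℕ) : ℝ))
      ≤ ∏ p : Pos n, (Real.exp (-(a p / B)) * B) :=
        Finset.prod_le_prod (fun p _ => Nat.cast_nonneg _) (fun p _ => h1 p)
    _ = Real.exp (-((∑ p, (a p : ℝ)) / B)) * (B : ℝ) ^ (2 * n) := by
        rw [Finset.prod_mul_distrib, ← Real.exp_sum, Finset.prod_const, Finset.card_univ]
        congr 2
        · rw [Finset.sum_neg_distrib, Finset.sum_div]
        · simp

open Classical in
/-- Layers which avoid a family of sets at every activated position of `I`. -/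
theorem card_avoid (hQ : 0 < Q) (I : Finset (Pos n)) (F : Pos n → Finset (Finset (Fin m))) :
    ((Fintype.piFinset fun p => Finset.univ.filter fun q : Fin Q × Finset (Fin m) =>
      ¬ (p ∈ I ∧ q.1.val = 0 ∧ q.2 ∈ F p)).card : ℝ) ≤
      Real.exp (-((∑ p ∈ I, ((F p).card : ℝ)) / (Q * 2 ^ m : ℕ))) *
        ((Q * 2 ^ m : ℕ) : ℝ) ^ (2 * n) := by
  let a : Pos n → ℕ := fun p => if p ∈ I then (F p).card else 0
  have hbad : ∀ p, (Finset.univ.filter fun q : Fin Q × Finset (Fin m) =>
      p ∈ I ∧ q.1.val = 0 ∧ q.2 ∈ F p).card = a p := by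
    intro p
    by_cases hp : p ∈ I
    · have h1 : (Finset.univ.filter fun q : Fin Q × Finset (Fin m) =>
          p ∈ I ∧ q.1.val = 0 ∧ q.2 ∈ F p) = {(⟨0, hQ⟩ : Fin Q)} ×ˢ (F p) := by
        ext ⟨q1, q2⟩
        simp only [Finset.mem_filter, Finset.mem_univ, true_and, Finset.mem_product,
          Finset.mem_singleton, hp]
        constructor
        · rintro ⟨h1, h2⟩
          exact ⟨Fin.ext h1, h2⟩
        · rintro ⟨h1, h2⟩
          exact ⟨by rw [h1], h2⟩
      rw [h1, Finset.card_product, Finset.card_singleton, one_mul]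
      simp [a, hp]
    · have h1 : (Finset.univ.filter fun q : Fin Q × Finset (Fin m) =>
          p ∈ I ∧ q.1.val = 0 ∧ q.2 ∈ F p) = ∅ := by
        ext q
        simp [hp]
      rw [h1]
      simp [a, hp]
  have ha : ∀ p, a p ≤ Q * 2 ^ m := by
    intro p
    rw [← hbad p]
    refine (Finset.card_le_univ _).trans ?_
    simp [Fintype.card_prod]
  have hcard : (Fintype.piFinset fun p => Finset.univ.filter fun q : Fin Q × Finset (Fin m) =>
      ¬ (p ∈ I ∧ q.1.val = 0 ∧ q.2 ∈ F p)).card = ∏ p : Pos n, (Q * 2 ^ m - a p) := by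
    rw [Fintype.card_piFinset]
    apply Finset.prod_congr rfl
    intro p _
    have h1 : (Finset.univ.filter fun q : Fin Q × Finset (Fin m) =>
        ¬ (p ∈ I ∧ q.1.val = 0 ∧ q.2 ∈ F p)) =
        (Finset.univ.filter fun q : Fin Q × Finset (Fin m) =>
          p ∈ I ∧ q.1.val = 0 ∧ q.2 ∈ F p)ᶜ := by
      ext q
      simp
    rw [h1, Finset.card_compl, hbad p]
    simp [Fintype.card_prod]
  rw [hcard]
  have hsum : ∑ p, (a p : ℝ) = ∑ p ∈ I, ((F p).card : ℝ) := by
    simp only [a]
    push_cast
    rw [Finset.sum_ite_mem, Finset.univ_inter]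
  rw [← hsum]
  exact prod_bound (by positivity) a ha

open Classical in
/-- Raising the constant of an approximator until it becomes small. -/
theorem exists_raise (hQ : 0 < Q) (I : Finset (Pos n)) (c0 : ℝ)
    (G : Pos n → Finset (Fin m) → ℝ) (mono : ∀ p, Monotone (G p))
    (empty : ∀ p, G p ∅ ≤ c0) :
    ∃ (Φ : Apx n m (L * Q) I) (N : Finset (Layer n m Q)),
      (N.card : ℝ) ≤ Real.exp (-L) * ((Q * 2 ^ m : ℕ) : ℝ) ^ (2 * n) ∧
      (∀ z v, (v ≤ c0 ∨ ∃ p, v ≤ G p (z p)) → Φ.Upper z v) ∧
      (∀ l ∉ N, ∀ v, c0 ≤ v → (∀ p, G p (fresh I l p) ≤ v) → Φ.Lower (fresh I l) v) := by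
  let Vals : Finset ℝ := insert c0
    (Finset.univ.image fun q : Pos n × Finset (Fin m) => G q.1 q.2)
  have hG : ∀ p S, G p S ∈ Vals := fun p S =>
    Finset.mem_insert_of_mem (Finset.mem_image.2 ⟨(p, S), Finset.mem_univ _, rfl⟩)
  have hc0 : c0 ∈ Vals := Finset.mem_insert_self _ _
  let cand : Finset ℝ := Vals.filter fun v => c0 ≤ v ∧
    ∑ p ∈ I, (Finset.univ.filter fun S => v < G p S).card ≤ L * Q * 2 ^ m
  have hne : cand.Nonempty := by
    refine ⟨Vals.max' ⟨c0, hc0⟩, Finset.mem_filter.2 ⟨Finset.max'_mem _ _, Finset.le_max' _ _ hc0, ?_⟩⟩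
    rw [Finset.sum_eq_zero]
    · exact Nat.zero_le _
    · intro p _
      rw [Finset.card_eq_zero, Finset.filter_eq_empty_iff]
      intro S _
      exact not_lt.2 (Finset.le_max' _ _ (hG p S))
  have hmem := Finset.min'_mem cand hne
  have hmin : ∀ v ∈ cand, cand.min' hne ≤ v := fun v hv => Finset.min'_le _ _ hv
  generalize cand.min' hne = c1 at hmem hmin
  obtain ⟨hc1V, hc01, hc1s⟩ := Finset.mem_filter.1 hmem
  refine ⟨⟨c1, G, mono, fun p => (empty p).trans hc01, hc1s⟩, ?_⟩
  rcases eq_or_lt_of_le hc01 with heq | hlt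
  · refine ⟨∅, by simpa using by positivity, ?_, ?_⟩
    · intro z v hv
      rcases hv with hv | hv
      · exact Or.inl (hv.trans hc01)
      · exact Or.inr hv
    · intro z _ v hv1 hv2
      exact ⟨heq.symm.le.trans hv1, hv2⟩
  · refine ⟨Fintype.piFinset fun p => Finset.univ.filter fun q : Fin Q × Finset (Fin m) =>
      ¬ (p ∈ I ∧ q.1.val = 0 ∧ q.2 ∈ Finset.univ.filter fun S => c1 ≤ G p S), ?_, ?_, ?_⟩
    · -- the size
      refine (card_avoid hQ I fun p => Finset.univ.filter fun S => c1 ≤ G p S).trans ?_
      apply mul_le_mul_of_nonneg_right _ (by positivity)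
      apply Real.exp_le_exp.2
      apply neg_le_neg
      have hpos : (0 : ℝ) < (Q * 2 ^ m : ℕ) := by
        have : 0 < Q * 2 ^ m := by positivity
        exact_mod_cast this
      rw [le_div_iff₀ hpos]
      let low : Finset ℝ := Vals.filter fun v => v < c1
      have hlow : c0 ∈ low := Finset.mem_filter.2 ⟨hc0, hlt⟩
      obtain ⟨h0m, h0lt⟩ := Finset.mem_filter.1 (Finset.max'_mem low ⟨c0, hlow⟩)
      have h0le : c0 ≤ low.max' ⟨c0, hlow⟩ := Finset.le_max' _ _ hlow
      have hmax : ∀ v ∈ low, v ≤ low.max' ⟨c0, hlow⟩ := fun v hv => Finset.le_max' _ _ hv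
      generalize low.max' ⟨c0, hlow⟩ = v0 at h0m h0lt h0le hmax
      have hv0 : ¬ (∑ p ∈ I, (Finset.univ.filter fun S => v0 < G p S).card ≤ L * Q * 2 ^ m) := by
        intro h
        exact absurd (hmin v0 (Finset.mem_filter.2 ⟨h0m, h0le, h⟩)) (not_le.2 h0lt)
      have h1 : L * (Q * 2 ^ m) ≤ ∑ p ∈ I, (Finset.univ.filter fun S => c1 ≤ G p S).card := by
        rw [← mul_assoc]
        refine (not_le.1 hv0).le.trans (Finset.sum_le_sum fun p _ => Finset.card_le_card ?_)
        intro S hS
        simp only [Finset.mem_filter, Finset.mem_univ, true_and] at hS ⊢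
        by_contra hcon
        exact absurd (hmax _ (Finset.mem_filter.2 ⟨hG p S, not_le.1 hcon⟩)) (not_le.2 hS)
      exact_mod_cast h1
    · intro z v hv
      rcases hv with hv | hv
      · exact Or.inl (hv.trans hc01)
      · exact Or.inr hv
    · intro l hl v _ hv2
      refine ⟨?_, hv2⟩
      rw [Fintype.mem_piFinset] at hl
      push Not at hl
      obtain ⟨p, hp⟩ := hl
      simp only [Finset.mem_filter, Finset.mem_univ, true_and] at hp
      have hp' : p ∈ I ∧ (l p).1.val = 0 ∧ c1 ≤ G p (l p).2 := by
        by_contra hcon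
        exact hp fun a b e => hcon ⟨a, b, e⟩
      obtain ⟨hp1, hp2, hp3⟩ := hp'
      have h1 := hv2 p
      have h2 : fresh I l p = (l p).2 := by simp [fresh, hp1, hp2]
      rw [h2] at h1
      exact hp3.trans h1

open Classical in
/-- One gate. -/
theorem gate_step (hQ : 0 < Q) (φ : (Fin r → ℝ) → ℝ) (hφ : Monotone φ)
    (Φ : Fin r → Apx n m (L * Q) I) :
    ∃ (Ψ : Apx n m (L * Q) I) (N : Finset (Layer n m Q))
      (M : Finset (Fin n × Fin n × Finset (Fin m))),
      (N.card : ℝ) ≤ Real.exp (-L) * ((Q * 2 ^ m : ℕ) : ℝ) ^ (2 * n) ∧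
      (M.card : ℝ) ≤ (r * (L * Q : ℕ)) ^ 2 * 2 ^ m ∧
      (∀ l ∉ N, ∀ w : Fin r → ℝ, (∀ k, (Φ k).Lower (fresh I l) (w k)) →
        Ψ.Lower (fresh I l) (φ w)) ∧
      (∀ π ∉ M, (false, π.1) ∈ I → (true, π.2.1) ∈ I → ∀ w : Fin r → ℝ,
        (∀ k, (Φ k).Upper (posTest π) (w k)) → Ψ.Upper (posTest π) (φ w)) := by
  let c0 : ℝ := φ fun k => (Φ k).c
  let G : Pos n → Finset (Fin m) → ℝ := fun p S => φ fun k => max (Φ k).c ((Φ k).G p S)
  have mono : ∀ p, Monotone (G p) := by
    intro p S T hST
    apply hφ
    intro k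
    exact max_le_max le_rfl ((Φ k).mono p hST)
  have empty : ∀ p, G p ∅ ≤ c0 := by
    intro p
    apply hφ
    intro k
    exact max_le le_rfl ((Φ k).empty p)
  obtain ⟨Ψ, N, hN, hU, hLo⟩ := exists_raise (L := L) hQ I c0 G mono empty
  let A : Fin n → Finset (Finset (Fin m)) := fun i =>
    Finset.univ.filter fun S => (false, i) ∈ I ∧ ∃ k, (Φ k).c < (Φ k).G (false, i) S
  let B : Fin n → Finset (Finset (Fin m)) := fun j =>
    Finset.univ.filter fun S => (true, j) ∈ I ∧ ∃ k, (Φ k).c < (Φ k).G (true, j) Sᶜ
  let B' : Fin n → Finset (Finset (Fin m)) := fun j =>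
    Finset.univ.filter fun S => (true, j) ∈ I ∧ ∃ k, (Φ k).c < (Φ k).G (true, j) S
  let M : Finset (Fin n × Fin n × Finset (Fin m)) := Finset.univ.filter fun τ =>
    τ.2.2 ∈ A τ.1 ∩ B τ.2.1
  have hAup : ∀ i, IsUpperSet (A i : Set (Finset (Fin m))) := by
    intro i S T hST hS
    simp only [A, Finset.coe_filter, Finset.mem_univ, true_and, Set.mem_ofPred_eq] at hS ⊢
    obtain ⟨hi, k, hk⟩ := hS
    exact ⟨hi, k, hk.trans_le ((Φ k).mono _ hST)⟩
  have hBlow : ∀ j, IsLowerSet (B j : Set (Finset (Fin m))) := by
    intro j S T hTS hS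
    simp only [B, Finset.coe_filter, Finset.mem_univ, true_and, Set.mem_ofPred_eq] at hS ⊢
    obtain ⟨hj, k, hk⟩ := hS
    exact ⟨hj, k, hk.trans_le ((Φ k).mono _ (Finset.compl_subset_compl.2 hTS))⟩
  have hBB : ∀ j, (B j).card = (B' j).card := by
    intro j
    apply Finset.card_bij (fun S _ => Sᶜ)
    · intro S hS
      simpa [B, B'] using hS
    · intro S _ T _ h
      exact compl_injective h
    · intro S hS
      exact ⟨Sᶜ, by simpa [B, B'] using hS, compl_compl S⟩
  have hsumAB : ∑ i, (A i).card + ∑ j, (B' j).card ≤ r * (L * Q * 2 ^ m) := by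
    have h1 : ∀ p : Pos n, (Finset.univ.filter fun S =>
        ∃ k, (Φ k).c < (Φ k).G p S).card ≤
        ∑ k, (Finset.univ.filter fun S => (Φ k).c < (Φ k).G p S).card := by
      intro p
      refine le_trans (Finset.card_le_card ?_) Finset.card_biUnion_le
      intro S hS
      simpa using hS
    have h2 : ∀ p : Pos n, (Finset.univ.filter fun S =>
        p ∈ I ∧ ∃ k, (Φ k).c < (Φ k).G p S).card =
        if p ∈ I then (Finset.univ.filter fun S => ∃ k, (Φ k).c < (Φ k).G p S).card else 0 := by
      intro p
      by_cases hp : p ∈ I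
      · simp [hp]
      · simp [hp]
    calc ∑ i, (A i).card + ∑ j, (B' j).card
        = ∑ p : Pos n, (Finset.univ.filter fun S =>
            p ∈ I ∧ ∃ k, (Φ k).c < (Φ k).G p S).card := by
          rw [Fintype.sum_prod_type, Fintype.sum_bool, add_comm]
      _ = ∑ p ∈ I, (Finset.univ.filter fun S => ∃ k, (Φ k).c < (Φ k).G p S).card := by
          rw [Finset.sum_congr rfl fun p _ => h2 p, Finset.sum_ite_mem, Finset.univ_inter]
      _ ≤ ∑ p ∈ I, ∑ k, (Finset.univ.filter fun S => (Φ k).c < (Φ k).G p S).card :=
          Finset.sum_le_sum fun p _ => h1 p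
      _ = ∑ k, ∑ p ∈ I, (Finset.univ.filter fun S => (Φ k).c < (Φ k).G p S).card :=
          Finset.sum_comm
      _ ≤ ∑ _k : Fin r, L * Q * 2 ^ m := Finset.sum_le_sum fun k _ => (Φ k).small
      _ = r * (L * Q * 2 ^ m) := by simp
  have hMcard : M.card = ∑ i, ∑ j, (A i ∩ B j).card := by
    rw [Finset.card_filter, Fintype.sum_prod_type]
    apply Finset.sum_congr rfl
    intro i _
    rw [Fintype.sum_prod_type]
    apply Finset.sum_congr rfl
    intro j _
    rw [← Finset.card_filter]
    congr 1
    ext S
    simp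
  have hM : 2 ^ m * M.card ≤ (r * (L * Q * 2 ^ m)) ^ 2 := by
    calc 2 ^ m * M.card = ∑ i, ∑ j, 2 ^ m * (A i ∩ B j).card := by
          rw [hMcard, Finset.mul_sum]
          apply Finset.sum_congr rfl
          intro i _
          rw [Finset.mul_sum]
      _ ≤ ∑ i, ∑ j, (A i).card * (B' j).card := by
          apply Finset.sum_le_sum
          intro i _
          apply Finset.sum_le_sum
          intro j _
          have h1 := (hAup i).card_inter_le_finset (hBlow j)
          rw [hBB j, Fintype.card_fin] at h1
          exact h1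
      _ = (∑ i, (A i).card) * ∑ j, (B' j).card := by
          rw [Finset.sum_mul_sum]
      _ ≤ (r * (L * Q * 2 ^ m)) * (r * (L * Q * 2 ^ m)) := by
          apply Nat.mul_le_mul <;> omega
      _ = (r * (L * Q * 2 ^ m)) ^ 2 := by ring
  refine ⟨Ψ, N, M, hN, ?_, ?_, ?_⟩
  · have h1 : ((2 : ℝ) ^ m) * M.card ≤ (r * ((L * Q : ℕ) * 2 ^ m)) ^ 2 := by exact_mod_cast hM
    have h2 : (0 : ℝ) < 2 ^ m := by positivity
    have h3 : ((2 : ℝ) ^ m) * M.card ≤ 2 ^ m * ((r * (L * Q : ℕ)) ^ 2 * 2 ^ m) := by
      calc ((2 : ℝ) ^ m) * M.card ≤ (r * ((L * Q : ℕ) * 2 ^ m)) ^ 2 := h1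
        _ = 2 ^ m * ((r * (L * Q : ℕ)) ^ 2 * 2 ^ m) := by ring
    exact le_of_mul_le_mul_left h3 h2
  · intro l hl w hw
    apply hLo l hl
    · apply hφ
      intro k
      exact (hw k).1
    · intro p
      apply hφ
      intro k
      exact max_le (hw k).1 ((hw k).2 p)
  · rintro ⟨i, j, S⟩ hτ hiI hjI w hw
    apply hU
    simp only [M, Finset.mem_filter, Finset.mem_univ, true_and, Finset.mem_inter, A, B,
      not_and_or, not_exists, not_lt] at hτ
    right
    rcases hτ with hA | hB
    · have hA' : ∀ k, (Φ k).G (false, i) S ≤ (Φ k).c := by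
        rcases hA with h | h
        · exact absurd hiI h
        · exact h
      refine ⟨(true, j), ?_⟩
      apply hφ
      intro k
      rcases hw k with h1 | ⟨p, h1⟩
      · exact le_max_of_le_left h1
      · by_cases hp1 : p = (false, i)
        · subst hp1
          apply le_max_of_le_left
          refine h1.trans ?_
          simpa [posTest] using hA' k
        · by_cases hp2 : p = (true, j)
          · subst hp2
            exact le_max_of_le_right h1
          · apply le_max_of_le_left
            refine h1.trans ?_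
            have h2 : posTest (i, j, S) p = ∅ := by simp [posTest, hp1, hp2]
            rw [h2]
            exact (Φ k).empty p
    · have hB' : ∀ k, (Φ k).G (true, j) Sᶜ ≤ (Φ k).c := by
        rcases hB with h | h
        · exact absurd hjI h
        · exact h
      refine ⟨(false, i), ?_⟩
      apply hφ
      intro k
      rcases hw k with h1 | ⟨p, h1⟩
      · exact le_max_of_le_left h1
      · by_cases hp1 : p = (false, i)
        · subst hp1
          exact le_max_of_le_right h1
        · by_cases hp2 : p = (true, j)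
          · subst hp2
            apply le_max_of_le_left
            refine h1.trans ?_
            simpa [posTest] using hB' k
          · apply le_max_of_le_left
            refine h1.trans ?_
            have h2 : posTest (i, j, S) p = ∅ := by simp [posTest, hp1, hp2]
            rw [h2]
            exact (Φ k).empty p

/-- One-sided quantities. -/
theorem side_step (hQ : 0 < Q) (I : Finset (Pos n)) (f : Test n m → ℝ) (hf : Monotone f)
    (b : Bool)
    (hb : ∀ z z' : Test n m, (∀ i, z (b, i) = z' (b, i)) → f z = f z') :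
    ∃ (Ψ : Apx n m (L * Q) I) (N : Finset (Layer n m Q)),
      (N.card : ℝ) ≤ Real.exp (-L) * ((Q * 2 ^ m : ℕ) : ℝ) ^ (2 * n) ∧
      (∀ l ∉ N, Ψ.Lower (fresh I l) (f (fresh I l))) ∧
      (∀ π, Ψ.Upper (posTest π) (f (posTest π))) := by
  classical
  obtain ⟨Ψ, N, hN, hU, hLo⟩ := exists_raise (L := L) hQ I (f fun _ => ∅)
    (fun p S => f (Function.update (fun _ => ∅) p S))
    (fun p S T hST => by
      apply hf
      intro q
      by_cases hq : q = p
      · subst hq; simpa using hST
      · simp [hq])
    (fun p => by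
      apply hf
      intro q
      by_cases hq : q = p
      · subst hq; simp
      · simp [hq])
  refine ⟨Ψ, N, hN, ?_, ?_⟩
  · intro z hz
    apply hLo z hz
    · exact hf fun p => Finset.empty_subset _
    · intro p
      apply hf
      intro q
      by_cases hq : q = p
      · subst hq; simp
      · simp [hq]
  · rintro ⟨i, j, S⟩
    apply hU
    right
    cases b
    · refine ⟨(false, i), le_of_eq (hb _ _ ?_)⟩
      intro q
      by_cases hq : q = i
      · subst hq; simp
      · simp [posTest, hq]
    · refine ⟨(true, j), le_of_eq (hb _ _ ?_)⟩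
      intro q
      by_cases hq : q = j
      · subst hq; simp
      · simp [posTest, hq]

/-! ### Outcomes of the tests -/

/-- On the input `y` the tests made before gate `g` have the outcomes `o`. -/
def Computation.Agree (C : Computation n d r t) (o : Fin t → Prop) (g : Fin C.size)
    (y : Input n d) : Prop :=
  ∀ k, C.src k < g → (C.thr k < C.val (C.src k) y ↔ o k)

theorem Computation.Agree.mono {C : Computation n d r t} {o : Fin t → Prop}
    {g g' : Fin C.size} {y : Input n d} (h : C.Agree o g y) (hg : g' ≤ g) : C.Agree o g' y :=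
  fun k hk => h k (hk.trans_le hg)

/-- As long as the outcomes agree, all gates are monotone. -/
theorem val_le (C : Computation n d r t) (o : Fin t → Prop) {y y' : Input n d} (hy : y' ≤ y) :
    ∀ g : Fin C.size, C.Agree o g y → C.Agree o g y' → C.val g y ≤ C.val g y' := by
  intro g
  induction g using WellFoundedLT.induction with
  | ind g ih =>
    intro h h'
    obtain ⟨φ, hφ, u, hu, hval⟩ := C.gates g o
    rw [hval y h, hval y' h']
    apply hφ
    intro k
    show u k y ≤ u k y'
    rcases hu k with hs | ⟨g', hg', hu'⟩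
    · rcases hs with ⟨ψ, h1, h2⟩ | ⟨ψ, h1, h2⟩
      · rw [h2, h2]
        exact h1 fun i => hy _
      · rw [h2, h2]
        exact h1 fun i => hy _
    · rw [hu']
      exact ih g' hg' (h.mono hg'.le) (h'.mono hg'.le)

open Classical in
/-- Approximators for all gates, relative to a base and a vector of outcomes. -/
theorem exists_apx (hQ : 0 < Q) (C : Computation n d r t) (E : Pos n → Finset (Fin m) → Vec d)
    (hE : ∀ p, Antitone (E p)) (x : Test n m) (I : Finset (Pos n)) (o : Fin t → Prop) :
    ∀ k ≤ C.size, ∃ (N : Finset (Layer n m Q)) (M : Finset (Fin n × Fin n × Finset (Fin m))),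
      (N.card : ℝ) ≤ k * ((r + 1) * (Real.exp (-L) * ((Q * 2 ^ m : ℕ) : ℝ) ^ (2 * n))) ∧
      (M.card : ℝ) ≤ k * ((r * (L * Q : ℕ)) ^ 2 * 2 ^ m) ∧
      ∀ g : Fin C.size, g.1 < k → ∃ Φ : Apx n m (L * Q) I,
        (∀ l ∉ N, C.Agree o g (inp E x (fresh I l)) →
          Φ.Lower (fresh I l) (C.val g (inp E x (fresh I l)))) ∧
        (∀ π ∉ M, (false, π.1) ∈ I → (true, π.2.1) ∈ I → C.Agree o g (inp E x (posTest π)) →
          Φ.Upper (posTest π) (C.val g (inp E x (posTest π)))) := by
  intro k
  induction k with
  | zero =>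
    intro _
    exact ⟨∅, ∅, by simp, by simp, fun g hg => absurd hg (Nat.not_lt_zero _)⟩
  | succ k ih =>
    intro hk
    obtain ⟨N, M, hN, hM, hA⟩ := ih (by omega)
    obtain ⟨φ, hφ, u, hu, hval⟩ := C.gates ⟨k, by omega⟩ o
    -- approximators of the arguments
    have hargs : ∀ a : Fin r, ∃ (Ψ : Apx n m (L * Q) I) (N' : Finset (Layer n m Q)),
        (N'.card : ℝ) ≤ Real.exp (-L) * ((Q * 2 ^ m : ℕ) : ℝ) ^ (2 * n) ∧
        (∀ l ∉ N ∪ N', C.Agree o ⟨k, by omega⟩ (inp E x (fresh I l)) →
          Ψ.Lower (fresh I l) (u a (inp E x (fresh I l)))) ∧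
        (∀ π ∉ M, (false, π.1) ∈ I → (true, π.2.1) ∈ I →
          C.Agree o ⟨k, by omega⟩ (inp E x (posTest π)) →
          Ψ.Upper (posTest π) (u a (inp E x (posTest π)))) := by
      intro a
      rcases hu a with hs | ⟨g, hg, hgu⟩
      · have hside : ∃ b : Bool, ∀ z z' : Test n m, (∀ i, z (b, i) = z' (b, i)) →
            (u a (inp E x z)) = u a (inp E x z') := by
          rcases hs with ⟨ψ, _, h2⟩ | ⟨ψ, _, h2⟩
          · refine ⟨false, fun z z' h => ?_⟩
            rw [h2, h2]
            congr 1
            funext i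
            simp only [inp, h i]
          · refine ⟨true, fun z z' h => ?_⟩
            rw [h2, h2]
            congr 1
            funext i
            simp only [inp, h i]
        have hmono : Monotone fun z : Test n m => u a (inp E x z) := by
          intro z z' hz
          have hz' := inp_antitone E hE x hz
          show u a (inp E x z) ≤ u a (inp E x z')
          rcases hs with ⟨ψ, h1, h2⟩ | ⟨ψ, h1, h2⟩
          · rw [h2, h2]
            exact h1 fun i => hz' _
          · rw [h2, h2]
            exact h1 fun i => hz' _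
        obtain ⟨b, hb⟩ := hside
        obtain ⟨Ψ, N', h1, h2, h3⟩ := side_step (L := L) hQ I _ hmono b hb
        exact ⟨Ψ, N', h1, fun l hl _ => h2 l fun h => hl (Finset.mem_union_right _ h),
          fun π _ _ _ _ => h3 π⟩
      · obtain ⟨Φ, h1, h2⟩ := hA g hg
        refine ⟨Φ, ∅, by simpa using by positivity, ?_, ?_⟩
        · intro l hl hag
          rw [hgu]
          exact h1 l (by simpa using hl) (hag.mono hg.le)
        · intro π hπ h3 h4 hag
          rw [hgu]
          exact h2 π hπ h3 h4 (hag.mono hg.le)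
    choose Ψ N' hN' hLo hUp using hargs
    obtain ⟨Φ, N1, M1, hN1, hM1, hLo1, hUp1⟩ := gate_step hQ φ hφ Ψ
    refine ⟨N ∪ (Finset.univ.biUnion N' ∪ N1), M ∪ M1, ?_, ?_, ?_⟩
    · have h1 : ((Finset.univ.biUnion N').card : ℝ) ≤
          r * (Real.exp (-L) * ((Q * 2 ^ m : ℕ) : ℝ) ^ (2 * n)) := by
        calc ((Finset.univ.biUnion N').card : ℝ) ≤ ∑ a, ((N' a).card : ℝ) := by
              exact_mod_cast Finset.card_biUnion_le
          _ ≤ ∑ _a : Fin r, Real.exp (-L) * ((Q * 2 ^ m : ℕ) : ℝ) ^ (2 * n) :=
              Finset.sum_le_sum fun a _ => hN' a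
          _ = _ := by simp
      have h2 : ((N ∪ (Finset.univ.biUnion N' ∪ N1)).card : ℝ) ≤
          N.card + ((Finset.univ.biUnion N').card + N1.card) := by
        exact_mod_cast (Finset.card_union_le _ _).trans
          (Nat.add_le_add_left (Finset.card_union_le _ _) _)
      push_cast at *
      linarith
    · have h2 : ((M ∪ M1).card : ℝ) ≤ M.card + M1.card := by
        exact_mod_cast Finset.card_union_le _ _
      push_cast at *
      linarith
    · intro g hg
      rcases Nat.lt_succ_iff_lt_or_eq.1 hg with hlt | heq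
      · obtain ⟨Φ', h1, h2⟩ := hA g hlt
        exact ⟨Φ', fun l hl => h1 l fun h => hl (Finset.mem_union_left _ h),
          fun π hπ => h2 π fun h => hπ (Finset.mem_union_left _ h)⟩
      · have hg' : g = ⟨k, by omega⟩ := Fin.ext heq
        rw [hg']
        refine ⟨Φ, ?_, ?_⟩
        · intro l hl hag
          simp only [Finset.mem_union, not_or] at hl
          rw [hval _ hag]
          apply hLo1 l hl.2.2
          intro a
          apply hLo a l _ hag
          simp only [Finset.mem_union, not_or]
          refine ⟨hl.1, fun h => hl.2.1 ?_⟩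
          exact Finset.mem_biUnion.2 ⟨a, Finset.mem_univ _, h⟩
        · intro π hπ h3 h4 hag
          simp only [Finset.mem_union, not_or] at hπ
          rw [hval _ hag]
          apply hUp1 π hπ.2 h3 h4
          intro a
          exact hUp a π hπ.1 h3 h4 hag

theorem upper_le {Φ : Apx n m K I} {i j : Fin n} {S : Finset (Fin m)} {w v : ℝ}
    (h : Φ.Upper (posTest (i, j, S)) w) (hc : Φ.c ≤ v) (h1 : Φ.G (false, i) S ≤ v)
    (h2 : Φ.G (true, j) Sᶜ ≤ v) : w ≤ v := by
  rcases h with h | ⟨p, h⟩
  · exact h.trans hc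
  · by_cases hp1 : p = (false, i)
    · subst hp1
      refine h.trans ?_
      simpa [posTest] using h1
    · by_cases hp2 : p = (true, j)
      · subst hp2
        refine h.trans ?_
        simpa [posTest] using h2
      · have h3 : posTest (i, j, S) p = ∅ := by simp [posTest, hp1, hp2]
        rw [h3] at h
        exact (h.trans (Φ.empty p)).trans hc

open Classical in
/-- The number of planted tests for which the planted sets belong to given families. -/
theorem card_hit (P : Pos n → Finset (Finset (Fin m))) :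
    ((Finset.univ.filter fun π : Fin n × Fin n × Finset (Fin m) =>
      π.2.2 ∈ P (false, π.1)) ∪ (Finset.univ.filter fun π : Fin n × Fin n × Finset (Fin m) =>
      π.2.2ᶜ ∈ P (true, π.2.1))).card ≤ n * ∑ p, (P p).card := by
  have hQ1 : (Finset.univ.filter fun π : Fin n × Fin n × Finset (Fin m) =>
      π.2.2 ∈ P (false, π.1)).card = n * ∑ i, (P (false, i)).card := by
    have h4 : ∀ i : Fin n, ∑ _j : Fin n, (P (false, i)).card = n * (P (false, i)).card := by
      intro i
      simp
    rw [Finset.card_filter, Fintype.sum_prod_type, Finset.mul_sum]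
    apply Finset.sum_congr rfl
    intro i _
    rw [Fintype.sum_prod_type, ← h4 i]
    apply Finset.sum_congr rfl
    intro j _
    rw [← Finset.card_filter]
    congr 1
    ext S
    simp
  have hQ2 : (Finset.univ.filter fun π : Fin n × Fin n × Finset (Fin m) =>
      π.2.2ᶜ ∈ P (true, π.2.1)).card = n * ∑ j, (P (true, j)).card := by
    have h5 : ∀ j : Fin n, (Finset.univ.filter fun S : Finset (Fin m) =>
        Sᶜ ∈ P (true, j)).card = (P (true, j)).card := by
      intro j
      apply Finset.card_bij (fun S _ => Sᶜ)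
      · intro S hS
        simpa using hS
      · intro S _ T _ h
        exact compl_injective h
      · intro S hS
        exact ⟨Sᶜ, by simpa using hS, compl_compl S⟩
    have h4 : ∑ _i : Fin n, ∑ j, (P (true, j)).card = n * ∑ j, (P (true, j)).card := by
      simp
    rw [Finset.card_filter, Fintype.sum_prod_type, ← h4]
    apply Finset.sum_congr rfl
    intro i _
    rw [Fintype.sum_prod_type]
    apply Finset.sum_congr rfl
    intro j _
    rw [← Finset.card_filter, ← h5 j]
  calc _ ≤ _ + _ := Finset.card_union_le _ _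
    _ = n * (∑ i, (P (false, i)).card + ∑ j, (P (true, j)).card) := by
        rw [hQ1, hQ2]; ring
    _ = n * ∑ p, (P p).card := by
        rw [Fintype.sum_prod_type, Fintype.sum_bool, add_comm]

open Classical in
/-- The main step: if sufficiently many layers neither change the outcomes of the tests nor lead
to acceptance, then few planted tests are accepted. -/
theorem state_bound (hQ : 0 < Q) (C : Computation n d r t)
    (E : Pos n → Finset (Fin m) → Vec d) (hE : ∀ p, Antitone (E p)) (x : Test n m)
    (I : Finset (Pos n)) (herr : (C.size : ℝ) * ((r + 1) * Real.exp (-L)) ≤ 1 / 32)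
    (hgood : (1 / 16 : ℝ) * ((Q * 2 ^ m : ℕ) : ℝ) ^ (2 * n) ≤
      ((Finset.univ.filter fun l : Layer n m Q =>
        (∀ k, C.thr k < C.val (C.src k) (inp E x (fresh I l)) ↔
          C.thr k < C.val (C.src k) (inp E x fun _ => ∅)) ∧
        ¬ C.Accepts (inp E x (fresh I l))).card : ℝ)) :
    ((Finset.univ.filter fun π : Fin n × Fin n × Finset (Fin m) =>
      (false, π.1) ∈ I ∧ (true, π.2.1) ∈ I ∧ C.Accepts (inp E x (posTest π))).card : ℝ) ≤
      n * (4 * Q * 2 ^ m) + C.size * ((r * (L * Q : ℕ)) ^ 2 * 2 ^ m) := by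
  let o : Fin t → Prop := fun k => C.thr k < C.val (C.src k) (inp E x fun _ => ∅)
  obtain ⟨N, M, hN, hM, hA⟩ := exists_apx (L := L) hQ C E hE x I o C.size le_rfl
  have hA' : ∀ g : Fin C.size, _ := fun g => hA g g.2
  choose Φ hLo hUp using hA'
  have hB : (0 : ℝ) < ((Q * 2 ^ m : ℕ) : ℝ) := by
    have : 0 < Q * 2 ^ m := by positivity
    exact_mod_cast this
  generalize hD : ((Q * 2 ^ m : ℕ) : ℝ) ^ (2 * n) = D at *
  have hDpos : 0 < D := by rw [← hD]; positivity
  have hN' : (N.card : ℝ) ≤ 1 / 32 * D := by
    calc (N.card : ℝ) ≤ C.size * ((r + 1) * (Real.exp (-L) * D)) := hN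
      _ = (C.size * ((r + 1) * Real.exp (-L))) * D := by ring
      _ ≤ 1 / 32 * D := mul_le_mul_of_nonneg_right herr hDpos.le
  generalize hGs : (Finset.univ.filter fun l : Layer n m Q =>
        (∀ k, C.thr k < C.val (C.src k) (inp E x (fresh I l)) ↔
          C.thr k < C.val (C.src k) (inp E x fun _ => ∅)) ∧
        ¬ C.Accepts (inp E x (fresh I l))) = Gs at hgood
  have hmemG : ∀ l ∈ Gs, (∀ g, C.Agree o g (inp E x (fresh I l))) ∧
      ¬ C.Accepts (inp E x (fresh I l)) ∧
      ∀ k, C.thr k < C.val (C.src k) (inp E x (fresh I l)) ↔ o k := by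
    intro l hl
    rw [← hGs] at hl
    simp only [Finset.mem_filter, Finset.mem_univ, true_and] at hl
    exact ⟨fun g k _ => hl.1 k, hl.2, hl.1⟩
  -- a good layer without errors
  have hex : ∃ l ∈ Gs, l ∉ N := by
    by_contra hcon
    push Not at hcon
    have h1 : (Gs.card : ℝ) ≤ N.card := by
      exact_mod_cast Finset.card_le_card (fun l hl => hcon l hl)
    linarith
  obtain ⟨l0, hl0, hl0N⟩ := hex
  obtain ⟨hag0, hrej0, hiff0⟩ := hmemG l0 hl0
  have hc1 : ∀ k, ¬ o k → (Φ (C.src k)).c ≤ C.thr k := by
    intro k hk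
    have h1 := (hLo (C.src k) l0 hl0N (hag0 _)).1
    exact h1.trans (not_lt.1 fun h => hk ((hiff0 k).1 h))
  have hc2 : (Φ C.out).c ≤ C.threshold :=
    ((hLo C.out l0 hl0N (hag0 _)).1).trans (not_lt.1 hrej0)
  -- the dangerous sets
  let F : Pos n → Finset (Finset (Fin m)) := fun p => Finset.univ.filter fun S =>
    (∃ k, ¬ o k ∧ C.thr k < (Φ (C.src k)).G p S) ∨ C.threshold < (Φ C.out).G p S
  have hsub : Gs ⊆ N ∪ Fintype.piFinset fun p => Finset.univ.filter
      fun q : Fin Q × Finset (Fin m) => ¬ (p ∈ I ∧ q.1.val = 0 ∧ q.2 ∈ F p) := by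
    intro l hl
    by_cases hlN : l ∈ N
    · exact Finset.mem_union_left _ hlN
    · apply Finset.mem_union_right
      rw [Fintype.mem_piFinset]
      intro p
      simp only [Finset.mem_filter, Finset.mem_univ, true_and]
      rintro ⟨hp1, hp2, hp3⟩
      obtain ⟨hag, hrej, hiff⟩ := hmemG l hl
      have hfr : fresh I l p = (l p).2 := by simp [fresh, hp1, hp2]
      simp only [F, Finset.mem_filter, Finset.mem_univ, true_and] at hp3
      rcases hp3 with ⟨k, hk1, hk2⟩ | h
      · have h1 := (hLo (C.src k) l hlN (hag _)).2 p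
        rw [hfr] at h1
        exact hk1 ((hiff k).1 (hk2.trans_le h1))
      · have h1 := (hLo C.out l hlN (hag _)).2 p
        rw [hfr] at h1
        exact hrej (h.trans_le h1)
  have hF : ∑ p ∈ I, ((F p).card : ℝ) ≤ 4 * Q * 2 ^ m := by
    have h1 : (1 / 16 : ℝ) * D ≤ 1 / 32 * D +
        Real.exp (-((∑ p ∈ I, ((F p).card : ℝ)) / (Q * 2 ^ m : ℕ))) * D := by
      have h2 := card_avoid hQ I F
      rw [hD] at h2
      have h3 : (Gs.card : ℝ) ≤ N.card + ((Fintype.piFinset fun p => Finset.univ.filter
          fun q : Fin Q × Finset (Fin m) => ¬ (p ∈ I ∧ q.1.val = 0 ∧ q.2 ∈ F p)).card : ℝ) := by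
        exact_mod_cast (Finset.card_le_card hsub).trans (Finset.card_union_le _ _)
      linarith
    have h2 : (1 / 32 : ℝ) ≤ Real.exp (-((∑ p ∈ I, ((F p).card : ℝ)) / (Q * 2 ^ m : ℕ))) := by
      by_contra hcon
      have h3 := mul_lt_mul_of_pos_right (not_le.1 hcon) hDpos
      linarith
    have h3 : (∑ p ∈ I, ((F p).card : ℝ)) / (Q * 2 ^ m : ℕ) ≤ 4 := by
      by_contra hcon
      have h4 : Real.exp (-((∑ p ∈ I, ((F p).card : ℝ)) / (Q * 2 ^ m : ℕ))) < Real.exp (-4) :=
        Real.exp_lt_exp.2 (by linarith [not_le.1 hcon])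
      have h5 : Real.exp (-4) < 1 / 32 := by
        rw [Real.exp_neg, ← one_div]
        apply one_div_lt_one_div_of_lt (by norm_num)
        have h6 : Real.exp 4 = (Real.exp 1) ^ 4 := by
          rw [← Real.exp_nat_mul]; norm_num
        rw [h6]
        have h7 := Real.exp_one_gt_d9
        calc (32 : ℝ) < (2.7182818283 : ℝ) ^ 4 := by norm_num
          _ ≤ (Real.exp 1) ^ 4 := pow_le_pow_left₀ (by norm_num) h7.le 4
      linarith
    rw [div_le_iff₀ hB] at h3
    calc ∑ p ∈ I, ((F p).card : ℝ) ≤ 4 * ((Q * 2 ^ m : ℕ) : ℝ) := h3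
      _ = 4 * Q * 2 ^ m := by push_cast; ring
  -- the planted tests
  let P : Pos n → Finset (Finset (Fin m)) := fun p => if p ∈ I then F p else ∅
  have hsub2 : (Finset.univ.filter fun π : Fin n × Fin n × Finset (Fin m) =>
      (false, π.1) ∈ I ∧ (true, π.2.1) ∈ I ∧ C.Accepts (inp E x (posTest π))) ⊆
      M ∪ ((Finset.univ.filter fun π : Fin n × Fin n × Finset (Fin m) =>
      π.2.2 ∈ P (false, π.1)) ∪ (Finset.univ.filter fun π : Fin n × Fin n × Finset (Fin m) =>
      π.2.2ᶜ ∈ P (true, π.2.1))) := by
    rintro ⟨i, j, S⟩ hπ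
    simp only [Finset.mem_filter, Finset.mem_univ, true_and] at hπ
    obtain ⟨hi, hj, hacc⟩ := hπ
    by_contra hcon
    simp only [Finset.mem_union, not_or, Finset.mem_filter, Finset.mem_univ, true_and, P, hi, hj,
      if_true, F, not_exists, not_and, not_lt] at hcon
    obtain ⟨hπM, ⟨h1a, h1b⟩, h2a, h2b⟩ := hcon
    have hle : inp E x (posTest (i, j, S)) ≤ inp E x fun _ => ∅ :=
      inp_antitone E hE x fun p => Finset.empty_subset _
    have hag : ∀ g, C.Agree o g (inp E x (posTest (i, j, S))) := by
      intro g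
      induction g using WellFoundedLT.induction with
      | ind g ih =>
        intro k hk
        have h3 := ih (C.src k) hk
        constructor
        · intro h4
          by_contra h5
          have h6 := upper_le (hUp (C.src k) _ hπM hi hj h3) (hc1 k h5) (h1a k h5) (h2a k h5)
          exact absurd h4 (not_lt.2 h6)
        · intro h4
          have h5 : C.thr k < C.val (C.src k) (inp E x fun _ => ∅) := h4
          exact h5.trans_le (val_le C o hle (C.src k) (fun k' _ => Iff.rfl) h3)
    have h6 := upper_le (hUp C.out _ hπM hi hj (hag _)) hc2 h1b h2b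
    exact absurd hacc (not_lt.2 h6)
  have hPsum : ∑ p, ((P p).card : ℝ) ≤ 4 * Q * 2 ^ m := by
    refine le_trans (le_of_eq ?_) hF
    have h1 : ∀ p, ((P p).card : ℝ) = if p ∈ I then ((F p).card : ℝ) else 0 := by
      intro p
      by_cases hp : p ∈ I
      · simp [P, hp]
      · simp [P, hp]
    rw [Finset.sum_congr rfl fun p _ => h1 p, Finset.sum_ite_mem, Finset.univ_inter]
  have hfin : ((Finset.univ.filter fun π : Fin n × Fin n × Finset (Fin m) =>
      (false, π.1) ∈ I ∧ (true, π.2.1) ∈ I ∧ C.Accepts (inp E x (posTest π))).card : ℝ) ≤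
      M.card + n * ∑ p, ((P p).card : ℝ) := by
    have h1 := (Finset.card_le_card hsub2).trans ((Finset.card_union_le _ _).trans
      (Nat.add_le_add_left (card_hit P) _))
    exact_mod_cast h1
  calc _ ≤ (M.card : ℝ) + n * ∑ p, ((P p).card : ℝ) := hfin
    _ ≤ C.size * ((r * (L * Q : ℕ)) ^ 2 * 2 ^ m) + n * (4 * Q * 2 ^ m) := by
        have h1 : (0 : ℝ) ≤ n := Nat.cast_nonneg n
        have h2 := mul_le_mul_of_nonneg_left hPsum h1
        linarith
    _ = _ := by ring

/-! ### The outcomes along a chain -/

open Classical in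
/-- The outcomes of the tests as a list of bits. -/
noncomputable def Computation.bits (C : Computation n d r t) (y : Input n d) : Fin t → Bool :=
  fun k => decide (C.thr k < C.val (C.src k) y)

theorem bits_lt (C : Computation n d r t) {y y' : Input n d} (hy : y' ≤ y)
    (hne : C.bits y ≠ C.bits y') : toLex (C.bits y) < toLex (C.bits y') := by
  classical
  have hex : ∃ k, C.bits y k ≠ C.bits y' k := by
    by_contra hcon
    push Not at hcon
    exact hne (funext hcon)
  obtain ⟨k0, hk0, hmin⟩ : ∃ k, C.bits y k ≠ C.bits y' k ∧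
      ∀ j < k, C.bits y j = C.bits y' j := by
    obtain ⟨k, hk, hk'⟩ := WellFounded.has_min (wellFounded_lt (α := Fin t))
      {k | C.bits y k ≠ C.bits y' k} hex
    refine ⟨k, hk, fun j hj => ?_⟩
    by_contra hcon
    exact hk' j hcon hj
  refine ⟨k0, hmin, ?_⟩
  have h1 : C.val (C.src k0) y ≤ C.val (C.src k0) y' := by
    refine val_le C (fun k => C.thr k < C.val (C.src k) y) hy (C.src k0)
      (fun k _ => Iff.rfl) (fun k hk => ?_)
    have hkk : k < k0 := by
      by_contra hcon
      exact absurd (C.ordered (not_lt.1 hcon)) (not_le.2 hk)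
    have h2 := hmin k hkk
    simp only [Computation.bits] at h2
    exact (decide_eq_decide.1 h2).symm
  show C.bits y k0 < C.bits y' k0
  rw [Bool.lt_iff]
  have h2 : C.bits y k0 = true → C.bits y' k0 = true := by
    simp only [Computation.bits, decide_eq_true_eq]
    exact fun h => h.trans_le h1
  cases h3 : C.bits y k0 <;> cases h4 : C.bits y' k0 <;> simp_all

/-- The number of branches in terms of bits. -/
theorem card_bits (C : Computation n d r t) :
    ((Finset.univ : Finset (Input n d)).image C.bits).card = C.branches := by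
  classical
  have h1 : Set.range C.outcomes =
      (fun (v : Fin t → Bool) (k : Fin t) => v k = true) '' Set.range C.bits := by
    ext o
    simp only [Set.mem_range, Set.mem_image, exists_exists_eq_and]
    have h2 : ∀ x, C.outcomes x = fun k => C.bits x k = true := by
      intro x
      funext k
      simp [Computation.outcomes, Computation.bits]
    simp only [h2]
  have hinj : Function.Injective (fun (v : Fin t → Bool) (k : Fin t) => v k = true) := by
    intro v v' h
    funext k
    have h3 : (v k = true) = (v' k = true) := congrFun h k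
    cases h4 : v k <;> cases h5 : v' k <;> simp_all
  unfold Computation.branches
  rw [h1, Set.ncard_image_of_injective _ hinj]
  rw [← Set.ncard_coe_finset, Finset.coe_image, Finset.coe_univ, Set.image_univ]

/-- Along a chain of inputs the outcomes change less often than there are branches. -/
theorem card_changes (C : Computation n d r t) (y : ℕ → Input n d) (hy : ∀ a, y (a + 1) ≤ y a)
    (T : ℕ) : ((Finset.range T).filter fun a => C.bits (y a) ≠ C.bits (y (a + 1))).card ≤
      C.branches := by
  classical
  let R : Finset (Fin t → Bool) := (Finset.univ : Finset (Input n d)).image C.bits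
  let num : ℕ → ℕ := fun a => (R.filter fun v => toLex v < toLex (C.bits (y a))).card
  have h1 : ∀ a, C.bits (y a) ≠ C.bits (y (a + 1)) → num a < num (a + 1) := by
    intro a ha
    have hlt := bits_lt C (hy a) ha
    apply Finset.card_lt_card
    rw [Finset.ssubset_iff_of_subset]
    · refine ⟨C.bits (y a), ?_, ?_⟩
      · rw [Finset.mem_filter]
        exact ⟨Finset.mem_image.2 ⟨y a, Finset.mem_univ _, rfl⟩, hlt⟩
      · rw [Finset.mem_filter, not_and]
        exact fun _ => lt_irrefl _
    · intro v hv
      rw [Finset.mem_filter] at hv ⊢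
      exact ⟨hv.1, hv.2.trans hlt⟩
  have h2 : ∀ a, num a ≤ num (a + 1) := by
    intro a
    by_cases ha : C.bits (y a) = C.bits (y (a + 1))
    · simp only [num, ha]
      exact le_rfl
    · exact (h1 a ha).le
  have h3 : ∀ T, ((Finset.range T).filter fun a => C.bits (y a) ≠ C.bits (y (a + 1))).card ≤
      num T := by
    intro T
    induction T with
    | zero => simp
    | succ T ih =>
      rw [Finset.range_add_one, Finset.filter_insert]
      split_ifs with h
      · refine (Finset.card_insert_le _ _).trans ?_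
        exact (Nat.add_le_add_right ih 1).trans (h1 T h)
      · exact ih.trans (h2 T)
  refine (h3 T).trans ?_
  rw [← card_bits]
  exact Finset.card_le_card (Finset.filter_subset _ _)

/-- States: the sets at the active positions. -/
abbrev State (n m : ℕ) : Type := Pos n → Option (Finset (Fin m))

/-- The test of a state. -/
def tst (b : State n m) : Test n m := fun p => (b p).getD ∅

/-- The inactive positions. -/
def inactive (b : State n m) : Finset (Pos n) := Finset.univ.filter fun p => b p = none

/-- The next state. -/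
def next (b : State n m) (l : Layer n m Q) : State n m := fun p =>
  if b p = none then (if (l p).1.val = 0 then some (l p).2 else none) else b p

/-- The chain of states. -/
def chain (w : Fin T → Layer n m Q) : ℕ → State n m
  | 0 => fun _ => none
  | a + 1 => if h : a < T then next (chain w a) (w ⟨a, h⟩) else chain w a

theorem tst_next (b : State n m) (l : Layer n m Q) :
    tst (next b l) = fun p => tst b p ∪ fresh (inactive b) l p := by
  funext p
  by_cases hb : b p = none
  · by_cases hl : (l p).1.val = 0
    · simp [tst, next, fresh, inactive, hb, hl]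
    · simp [tst, next, fresh, inactive, hb, hl]
  · simp [tst, next, fresh, inactive, hb]

theorem tst_chain_le (w : Fin T → Layer n m Q) (a : ℕ) (p : Pos n) :
    tst (chain w a) p ⊆ tst (chain w (a + 1)) p := by
  by_cases h : a < T
  · have h1 : chain w (a + 1) = next (chain w a) (w ⟨a, h⟩) := by
      simp [chain, h]
    rw [h1, tst_next]
    exact Finset.subset_union_left
  · have h1 : chain w (a + 1) = chain w a := by
      simp [chain, h]
    rw [h1]

theorem chain_update (w : Fin T → Layer n m Q) (σ : Fin T) (l : Layer n m Q) :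
    ∀ a ≤ σ.val, chain (Function.update w σ l) a = chain w a := by
  intro a
  induction a with
  | zero => intro _; rfl
  | succ a ih =>
    intro ha
    have h1 : a < T := by omega
    have h2 : (⟨a, h1⟩ : Fin T) ≠ σ := by
      intro h
      have := congrArg Fin.val h
      simp only at this
      omega
    simp only [chain, h1, dif_pos]
    rw [ih (by omega), Function.update_of_ne h2]

theorem chain_some (w : Fin T → Layer n m Q) (p : Pos n) (S : Finset (Fin m)) :
    ∀ a, chain w a p = some S → ∃ σ : Fin T, (w σ p).1.val = 0 ∧ (w σ p).2 = S := by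
  intro a
  induction a with
  | zero => intro h; simp [chain] at h
  | succ a ih =>
    intro h
    by_cases ha : a < T
    · simp only [chain, ha, dif_pos, next] at h
      by_cases hb : chain w a p = none
      · rw [if_pos hb] at h
        by_cases hl : (w ⟨a, ha⟩ p).1.val = 0
        · rw [if_pos hl] at h
          exact ⟨⟨a, ha⟩, hl, Option.some.inj h⟩
        · rw [if_neg hl] at h
          simp at h
      · rw [if_neg hb] at h
        exact ih h
    · simp only [chain, ha, dif_neg, not_false_iff] at h
      exact ih h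

/-! ### Counting -/

theorem resample {ι X : Type} [Fintype ι] [DecidableEq ι] [Fintype X] (a : ι)
    (G : (ι → X) → X → Prop) [∀ f x, Decidable (G f x)]
    (hG : ∀ f x y, G (Function.update f a x) y ↔ G f y) :
    Fintype.card X * (Finset.univ.filter fun f : ι → X => G f (f a)).card =
      ∑ f : ι → X, (Finset.univ.filter fun x => G f x).card := by
  let σ : (ι → X) × X ≃ (ι → X) × X :=
    { toFun := fun q => (Function.update q.1 a q.2, q.1 a)
      invFun := fun q => (Function.update q.1 a q.2, q.1 a)
      left_inv := fun q => by ext <;> simp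
      right_inv := fun q => by ext <;> simp }
  have h1 : ∑ q : (ι → X) × X, (if G q.1 (q.1 a) then 1 else 0 : ℕ) =
      ∑ q : (ι → X) × X, (if G q.1 q.2 then 1 else 0 : ℕ) := by
    rw [← Equiv.sum_comp σ]
    apply Finset.sum_congr rfl
    intro q _
    have h2 : (σ q).1 = Function.update q.1 a q.2 := rfl
    rw [h2, Function.update_self]
    simp only [hG]
  rw [Fintype.sum_prod_type, Fintype.sum_prod_type] at h1
  calc Fintype.card X * (Finset.univ.filter fun f : ι → X => G f (f a)).card
      = ∑ f : ι → X, ∑ _x : X, (if G f (f a) then 1 else 0 : ℕ) := by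
        rw [Finset.card_filter, Finset.mul_sum]
        apply Finset.sum_congr rfl
        intro f _
        rw [Finset.sum_const, Finset.card_univ, smul_eq_mul]
    _ = ∑ f : ι → X, ∑ x : X, (if G f x then 1 else 0 : ℕ) := h1
    _ = _ := by
        apply Finset.sum_congr rfl
        intro f _
        rw [Finset.card_filter]

theorem count_one {ι X : Type} [Fintype ι] [DecidableEq ι] [Fintype X] (a : ι)
    (P : X → Prop) [DecidablePred P] :
    Fintype.card X * (Finset.univ.filter fun f : ι → X => P (f a)).card =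
      Fintype.card (ι → X) * (Finset.univ.filter P).card := by
  rw [resample a (fun _ x => P x) (fun _ _ _ => Iff.rfl), Finset.sum_const, Finset.card_univ,
    smul_eq_mul]

theorem count_two {ι X : Type} [Fintype ι] [DecidableEq ι] [Fintype X] {a b : ι} (hab : a ≠ b)
    (B : X → X → Prop) [∀ x y, Decidable (B x y)] :
    Fintype.card X ^ 2 * (Finset.univ.filter fun f : ι → X => B (f a) (f b)).card =
      Fintype.card (ι → X) * ∑ x, (Finset.univ.filter fun y => B x y).card := by
  have h1 := resample a (fun (f : ι → X) x => B x (f b)) (fun f x y => by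
    rw [Function.update_of_ne hab.symm])
  have h2 : ∑ f : ι → X, (Finset.univ.filter fun x => B x (f b)).card =
      ∑ x, (Finset.univ.filter fun f : ι → X => B x (f b)).card := by
    simp only [Finset.card_filter]
    exact Finset.sum_comm
  calc Fintype.card X ^ 2 * (Finset.univ.filter fun f : ι → X => B (f a) (f b)).card
      = Fintype.card X * (Fintype.card X *
          (Finset.univ.filter fun f : ι → X => B (f a) (f b)).card) := by ring
    _ = Fintype.card X * ∑ x, (Finset.univ.filter fun f : ι → X => B x (f b)).card := by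
        rw [h1, h2]
    _ = ∑ x, Fintype.card (ι → X) * (Finset.univ.filter fun y => B x y).card := by
        rw [Finset.mul_sum]
        exact Finset.sum_congr rfl fun x _ => count_one b _
    _ = _ := by rw [Finset.mul_sum]

/-- The number of sequences of layers. -/
theorem card_W : Fintype.card (Fin T → Layer n m Q) =
    Fintype.card (Fin T × Pos n → Fin Q × Finset (Fin m)) :=
  Fintype.card_congr (Equiv.curry _ _ _).symm

theorem card_X : Fintype.card (Fin Q × Finset (Fin m)) = Q * 2 ^ m := by
  simp [Fintype.card_prod]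

theorem count_layer_one (σ : Fin T) (p : Pos n) (P : Fin Q × Finset (Fin m) → Prop)
    [DecidablePred P] :
    (Q * 2 ^ m) * (Finset.univ.filter fun w : Fin T → Layer n m Q => P (w σ p)).card =
      Fintype.card (Fin T → Layer n m Q) * (Finset.univ.filter P).card := by
  have h1 : (Finset.univ.filter fun w : Fin T → Layer n m Q => P (w σ p)).card =
      (Finset.univ.filter fun f : Fin T × Pos n → Fin Q × Finset (Fin m) =>
        P (f (σ, p))).card := by
    apply Finset.card_equiv (Equiv.curry _ _ _).symm
    intro w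
    simp
  rw [h1, card_W, ← card_X (Q := Q) (m := m)]
  exact count_one (σ, p) P

theorem count_layer_two (σ σ' : Fin T) {p p' : Pos n} (hp : p ≠ p')
    (B : Fin Q × Finset (Fin m) → Fin Q × Finset (Fin m) → Prop) [∀ x y, Decidable (B x y)] :
    (Q * 2 ^ m) ^ 2 *
      (Finset.univ.filter fun w : Fin T → Layer n m Q => B (w σ p) (w σ' p')).card =
      Fintype.card (Fin T → Layer n m Q) * ∑ x, (Finset.univ.filter fun y => B x y).card := by
  have h1 : (Finset.univ.filter fun w : Fin T → Layer n m Q => B (w σ p) (w σ' p')).card =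
      (Finset.univ.filter fun f : Fin T × Pos n → Fin Q × Finset (Fin m) =>
        B (f (σ, p)) (f (σ', p'))).card := by
    apply Finset.card_equiv (Equiv.curry _ _ _).symm
    intro w
    simp
  rw [h1, card_W, ← card_X (Q := Q) (m := m)]
  exact count_two (fun h => hp (Prod.ext_iff.1 h).2) B

open Classical in
/-- Few positions are active. -/
theorem card_active (hQ : 0 < Q) (a : ℕ) (p : Pos n) :
    Q * (Finset.univ.filter fun w : Fin T → Layer n m Q => chain w a p ≠ none).card ≤
      T * Fintype.card (Fin T → Layer n m Q) := by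
  have h1 : ∀ σ : Fin T, Q * (Finset.univ.filter fun w : Fin T → Layer n m Q =>
      (w σ p).1.val = 0).card = Fintype.card (Fin T → Layer n m Q) := by
    intro σ
    have h2 := count_layer_one (n := n) (m := m) (Q := Q) σ p
      (fun x : Fin Q × Finset (Fin m) => x.1.val = 0)
    have h3 : (Finset.univ.filter fun x : Fin Q × Finset (Fin m) => x.1.val = 0).card =
        2 ^ m := by
      have h4 : (Finset.univ.filter fun x : Fin Q × Finset (Fin m) => x.1.val = 0) =
          {(⟨0, hQ⟩ : Fin Q)} ×ˢ (Finset.univ : Finset (Finset (Fin m))) := by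
        ext ⟨q1, q2⟩
        simp only [Finset.mem_filter, Finset.mem_univ, true_and, Finset.mem_product,
          Finset.mem_singleton, and_true]
        exact ⟨fun h => Fin.ext h, fun h => by rw [h]⟩
      rw [h4, Finset.card_product, Finset.card_singleton, one_mul, Finset.card_univ,
        Fintype.card_finset, Fintype.card_fin]
    rw [h3] at h2
    have h5 : 0 < 2 ^ m := by positivity
    apply Nat.eq_of_mul_eq_mul_right h5
    rw [← h2]
    ring
  have h2 : (Finset.univ.filter fun w : Fin T → Layer n m Q => chain w a p ≠ none) ⊆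
      Finset.univ.biUnion fun σ : Fin T => Finset.univ.filter fun w : Fin T → Layer n m Q =>
        (w σ p).1.val = 0 := by
    intro w hw
    simp only [Finset.mem_filter, Finset.mem_univ, true_and] at hw
    obtain ⟨S, hS⟩ := Option.ne_none_iff_exists'.1 hw
    obtain ⟨σ, h3, _⟩ := chain_some w p S a hS
    exact Finset.mem_biUnion.2 ⟨σ, Finset.mem_univ _, by simpa using h3⟩
  calc Q * (Finset.univ.filter fun w : Fin T → Layer n m Q => chain w a p ≠ none).card
      ≤ Q * ∑ σ : Fin T, (Finset.univ.filter fun w : Fin T → Layer n m Q =>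
        (w σ p).1.val = 0).card :=
        Nat.mul_le_mul_left _ ((Finset.card_le_card h2).trans Finset.card_biUnion_le)
    _ = ∑ _σ : Fin T, Fintype.card (Fin T → Layer n m Q) := by
        rw [Finset.mul_sum]
        exact Finset.sum_congr rfl fun σ _ => h1 σ
    _ = T * Fintype.card (Fin T → Layer n m Q) := by simp

open Classical in
theorem sum_cover (hQ : 0 < Q) : ∑ x : Fin Q × Finset (Fin m),
    (Finset.univ.filter fun y : Fin Q × Finset (Fin m) =>
      x.1.val = 0 ∧ y.1.val = 0 ∧ x.2 ∪ y.2 = Finset.univ).card = 3 ^ m := by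
  have h1 : ∀ x : Fin Q × Finset (Fin m), (Finset.univ.filter fun y : Fin Q × Finset (Fin m) =>
      x.1.val = 0 ∧ y.1.val = 0 ∧ x.2 ∪ y.2 = Finset.univ).card =
      if x.1 = ⟨0, hQ⟩ then 2 ^ x.2.card else 0 := by
    rintro ⟨q, S⟩
    by_cases hq : q = ⟨0, hQ⟩
    · subst hq
      have h2 : (Finset.univ.filter fun y : Fin Q × Finset (Fin m) =>
          (⟨0, hQ⟩ : Fin Q).val = 0 ∧ y.1.val = 0 ∧ S ∪ y.2 = Finset.univ) =
          {(⟨0, hQ⟩ : Fin Q)} ×ˢ (Finset.Icc Sᶜ Finset.univ) := by
        ext ⟨q1, R⟩
        simp only [Finset.mem_filter, Finset.mem_univ, true_and, Finset.mem_product,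
          Finset.mem_singleton, Finset.mem_Icc, Finset.subset_univ, and_true]
        constructor
        · rintro ⟨h1, h2⟩
          refine ⟨Fin.ext h1, fun k hk => ?_⟩
          have h3 : k ∈ S ∪ R := by rw [h2]; exact Finset.mem_univ _
          rcases Finset.mem_union.1 h3 with h4 | h4
          · exact absurd h4 (Finset.mem_compl.1 hk)
          · exact h4
        · rintro ⟨h1, h2⟩
          refine ⟨by rw [h1], ?_⟩
          ext k
          simp only [Finset.mem_union, Finset.mem_univ, iff_true]
          by_cases hk : k ∈ S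
          · exact Or.inl hk
          · exact Or.inr (h2 (Finset.mem_compl.2 hk))
      rw [h2, Finset.card_product, Finset.card_singleton, one_mul,
        Finset.card_Icc_finset (Finset.subset_univ _), Finset.card_univ,
        Finset.card_compl, Fintype.card_fin]
      simp only [if_true]
      congr 1
      have := Finset.card_le_univ S
      rw [Fintype.card_fin] at this
      omega
    · have h2 : (Finset.univ.filter fun y : Fin Q × Finset (Fin m) =>
          q.val = 0 ∧ y.1.val = 0 ∧ S ∪ y.2 = Finset.univ) = ∅ := by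
        ext y
        simp only [Finset.mem_filter, Finset.mem_univ, true_and, Finset.notMem_empty, iff_false]
        rintro ⟨h3, _⟩
        exact hq (Fin.ext h3)
      simp only [h2, Finset.card_empty]
      rw [if_neg hq]
  rw [Finset.sum_congr rfl fun x _ => h1 x, Fintype.sum_prod_type]
  simp only
  rw [Finset.sum_eq_single (⟨0, hQ⟩ : Fin Q)]
  · simp only [if_true]
    have := Fintype.sum_pow_mul_eq_add_pow (Fin m) (2 : ℕ) 1
    simpa using this
  · intro q _ hq
    simp [hq]
  · intro h
    exact absurd (Finset.mem_univ _) h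

open Classical in
/-- Few states have a covering pair. -/
theorem card_orthogonal (hQ : 0 < Q) (hTQ : T ≤ Q) (hm : 0 < m) (a : ℕ) :
    ((Finset.univ.filter fun w : Fin T → Layer n m Q =>
      ∃ i j : Fin n, tst (chain w a) (false, i) ∪ tst (chain w a) (true, j) =
        Finset.univ).card : ℝ) ≤
      (n ^ 2 * (3 / 4) ^ m + 2 * n * (1 / 2) ^ m) * Fintype.card (Fin T → Layer n m Q) := by
  let W : ℕ := Fintype.card (Fin T → Layer n m Q)
  let PE : (Fin n × Fin n) × (Fin T × Fin T) → Finset (Fin T → Layer n m Q) := fun q =>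
    Finset.univ.filter fun w => (w q.2.1 (false, q.1.1)).1.val = 0 ∧
      (w q.2.2 (true, q.1.2)).1.val = 0 ∧
      (w q.2.1 (false, q.1.1)).2 ∪ (w q.2.2 (true, q.1.2)).2 = Finset.univ
  let UE : Pos n × Fin T → Finset (Fin T → Layer n m Q) := fun q =>
    Finset.univ.filter fun w => (w q.2 q.1).1.val = 0 ∧ (w q.2 q.1).2 = Finset.univ
  have hPE : ∀ q, (Q * 2 ^ m) ^ 2 * (PE q).card = W * 3 ^ m := by
    rintro ⟨⟨i, j⟩, σ, σ'⟩
    have h1 := count_layer_two (n := n) (m := m) (Q := Q) σ σ'
      (show ((false, i) : Pos n) ≠ (true, j) by simp)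
      (fun x y => x.1.val = 0 ∧ y.1.val = 0 ∧ x.2 ∪ y.2 = Finset.univ)
    rw [sum_cover hQ] at h1
    exact h1
  have hUE : ∀ q, (Q * 2 ^ m) * (UE q).card = W := by
    rintro ⟨p, σ⟩
    have h1 := count_layer_one (n := n) (m := m) (Q := Q) σ p
      (fun x => x.1.val = 0 ∧ x.2 = Finset.univ)
    have h2 : (Finset.univ.filter fun x : Fin Q × Finset (Fin m) =>
        x.1.val = 0 ∧ x.2 = Finset.univ) = {(⟨0, hQ⟩, Finset.univ)} := by
      ext ⟨q1, q2⟩
      simp only [Finset.mem_filter, Finset.mem_univ, true_and, Finset.mem_singleton,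
        Prod.mk.injEq]
      exact ⟨fun h => ⟨Fin.ext h.1, h.2⟩, fun h => ⟨by rw [h.1], h.2⟩⟩
    rw [h2, Finset.card_singleton, mul_one] at h1
    exact h1
  have hQ' : (0 : ℝ) < Q := by exact_mod_cast hQ
  have hTQ' : (T : ℝ) ≤ Q := by exact_mod_cast hTQ
  have hPE' : ∀ q, ((PE q).card : ℝ) = W * 3 ^ m / (Q ^ 2 * 4 ^ m) := by
    intro q
    rw [eq_div_iff (by positivity)]
    have h1 : ((Q : ℝ) * 2 ^ m) ^ 2 * ((PE q).card : ℝ) = W * 3 ^ m := by exact_mod_cast hPE q
    rw [← h1]
    have h2 : (4 : ℝ) ^ m = 2 ^ m * 2 ^ m := by rw [← mul_pow]; norm_num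
    rw [h2]
    ring
  have hUE' : ∀ q, ((UE q).card : ℝ) = W / (Q * 2 ^ m) := by
    intro q
    rw [eq_div_iff (by positivity)]
    have h1 : ((Q : ℝ) * 2 ^ m) * ((UE q).card : ℝ) = W := by exact_mod_cast hUE q
    rw [← h1]
    ring
  have hsub : (Finset.univ.filter fun w : Fin T → Layer n m Q =>
      ∃ i j : Fin n, tst (chain w a) (false, i) ∪ tst (chain w a) (true, j) =
        Finset.univ) ⊆ (Finset.univ.biUnion PE) ∪ (Finset.univ.biUnion UE) := by
    intro w hw
    simp only [Finset.mem_filter, Finset.mem_univ, true_and] at hw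
    obtain ⟨i, j, h⟩ := hw
    simp only [tst] at h
    have hne : (∅ : Finset (Fin m)) ≠ Finset.univ := by
      intro h0
      have : (⟨0, hm⟩ : Fin m) ∈ (∅ : Finset (Fin m)) := by rw [h0]; exact Finset.mem_univ _
      simp at this
    cases h1 : chain w a (false, i) with
    | none =>
      cases h2 : chain w a (true, j) with
      | none =>
        rw [h1, h2] at h
        simp only [Option.getD_none, Finset.union_empty] at h
        exact absurd h hne
      | some S =>
        rw [h1, h2] at h
        simp only [Option.getD_none, Option.getD_some, Finset.empty_union] at h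
        obtain ⟨σ, h3, h4⟩ := chain_some w (true, j) S a h2
        apply Finset.mem_union_right
        refine Finset.mem_biUnion.2 ⟨((true, j), σ), Finset.mem_univ _, ?_⟩
        simp only [UE, Finset.mem_filter, Finset.mem_univ, true_and]
        exact ⟨h3, h4.trans h⟩
    | some S =>
      obtain ⟨σ, h3, h4⟩ := chain_some w (false, i) S a h1
      cases h2 : chain w a (true, j) with
      | none =>
        rw [h1, h2] at h
        simp only [Option.getD_none, Option.getD_some, Finset.union_empty] at h
        apply Finset.mem_union_right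
        refine Finset.mem_biUnion.2 ⟨((false, i), σ), Finset.mem_univ _, ?_⟩
        simp only [UE, Finset.mem_filter, Finset.mem_univ, true_and]
        exact ⟨h3, h4.trans h⟩
      | some R =>
        rw [h1, h2] at h
        simp only [Option.getD_some] at h
        obtain ⟨σ', h5, h6⟩ := chain_some w (true, j) R a h2
        apply Finset.mem_union_left
        refine Finset.mem_biUnion.2 ⟨((i, j), (σ, σ')), Finset.mem_univ _, ?_⟩
        simp only [PE, Finset.mem_filter, Finset.mem_univ, true_and]
        exact ⟨h3, h5, by rw [h4, h6]; exact h⟩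
  have hWnn : (0 : ℝ) ≤ W := Nat.cast_nonneg _
  have h3 : ((Finset.univ.biUnion PE).card : ℝ) ≤ n ^ 2 * (3 / 4) ^ m * W := by
    calc ((Finset.univ.biUnion PE).card : ℝ) ≤ ∑ q, ((PE q).card : ℝ) := by
          exact_mod_cast Finset.card_biUnion_le
      _ = (n * n) * (T * T) * (W * 3 ^ m / (Q ^ 2 * 4 ^ m)) := by
          rw [Finset.sum_congr rfl fun q _ => hPE' q, Finset.sum_const, Finset.card_univ,
            Fintype.card_prod, Fintype.card_prod, Fintype.card_prod, Fintype.card_fin,
            Fintype.card_fin, nsmul_eq_mul]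
          push_cast
          ring
      _ = (n ^ 2 * (3 / 4) ^ m * W) * (T / Q) ^ 2 := by
          rw [div_pow, div_pow]
          field_simp
      _ ≤ (n ^ 2 * (3 / 4) ^ m * W) * 1 := by
          apply mul_le_mul_of_nonneg_left _ (by positivity)
          apply pow_le_one₀ (by positivity)
          rw [div_le_one hQ']
          exact hTQ'
      _ = _ := mul_one _
  have h4 : ((Finset.univ.biUnion UE).card : ℝ) ≤ 2 * n * (1 / 2) ^ m * W := by
    calc ((Finset.univ.biUnion UE).card : ℝ) ≤ ∑ q, ((UE q).card : ℝ) := by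
          exact_mod_cast Finset.card_biUnion_le
      _ = (2 * n) * T * (W / (Q * 2 ^ m)) := by
          rw [Finset.sum_congr rfl fun q _ => hUE' q, Finset.sum_const, Finset.card_univ,
            Fintype.card_prod, Fintype.card_prod, Fintype.card_fin, Fintype.card_bool,
            Fintype.card_fin, nsmul_eq_mul]
          push_cast
          ring
      _ = (2 * n * (1 / 2) ^ m * W) * (T / Q) := by
          rw [div_pow, one_pow]
          field_simp
      _ ≤ (2 * n * (1 / 2) ^ m * W) * 1 := by
          apply mul_le_mul_of_nonneg_left _ (by positivity)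
          rw [div_le_one hQ']
          exact hTQ'
      _ = _ := mul_one _
  calc _ ≤ ((Finset.univ.biUnion PE).card : ℝ) + ((Finset.univ.biUnion UE).card : ℝ) := by
        exact_mod_cast (Finset.card_le_card hsub).trans (Finset.card_union_le _ _)
    _ ≤ n ^ 2 * (3 / 4) ^ m * W + 2 * n * (1 / 2) ^ m * W := add_le_add h3 h4
    _ = _ := by ring

/-! ### Averaging over the chain -/

/-- The input of a state. -/
def stInp (E : Pos n → Finset (Fin m) → Vec d) (b : State n m) : Input n d :=
  fun p => E p (tst b p)

theorem inp_fresh (E : Pos n → Finset (Fin m) → Vec d) (b : State n m) (l : Layer n m Q) :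
    inp E (tst b) (fresh (inactive b) l) = stInp E (next b l) := by
  funext p
  simp only [inp, stInp, tst_next]

theorem inp_empty (E : Pos n → Finset (Fin m) → Vec d) (b : State n m) :
    inp E (tst b) (fun _ => ∅) = stInp E b := by
  funext p
  simp only [inp, stInp, Finset.union_empty]

theorem card_layer : Fintype.card (Layer n m Q) = (Q * 2 ^ m) ^ (2 * n) := by
  simp [Layer, Fintype.card_prod]

/-- The layer neither changes the outcomes of the tests nor leads to acceptance. -/
def GoodL (C : Computation n d r t) (E : Pos n → Finset (Fin m) → Vec d) (b : State n m)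
    (l : Layer n m Q) : Prop :=
  (∀ k, C.thr k < C.val (C.src k) (inp E (tst b) (fresh (inactive b) l)) ↔
    C.thr k < C.val (C.src k) (inp E (tst b) fun _ => ∅)) ∧
    ¬ C.Accepts (inp E (tst b) (fresh (inactive b) l))

open Classical in
theorem per_state (hQ : 0 < Q) (C : Computation n d r t)
    (E : Pos n → Finset (Fin m) → Vec d) (hE : ∀ p, Antitone (E p)) (b : State n m)
    (herr : (C.size : ℝ) * ((r + 1) * Real.exp (-L)) ≤ 1 / 32) :
    ((Finset.univ.filter fun π : Fin n × Fin n × Finset (Fin m) =>
      (false, π.1) ∈ inactive b ∧ (true, π.2.1) ∈ inactive b ∧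
        C.Accepts (inp E (tst b) (posTest π))).card : ℝ) ≤
      (n * (4 * Q * 2 ^ m) + C.size * ((r * (L * Q : ℕ)) ^ 2 * 2 ^ m)) +
      16 / 15 * (n ^ 2 * 2 ^ m) *
        (((Finset.univ.filter fun l : Layer n m Q => ¬ GoodL C E b l).card : ℝ) /
          Fintype.card (Layer n m Q)) := by
  have hB : (0 : ℝ) < ((Q * 2 ^ m : ℕ) : ℝ) := by
    have : 0 < Q * 2 ^ m := by positivity
    exact_mod_cast this
  have hD : (Fintype.card (Layer n m Q) : ℝ) = ((Q * 2 ^ m : ℕ) : ℝ) ^ (2 * n) := by
    rw [card_layer]
    push_cast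
    ring
  have hDpos : (0 : ℝ) < Fintype.card (Layer n m Q) := by rw [hD]; positivity
  by_cases hg : (1 / 16 : ℝ) * ((Q * 2 ^ m : ℕ) : ℝ) ^ (2 * n) ≤
      ((Finset.univ.filter fun l : Layer n m Q => GoodL C E b l).card : ℝ)
  · have hg' : (1 / 16 : ℝ) * ((Q * 2 ^ m : ℕ) : ℝ) ^ (2 * n) ≤
        ((Finset.univ.filter fun l : Layer n m Q =>
          (∀ k, C.thr k < C.val (C.src k) (inp E (tst b) (fresh (inactive b) l)) ↔
            C.thr k < C.val (C.src k) (inp E (tst b) fun _ => ∅)) ∧
          ¬ C.Accepts (inp E (tst b) (fresh (inactive b) l))).card : ℝ) := by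
      refine hg.trans (le_of_eq ?_)
      have hset : (Finset.univ.filter fun l : Layer n m Q => GoodL C E b l) =
          (Finset.univ.filter fun l : Layer n m Q =>
          (∀ k, C.thr k < C.val (C.src k) (inp E (tst b) (fresh (inactive b) l)) ↔
            C.thr k < C.val (C.src k) (inp E (tst b) fun _ => ∅)) ∧
          ¬ C.Accepts (inp E (tst b) (fresh (inactive b) l))) :=
        Finset.filter_congr fun l _ => Iff.rfl
      rw [hset]
    refine (state_bound hQ C E hE (tst b) (inactive b) herr hg').trans ?_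
    have : (0 : ℝ) ≤ 16 / 15 * (n ^ 2 * 2 ^ m) *
        (((Finset.univ.filter fun l : Layer n m Q => ¬ GoodL C E b l).card : ℝ) /
          Fintype.card (Layer n m Q)) := by positivity
    linarith
  · have h1 : ((Finset.univ.filter fun l : Layer n m Q => GoodL C E b l).card : ℝ) +
        ((Finset.univ.filter fun l : Layer n m Q => ¬ GoodL C E b l).card : ℝ) =
        Fintype.card (Layer n m Q) := by
      rw [← Finset.card_univ]
      exact_mod_cast Finset.card_filter_add_card_filter_not (s := Finset.univ)
        (fun l : Layer n m Q => GoodL C E b l)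
    rw [← hD] at hg
    have h2 : (15 / 16 : ℝ) ≤
        ((Finset.univ.filter fun l : Layer n m Q => ¬ GoodL C E b l).card : ℝ) /
          Fintype.card (Layer n m Q) := by
      rw [le_div_iff₀ hDpos]
      linarith
    have h3 : ((Finset.univ.filter fun π : Fin n × Fin n × Finset (Fin m) =>
      (false, π.1) ∈ inactive b ∧ (true, π.2.1) ∈ inactive b ∧
        C.Accepts (inp E (tst b) (posTest π))).card : ℝ) ≤ n ^ 2 * 2 ^ m := by
      have h4 := Finset.card_le_univ (Finset.univ.filter
        fun π : Fin n × Fin n × Finset (Fin m) => (false, π.1) ∈ inactive b ∧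
          (true, π.2.1) ∈ inactive b ∧ C.Accepts (inp E (tst b) (posTest π)))
      have h5 : Fintype.card (Fin n × Fin n × Finset (Fin m)) = n ^ 2 * 2 ^ m := by
        simp only [Fintype.card_prod, Fintype.card_fin, Fintype.card_finset]
        ring
      rw [h5] at h4
      exact_mod_cast h4
    have h4 : (n : ℝ) ^ 2 * 2 ^ m ≤ 16 / 15 * (n ^ 2 * 2 ^ m) *
        (((Finset.univ.filter fun l : Layer n m Q => ¬ GoodL C E b l).card : ℝ) /
          Fintype.card (Layer n m Q)) := by
      calc (n : ℝ) ^ 2 * 2 ^ m = 16 / 15 * (n ^ 2 * 2 ^ m) * (15 / 16) := by ring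
        _ ≤ _ := mul_le_mul_of_nonneg_left h2 (by positivity)
    have h5 : (0 : ℝ) ≤ n * (4 * Q * 2 ^ m) + C.size * ((r * (L * Q : ℕ)) ^ 2 * 2 ^ m) := by
      positivity
    linarith

open Classical in
/-- The number of bad layers met along the chain. -/
theorem sum_bad (hQ : 0 < Q) (C : Computation n d r t)
    (E : Pos n → Finset (Fin m) → Vec d) (hE : ∀ p, Antitone (E p)) :
    ∑ w : Fin T → Layer n m Q, ∑ a : Fin T,
      (((Finset.univ.filter fun l : Layer n m Q => ¬ GoodL C E (chain w a) l).card : ℝ) /
          Fintype.card (Layer n m Q)) ≤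
      C.branches * Fintype.card (Fin T → Layer n m Q) +
      ((Finset.univ.filter fun q : (Fin T → Layer n m Q) × Fin T =>
        C.Accepts (stInp E (chain q.1 (q.2 + 1)))).card : ℝ) := by
  have hB : 0 < Q * 2 ^ m := by positivity
  have hDpos : (0 : ℝ) < Fintype.card (Layer n m Q) := by
    rw [card_layer]
    have : 0 < (Q * 2 ^ m) ^ (2 * n) := by positivity
    exact_mod_cast this
  -- resampling
  have h1 : ∀ a : Fin T, ∑ w : Fin T → Layer n m Q,
      (((Finset.univ.filter fun l : Layer n m Q => ¬ GoodL C E (chain w a) l).card : ℝ) /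
          Fintype.card (Layer n m Q)) =
      ((Finset.univ.filter fun w : Fin T → Layer n m Q =>
        ¬ GoodL C E (chain w a) (w a)).card : ℝ) := by
    intro a
    rw [← Finset.sum_div, div_eq_iff hDpos.ne']
    have h2 := resample a (fun (w : Fin T → Layer n m Q) l => ¬ GoodL C E (chain w a) l)
      (fun w l l' => by rw [chain_update w a l a le_rfl])
    have h3 : (Fintype.card (Layer n m Q) : ℝ) *
        ((Finset.univ.filter fun w : Fin T → Layer n m Q =>
          ¬ GoodL C E (chain w a) (w a)).card : ℝ) =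
        ∑ w : Fin T → Layer n m Q,
          ((Finset.univ.filter fun l : Layer n m Q => ¬ GoodL C E (chain w a) l).card : ℝ) := by
      exact_mod_cast h2
    rw [← h3]
    ring
  rw [Finset.sum_comm, Finset.sum_congr rfl fun a _ => h1 a]
  -- a bad layer changes the outcomes or leads to acceptance
  have h2 : ∀ a : Fin T, ((Finset.univ.filter fun w : Fin T → Layer n m Q =>
        ¬ GoodL C E (chain w a) (w a)).card : ℝ) ≤
      ((Finset.univ.filter fun w : Fin T → Layer n m Q =>
        C.bits (stInp E (chain w a)) ≠ C.bits (stInp E (chain w (a + 1)))).card : ℝ) +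
      ((Finset.univ.filter fun w : Fin T → Layer n m Q =>
        C.Accepts (stInp E (chain w (a + 1)))).card : ℝ) := by
    intro a
    have h3 : (Finset.univ.filter fun w : Fin T → Layer n m Q =>
        ¬ GoodL C E (chain w a) (w a)) ⊆
        (Finset.univ.filter fun w : Fin T → Layer n m Q =>
        C.bits (stInp E (chain w a)) ≠ C.bits (stInp E (chain w (a + 1)))) ∪
        (Finset.univ.filter fun w : Fin T → Layer n m Q =>
        C.Accepts (stInp E (chain w (a + 1)))) := by
      intro w hw
      simp only [Finset.mem_filter, Finset.mem_univ, true_and, Finset.mem_union] at hw ⊢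
      by_contra hcon
      rw [not_or, not_not] at hcon
      obtain ⟨h4, h5⟩ := hcon
      have h6 : next (chain w a) (w a) = chain w (a + 1) := by
        have h7 : a.val < T := a.2
        simp only [chain, h7, dif_pos]
      apply hw
      refine ⟨fun k => ?_, ?_⟩
      · rw [inp_fresh, inp_empty, h6]
        have h7 := congrFun h4 k
        simp only [Computation.bits] at h7
        exact (decide_eq_decide.1 h7).symm
      · rw [inp_fresh, h6]
        exact h5
    exact_mod_cast (Finset.card_le_card h3).trans (Finset.card_union_le _ _)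
  refine (Finset.sum_le_sum fun a _ => h2 a).trans ?_
  rw [Finset.sum_add_distrib]
  apply add_le_add
  · have h3 : ∑ a : Fin T, ((Finset.univ.filter fun w : Fin T → Layer n m Q =>
        C.bits (stInp E (chain w a)) ≠ C.bits (stInp E (chain w (a + 1)))).card : ℝ) =
        ∑ w : Fin T → Layer n m Q, (((Finset.range T).filter fun a =>
          C.bits (stInp E (chain w a)) ≠ C.bits (stInp E (chain w (a + 1)))).card : ℝ) := by
      have h4 : ∀ w : Fin T → Layer n m Q, (((Finset.range T).filter fun a =>
          C.bits (stInp E (chain w a)) ≠ C.bits (stInp E (chain w (a + 1)))).card : ℝ) =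
          ∑ a : Fin T, if C.bits (stInp E (chain w a)) ≠ C.bits (stInp E (chain w (a + 1)))
            then 1 else 0 := by
        intro w
        rw [Finset.card_filter]
        push_cast
        rw [Finset.sum_range]
      rw [Finset.sum_congr rfl fun w _ => h4 w, Finset.sum_comm]
      apply Finset.sum_congr rfl
      intro a _
      rw [Finset.card_filter]
      push_cast
      rfl
    rw [h3]
    calc ∑ w : Fin T → Layer n m Q, (((Finset.range T).filter fun a =>
          C.bits (stInp E (chain w a)) ≠ C.bits (stInp E (chain w (a + 1)))).card : ℝ)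
        ≤ ∑ _w : Fin T → Layer n m Q, (C.branches : ℝ) := by
          apply Finset.sum_le_sum
          intro w _
          have h5 := card_changes C (fun a => stInp E (chain w a))
            (fun a p => hE p (tst_chain_le w a p)) T
          exact_mod_cast h5
      _ = _ := by
          rw [Finset.sum_const, Finset.card_univ, nsmul_eq_mul]
          ring
  · apply le_of_eq
    rw [Finset.card_filter (fun q : (Fin T → Layer n m Q) × Fin T =>
        C.Accepts (stInp E (chain q.1 (q.2 + 1))))]
    push_cast
    rw [Fintype.sum_prod_type, Finset.sum_comm]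
    apply Finset.sum_congr rfl
    intro a _
    rw [Finset.card_filter]
    push_cast
    rfl

open Classical in
/-- The number of accepted planted tests. -/
theorem total_bound (hQ : 0 < Q) (C : Computation n d r t)
    (E : Pos n → Finset (Fin m) → Vec d) (hE : ∀ p, Antitone (E p))
    (herr : (C.size : ℝ) * ((r + 1) * Real.exp (-L)) ≤ 1 / 32) :
    ((Finset.univ.filter fun q : ((Fin T → Layer n m Q) × Fin T) × (Fin n × Fin n ×
        Finset (Fin m)) =>
      C.Accepts (inp E (tst (chain q.1.1 q.1.2)) (posTest q.2))).card : ℝ) ≤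
      (Fintype.card (Fin T → Layer n m Q) * T) *
        (n * (4 * Q * 2 ^ m) + C.size * ((r * (L * Q : ℕ)) ^ 2 * 2 ^ m)) +
      16 / 15 * (n ^ 2 * 2 ^ m) * (C.branches * Fintype.card (Fin T → Layer n m Q) +
      ((Finset.univ.filter fun q : (Fin T → Layer n m Q) × Fin T =>
        C.Accepts (stInp E (chain q.1 (q.2 + 1)))).card : ℝ)) +
      2 * (T / Q) * (Fintype.card (Fin T → Layer n m Q) * T * (n ^ 2 * 2 ^ m)) := by
  have hQ' : (0 : ℝ) < Q := by exact_mod_cast hQ
  have hcT1 : Fintype.card (Fin n × Fin n × Finset (Fin m)) = n ^ 2 * 2 ^ m := by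
    simp only [Fintype.card_prod, Fintype.card_fin, Fintype.card_finset]
    ring
  -- decomposition for fixed state
  have h1 : ∀ b : State n m, ((Finset.univ.filter fun π : Fin n × Fin n × Finset (Fin m) =>
      C.Accepts (inp E (tst b) (posTest π))).card : ℝ) ≤
      ((Finset.univ.filter fun π : Fin n × Fin n × Finset (Fin m) =>
      (false, π.1) ∈ inactive b ∧ (true, π.2.1) ∈ inactive b ∧
        C.Accepts (inp E (tst b) (posTest π))).card : ℝ) +
      ((Finset.univ.filter fun π : Fin n × Fin n × Finset (Fin m) =>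
        b (false, π.1) ≠ none).card : ℝ) +
      ((Finset.univ.filter fun π : Fin n × Fin n × Finset (Fin m) =>
        b (true, π.2.1) ≠ none).card : ℝ) := by
    intro b
    have h2 : (Finset.univ.filter fun π : Fin n × Fin n × Finset (Fin m) =>
      C.Accepts (inp E (tst b) (posTest π))) ⊆
      ((Finset.univ.filter fun π : Fin n × Fin n × Finset (Fin m) =>
      (false, π.1) ∈ inactive b ∧ (true, π.2.1) ∈ inactive b ∧
        C.Accepts (inp E (tst b) (posTest π))) ∪
      (Finset.univ.filter fun π : Fin n × Fin n × Finset (Fin m) =>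
        b (false, π.1) ≠ none)) ∪
      (Finset.univ.filter fun π : Fin n × Fin n × Finset (Fin m) =>
        b (true, π.2.1) ≠ none) := by
      intro π hπ
      simp only [Finset.mem_filter, Finset.mem_univ, true_and, Finset.mem_union, inactive] at hπ ⊢
      by_cases h3 : b (false, π.1) = none
      · by_cases h4 : b (true, π.2.1) = none
        · exact Or.inl (Or.inl ⟨h3, h4, hπ⟩)
        · exact Or.inr h4
      · exact Or.inl (Or.inr h3)
    exact_mod_cast (Finset.card_le_card h2).trans ((Finset.card_union_le _ _).trans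
      (Nat.add_le_add_right (Finset.card_union_le _ _) _))
  have hact : ∀ (a : Fin T) (f : Fin n × Fin n × Finset (Fin m) → Pos n),
      ∑ w : Fin T → Layer n m Q, ((Finset.univ.filter
        fun π : Fin n × Fin n × Finset (Fin m) => chain w a (f π) ≠ none).card : ℝ) ≤
      (T / Q) * Fintype.card (Fin T → Layer n m Q) * (n ^ 2 * 2 ^ m) := by
    intro a f
    have h2 : ∑ w : Fin T → Layer n m Q, ((Finset.univ.filter
        fun π : Fin n × Fin n × Finset (Fin m) => chain w a (f π) ≠ none).card : ℝ) =
        ∑ π : Fin n × Fin n × Finset (Fin m), ((Finset.univ.filter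
          fun w : Fin T → Layer n m Q => chain w a (f π) ≠ none).card : ℝ) := by
      simp only [Finset.card_filter]
      push_cast
      exact Finset.sum_comm
    rw [h2]
    calc ∑ π : Fin n × Fin n × Finset (Fin m), ((Finset.univ.filter
          fun w : Fin T → Layer n m Q => chain w a (f π) ≠ none).card : ℝ)
        ≤ ∑ _π : Fin n × Fin n × Finset (Fin m),
            (T / Q : ℝ) * Fintype.card (Fin T → Layer n m Q) := by
          apply Finset.sum_le_sum
          intro π _
          have h3 := card_active (T := T) (m := m) hQ a (f π)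
          have h4 : (Q : ℝ) * ((Finset.univ.filter
            fun w : Fin T → Layer n m Q => chain w a (f π) ≠ none).card : ℝ) ≤
            T * Fintype.card (Fin T → Layer n m Q) := by exact_mod_cast h3
          calc ((Finset.univ.filter
            fun w : Fin T → Layer n m Q => chain w a (f π) ≠ none).card : ℝ)
              ≤ T * Fintype.card (Fin T → Layer n m Q) / Q := by
                rw [le_div_iff₀ hQ']
                linarith
            _ = _ := by ring
      _ = _ := by
          rw [Finset.sum_const, Finset.card_univ, hcT1, nsmul_eq_mul]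
          push_cast
          ring
  -- rewriting the left side
  have h2 : ((Finset.univ.filter fun q : ((Fin T → Layer n m Q) × Fin T) × (Fin n × Fin n ×
        Finset (Fin m)) =>
      C.Accepts (inp E (tst (chain q.1.1 q.1.2)) (posTest q.2))).card : ℝ) =
      ∑ w : Fin T → Layer n m Q, ∑ a : Fin T,
        ((Finset.univ.filter fun π : Fin n × Fin n × Finset (Fin m) =>
      C.Accepts (inp E (tst (chain w a)) (posTest π))).card : ℝ) := by
    rw [Finset.card_filter]
    push_cast
    rw [Fintype.sum_prod_type, Fintype.sum_prod_type]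
    apply Finset.sum_congr rfl
    intro w _
    apply Finset.sum_congr rfl
    intro a _
    rw [Finset.card_filter]
    push_cast
    rfl
  rw [h2]
  have h3 : ∀ (w : Fin T → Layer n m Q) (a : Fin T),
      ((Finset.univ.filter fun π : Fin n × Fin n × Finset (Fin m) =>
      C.Accepts (inp E (tst (chain w a)) (posTest π))).card : ℝ) ≤
      (n * (4 * Q * 2 ^ m) + C.size * ((r * (L * Q : ℕ)) ^ 2 * 2 ^ m)) +
      16 / 15 * (n ^ 2 * 2 ^ m) *
        (((Finset.univ.filter fun l : Layer n m Q => ¬ GoodL C E (chain w a) l).card : ℝ) /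
          Fintype.card (Layer n m Q)) +
      ((Finset.univ.filter fun π : Fin n × Fin n × Finset (Fin m) =>
        chain w a (false, π.1) ≠ none).card : ℝ) +
      ((Finset.univ.filter fun π : Fin n × Fin n × Finset (Fin m) =>
        chain w a (true, π.2.1) ≠ none).card : ℝ) := by
    intro w a
    have h4 := h1 (chain w a)
    have h5 := per_state (L := L) hQ C E hE (chain w a) herr
    linarith
  refine (Finset.sum_le_sum fun w _ => Finset.sum_le_sum fun a _ => h3 w a).trans ?_
  simp only [Finset.sum_add_distrib]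
  have h4 : ∑ _w : Fin T → Layer n m Q, ∑ _a : Fin T, ((n : ℝ) * (4 * Q * 2 ^ m)) +
      ∑ _w : Fin T → Layer n m Q, ∑ _a : Fin T,
        ((C.size : ℝ) * ((r * (L * Q : ℕ)) ^ 2 * 2 ^ m)) =
      (Fintype.card (Fin T → Layer n m Q) * T) *
        (n * (4 * Q * 2 ^ m) + C.size * ((r * (L * Q : ℕ)) ^ 2 * 2 ^ m)) := by
    simp only [Finset.sum_const, Finset.card_univ, Fintype.card_fin, nsmul_eq_mul]
    ring
  have h5 : ∑ w : Fin T → Layer n m Q, ∑ a : Fin T, (16 / 15 * ((n : ℝ) ^ 2 * 2 ^ m) *
        (((Finset.univ.filter fun l : Layer n m Q => ¬ GoodL C E (chain w a) l).card : ℝ) /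
          Fintype.card (Layer n m Q))) ≤
      16 / 15 * (n ^ 2 * 2 ^ m) * (C.branches * Fintype.card (Fin T → Layer n m Q) +
      ((Finset.univ.filter fun q : (Fin T → Layer n m Q) × Fin T =>
        C.Accepts (stInp E (chain q.1 (q.2 + 1)))).card : ℝ)) := by
    have h6 := sum_bad (T := T) hQ C E hE
    calc _ = 16 / 15 * ((n : ℝ) ^ 2 * 2 ^ m) * ∑ w : Fin T → Layer n m Q, ∑ a : Fin T,
        (((Finset.univ.filter fun l : Layer n m Q => ¬ GoodL C E (chain w a) l).card : ℝ) /
          Fintype.card (Layer n m Q)) := by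
          rw [Finset.mul_sum]
          apply Finset.sum_congr rfl
          intro w _
          rw [Finset.mul_sum]
      _ ≤ _ := mul_le_mul_of_nonneg_left h6 (by positivity)
  have h6 : ∀ f : Fin n × Fin n × Finset (Fin m) → Pos n,
      ∑ w : Fin T → Layer n m Q, ∑ a : Fin T, ((Finset.univ.filter
        fun π : Fin n × Fin n × Finset (Fin m) => chain w a (f π) ≠ none).card : ℝ) ≤
      (T / Q) * (Fintype.card (Fin T → Layer n m Q) * T * (n ^ 2 * 2 ^ m)) := by
    intro f
    rw [Finset.sum_comm]
    calc _ ≤ ∑ _a : Fin T, (T / Q : ℝ) * Fintype.card (Fin T → Layer n m Q) *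
          (n ^ 2 * 2 ^ m) := Finset.sum_le_sum fun a _ => hact a f
      _ = _ := by
          rw [Finset.sum_const, Finset.card_univ, Fintype.card_fin, nsmul_eq_mul]
          ring
  have h7 := h6 fun π => (false, π.1)
  have h8 := h6 fun π => (true, π.2.1)
  linarith

/-! ### The test inputs -/

/-- A strictly increasing list of `n ≤ 2^m` vectors of length `m`. -/
theorem exists_code {n m : ℕ} (h : n ≤ 2 ^ m) :
    ∃ code : Fin n → Fin m → Bool, ∀ i j, i < j →
      ∃ k : Fin m, (∀ l < k, code i l = code j l) ∧ code i k = false ∧ code j k = true := by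
  classical
  have hcard : Fintype.card (Lex (Fin m → Bool)) = 2 ^ m := by
    rw [Fintype.card_lex, Fintype.card_fun, Fintype.card_bool, Fintype.card_fin]
  let e : Fin (2 ^ m) ≃o Lex (Fin m → Bool) := Fintype.orderIsoFinOfCardEq _ hcard
  refine ⟨fun i => ofLex (e (Fin.castLE h i)), fun i j hij => ?_⟩
  have h1 := e.strictMono (show Fin.castLE h i < Fin.castLE h j from hij)
  obtain ⟨k, hk1, hk2⟩ := h1
  refine ⟨k, hk1, ?_⟩
  have hk3 : (ofLex (e (Fin.castLE h i)) k : Bool) < ofLex (e (Fin.castLE h j)) k := hk2
  rw [Bool.lt_iff] at hk3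
  exact hk3

/-- The vector at position `p` with set `S` of zeros: first two blocks of length `l` with the
name of the position, then the block of length `m`, then zeros. -/
def emb {n l m : ℕ} (d : ℕ) (code : Fin n → Fin l → Bool) (p : Pos n) (S : Finset (Fin m)) :
    Vec d := fun k =>
  if h : k.1 < l then (if p.1 = false then code p.2 ⟨k.1, h⟩ else false)
  else if h : k.1 < 2 * l then (if p.1 = false then false else code p.2 ⟨k.1 - l, by omega⟩)
  else if h : k.1 < 2 * l + m then decide ((⟨k.1 - 2 * l, by omega⟩ : Fin m) ∉ S)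
  else false

theorem emb_antitone {l : ℕ} (code : Fin n → Fin l → Bool) (p : Pos n) :
    Antitone (emb (m := m) d code p) := by
  intro S T hST k
  unfold emb
  split_ifs with h1 h2 h3 h4 h5
  · exact le_rfl
  · exact le_rfl
  · exact le_rfl
  · exact le_rfl
  · by_cases hT : (⟨k.1 - 2 * l, by omega⟩ : Fin m) ∈ T
    · simp [hT]
    · have hS : (⟨k.1 - 2 * l, by omega⟩ : Fin m) ∉ S := fun h => hT (hST h)
      simp [hT, hS]
  · exact le_rfl

theorem emb_valid {l : ℕ} (hd : 2 * l + m ≤ d) (code : Fin n → Fin l → Bool)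
    (hcode : ∀ i j, i < j →
      ∃ k : Fin l, (∀ q < k, code i q = code j q) ∧ code i k = false ∧ code j k = true)
    (z : Test n m) : IsValid (fun p => emb d code p (z p)) := by
  constructor
  · intro p q hpq
    obtain ⟨k, hk1, hk2, hk3⟩ := hcode p q hpq
    refine ⟨⟨k.1, by omega⟩, ?_, ?_⟩
    · intro s hs
      have hs' : s.1 < k.1 := hs
      have h1 : s.1 < l := by omega
      show emb d code (false, p) (z (false, p)) s = emb d code (false, q) (z (false, q)) s
      unfold emb
      rw [dif_pos h1, dif_pos h1]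
      simp only [if_true]
      exact hk1 ⟨s.1, h1⟩ hs'
    · show emb d code (false, p) (z (false, p)) _ < emb d code (false, q) (z (false, q)) _
      unfold emb
      rw [dif_pos (show (⟨k.1, by omega⟩ : Fin d).1 < l from k.2),
        dif_pos (show (⟨k.1, by omega⟩ : Fin d).1 < l from k.2)]
      simp only [if_true]
      rw [hk2, hk3]
      decide
  · intro p q hpq
    obtain ⟨k, hk1, hk2, hk3⟩ := hcode p q hpq
    refine ⟨⟨l + k.1, by omega⟩, ?_, ?_⟩
    · intro s hs
      have hs' : s.1 < l + k.1 := hs
      show emb d code (true, p) (z (true, p)) s = emb d code (true, q) (z (true, q)) s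
      unfold emb
      by_cases h1 : s.1 < l
      · rw [dif_pos h1, dif_pos h1]
        simp
      · have h2 : s.1 < 2 * l := by omega
        rw [dif_neg h1, dif_neg h1, dif_pos h2, dif_pos h2]
        simp only [Bool.true_eq_false, if_false]
        exact hk1 ⟨s.1 - l, by omega⟩ (by rw [Fin.lt_def]; simp only; omega)
    · show emb d code (true, p) (z (true, p)) _ < emb d code (true, q) (z (true, q)) _
      unfold emb
      have h1 : ¬ (l + k.1 < l) := by omega
      have h2 : l + k.1 < 2 * l := by omega
      have h3 : (⟨l + k.1 - l, by omega⟩ : Fin l) = k := by ext; simp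
      simp only [h1, h2, dif_pos, dif_neg, not_false_iff, Bool.true_eq_false, if_false]
      rw [h3, hk2, hk3]
      decide

theorem sum_toNat_eq_zero_iff {d : ℕ} (u v : Vec d) :
    ∑ k : Fin d, (u k).toNat * (v k).toNat = 0 ↔ ∀ k, ¬ (u k = true ∧ v k = true) := by
  rw [Finset.sum_eq_zero_iff]
  constructor
  · intro h k ⟨h1, h2⟩
    have := h k (Finset.mem_univ k)
    simp [h1, h2] at this
  · intro h k _
    have := h k
    cases hu : u k <;> cases hv : v k <;> simp_all

theorem emb_orthogonal {l : ℕ} (hd : 2 * l + m ≤ d) (code : Fin n → Fin l → Bool)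
    (z : Test n m) : HasOrthogonalPair (fun p => emb d code p (z p)) ↔
      ∃ i j : Fin n, z (false, i) ∪ z (true, j) = Finset.univ := by
  unfold HasOrthogonalPair
  simp only [sum_toNat_eq_zero_iff]
  constructor
  · rintro ⟨i, j, h⟩
    refine ⟨i, j, ?_⟩
    ext k
    simp only [Finset.mem_union, Finset.mem_univ, iff_true]
    by_contra hcon
    rw [not_or] at hcon
    apply h ⟨2 * l + k.1, by omega⟩
    have h1 : ¬ (2 * l + k.1 < l) := by omega
    have h2 : ¬ (2 * l + k.1 < 2 * l) := by omega
    have h3 : 2 * l + k.1 < 2 * l + m := by omega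
    have h4 : (⟨2 * l + k.1 - 2 * l, by omega⟩ : Fin m) = k := by ext; simp
    unfold emb
    constructor
    · rw [dif_neg h1, dif_neg h2, dif_pos h3, h4]
      simpa using hcon.1
    · rw [dif_neg h1, dif_neg h2, dif_pos h3, h4]
      simpa using hcon.2
  · rintro ⟨i, j, h⟩
    refine ⟨i, j, ?_⟩
    rintro k ⟨h1, h2⟩
    unfold emb at h1 h2
    by_cases c1 : k.1 < l
    · rw [dif_pos c1] at h2
      simp at h2
    · rw [dif_neg c1] at h1 h2
      by_cases c2 : k.1 < 2 * l
      · rw [dif_pos c2] at h1
        simp at h1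
      · rw [dif_neg c2] at h1 h2
        by_cases c3 : k.1 < 2 * l + m
        · rw [dif_pos c3] at h1 h2
          have h3 : (⟨k.1 - 2 * l, by omega⟩ : Fin m) ∈ z (false, i) ∪ z (true, j) := by
            rw [h]; exact Finset.mem_univ _
          rcases Finset.mem_union.1 h3 with h4 | h4
          · simp [h4] at h1
          · simp [h4] at h2
        · rw [dif_neg c3] at h1
          simp at h1

/-! ### Averaging over the random choices -/

open Classical in
theorem exists_good (μ : PMF (Computation n d r t)) {T : Type} [Fintype T]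
    (x : T → Input n d)
    (hx : ∀ τ, (2 / 3 : ENNReal) ≤ μ.toOuterMeasure {P | P.CorrectOn (x τ)}) :
    ∃ P ∈ μ.support,
      3 * (Finset.univ.filter fun τ => ¬ P.CorrectOn (x τ)).card ≤ Fintype.card T := by
  by_contra hcon
  push Not at hcon
  have herr : ∀ τ, μ.toOuterMeasure {P | ¬ P.CorrectOn (x τ)} ≤ 1 / 3 := by
    intro τ
    have h1 : μ.toOuterMeasure {P | P.CorrectOn (x τ)} +
        μ.toOuterMeasure {P | ¬ P.CorrectOn (x τ)} = 1 := by
      rw [PMF.toOuterMeasure_apply, PMF.toOuterMeasure_apply, ← ENNReal.tsum_add,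
        ← PMF.tsum_coe μ]
      congr 1
      funext P
      by_cases h : P.CorrectOn (x τ) <;> simp [Set.indicator, h]
    have h2 : (2 / 3 : ENNReal) + μ.toOuterMeasure {P | ¬ P.CorrectOn (x τ)} ≤
        2 / 3 + 1 / 3 := by
      calc (2 / 3 : ENNReal) + μ.toOuterMeasure {P | ¬ P.CorrectOn (x τ)}
          ≤ μ.toOuterMeasure {P | P.CorrectOn (x τ)} +
            μ.toOuterMeasure {P | ¬ P.CorrectOn (x τ)} := by gcongr; exact hx τ
        _ = 1 := h1
        _ = 2 / 3 + 1 / 3 := by
            rw [← ENNReal.add_div]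
            norm_num
            rw [ENNReal.div_self (by norm_num) (by norm_num)]
    exact (ENNReal.add_le_add_iff_left (ENNReal.div_ne_top (by norm_num) (by norm_num))).1 h2
  have hlow : ((Fintype.card T : ENNReal) + 1) ≤
      ∑' P, μ P * (3 * ((Finset.univ.filter fun τ => ¬ P.CorrectOn (x τ)).card : ENNReal)) := by
    calc ((Fintype.card T : ENNReal) + 1) = ∑' P, μ P * ((Fintype.card T : ENNReal) + 1) := by
          rw [ENNReal.tsum_mul_right, PMF.tsum_coe, one_mul]
      _ ≤ _ := by
          apply ENNReal.tsum_le_tsum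
          intro P
          by_cases hP : μ P = 0
          · simp [hP]
          · have h1 := hcon P ((PMF.mem_support_iff μ P).2 hP)
            gcongr
            exact_mod_cast h1
  have hup : ∑' P, μ P * (3 * ((Finset.univ.filter fun τ => ¬ P.CorrectOn (x τ)).card : ENNReal))
      ≤ Fintype.card T := by
    have h1 : ∀ P : Computation n d r t,
        μ P * (3 * ((Finset.univ.filter fun τ => ¬ P.CorrectOn (x τ)).card : ENNReal)) =
        3 * ∑ τ : T, {P | ¬ P.CorrectOn (x τ)}.indicator μ P := by
      intro P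
      rw [Finset.card_filter]
      push_cast
      rw [← mul_assoc, mul_comm (μ P) 3, mul_assoc, Finset.mul_sum]
      congr 1
      apply Finset.sum_congr rfl
      intro τ _
      by_cases h : P.CorrectOn (x τ) <;> simp [Set.indicator, h]
    calc ∑' P, μ P * (3 * ((Finset.univ.filter fun τ => ¬ P.CorrectOn (x τ)).card : ENNReal))
        = ∑' P, 3 * ∑ τ : T, {P | ¬ P.CorrectOn (x τ)}.indicator μ P := by
          congr 1
          funext P
          exact h1 P
      _ = 3 * ∑ τ : T, μ.toOuterMeasure {P | ¬ P.CorrectOn (x τ)} := by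
          rw [ENNReal.tsum_mul_left, Summable.tsum_finsetSum (fun _ _ => ENNReal.summable)]
          simp only [PMF.toOuterMeasure_apply]
      _ ≤ 3 * ∑ _τ : T, (1 / 3 : ENNReal) := by
          gcongr with τ _
          exact herr τ
      _ = Fintype.card T := by
          rw [Finset.sum_const, Finset.card_univ, nsmul_eq_mul, mul_comm, mul_assoc]
          rw [ENNReal.div_mul_cancel (by norm_num) (by norm_num), mul_one]
  have h3 := hlow.trans hup
  have h4 : (Fintype.card T + 1 : ℕ) ≤ Fintype.card T := by exact_mod_cast h3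
  omega

/-! ### Numerics -/

set_option maxHeartbeats 2000000 in
theorem numeric {n r s B L Q : ℕ} (hn : 300 ≤ n) (hs : 1 ≤ s) (hr : 1 ≤ r) (hB : 1 ≤ B)
    (hrn : r + 1 ≤ n) (hL : L = ⌈3 * Real.log n⌉₊ + 3) (hQ : Q = 4096 * B)
    (h : 1 / 32 < (s : ℝ) * ((r + 1) * Real.exp (-L)) ∨
      (n : ℝ) ^ 2 / 8 ≤ 4 * n * Q + s * (r * (L * Q : ℕ)) ^ 2) :
    (1 / 10 ^ 11 : ℝ) * n ^ 2 / (B * r * Real.log n) ^ 2 ≤ s := by
  have hn' : (300 : ℝ) ≤ n := by exact_mod_cast hn
  have hn0 : (0 : ℝ) < n := by linarith
  have hr' : (1 : ℝ) ≤ r := by exact_mod_cast hr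
  have hrn' : (r : ℝ) + 1 ≤ n := by exact_mod_cast hrn
  have h2t : (1 : ℝ) ≤ B := by exact_mod_cast hB
  have hB0 : (0 : ℝ) < B := by linarith
  have hL1 : (5 : ℝ) ≤ Real.log n := by
    rw [Real.le_log_iff_exp_le hn0]
    have h1 : Real.exp 5 = (Real.exp 1) ^ 5 := by
      rw [← Real.exp_nat_mul]
      norm_num
    rw [h1]
    have h2 := Real.exp_one_lt_d9
    calc Real.exp 1 ^ 5 ≤ (2.7182818286 : ℝ) ^ 5 :=
          pow_le_pow_left₀ (Real.exp_pos 1).le h2.le 5
      _ ≤ 300 := by norm_num
      _ ≤ n := hn'
  have hLlow : 3 * Real.log n + 3 ≤ L := by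
    rw [hL]
    push_cast
    have := Nat.le_ceil (3 * Real.log n)
    linarith
  have hLup : (L : ℝ) ≤ 4 * Real.log n := by
    rw [hL]
    push_cast
    have := Nat.ceil_lt_add_one (show (0 : ℝ) ≤ 3 * Real.log n by linarith)
    linarith
  have hlog0 : (0 : ℝ) < Real.log n := by linarith
  have hrl : (1 : ℝ) ≤ r * Real.log n := by nlinarith
  have hden1 : (1 : ℝ) ≤ B * r * Real.log n := by
    rw [mul_assoc]
    nlinarith
  have hden : (0 : ℝ) < (B * r * Real.log n) ^ 2 := by positivity
  have hs0 : (0 : ℝ) ≤ s := Nat.cast_nonneg s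
  have hQ' : (Q : ℝ) = 4096 * B := by
    rw [hQ]
    push_cast
    ring
  rw [div_le_iff₀ hden]
  rcases h with h | h
  · -- the first case
    have h0 : Real.exp L / 32 < (s : ℝ) * (r + 1) := by
      have h1 : Real.exp (-(L : ℝ)) * Real.exp L = 1 := by
        rw [← Real.exp_add]
        simp
      have h2 := mul_lt_mul_of_pos_right h (Real.exp_pos (L : ℝ))
      have h3 : (s : ℝ) * ((r + 1) * Real.exp (-(L : ℝ))) * Real.exp L = s * (r + 1) := by
        calc (s : ℝ) * ((r + 1) * Real.exp (-(L : ℝ))) * Real.exp L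
            = s * (r + 1) * (Real.exp (-(L : ℝ)) * Real.exp L) := by ring
          _ = s * (r + 1) := by rw [h1, mul_one]
      rw [h3] at h2
      linarith
    have h1 : 16 * (n : ℝ) ^ 3 ≤ Real.exp L := by
      have h2 : Real.exp (3 * Real.log n + 3) = (n : ℝ) ^ 3 * Real.exp 3 := by
        rw [Real.exp_add, show 3 * Real.log n = ((3 : ℕ) : ℝ) * Real.log n by norm_num,
          Real.exp_nat_mul, Real.exp_log hn0]
      have h3 : (16 : ℝ) ≤ Real.exp 3 := by
        have h4 : Real.exp 3 = (Real.exp 1) ^ 3 := by
          rw [← Real.exp_nat_mul]; norm_num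
        rw [h4]
        have h5 := Real.exp_one_gt_d9
        calc (16 : ℝ) ≤ (2.7182818283 : ℝ) ^ 3 := by norm_num
          _ ≤ (Real.exp 1) ^ 3 := pow_le_pow_left₀ (by norm_num) h5.le 3
      have h4 : (0 : ℝ) ≤ (n : ℝ) ^ 3 := by positivity
      calc 16 * (n : ℝ) ^ 3 ≤ (n : ℝ) ^ 3 * Real.exp 3 := by nlinarith
        _ = Real.exp (3 * Real.log n + 3) := h2.symm
        _ ≤ Real.exp L := Real.exp_le_exp.2 hLlow
    have h3 : (n : ℝ) ^ 3 / 2 ≤ (s : ℝ) * n := by
      calc (n : ℝ) ^ 3 / 2 = 16 * (n : ℝ) ^ 3 / 32 := by ring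
        _ ≤ Real.exp L / 32 := by linarith
        _ ≤ (s : ℝ) * (r + 1) := h0.le
        _ ≤ (s : ℝ) * n := mul_le_mul_of_nonneg_left hrn' hs0
    have h4 : (n : ℝ) ^ 2 / 2 ≤ s := by
      have h5 : ((n : ℝ) ^ 2 / 2) * n ≤ (s : ℝ) * n := by
        calc ((n : ℝ) ^ 2 / 2) * n = (n : ℝ) ^ 3 / 2 := by ring
          _ ≤ (s : ℝ) * n := h3
      exact le_of_mul_le_mul_right h5 hn0
    have h6 : (1 : ℝ) ≤ (B * r * Real.log n) ^ 2 := one_le_pow₀ hden1
    calc (1 / 10 ^ 11 : ℝ) * n ^ 2 ≤ (n : ℝ) ^ 2 / 2 := by nlinarith [sq_nonneg (n : ℝ)]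
      _ ≤ (s : ℝ) := h4
      _ = (s : ℝ) * 1 := (mul_one _).symm
      _ ≤ (s : ℝ) * (B * r * Real.log n) ^ 2 := mul_le_mul_of_nonneg_left h6 hs0
  · rcases le_or_gt ((n : ℝ) ^ 2 / 16) ((4 : ℝ) * n * Q) with h1 | h1
    · -- many tests
      have hs1 : (1 : ℝ) ≤ s := by exact_mod_cast hs
      have h2 : (n : ℝ) ≤ 262144 * B := by
        rw [hQ'] at h1
        have h3 : (n : ℝ) * n ≤ (262144 * B) * n := by linarith
        exact le_of_mul_le_mul_right h3 hn0
      have h3 : (n : ℝ) ^ 2 ≤ (262144 * B) ^ 2 := pow_le_pow_left₀ hn0.le h2 2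
      have h4 : (B : ℝ) ≤ B * r * Real.log n := by
        rw [mul_assoc]
        exact le_mul_of_one_le_right (by positivity) hrl
      have h5 : (B : ℝ) ^ 2 ≤ (B * r * Real.log n) ^ 2 :=
        pow_le_pow_left₀ (by positivity) h4 2
      have h6 : (262144 * (B : ℝ)) ^ 2 = 68719476736 * (B : ℝ) ^ 2 := by
        rw [mul_pow]
        norm_num
      have h7 : (0 : ℝ) ≤ (B : ℝ) ^ 2 := by positivity
      have h8 : (B * r * Real.log n) ^ 2 ≤ s * (B * r * Real.log n) ^ 2 :=
        le_mul_of_one_le_left hden.le hs1
      rw [h6] at h3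
      generalize (B : ℝ) ^ 2 = a at *
      generalize ((B : ℝ) * (r : ℝ) * Real.log n) ^ 2 = b at *
      norm_num
      linarith
    · -- the second case
      have h2 : (n : ℝ) ^ 2 / 16 ≤ s * (r * (L * Q : ℕ)) ^ 2 := by linarith
      have h3 : (r * ((L * Q : ℕ) : ℝ)) ^ 2 ≤ (16384 * (B * r * Real.log n)) ^ 2 := by
        apply pow_le_pow_left₀ (by positivity)
        push_cast
        rw [hQ']
        calc (r : ℝ) * (L * (4096 * B)) ≤ r * ((4 * Real.log n) * (4096 * B)) := by
              gcongr
          _ = 16384 * (B * r * Real.log n) := by ring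
      have h6 : (s : ℝ) * (r * ((L * Q : ℕ) : ℝ)) ^ 2 ≤
          s * (16384 * (B * r * Real.log n)) ^ 2 := mul_le_mul_of_nonneg_left h3 hs0
      have h7 : (s : ℝ) * (16384 * (B * r * Real.log n)) ^ 2 =
          268435456 * (s * (B * r * Real.log n) ^ 2) := by ring
      rw [h7] at h6
      have h8 : (n : ℝ) ^ 2 / 16 ≤ 268435456 * (s * (B * r * Real.log n) ^ 2) :=
        h2.trans h6
      have h9 : (0 : ℝ) ≤ (n : ℝ) ^ 2 := sq_nonneg _
      linarith

theorem final_arith {Wt P M w0 w1 a0 A b : ℝ} (hWt : 0 < Wt) (hP : 0 < P) (hw0 : 0 ≤ w0)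
    (hw1 : 0 ≤ w1) (hb : b ≤ 1 / 64 * Wt)
    (hA : A ≤ Wt * M + 16 / 15 * P * (b + a0) + 2 * (1 / 64) * (Wt * P))
    (ha0 : a0 ≤ w0 + 1 / 12 * Wt) (h2 : Wt * P ≤ w1 + A)
    (h3 : 3 * (w1 + P * w0) ≤ 2 * (Wt * P)) : 1 / 8 * P ≤ M := by
  have e2 : 16 / 15 * P * (b + a0) ≤ 16 / 15 * P * (1 / 64 * Wt + (w0 + 1 / 12 * Wt)) :=
    mul_le_mul_of_nonneg_left (by linarith) (by positivity)
  have e3 : 16 / 15 * P * (1 / 64 * Wt + (w0 + 1 / 12 * Wt)) =
      16 / 15 * (P * w0) + 19 / 180 * (Wt * P) := by ring
  have e5 : (0 : ℝ) ≤ P * w0 := by positivity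
  have e7 : (0 : ℝ) < Wt * P := mul_pos hWt hP
  have e8 : Wt * (1 / 8 * P) ≤ Wt * M := by linarith
  exact le_of_mul_le_mul_left e8 hWt

theorem final_arith2 {N Q' M' x S S' : ℝ} (hM : 0 < M')
    (h4 : 1 / 8 * (N ^ 2 * M') ≤ N * (4 * Q' * M') + S * (x * M'))
    (e1 : S * (x * M') ≤ S' * (x * M')) : N ^ 2 / 8 ≤ 4 * N * Q' + S' * x := by
  have e2 : (N ^ 2 / 8) * M' ≤ (4 * N * Q' + S' * x) * M' := by
    calc (N ^ 2 / 8) * M' = 1 / 8 * (N ^ 2 * M') := by ring
      _ ≤ N * (4 * Q' * M') + S * (x * M') := h4
      _ ≤ N * (4 * Q' * M') + S' * (x * M') := by linarith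
      _ = _ := by ring
  exact le_of_mul_le_mul_right e2 hM

/-! ### The result -/

/-- The lower bound for randomized monotone computations with few tests solving Orthogonal
Vectors. -/
theorem result : ∃ c : ℝ, 0 < c ∧ ∀ (n d r t B s : ℕ), 2 ≤ n → 7 * Nat.clog 2 n + 9 ≤ d →
    ∀ μ : PMF (Computation n d r t), (∀ C ∈ μ.support, C.size ≤ s ∧ C.branches ≤ B) →
      (∀ x : Input n d, IsValid x →
        (2 / 3 : ENNReal) ≤ μ.toOuterMeasure {C | C.CorrectOn x}) →
      c * n ^ 2 / (B * r * Real.log n) ^ 2 ≤ s := by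
  classical
  refine ⟨1 / 10 ^ 11, by norm_num, ?_⟩
  intro n d r t B s hn hd μ hμ hx
  have hn' : (2 : ℝ) ≤ n := by exact_mod_cast hn
  have hlogn : (0.6931471803 : ℝ) < Real.log n :=
    Real.log_two_gt_d9.trans_le (Real.log_le_log (by norm_num) hn')
  -- the size and the number of branches are at least one
  have hs1 : 1 ≤ s := by
    obtain ⟨C, hC⟩ := μ.support_nonempty
    have h1 := C.out.2
    have h2 := (hμ C hC).1
    omega
  have hB1 : 1 ≤ B := by
    obtain ⟨C, hC⟩ := μ.support_nonempty
    refine le_trans ?_ (hμ C hC).2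
    rw [← card_bits]
    exact Finset.card_pos.2 ⟨C.bits fun _ _ => false, Finset.mem_image.2
      ⟨_, Finset.mem_univ _, rfl⟩⟩
  have h2t : (1 : ℝ) ≤ B := by exact_mod_cast hB1
  have hs1' : (1 : ℝ) ≤ s := by exact_mod_cast hs1
  rcases Nat.eq_zero_or_pos r with hr | hr
  · subst hr
    simp
  have hr' : (1 : ℝ) ≤ r := by exact_mod_cast hr
  have hrlog : (0 : ℝ) < r * Real.log n := by
    have : (0 : ℝ) < Real.log n := by linarith
    positivity
  have hden : (0.69 : ℝ) * r ≤ B * r * Real.log n := by
    have h1 : (0.69 : ℝ) * r ≤ r * Real.log n := by nlinarith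
    rw [mul_assoc]
    nlinarith
  rcases Nat.lt_or_ge n 300 with hlt | hge
  · refine le_trans ?_ hs1'
    have h0 : (0.69 : ℝ) ≤ B * r * Real.log n := by nlinarith
    rw [div_le_one (by positivity)]
    have h2 : (n : ℝ) ≤ 300 := by exact_mod_cast hlt.le
    nlinarith
  rcases Nat.lt_or_ge n (r + 1) with hlt | hrn
  · refine le_trans ?_ hs1'
    have h0 : (0.69 : ℝ) ≤ B * r * Real.log n := by nlinarith
    rw [div_le_one (by positivity)]
    have h1 : (n : ℝ) ≤ r := by exact_mod_cast Nat.lt_succ_iff.1 hlt
    have h2 : (0.69 : ℝ) * n ≤ B * r * Real.log n := by nlinarith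
    have h3 : (0.69 * (n : ℝ)) ^ 2 ≤ (B * r * Real.log n) ^ 2 := by
      apply pow_le_pow_left₀ (by positivity) h2
    nlinarith [sq_nonneg (n : ℝ)]
  -- the test inputs
  obtain ⟨code, hcode⟩ := exists_code (n := n) (m := Nat.clog 2 n)
    (Nat.le_pow_clog (by norm_num) n)
  let l := Nat.clog 2 n
  let m := 5 * l + 9
  have hd' : 2 * l + m ≤ d := by
    simp only [m, l]
    omega
  let T : ℕ := 64 * B
  let Q : ℕ := 4096 * B
  have hQpos : 0 < Q := by positivity
  have hTQ : T ≤ Q := by simp only [T, Q]; omega
  let E : Pos n → Finset (Fin m) → Vec d := emb d code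
  have hE : ∀ p, Antitone (E p) := fun p => emb_antitone code p
  let T0 : Type := (Fin T → Layer n m Q) × Fin T
  let T1 : Type := Fin n × Fin n × Finset (Fin m)
  let X : Bool × T0 × T1 → Input n d := fun q =>
    if q.1 = true then inp E (tst (chain q.2.1.1 q.2.1.2)) (posTest q.2.2)
    else stInp E (chain q.2.1.1 (q.2.1.2 + 1))
  obtain ⟨C, hC, herr⟩ := exists_good μ X (by
    intro q
    apply hx
    simp only [X]
    split_ifs
    · exact emb_valid hd' code hcode _
    · exact emb_valid hd' code hcode _)
  let w0 : ℕ := (Finset.univ.filter fun q : T0 =>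
    ¬ C.CorrectOn (stInp E (chain q.1 (q.2 + 1)))).card
  let w1 : ℕ := (Finset.univ.filter fun q : T0 × T1 =>
    ¬ C.CorrectOn (inp E (tst (chain q.1.1 q.1.2)) (posTest q.2))).card
  have hcT1 : Fintype.card T1 = n ^ 2 * 2 ^ m := by
    simp only [T1, Fintype.card_prod, Fintype.card_fin, Fintype.card_finset]
    ring
  have hcT0 : Fintype.card T0 = Fintype.card (Fin T → Layer n m Q) * T := by
    simp only [T0, Fintype.card_prod, Fintype.card_fin]
  have herr2 : 3 * (w1 + Fintype.card T1 * w0) ≤
      2 * (Fintype.card T0 * Fintype.card T1) := by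
    have h1 : (Finset.univ.filter fun q => ¬ C.CorrectOn (X q)).card =
        w1 + Fintype.card T1 * w0 := by
      rw [Finset.card_filter, Fintype.sum_prod_type, Fintype.sum_bool]
      congr 1
      · simp only [X, if_true, w1]
        rw [Finset.card_filter]
      · rw [Fintype.sum_prod_type, Finset.sum_comm]
        simp only [X, w0, Bool.false_eq_true, if_false]
        rw [Finset.sum_const, ← Finset.card_filter, Finset.card_univ, smul_eq_mul]
    rw [h1] at herr
    have h2 : Fintype.card (Bool × T0 × T1) = 2 * (Fintype.card T0 * Fintype.card T1) := by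
      rw [Fintype.card_prod, Fintype.card_prod, Fintype.card_bool]
    rw [h2] at herr
    exact herr
  -- abbreviations
  have hWpos : (0 : ℝ) < Fintype.card (Fin T → Layer n m Q) := by
    have : 0 < Fintype.card (Fin T → Layer n m Q) := by
      have h0 : Nonempty (Fin T → Layer n m Q) := ⟨fun _ _ => (⟨0, hQpos⟩, ∅)⟩
      exact Fintype.card_pos
    exact_mod_cast this
  have hTpos : (0 : ℝ) < T := by
    have : 0 < T := by positivity
    exact_mod_cast this
  have hTval : (T : ℝ) = 64 * B := by
    simp only [T]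
    push_cast
    ring
  have hTQval : (T : ℝ) / Q = 1 / 64 := by
    have h1 : (Q : ℝ) = 64 * T := by
      simp only [Q, T]
      push_cast
      ring
    rw [h1]
    field_simp
  have hPpos : (0 : ℝ) < (n : ℝ) ^ 2 * 2 ^ m := by positivity
  -- few states with an orthogonal pair
  have hl : (n : ℝ) ≤ 2 ^ l := by exact_mod_cast Nat.le_pow_clog (by norm_num) n
  have hrho : (n : ℝ) ^ 2 * (3 / 4) ^ m + 2 * n * (1 / 2) ^ m ≤ 1 / 12 := by
    have e1 : (n : ℝ) ^ 2 * (3 / 4) ^ m ≤ 19683 / 262144 := by
      have h1 : ((3 : ℝ) / 4) ^ m = (243 / 1024) ^ l * (19683 / 262144) := by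
        simp only [m]
        rw [pow_add, pow_mul]
        norm_num
      have h2 : (n : ℝ) ^ 2 ≤ 4 ^ l := by
        calc (n : ℝ) ^ 2 ≤ (2 ^ l) ^ 2 := pow_le_pow_left₀ (by positivity) hl 2
          _ = 4 ^ l := by rw [← pow_mul, mul_comm, pow_mul]; norm_num
      rw [h1]
      calc (n : ℝ) ^ 2 * ((243 / 1024) ^ l * (19683 / 262144))
          ≤ 4 ^ l * ((243 / 1024) ^ l * (19683 / 262144)) :=
            mul_le_mul_of_nonneg_right h2 (by positivity)
        _ = (972 / 1024) ^ l * (19683 / 262144) := by
            rw [← mul_assoc, ← mul_pow]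
            norm_num
        _ ≤ 1 * (19683 / 262144) := by
            apply mul_le_mul_of_nonneg_right _ (by norm_num)
            exact pow_le_one₀ (by norm_num) (by norm_num)
        _ = _ := one_mul _
    have e2 : 2 * (n : ℝ) * (1 / 2) ^ m ≤ 1 / 256 := by
      have h1 : ((1 : ℝ) / 2) ^ m = (1 / 32) ^ l * (1 / 512) := by
        simp only [m]
        rw [pow_add, pow_mul]
        norm_num
      rw [h1]
      calc 2 * (n : ℝ) * ((1 / 32) ^ l * (1 / 512))
          ≤ 2 * 2 ^ l * ((1 / 32) ^ l * (1 / 512)) :=
            mul_le_mul_of_nonneg_right (by linarith) (by positivity)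
        _ = (2 ^ l * (1 / 32) ^ l) * (1 / 256) := by ring
        _ = (2 / 32) ^ l * (1 / 256) := by
            rw [← mul_pow]
            norm_num
        _ ≤ 1 * (1 / 256) := by
            apply mul_le_mul_of_nonneg_right _ (by norm_num)
            exact pow_le_one₀ (by norm_num) (by norm_num)
        _ = _ := one_mul _
    calc _ ≤ (19683 / 262144 : ℝ) + 1 / 256 := add_le_add e1 e2
      _ ≤ 1 / 12 := by norm_num
  have hacc0 : ((Finset.univ.filter fun q : (Fin T → Layer n m Q) × Fin T =>
        C.Accepts (stInp E (chain q.1 (q.2 + 1)))).card : ℝ) ≤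
      w0 + 1 / 12 * (Fintype.card (Fin T → Layer n m Q) * T) := by
    have h1 : ((Finset.univ.filter fun q : (Fin T → Layer n m Q) × Fin T =>
        HasOrthogonalPair (stInp E (chain q.1 (q.2 + 1)))).card : ℝ) ≤
        1 / 12 * (Fintype.card (Fin T → Layer n m Q) * T) := by
      have h2 : ((Finset.univ.filter fun q : (Fin T → Layer n m Q) × Fin T =>
          HasOrthogonalPair (stInp E (chain q.1 (q.2 + 1)))).card : ℝ) =
          ∑ a : Fin T, ((Finset.univ.filter fun w : Fin T → Layer n m Q =>
            ∃ i j : Fin n, tst (chain w (a + 1)) (false, i) ∪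
              tst (chain w (a + 1)) (true, j) = Finset.univ).card : ℝ) := by
        rw [Finset.card_filter]
        push_cast
        rw [Fintype.sum_prod_type, Finset.sum_comm]
        apply Finset.sum_congr rfl
        intro a _
        rw [Finset.card_filter]
        push_cast
        apply Finset.sum_congr rfl
        intro w _
        have h3 : HasOrthogonalPair (stInp E (chain w (a + 1))) ↔
            ∃ i j : Fin n, tst (chain w (a + 1)) (false, i) ∪
              tst (chain w (a + 1)) (true, j) = Finset.univ :=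
          emb_orthogonal hd' code (tst (chain w (a + 1)))
        simp only [h3]
      rw [h2]
      calc _ ≤ ∑ _a : Fin T, (1 / 12 : ℝ) * Fintype.card (Fin T → Layer n m Q) := by
            apply Finset.sum_le_sum
            intro a _
            refine (card_orthogonal hQpos hTQ (by simp only [m]; omega) _).trans ?_
            exact mul_le_mul_of_nonneg_right hrho hWpos.le
        _ = _ := by
            rw [Finset.sum_const, Finset.card_univ, Fintype.card_fin, nsmul_eq_mul]
            ring
    have h2 : ((Finset.univ.filter fun q : (Fin T → Layer n m Q) × Fin T =>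
        C.Accepts (stInp E (chain q.1 (q.2 + 1)))).card : ℝ) ≤ w0 +
        ((Finset.univ.filter fun q : (Fin T → Layer n m Q) × Fin T =>
        HasOrthogonalPair (stInp E (chain q.1 (q.2 + 1)))).card : ℝ) := by
      have h3 : (Finset.univ.filter fun q : (Fin T → Layer n m Q) × Fin T =>
        C.Accepts (stInp E (chain q.1 (q.2 + 1)))) ⊆
        (Finset.univ.filter fun q : (Fin T → Layer n m Q) × Fin T =>
          ¬ C.CorrectOn (stInp E (chain q.1 (q.2 + 1)))) ∪
        (Finset.univ.filter fun q : (Fin T → Layer n m Q) × Fin T =>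
        HasOrthogonalPair (stInp E (chain q.1 (q.2 + 1)))) := by
        intro q hq
        simp only [Finset.mem_filter, Finset.mem_univ, true_and, Finset.mem_union] at hq ⊢
        by_cases h4 : HasOrthogonalPair (stInp E (chain q.1 (q.2 + 1)))
        · exact Or.inr h4
        · exact Or.inl fun h5 => h4 (h5.1 hq)
      exact_mod_cast (Finset.card_le_card h3).trans (Finset.card_union_le _ _)
    linarith
  -- the two cases
  let L : ℕ := ⌈3 * Real.log n⌉₊ + 3
  have hCs : C.size ≤ s := (hμ C hC).1
  have hCB : (C.branches : ℝ) ≤ B := by exact_mod_cast (hμ C hC).2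
  have hCs' : (C.size : ℝ) ≤ s := by exact_mod_cast hCs
  apply numeric hge hs1 hr hB1 hrn (rfl : L = _) (rfl : Q = _)
  rcases lt_or_ge (1 / 32 : ℝ) (C.size * ((r + 1) * Real.exp (-L))) with h | h
  · left
    exact h.trans_le (mul_le_mul_of_nonneg_right hCs' (by positivity))
  · right
    have h1 := total_bound (T := T) (L := L) hQpos C E hE h
    have h2 : (Fintype.card (Fin T → Layer n m Q) * T : ℝ) * (n ^ 2 * 2 ^ m) ≤ w1 +
        ((Finset.univ.filter fun q : ((Fin T → Layer n m Q) × Fin T) × (Fin n × Fin n ×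
          Finset (Fin m)) =>
          C.Accepts (inp E (tst (chain q.1.1 q.1.2)) (posTest q.2))).card : ℝ) := by
      have h3 : Fintype.card (T0 × T1) ≤ w1 +
          (Finset.univ.filter fun q : T0 × T1 =>
            C.Accepts (inp E (tst (chain q.1.1 q.1.2)) (posTest q.2))).card := by
        rw [← Finset.card_univ]
        refine le_trans (Finset.card_le_card (t := (Finset.univ.filter fun q : T0 × T1 =>
          ¬ C.CorrectOn (inp E (tst (chain q.1.1 q.1.2)) (posTest q.2))) ∪
          (Finset.univ.filter fun q : T0 × T1 =>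
            C.Accepts (inp E (tst (chain q.1.1 q.1.2)) (posTest q.2)))) ?_)
          (Finset.card_union_le _ _)
        intro q _
        by_cases ha : C.Accepts (inp E (tst (chain q.1.1 q.1.2)) (posTest q.2))
        · apply Finset.mem_union_right
          simpa using ha
        · apply Finset.mem_union_left
          simp only [Finset.mem_filter, Finset.mem_univ, true_and]
          intro hc
          apply ha
          apply hc.2
          have h4 : HasOrthogonalPair (inp E (tst (chain q.1.1 q.1.2)) (posTest q.2)) ↔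
              ∃ i j : Fin n, (tst (chain q.1.1 q.1.2) (false, i) ∪ posTest q.2 (false, i)) ∪
                (tst (chain q.1.1 q.1.2) (true, j) ∪ posTest q.2 (true, j)) = Finset.univ :=
            emb_orthogonal hd' code
              (fun p => tst (chain q.1.1 q.1.2) p ∪ posTest q.2 p)
          rw [h4]
          refine ⟨q.2.1, q.2.2.1, ?_⟩
          ext k
          simp only [posTest, if_true, Finset.mem_union, Finset.mem_univ, iff_true]
          by_cases hk : k ∈ q.2.2.2
          · exact Or.inl (Or.inr hk)
          · refine Or.inr (Or.inr ?_)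
            simpa using hk
      rw [Fintype.card_prod, hcT0, hcT1] at h3
      exact_mod_cast h3
    have h3 : 3 * ((w1 : ℝ) + (n ^ 2 * 2 ^ m) * w0) ≤
        2 * ((Fintype.card (Fin T → Layer n m Q) * T) * (n ^ 2 * 2 ^ m)) := by
      rw [hcT0, hcT1] at herr2
      exact_mod_cast herr2
    have h2tW : (C.branches : ℝ) * Fintype.card (Fin T → Layer n m Q) ≤
        1 / 64 * (Fintype.card (Fin T → Layer n m Q) * T) := by
      rw [hTval]
      have := mul_le_mul_of_nonneg_right hCB hWpos.le
      linarith
    rw [hTQval] at h1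
    have hWtpos : (0 : ℝ) < (Fintype.card (Fin T → Layer n m Q) : ℝ) * (T : ℝ) :=
      mul_pos hWpos hTpos
    have h4 := final_arith hWtpos hPpos (Nat.cast_nonneg w0) (Nat.cast_nonneg w1) h2tW h1 hacc0 h2 h3
    have h2m : (0 : ℝ) < 2 ^ m := by positivity
    have e1 : (C.size : ℝ) * ((r * (L * Q : ℕ)) ^ 2 * 2 ^ m) ≤
        s * ((r * (L * Q : ℕ)) ^ 2 * 2 ^ m) :=
      mul_le_mul_of_nonneg_right hCs' (by positivity)
    exact final_arith2 h2m h4 e1

end Pool.Agent.Results.MP_0f984e_lc.NegationLimited
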