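import Pool.Agent.H58.OVT.Det
import Pool.Agent.H58.OVT.Rounds
import Pool.Agent.H58.OVAC.Embed

set_option autoImplicit false
set_option maxHeartbeats 4000000

namespace Pool.Agent.Results.MP_0f984e_lc.ParallelRounds

/-! ### Orthogonal Vectors -/

/-- Positions of the `2n` input vectors: `(false, i)` is the `i`-th vector of `A`, and
`(true, j)` is the `j`-th vector of `B`. -/
abbrev Pos (n : ℕ) : Type := Bool × Fin n

/-- Vectors in `{0,1}^d`. -/
abbrev Vec (d : ℕ) : Type := Fin d → Bool

/-- An input: `n` vectors of `A` and `n` vectors of `B`, all in `{0,1}^d`. -/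
abbrev Input (n d : ℕ) : Type := Pos n → Vec d

/-- Valid inputs: each of the two sets is listed in strictly increasing lexicographic order (so
each consists of exactly `n` distinct vectors, written in the canonical order). -/
def IsValid {n d : ℕ} (x : Input n d) : Prop :=
  StrictMono (fun i : Fin n => toLex (x (false, i))) ∧
  StrictMono (fun j : Fin n => toLex (x (true, j)))

/-- The answer to the Orthogonal Vectors question: some vector of `A` and some vector of `B` have
inner product `0` over the integers. -/
def HasOrthogonalPair {n d : ℕ} (x : Input n d) : Prop :=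
  ∃ i j : Fin n, ∑ k : Fin d, (x (false, i) k).toNat * (x (true, j) k).toNat = 0

/-! ### Parallel machines which compute in rounds -/

/-- The cells of the shared memory: one input cell for every input vector, and the cells
`0, 1, 2, ...`. -/
abbrev Cell (n : ℕ) : Type := Pos n ⊕ ℕ

/-- The content of a cell: a vector or a natural number. -/
abbrev Word (d : ℕ) : Type := Vec d ⊕ ℕ

/-- A parallel machine with `p` processors and bandwidth `k` (for inputs of size `n, d`). In every
round every processor first reads `k` cells of the shared memory one after the other (adaptively)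
and then writes at most `k` cells. Everything may depend in an arbitrary way on the number of the
round, on the number of the processor and on its local state (a natural number). -/
structure Machine (n d p k : ℕ) where
  /-- the cell which is read, given the round, the index of the read in the round, the processor
  and its state -/
  read : ℕ → ℕ → Fin p → ℕ → Cell n
  /-- the new state, given the round, the index of the read in the round, the processor, its
  state and the word which was read -/
  next : ℕ → ℕ → Fin p → ℕ → Word d → ℕ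
  /-- the cells and the words written at the end of the round, given the round, the processor and
  its state -/
  write : ℕ → Fin p → ℕ → Fin k → Option (Cell n × Word d)
  /-- the output cell -/
  output : Cell n
  /-- the contents of the output cell which mean acceptance -/
  accept : Word d → Bool

variable {n d p k : ℕ}

/-- A configuration: the states of the processors and the contents of the cells. -/
abbrev Config (n d p : ℕ) : Type := (Fin p → ℕ) × (Cell n → Word d)

/-- The state of the processor `P` after `i` reads in round `t`, if `m` are the contents of the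
cells at the beginning of the round, and `s` is the state of the processor then. -/
def Machine.stateAfter (A : Machine n d p k) (t : ℕ) (P : Fin p) (m : Cell n → Word d)
    (s : ℕ) : ℕ → ℕ
  | 0 => s
  | i + 1 => A.next t i P (A.stateAfter t P m s i) (m (A.read t i P (A.stateAfter t P m s i)))

/-- The state of the processor `P` after round `t` begun in the configuration `z`. -/
def Machine.newState (A : Machine n d p k) (t : ℕ) (z : Config n d p) (P : Fin p) : ℕ :=
  A.stateAfter t P z.2 (z.1 P) k

/-- The content of the cell `c` after round `t` begun in the configuration `z`: if some processors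
write to it, then the first word written to it by the processor with the least number, otherwise
the old content. -/
def Machine.newContent (A : Machine n d p k) (t : ℕ) (z : Config n d p) (c : Cell n) : Word d :=
  ((List.finRange p).findSome? fun P => (List.finRange k).findSome? fun i =>
    match A.write t P (A.newState t z P) i with
    | some (c', w) => if c' = c then some w else none
    | none => none).getD (z.2 c)

/-- The configuration after the given number of rounds on the input `x`: at the beginning all
states are `0`, the input cells contain the vectors and the other cells contain `0`. -/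
def Machine.run (A : Machine n d p k) (x : Input n d) : ℕ → Config n d p
  | 0 => (fun _ => 0, Sum.elim (fun q => Sum.inl (x q)) (fun _ => Sum.inr 0))
  | t + 1 => (A.newState t (A.run x t), A.newContent t (A.run x t))

/-- The machine accepts the input `x` in `T` rounds. -/
def Machine.Accepts (A : Machine n d p k) (T : ℕ) (x : Input n d) : Prop :=
  A.accept ((A.run x T).2 A.output) = true

/-- The machine answers the Orthogonal Vectors question correctly on input `x` in `T` rounds. -/
def Machine.CorrectOn (A : Machine n d p k) (T : ℕ) (x : Input n d) : Prop :=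
  A.Accepts T x ↔ HasOrthogonalPair x

/-! ### The proof of the lower bound -/

open Pool.Agent.H58 Pool.Agent.H58.OVAC

/-- The machine in the notation of the helper files. -/
def Machine.toRnd (A : Machine n d p k) : OVT.Rnd p k ((Bool × Fin n) ⊕ ℕ) ℕ (Word d) where
  read := A.read
  next := A.next
  write := A.write

/-- The input given by strings. -/
def inp {g D : ℕ} (E : Pos n → OVAC.Str g D → Vec d) (y : Bool × Fin n → OVAC.Str g D) :
    Input n d := fun q => E q (y q)

theorem stateAfter_eq (A : Machine n d p k) (t : ℕ) (P : Fin p) (m : Cell n → Word d) (s : ℕ)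
    (i : ℕ) : A.stateAfter t P m s i = A.toRnd.loc t P m s i := by
  induction i with
  | zero => rfl
  | succ i ih =>
    show A.next t i P (A.stateAfter t P m s i) (m (A.read t i P (A.stateAfter t P m s i))) = _
    rw [ih]
    rfl

theorem run_eq {g D : ℕ} (A : Machine n d p k) (E : Pos n → OVAC.Str g D → Vec d)
    (y : Bool × Fin n → OVAC.Str g D) (t : ℕ) :
    A.run (inp E y) t =
      A.toRnd.run (OVPR.start 0 (Sum.inr 0) (fun q s => Sum.inl (E q s)) ℕ y) t := by
  induction t with
  | zero => rfl
  | succ t ih =>
    have h1 : ∀ z : Config n d p, A.newState t z = fun P => A.toRnd.loc t P z.2 (z.1 P) k :=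
      fun z => funext fun P => stateAfter_eq A t P z.2 (z.1 P) k
    show (A.newState t (A.run (inp E y) t), A.newContent t (A.run (inp E y) t)) = _
    rw [ih]
    refine Prod.ext (h1 _) ?_
    funext c
    show ((List.finRange p).findSome? _).getD _ = ((List.finRange p).findSome? _).getD _
    rw [h1]
    congr 2
    funext P
    congr 1
    funext i
    show (match A.write t P _ i with
      | some (c', w) => if c' = c then some w else none
      | none => none) = OVPR.item (A.write t P (A.toRnd.loc t P _ _ k) i) c
    cases A.write t P (A.toRnd.loc t P _ _ k) i with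
    | none => rfl
    | some w => rfl

theorem run_fine {g D : ℕ} (hk : 1 ≤ k) (A : Machine n d p k) (E : Pos n → OVAC.Str g D → Vec d)
    (y : Bool × Fin n → OVAC.Str g D) (T : ℕ) :
    (A.toRnd.fine.run (OVPR.start 0 (Sum.inr 0) (fun q s => Sum.inl (E q s)) ℕ y) (k * T)).2 =
      (A.run (inp E y) T).2 := by
  rw [run_eq]
  exact congrArg Prod.snd (A.toRnd.fine_run hk
    (OVPR.start 0 (Sum.inr 0) (fun q s => Sum.inl (E q s)) ℕ y) T)

theorem inp_eq {g D : ℕ} (E : Pos n → OVAC.Str g D → Vec d) (y : Bool × Fin n → OVAC.Str g D) :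
    inp E y = OVAC.tst E (fun i => y (false, i)) (fun j => y (true, j)) := by
  funext q
  obtain ⟨b, i⟩ := q
  cases b <;> rfl

theorem pr_off {g D : ℕ} (hg : 2 ≤ g) (i j : Fin n) :
    pr (fun y : Bool × Fin n → OVAC.Str g D => Off (y (false, i)) (y (true, j))) =
      (((g : ℝ) - 1) / g) ^ D := by
  classical
  have hne : Nonempty (OVAC.Str g D) := ⟨fun _ => ⟨0, by omega⟩⟩
  have hg' : (2 : ℝ) ≤ g := by exact_mod_cast hg
  rw [← pr_mix {(false, i)} fun y : Bool × Fin n → OVAC.Str g D =>
    Off (y (false, i)) (y (true, j))]
  have h1 : ∀ u : Bool × Fin n → OVAC.Str g D, (pr fun v : Bool × Fin n → OVAC.Str g D =>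
      Off (mix {(false, i)} u v (false, i)) (mix {(false, i)} u v (true, j))) =
      (((g : ℝ) - 1) / g) ^ D := by
    intro u
    have h2 : (pr fun v : Bool × Fin n → OVAC.Str g D =>
        Off (mix {(false, i)} u v (false, i)) (mix {(false, i)} u v (true, j))) =
        pr fun v : Bool × Fin n → OVAC.Str g D => Off (u (false, i)) (v (true, j)) := by
      refine pr_congr fun v => ?_
      simp [mix]
    rw [h2, OVPR.pr_coord (true, j) fun s : OVAC.Str g D => Off (u (false, i)) s]
    unfold pr av
    have h3 := count_off' (k := g) (D := D) (by omega) (u (false, i))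
    have h4 : (∑ s : OVAC.Str g D, @ite ℝ (Off (u (false, i)) s)
        (Classical.propDecidable _) 1 0) = ((g : ℝ) - 1) ^ D := by
      rw [← h3]
      exact Finset.sum_congr rfl fun s _ => by congr
    rw [h4, div_pow]
    simp
  rw [av_congr h1]
  exact av_const _

theorem lower : ∀ ε : ℝ, 0 < ε → ∃ (K : ℕ) (δ : ℝ), 0 < δ ∧ ∃ n₀ : ℕ, ∀ n d p k T : ℕ, n₀ ≤ n →
    K * Nat.clog 2 n ≤ d → 1 ≤ k → 1 ≤ T →
    ((k * Nat.log 2 n : ℕ) : ℝ) ^ T ≤ (n : ℝ) ^ δ → ∀ μ : PMF (Machine n d p k),
      (∀ x : Input n d, IsValid x →
        (2 / 3 : ENNReal) ≤ μ.toOuterMeasure {A | A.CorrectOn T x}) →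
      (n : ℝ) ^ (2 - ε) ≤ p := by
  classical
  intro ε hε
  obtain ⟨g, δ₁, hg, hδ₁, n₀, hdet⟩ := OVT.det (ε / 2) (by linarith)
  refine ⟨7 * g ^ 2 + 2, min δ₁ (ε / 2), lt_min hδ₁ (by linarith), max n₀ 2, ?_⟩
  intro n d p k T hn hd hk hT hkT μ hμ
  by_contra hp
  push Not at hp
  have hn2 : 2 ≤ n := (le_max_right _ _).trans hn
  have hn1 : (1 : ℝ) ≤ n := by exact_mod_cast (by omega : 1 ≤ n)
  have hn0 : (0 : ℝ) < n := by linarith
  have hkT₁ : ((k * Nat.log 2 n : ℕ) : ℝ) ^ T ≤ (n : ℝ) ^ δ₁ :=
    hkT.trans (Real.rpow_le_rpow_of_exponent_le hn1 (min_le_left _ _))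
  -- the number of accesses
  have hpk : ((p * k : ℕ) : ℝ) < (n : ℝ) ^ (2 - ε / 2) := by
    have e1 : (k : ℝ) ≤ (n : ℝ) ^ (ε / 2) := by
      refine le_trans ?_ (hkT.trans (Real.rpow_le_rpow_of_exponent_le hn1 (min_le_right _ _)))
      have hl : 1 ≤ Nat.log 2 n := Nat.log_pos (by norm_num) hn2
      have e2 : k ≤ k * Nat.log 2 n := Nat.le_mul_of_pos_right k hl
      have e3 : k * Nat.log 2 n ≤ (k * Nat.log 2 n) ^ T := Nat.le_self_pow (by omega) _
      exact_mod_cast e2.trans e3
    have hk0 : (0 : ℝ) < k := by exact_mod_cast hk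
    push_cast
    calc (p : ℝ) * k < (n : ℝ) ^ (2 - ε) * k := mul_lt_mul_of_pos_right hp hk0
      _ ≤ (n : ℝ) ^ (2 - ε) * (n : ℝ) ^ (ε / 2) := mul_le_mul_of_nonneg_left e1 (by positivity)
      _ = (n : ℝ) ^ (2 - ε / 2) := by
          rw [← Real.rpow_add hn0]
          congr 1
          ring
  have hg' : (2 : ℝ) ≤ g := by exact_mod_cast hg
  have hg0 : (0 : ℝ) < g := by linarith
  obtain ⟨code, hcode⟩ := exists_code (n := n) (m := Nat.clog 2 n)
    (Nat.le_pow_clog (by norm_num) n)
  have hl : 1 ≤ Nat.clog 2 n := Nat.clog_pos (by norm_num) hn2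
  have hnl : (n : ℝ) ≤ 2 ^ Nat.clog 2 n := by exact_mod_cast Nat.le_pow_clog (by norm_num) n
  generalize Nat.clog 2 n = l at code hcode hl hnl hd
  obtain ⟨D, hD⟩ : ∃ D, D = g * (2 * l + 5) := ⟨_, rfl⟩
  have hd' : 2 * l + D * g ≤ d := by
    refine le_trans ?_ hd
    rw [hD]
    nlinarith [Nat.zero_le (g ^ 2), mul_le_mul_right hl (g ^ 2)]
  let E : Pos n → OVAC.Str g D → Vec d := emb d code
  have hval : ∀ y, IsValid (inp E y) := by
    intro y
    rw [inp_eq]
    exact emb_valid hd' code hcode _ _
  have horth : ∀ y, HasOrthogonalPair (inp E y) ↔ ∃ i j, Off (y (false, i)) (y (true, j)) := by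
    intro y
    rw [inp_eq]
    exact exists_congr fun i => exists_congr fun j => emb_orthogonal hd' code _ _ i j
  have hne : Nonempty (OVAC.Str g D) := ⟨fun _ => ⟨0, by omega⟩⟩
  have hneT : Nonempty (OVPR.Test n g D) := by
    refine ⟨(fun _ => hne.some, (⟨0, by omega⟩, ⟨0, by omega⟩), ⟨(fun _ => ⟨0, by omega⟩,
      fun _ => ⟨1, by omega⟩), fun c h => ?_⟩)⟩
    simp at h
  have hplant : ∀ τ : OVPR.Test n g D, HasOrthogonalPair (inp E τ.y) := by
    intro τ
    rw [horth]
    refine ⟨τ.2.1.1, τ.2.1.2, ?_⟩
    have h1 : τ.y (false, τ.2.1.1) = τ.2.2.1.1 := by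
      simp [OVPR.Test.y, OVPR.yAB]
    have h2 : τ.y (true, τ.2.1.2) = τ.2.2.1.2 := by
      simp [OVPR.Test.y, OVPR.yAB]
    rw [h1, h2]
    exact τ.2.2.2
  -- averaging
  obtain ⟨A, -, hA⟩ := OVPR.yao μ (fun A (τ : OVPR.Test n g D) => ¬ A.Accepts T (inp E τ.y))
    (fun A (y : Bool × Fin n → OVAC.Str g D) => A.Accepts T (inp E y)) (fun _ => 1 / 3)
    (fun y => if ∃ i j, Off (y (false, i)) (y (true, j)) then 1 else 1 / 3)
    (fun _ => by norm_num) (fun y => by split_ifs <;> norm_num)
    (by
      intro τ
      refine le_trans (μ.toOuterMeasure.mono ?_) (OVPR.compl_le μ _ (hμ _ (hval τ.y)))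
      intro A hA hcor
      exact hA (hcor.2 (hplant τ)))
    (by
      intro y
      by_cases h : ∃ i j, Off (y (false, i)) (y (true, j))
      · rw [if_pos h]
        exact OVPR.le_one μ _
      · rw [if_neg h]
        refine le_trans (μ.toOuterMeasure.mono ?_) (OVPR.compl_le μ _ (hμ _ (hval y)))
        intro A hA hcor
        exact h ((horth y).1 (hcor.1 hA)))
  -- random inputs rarely have orthogonal pairs
  have hp0 : pr (fun y : Bool × Fin n → OVAC.Str g D =>
      ∃ i j, Off (y (false, i)) (y (true, j))) ≤ 1 / 32 := by
    have h1 : pr (fun y : Bool × Fin n → OVAC.Str g D =>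
        ∃ i j, Off (y (false, i)) (y (true, j))) ≤
        ∑ z ∈ (Finset.univ : Finset (Fin n × Fin n)),
          pr (fun y : Bool × Fin n → OVAC.Str g D => Off (y (false, z.1)) (y (true, z.2))) := by
      refine le_trans (pr_mono fun y hy => ?_) (pr_exists_le _ _)
      obtain ⟨i, j, hij⟩ := hy
      exact ⟨(i, j), Finset.mem_univ _, hij⟩
    refine h1.trans ?_
    simp only [pr_off hg]
    rw [Finset.sum_const, Finset.card_univ, Fintype.card_prod, Fintype.card_fin, nsmul_eq_mul]
    have h2 : (((g : ℝ) - 1) / g) ^ g ≤ 1 / 2 := by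
      have := one_sub_inv_pow_le g (by omega)
      have h3 : ((g : ℝ) - 1) / g = 1 - 1 / g := by field_simp
      rw [h3]
      exact this
    have h3 : (((g : ℝ) - 1) / g) ^ D ≤ (1 / 2) ^ (2 * l + 5) := by
      rw [hD, pow_mul]
      exact pow_le_pow_left₀ (pow_nonneg (div_nonneg (by linarith) hg0.le) _) h2 _
    have h4 : (n : ℝ) ^ 2 ≤ 2 ^ (2 * l) := by
      calc (n : ℝ) ^ 2 ≤ (2 ^ l) ^ 2 := pow_le_pow_left₀ (Nat.cast_nonneg n) hnl 2
        _ = 2 ^ (2 * l) := by rw [← pow_mul, mul_comm]
    calc ((n * n : ℕ) : ℝ) * (((g : ℝ) - 1) / g) ^ D ≤ 2 ^ (2 * l) * (1 / 2) ^ (2 * l + 5) := by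
          apply mul_le_mul _ h3 (pow_nonneg (div_nonneg (by linarith) hg0.le) _) (by positivity)
          push_cast
          rw [← sq]
          exact h4
      _ = (2 * (1 / 2)) ^ (2 * l) * (1 / 32) := by
          rw [pow_add, mul_pow]
          ring
      _ = 1 / 32 := by norm_num
  have hb : (av fun y : Bool × Fin n → OVAC.Str g D =>
      if ∃ i j, Off (y (false, i)) (y (true, j)) then (1 : ℝ) else 1 / 3) ≤ 1 / 3 + 1 / 32 := by
    have h1 : (av fun y : Bool × Fin n → OVAC.Str g D =>
        if ∃ i j, Off (y (false, i)) (y (true, j)) then (1 : ℝ) else 1 / 3) ≤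
        av fun y : Bool × Fin n → OVAC.Str g D => 1 / 3 +
          (if ∃ i j, Off (y (false, i)) (y (true, j)) then (1 : ℝ) else 0) := by
      refine av_mono fun y => ?_
      split_ifs <;> norm_num
    refine h1.trans ?_
    rw [av_add, av_const]
    refine add_le_add_right (le_of_eq_of_le ?_ hp0) _
    unfold pr
    exact av_congr fun y => by congr
  rw [av_const] at hA
  -- the deterministic bound
  have h5 := hdet n ((le_max_left _ _).trans hn) k T hk hT hkT₁ D (p * k) ℕ (Word d)
    A.toRnd.fine 0 (Sum.inr 0) (fun q s => Sum.inl (E q s))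
    (fun τ hτ Q s => A.toRnd.fine_quiet τ hτ Q s) hpk A.output A.accept
  simp only [run_fine hk] at h5
  have h6 : pr (fun τ : OVPR.Test n g D => ¬ A.Accepts T (inp E τ.y)) =
      1 - pr (fun τ : OVPR.Test n g D => A.accept ((A.run (inp E τ.y) T).2 A.output) = true) := by
    rw [pr_not]
    rfl
  have h7 : pr (fun y : Bool × Fin n → OVAC.Str g D => A.Accepts T (inp E y)) =
      pr (fun y : Bool × Fin n → OVAC.Str g D =>
        A.accept ((A.run (inp E y) T).2 A.output) = true) := rfl
  rw [h6, h7] at hA
  linarith

/-! ### The upper bounds -/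

theorem newContent_none (A : Machine n d p k) (t : ℕ) (z : Config n d p)
    (h : ∀ P s i, A.write t P s i = none) : A.newContent t z = z.2 := by
  funext c
  unfold Machine.newContent
  have h1 : ((List.finRange p).findSome? fun P => (List.finRange k).findSome? fun i =>
      match A.write t P (A.newState t z P) i with
      | some (c', w) => if c' = c then some w else none
      | none => none) = none := by
    rw [List.findSome?_eq_none_iff]
    intro P _
    rw [List.findSome?_eq_none_iff]
    intro i _
    rw [h P _ i]
  rw [h1]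
  rfl

open Classical in
/-- The machine which tests all pairs. -/
noncomputable def pairs (n d : ℕ) (code : Vec d → ℕ) : Machine n d (n * n) 1 where
  read t _ P _ := Sum.inl (if t = 0 then (false, (finProdFinEquiv.symm P).1)
    else (true, (finProdFinEquiv.symm P).2))
  next t _ _ s w := match w with
    | Sum.inl v => if t = 0 then code v else
        if ∃ u : Vec d, code u = s ∧ ∑ c : Fin d, (u c).toNat * (v c).toNat = 0 then 1 else 0
    | Sum.inr _ => 0
  write t _ s _ := if t = 1 ∧ s = 1 then some (Sum.inr 0, Sum.inr 1) else none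
  output := Sum.inr 0
  accept w := decide (w = Sum.inr 1)

theorem upper_pairs (n d : ℕ) : ∃ A : Machine n d (n * n) 1, ∀ x : Input n d,
    A.CorrectOn 2 x := by
  classical
  obtain ⟨code, hcode⟩ := Countable.exists_injective_nat (Vec d)
  refine ⟨pairs n d code, fun x => ?_⟩
  have h1 : (pairs n d code).run x 1 = (fun P => code (x (false, (finProdFinEquiv.symm P).1)),
      Sum.elim (fun q => Sum.inl (x q)) (fun _ => Sum.inr 0)) := by
    refine Prod.ext ?_ ?_
    · funext P
      rfl
    · show (pairs n d code).newContent 0 ((pairs n d code).run x 0) = _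
      rw [newContent_none]
      · rfl
      · intro P s i
        rfl
  have h2 : ∀ P, (pairs n d code).newState 1 ((pairs n d code).run x 1) P =
      if ∑ c : Fin d, (x (false, (finProdFinEquiv.symm P).1) c).toNat *
        (x (true, (finProdFinEquiv.symm P).2) c).toNat = 0 then 1 else 0 := by
    intro P
    rw [h1]
    show (if ∃ u : Vec d, code u = code (x (false, (finProdFinEquiv.symm P).1)) ∧
      ∑ c : Fin d, (u c).toNat * (x (true, (finProdFinEquiv.symm P).2) c).toNat = 0
      then 1 else 0) = _
    refine if_congr ⟨?_, fun h => ⟨_, rfl, h⟩⟩ rfl rfl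
    rintro ⟨u, h3, h4⟩
    rw [hcode h3] at h4
    exact h4
  have h3 : (pairs n d code).Accepts 2 x ↔ ∃ P : Fin (n * n),
      ∑ c : Fin d, (x (false, (finProdFinEquiv.symm P).1) c).toNat *
        (x (true, (finProdFinEquiv.symm P).2) c).toNat = 0 := by
    have h4 : ((pairs n d code).run x 2).2 (Sum.inr 0) =
        ((List.finRange (n * n)).findSome? fun P => (List.finRange 1).findSome? fun _ =>
          if ∑ c : Fin d, (x (false, (finProdFinEquiv.symm P).1) c).toNat *
            (x (true, (finProdFinEquiv.symm P).2) c).toNat = 0 then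
            some (Sum.inr 1 : Word d) else none).getD (Sum.inr 0) := by
      show (pairs n d code).newContent 1 ((pairs n d code).run x 1) (Sum.inr 0) = _
      unfold Machine.newContent
      rw [show ((pairs n d code).run x 1).2 (Sum.inr 0) = Sum.inr 0 by rw [h1]; rfl]
      congr 2
      funext P
      congr 1
      funext i
      rw [h2 P]
      by_cases h5 : ∑ c : Fin d, (x (false, (finProdFinEquiv.symm P).1) c).toNat *
          (x (true, (finProdFinEquiv.symm P).2) c).toNat = 0
      · rw [if_pos h5, if_pos h5]
        simp [pairs]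
      · rw [if_neg h5, if_neg h5]
        simp [pairs]
    show decide (((pairs n d code).run x 2).2 (Sum.inr 0) = Sum.inr 1) = true ↔ _
    rw [decide_eq_true_iff, h4]
    constructor
    · intro h5
      by_contra h6
      push Not at h6
      have h7 : ((List.finRange (n * n)).findSome? fun P =>
          (List.finRange 1).findSome? fun _ =>
          if ∑ c : Fin d, (x (false, (finProdFinEquiv.symm P).1) c).toNat *
            (x (true, (finProdFinEquiv.symm P).2) c).toNat = 0 then
            some (Sum.inr 1 : Word d) else none) = none := by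
        rw [List.findSome?_eq_none_iff]
        intro P _
        rw [List.findSome?_eq_none_iff]
        intro i _
        exact if_neg (h6 P)
      rw [h7] at h5
      simp at h5
    · rintro ⟨P, h5⟩
      cases h6 : ((List.finRange (n * n)).findSome? fun P =>
          (List.finRange 1).findSome? fun _ =>
          if ∑ c : Fin d, (x (false, (finProdFinEquiv.symm P).1) c).toNat *
            (x (true, (finProdFinEquiv.symm P).2) c).toNat = 0 then
            some (Sum.inr 1 : Word d) else none) with
      | none =>
        rw [List.findSome?_eq_none_iff] at h6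
        have h7 := h6 P (List.mem_finRange P)
        rw [List.findSome?_eq_none_iff] at h7
        have h8 := h7 0 (List.mem_finRange 0)
        rw [if_pos h5] at h8
        exact absurd h8 (by simp)
      | some w =>
        obtain ⟨P', _, h7⟩ := List.exists_of_findSome?_eq_some h6
        obtain ⟨_, _, h8⟩ := List.exists_of_findSome?_eq_some h7
        by_cases h9 : ∑ c : Fin d, (x (false, (finProdFinEquiv.symm P').1) c).toNat *
            (x (true, (finProdFinEquiv.symm P').2) c).toNat = 0
        · rw [if_pos h9] at h8
          simpa using h8.symm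
        · rw [if_neg h9] at h8
          exact absurd h8 (by simp)
  unfold Machine.CorrectOn
  rw [h3]
  constructor
  · rintro ⟨P, hP⟩
    exact ⟨_, _, hP⟩
  · rintro ⟨i, j, h⟩
    refine ⟨finProdFinEquiv (i, j), ?_⟩
    rw [Equiv.symm_apply_apply]
    exact h

/-- Partial information about the input. -/
abbrev Info (n d : ℕ) : Type := Pos n → Option (Vec d)

open Classical in
/-- The information about the positions in `S`. -/
noncomputable def know (x : Input n d) (S : Set (Pos n)) : Info n d :=
  fun q => if q ∈ S then some (x q) else none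

/-- Union of information. -/
def merge (a b : Info n d) : Info n d := fun q => (a q).or (b q)

theorem merge_know (x : Input n d) (S S' : Set (Pos n)) :
    merge (know x S) (know x S') = know x (S ∪ S') := by
  classical
  funext q
  unfold merge know
  by_cases h : q ∈ S
  · simp [h]
  · by_cases h' : q ∈ S' <;> simp [h, h']

/-- The positions, numbered periodically. -/
def pos (hn : 1 ≤ n) (m : ℕ) : Pos n := (decide (n ≤ m % (2 * n)), ⟨m % n, Nat.mod_lt _ hn⟩)

theorem pos_mod (hn : 1 ≤ n) (m j : ℕ) : pos hn (m % (2 * n) + j) = pos hn (m + j) := by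
  unfold pos
  have h1 : (m % (2 * n) + j) % (2 * n) = (m + j) % (2 * n) := Nat.mod_add_mod _ _ _
  have h2 : (m % (2 * n) + j) % n = (m + j) % n := by
    rw [Nat.add_mod, Nat.mod_mod_of_dvd m (Dvd.intro_left 2 rfl), ← Nat.add_mod]
  simp only [h1, h2]

theorem pos_surj (hn : 1 ≤ n) (q : Pos n) : ∃ m < 2 * n, pos hn m = q := by
  obtain ⟨b, i⟩ := q
  cases b
  · refine ⟨i, by omega, ?_⟩
    unfold pos
    have h1 : (i : ℕ) % (2 * n) = i := Nat.mod_eq_of_lt (by omega)
    have h2 : (i : ℕ) % n = i := Nat.mod_eq_of_lt i.2
    simp only [h1, h2]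
    have h3 : ¬ n ≤ (i : ℕ) := by omega
    simp [h3]
  · refine ⟨n + i, by omega, ?_⟩
    unfold pos
    have h1 : (n + (i : ℕ)) % (2 * n) = n + i := Nat.mod_eq_of_lt (by omega)
    have h2 : (n + (i : ℕ)) % n = i := by
      rw [Nat.add_mod_left]
      exact Nat.mod_eq_of_lt i.2
    simp only [h1, h2]
    simp

open Classical in
/-- The machine in which every processor collects information. -/
noncomputable def collect (hn : 1 ≤ n) (k : ℕ) (enc : Info n d → ℕ) (dec : ℕ → Info n d) :
    Machine n d (2 * n) k where
  read t i P _ := if t = 0 then Sum.inl (pos hn P)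
    else Sum.inr ((P + (i + 1) * (k + 1) ^ (t - 1)) % (2 * n))
  next _ _ P s w := match w with
    | Sum.inl v => enc fun q => if q = pos hn P then some v else none
    | Sum.inr m => enc (merge (dec s) (dec m))
  write _ P s _ := some (Sum.inr (P : ℕ), Sum.inr s)
  output := Sum.inr 0
  accept w := decide (∃ (m : ℕ) (x : Input n d), w = Sum.inr m ∧ dec m = (fun q => some (x q)) ∧
    HasOrthogonalPair x)

theorem collect_content (hn : 1 ≤ n) (hk : 1 ≤ k) (enc : Info n d → ℕ) (dec : ℕ → Info n d)
    (t : ℕ) (z : Config n d (2 * n)) (P : Fin (2 * n)) :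
    (collect hn k enc dec).newContent t z (Sum.inr (P : ℕ)) =
      Sum.inr ((collect hn k enc dec).newState t z P) := by
  obtain ⟨k', rfl⟩ : ∃ k', k = k' + 1 := ⟨k - 1, by omega⟩
  unfold Machine.newContent
  have h1 : ∀ P' : Fin (2 * n), ((List.finRange (k' + 1)).findSome? fun i =>
      match (collect hn (k' + 1) enc dec).write t P'
        ((collect hn (k' + 1) enc dec).newState t z P') i with
      | some (c', w) => if c' = Sum.inr (P : ℕ) then some w else none
      | none => none) = if P' = P then
        some (Sum.inr ((collect hn (k' + 1) enc dec).newState t z P')) else none := by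
    intro P'
    by_cases h : P' = P
    · rw [if_pos h, h]
      have h2 := OVT.findSome_unique (fun _ : Fin (k' + 1) =>
        some (Sum.inr ((collect hn (k' + 1) enc dec).newState t z P) : Word d)) 0
        (fun l hl => absurd hl (Fin.not_lt_zero l)) (by simp)
      rw [← h2]
      congr 1
      funext i
      simp [collect]
    · rw [if_neg h, List.findSome?_eq_none_iff]
      intro i _
      have h2 : (P' : ℕ) ≠ P := fun h' => h (Fin.ext h')
      simp [collect, h2]
  have h3 := OVT.findSome_unique (fun P' : Fin (2 * n) => if P' = P then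
        some (Sum.inr ((collect hn (k' + 1) enc dec).newState t z P') : Word d) else none) P
    (fun l hl => if_neg hl.ne) (by simp)
  simp only [h1]
  rw [h3, if_pos rfl]
  rfl

theorem upper_collect (n d k T : ℕ) (hn : 1 ≤ n) (hk : 1 ≤ k) (hT : 2 * n ≤ (k + 1) ^ T) :
    ∃ A : Machine n d (2 * n) k, ∀ x : Input n d, A.CorrectOn (T + 1) x := by
  classical
  obtain ⟨code, hcode⟩ := Countable.exists_injective_nat (Info n d)
  obtain ⟨dec, hdec0⟩ : ∃ dec : ℕ → Info n d, ∀ i, dec (code i) = i :=
    ⟨Function.invFun code, Function.leftInverse_invFun hcode⟩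
  refine ⟨collect hn k code dec, fun x => ?_⟩
  obtain ⟨A, hA⟩ : ∃ A, A = collect hn k code dec := ⟨_, rfl⟩
  have hcont : ∀ t z (P : Fin (2 * n)), A.newContent t z (Sum.inr (P : ℕ)) =
      Sum.inr (A.newState t z P) := by
    rw [hA]
    exact collect_content hn hk code dec
  have inv : ∀ t, ∀ P : Fin (2 * n), ∃ S : Set (Pos n),
      (∀ j < (k + 1) ^ t, pos hn (P + j) ∈ S) ∧ (A.run x (t + 1)).1 P = code (know x S) ∧
      (A.run x (t + 1)).2 (Sum.inr (P : ℕ)) = Sum.inr (code (know x S)) := by
    intro t
    induction t with
    | zero =>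
      intro P
      refine ⟨{pos hn P}, ?_, ?_⟩
      · intro j hj
        have : j = 0 := by simpa using hj
        subst this
        simp
      have h1 : ∀ i, A.stateAfter 0 P (A.run x 0).2 0 (i + 1) = code (know x {pos hn P}) := by
        intro i
        subst hA
        show code (fun q => if q = pos hn P then some (x (pos hn P)) else none) = _
        congr 1
        funext q
        unfold know
        by_cases hq : q = pos hn P
        · rw [if_pos hq, if_pos (Set.mem_singleton_iff.2 hq), hq]
        · rw [if_neg hq, if_neg fun h => hq (Set.mem_singleton_iff.1 h)]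
      have h2 : A.newState 0 (A.run x 0) P = code (know x {pos hn P}) := by
        obtain ⟨k', rfl⟩ : ∃ k', k = k' + 1 := ⟨k - 1, by omega⟩
        exact h1 k'
      exact ⟨h2, (hcont _ _ P).trans (by rw [h2])⟩
    | succ t ih =>
      intro P
      have h1 : ∀ i ≤ k, ∃ S : Set (Pos n), (∀ j < (i + 1) * (k + 1) ^ t, pos hn (P + j) ∈ S) ∧
          A.stateAfter (t + 1) P (A.run x (t + 1)).2 ((A.run x (t + 1)).1 P) i =
            code (know x S) := by
        intro i
        induction i with
        | zero =>
          intro _
          obtain ⟨S, h2, h3, -⟩ := ih P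
          refine ⟨S, fun j hj => h2 j (by simpa using hj), h3⟩
        | succ i ihi =>
          intro hi
          obtain ⟨S, h2, h3⟩ := ihi (by omega)
          obtain ⟨S', h4, -, h5⟩ := ih ⟨(P + (i + 1) * (k + 1) ^ t) % (2 * n),
            Nat.mod_lt _ (by omega)⟩
          refine ⟨S ∪ S', ?_, ?_⟩
          · intro j hj
            rcases Nat.lt_or_ge j ((i + 1) * (k + 1) ^ t) with h6 | h6
            · exact Or.inl (h2 j h6)
            · right
              obtain ⟨j', rfl⟩ : ∃ j', j = (i + 1) * (k + 1) ^ t + j' :=
                ⟨j - (i + 1) * (k + 1) ^ t, by omega⟩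
              have h7 := h4 j' (by rw [Nat.succ_mul (i + 1)] at hj; omega)
              rw [pos_mod] at h7
              rw [← Nat.add_assoc]
              exact h7
          · rw [← merge_know]
            show A.next (t + 1) i P (A.stateAfter (t + 1) P _ _ i)
              ((A.run x (t + 1)).2 (A.read (t + 1) i P (A.stateAfter (t + 1) P _ _ i))) = _
            rw [h3]
            have h8 : A.read (t + 1) i P (code (know x S)) =
                Sum.inr ((P + (i + 1) * (k + 1) ^ t) % (2 * n)) := by
              subst hA
              rfl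
            rw [h8]
            have h9 : (A.run x (t + 1)).2 (Sum.inr ((P + (i + 1) * (k + 1) ^ t) % (2 * n))) =
                Sum.inr (code (know x S')) := h5
            rw [h9]
            subst hA
            show code (merge (dec (code (know x S))) (dec (code (know x S')))) = _
            rw [hdec0, hdec0]
      obtain ⟨S, h2, h3⟩ := h1 k le_rfl
      refine ⟨S, ?_, h3, ?_⟩
      · intro j hj
        exact h2 j (by rw [pow_succ'] at hj; exact hj)
      · exact (hcont _ _ P).trans (congrArg Sum.inr h3)
  obtain ⟨S, h1, -, h2⟩ := inv T ⟨0, by omega⟩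
  have h3 : know x S = fun q => some (x q) := by
    funext q
    obtain ⟨m, hm, rfl⟩ := pos_surj hn q
    have h4 := h1 m (lt_of_lt_of_le hm hT)
    simp only [zero_add] at h4
    exact if_pos h4
  have h5 : (A.run x (T + 1)).2 A.output = Sum.inr (code fun q => some (x q)) := by
    rw [← h3, ← h2, hA]
    rfl
  unfold Machine.CorrectOn Machine.Accepts
  rw [← hA, h5, hA]
  show decide (∃ (m : ℕ) (x' : Input n d), (Sum.inr (code fun q => some (x q)) : Word d) =
    Sum.inr m ∧ dec m = (fun q => some (x' q)) ∧ HasOrthogonalPair x') = true ↔ _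
  rw [decide_eq_true_iff]
  constructor
  · rintro ⟨m, x', h6, h7, h8⟩
    rw [← Sum.inr_injective h6, hdec0] at h7
    have h9 : x = x' := by
      funext q
      exact Option.some_injective _ (congrFun h7 q)
    rw [h9]
    exact h8
  · intro h6
    exact ⟨_, x, rfl, hdec0 _, h6⟩

/-- **The Orthogonal Vectors hypothesis for parallel machines with few rounds.** -/
theorem result :
    (∀ ε : ℝ, 0 < ε → ∃ (K : ℕ) (δ : ℝ), 0 < δ ∧ ∃ n₀ : ℕ, ∀ n d p k T : ℕ, n₀ ≤ n →
      K * Nat.clog 2 n ≤ d → 1 ≤ k → 1 ≤ T →
      ((k * Nat.log 2 n : ℕ) : ℝ) ^ T ≤ (n : ℝ) ^ δ → ∀ μ : PMF (Machine n d p k),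
        (∀ x : Input n d, IsValid x →
          (2 / 3 : ENNReal) ≤ μ.toOuterMeasure {A | A.CorrectOn T x}) →
        (n : ℝ) ^ (2 - ε) ≤ p) ∧
    (∀ n d : ℕ, ∃ A : Machine n d (n * n) 1, ∀ x : Input n d, A.CorrectOn 2 x) ∧
    (∀ n d k T : ℕ, 1 ≤ n → 1 ≤ k → 2 * n ≤ (k + 1) ^ T →
      ∃ A : Machine n d (2 * n) k, ∀ x : Input n d, A.CorrectOn (T + 1) x) :=
  ⟨lower, upper_pairs, upper_collect⟩

end Pool.Agent.Results.MP_0f984e_lc.ParallelRounds
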