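import Mathlib
import Pool.Agent.H58.PM.Vc
import Pool.Agent.H58.PM.Count
import Pool.Agent.H58.PM.Terms
import Pool.Agent.H58.PM.Layout
import Pool.Agent.H58.PM.Avg
import Pool.Agent.H58.PM.UpCount
import Pool.Agent.H58.PM.UpDeg
import Pool.Agent.H58.PM.UpChern
import Pool.Agent.H58.PM.UpNum

set_option autoImplicit false

namespace Pool.Agent.Results.MP_0f984e_lc.PolynomialMethod

/-! ### Orthogonal Vectors -/

/-- Positions of the `2n` input vectors: `(false, i)` is the `i`-th vector of `A`, and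
`(true, j)` is the `j`-th vector of `B`. -/
abbrev Pos (n : ℕ) : Type := Bool × Fin n

/-- Vectors in `{0,1}^d`. -/
abbrev Vec (d : ℕ) : Type := Fin d → Bool

/-- An input: `n` vectors of `A` and `n` vectors of `B`, all in `{0,1}^d`. -/
abbrev Input (n d : ℕ) : Type := Pos n → Vec d

/-- Valid inputs: each of the two sets is listed in strictly increasing lexicographic order (so
each consists of exactly `n` distinct vectors, written in the canonical order). -/
def IsValid {n d : ℕ} (x : Input n d) : Prop :=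
  StrictMono (fun i : Fin n => toLex (x (false, i))) ∧
  StrictMono (fun j : Fin n => toLex (x (true, j)))

/-- The answer to the Orthogonal Vectors question: some vector of `A` and some vector of `B` have
inner product `0` over the integers. -/
def HasOrthogonalPair {n d : ℕ} (x : Input n d) : Prop :=
  ∃ i j : Fin n, ∑ k : Fin d, (x (false, i) k).toNat * (x (true, j) k).toNat = 0

/-! ### The polynomial method -/

/-- The admissible tests of a number `v` of the field `F`: whether `v` is nonzero; whether `v` is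
positive, for some ordering of the field `F`; and, if `F` has at most `2 ^ w` elements, every
test. -/
def IsTest {F : Type} [Field F] (w : ℕ) (R : F → Prop) : Prop :=
  (∀ v, R v ↔ v ≠ 0) ∨
  (∃ (_ : LinearOrder F) (_ : IsStrictOrderedRing F), ∀ v, R v ↔ 0 < v) ∨
  (Finite F ∧ Nat.card F ≤ 2 ^ w)

/-- A partition of the positions of the list `A` into `pA` groups, and of the positions of the
list `B` into `pB` groups. -/
structure Partition (n pA pB : ℕ) where
  /-- the group of a position of `A` -/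
  groupA : Fin n → Fin pA
  /-- the group of a position of `B` -/
  groupB : Fin n → Fin pB

/-- An algorithm of the polynomial method over the field `F` with inner dimension `m` and `q`
tests for every pair of groups. For every group `I` of `A` there are `m` features; each is a
conjunction of literals: it is `1` if, for all `(i, k, s)` in `lits I l`, the bit `k` of the
vector `i` of the group has the value `s`, and `0` otherwise. For every group `J` of `B` and every
`j` there are `m` weights, which depend in an arbitrary way on the vectors of the group `J`. The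
algorithm computes the matrix product `∑_l feature * weight`, applies tests to the entries, and
the outcomes of the `q` tests for the pair `(I, J)` decide in an arbitrary way whether the pair
`(I, J)` is accepted. -/
structure Algorithm (F : Type) [Field F] (n d m q w pA pB : ℕ) (P : Partition n pA pB) where
  /-- the literals of the features of the groups of `A` -/
  lits : Fin pA → Fin m → Finset (Fin n × Fin d × Bool)
  /-- the features of a group read only vectors of this group -/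
  lits_group : ∀ I l, ∀ t ∈ lits I l, P.groupA t.1 = I
  /-- the weights of the groups of `B` -/
  weight : Fin pB → Fin q → Fin m → (Fin n → Vec d) → F
  /-- the weights of a group depend only on the vectors of this group -/
  weight_group : ∀ (J : Fin pB) (j : Fin q) (l : Fin m) (y y' : Fin n → Vec d),
    (∀ i, P.groupB i = J → y i = y' i) → weight J j l y = weight J j l y'
  /-- the tests -/
  test : Fin pA → Fin pB → Fin q → F → Prop
  /-- the tests are admissible -/
  isTest : ∀ I J j, IsTest w (test I J j)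
  /-- the decision for a pair of groups -/
  decide : Fin pA → Fin pB → (Fin q → Prop) → Prop

variable {F : Type} [Field F] {n d m q w pA pB : ℕ} {P : Partition n pA pB}

open Classical in
/-- The value of a feature. -/
noncomputable def Algorithm.feature (C : Algorithm F n d m q w pA pB P) (I : Fin pA) (l : Fin m)
    (x : Input n d) : F :=
  if ∀ t ∈ C.lits I l, x (false, t.1) t.2.1 = t.2.2 then 1 else 0

/-- The entry of the `j`-th matrix product for the pair `(I, J)` of groups. -/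
noncomputable def Algorithm.entry (C : Algorithm F n d m q w pA pB P) (I : Fin pA) (J : Fin pB)
    (j : Fin q) (x : Input n d) : F :=
  ∑ l : Fin m, C.feature I l x * C.weight J j l (fun i => x (true, i))

/-- The algorithm answers yes if some pair of groups is accepted. -/
def Algorithm.Accepts (C : Algorithm F n d m q w pA pB P) (x : Input n d) : Prop :=
  ∃ I J, C.decide I J (fun j => C.test I J j (C.entry I J j x))

/-- The algorithm answers the Orthogonal Vectors question correctly on input `x`. -/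
def Algorithm.CorrectOn (C : Algorithm F n d m q w pA pB P) (x : Input n d) : Prop :=
  C.Accepts x ↔ HasOrthogonalPair x

/-! ### The hard inputs -/

open Pool.Agent.H58.PM

section hard

variable {k D L : ℕ}

/-- Data bits as a function of the number of the coordinate. -/
noncomputable def dat (f : (Fin k × Bool) × Fin D → Bool) :
    Fin (Fintype.card ((Fin k × Bool) × Fin D)) → Bool :=
  fun e => f ((Fintype.equivFin _).symm e)

/-- The vectors of `A`. -/
noncomputable def vecA (d : ℕ) (code : Fin n → Fin L → Bool) (θ : Res (Fin k × Bool) D)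
    (u : Fin k → Bool) (i : Fin n) : Vec d :=
  if i.1 = 0 then lay d false (fun _ : Fin L => false) true (dat (encA θ u))
  else lay d true (code i) false (dat fun _ : (Fin k × Bool) × Fin D => false)

open Classical in
/-- The vectors of `B`. -/
noncomputable def vecB (d : ℕ) (code : Fin n → Fin L → Bool) (pos : (Fin k → Bool) → Fin n)
    (θ : Res (Fin k × Bool) D) (G : Finset (Fin k → Bool)) (i : Fin n) : Vec d :=
  lay d true (code i) (decide (¬ ∃ v ∈ G, pos v = i))
    (dat fun x => decide (∃ v, pos v = i ∧ encB θ v x = true))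

/-- The hard input. -/
noncomputable def inst (d : ℕ) (code : Fin n → Fin L → Bool) (pos : (Fin k → Bool) → Fin n)
    (θ : Res (Fin k × Bool) D) (u : Fin k → Bool) (G : Finset (Fin k → Bool)) : Input n d :=
  fun p => if p.1 = false then vecA d code θ u p.2 else vecB d code pos θ G p.2

variable {code : Fin n → Fin L → Bool} {pos : (Fin k → Bool) → Fin n}

theorem inst_valid (hcode : ∀ i j, i < j →
      ∃ k : Fin L, (∀ l < k, code i l = code j l) ∧ code i k = false ∧ code j k = true)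
    (hd : L + 2 + Fintype.card ((Fin k × Bool) × Fin D) ≤ d)
    (θ : Res (Fin k × Bool) D) (u : Fin k → Bool) (G : Finset (Fin k → Bool)) :
    IsValid (inst d code pos θ u G) := by
  constructor
  · intro i i' hii'
    have hi' : ¬ (i'.1 = 0) := by
      have : i.1 < i'.1 := hii'
      omega
    show toLex (vecA d code θ u i) < toLex (vecA d code θ u i')
    unfold vecA
    rw [if_neg hi']
    by_cases hi : i.1 = 0
    · rw [if_pos hi]
      exact lay_lt_lead (by omega) _ _ _ _ _ _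
    · rw [if_neg hi]
      exact lay_lt_cnt hd _ _ _ _ _ _ _ (hcode i i' hii')
  · intro i i' hii'
    show toLex (vecB d code pos θ G i) < toLex (vecB d code pos θ G i')
    unfold vecB
    exact lay_lt_cnt hd _ _ _ _ _ _ _ (hcode i i' hii')

theorem inst_orth (hn : 0 < n) (hpos : Function.Injective pos)
    (hd : L + 2 + Fintype.card ((Fin k × Bool) × Fin D) ≤ d)
    (θ : Res (Fin k × Bool) D) (u : Fin k → Bool) (G : Finset (Fin k → Bool)) :
    HasOrthogonalPair (inst d code pos θ u G) ↔ u ∈ G := by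
  classical
  unfold HasOrthogonalPair
  simp only [sum_toNat_eq_zero_iff]
  constructor
  · rintro ⟨i, i', h⟩
    change ∀ x : Fin d, ¬ (vecA d code θ u i x = true ∧ vecB d code pos θ G i' x = true) at h
    unfold vecA vecB at h
    by_cases hi : i.1 = 0
    · simp only [hi, if_true] at h
      obtain ⟨-, -, h3, h4⟩ := (lay_orth hd _ _ _ _ _ _ _ _).1 h
      have h5 : ∃ v ∈ G, pos v = i' := by
        by_contra hcon
        exact h3 ⟨rfl, decide_eq_true hcon⟩
      obtain ⟨v, hv, rfl⟩ := h5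
      have h6 : u = v := by
        rw [← encA_encB θ u v]
        rintro x ⟨hx1, hx2⟩
        apply h4 (Fintype.equivFin _ x)
        unfold dat
        rw [Equiv.symm_apply_apply]
        exact ⟨hx1, decide_eq_true ⟨v, rfl, hx2⟩⟩
      rw [h6]; exact hv
    · simp only [hi, if_false] at h
      exact absurd ⟨rfl, rfl⟩ ((lay_orth hd _ _ _ _ _ _ _ _).1 h).1
  · intro hu
    refine ⟨⟨0, hn⟩, pos u, ?_⟩
    change ∀ x : Fin d, ¬ (vecA d code θ u ⟨0, hn⟩ x = true ∧ vecB d code pos θ G (pos u) x = true)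
    unfold vecA vecB
    simp only [if_true]
    rw [lay_orth hd]
    refine ⟨fun h => absurd h.1 (by simp), fun l h => absurd h.1 (by simp), ?_, ?_⟩
    · rintro ⟨-, h⟩
      exact (of_decide_eq_true h) ⟨u, hu, rfl⟩
    · rintro e ⟨h1, h2⟩
      unfold dat at h1 h2
      obtain ⟨v, hv, hv2⟩ := of_decide_eq_true h2
      rw [hpos hv] at hv2
      exact (encA_encB θ u u).2 rfl _ ⟨h1, hv2⟩

/-! ### The algorithm on the hard inputs -/

/-- The acceptance of a pair of groups. -/
def Algorithm.Acc (C : Algorithm F n d m q w pA pB P) (I : Fin pA) (J : Fin pB)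
    (x : Input n d) : Prop :=
  C.decide I J (fun j => C.test I J j (C.entry I J j x))

theorem feature_congr (C : Algorithm F n d m q w pA pB P) (I : Fin pA) (l : Fin m)
    {x x' : Input n d} (h : ∀ i, P.groupA i = I → x (false, i) = x' (false, i)) :
    C.feature I l x = C.feature I l x' := by
  unfold Algorithm.feature
  have h1 : (∀ t ∈ C.lits I l, x (false, t.1) t.2.1 = t.2.2) ↔
      ∀ t ∈ C.lits I l, x' (false, t.1) t.2.1 = t.2.2 := by
    constructor
    · intro h2 t ht
      rw [← h t.1 (C.lits_group I l t ht)]; exact h2 t ht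
    · intro h2 t ht
      rw [h t.1 (C.lits_group I l t ht)]; exact h2 t ht
  simp only [h1]

theorem entry_congr (C : Algorithm F n d m q w pA pB P) (I : Fin pA) (J : Fin pB) (j : Fin q)
    {x x' : Input n d} (h : ∀ i, P.groupA i = I → x (false, i) = x' (false, i))
    (h' : ∀ i, P.groupB i = J → x (true, i) = x' (true, i)) :
    C.entry I J j x = C.entry I J j x' := by
  unfold Algorithm.entry
  apply Finset.sum_congr rfl
  intro l _
  rw [feature_congr C I l h, C.weight_group J j l _ _ h']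

theorem acc_congr (C : Algorithm F n d m q w pA pB P) (I : Fin pA) (J : Fin pB)
    {x x' : Input n d} (h : ∀ i, P.groupA i = I → x (false, i) = x' (false, i))
    (h' : ∀ i, P.groupB i = J → x (true, i) = x' (true, i)) :
    C.Acc I J x ↔ C.Acc I J x' := by
  unfold Algorithm.Acc
  simp only [entry_congr C I J _ h h']

theorem accepts_iff (C : Algorithm F n d m q w pA pB P) (hn : 0 < n) (J0 : Fin pB)
    (hJ0 : ∀ v, P.groupB (pos v) = J0) (θ : Res (Fin k × Bool) D) (u : Fin k → Bool)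
    (G : Finset (Fin k → Bool)) :
    C.Accepts (inst d code pos θ u G) ↔
      (∃ I ≠ P.groupA ⟨0, hn⟩, ∃ J, C.Acc I J (inst d code pos θ (fun _ => false) G)) ∨
      (∃ J ≠ J0, C.Acc (P.groupA ⟨0, hn⟩) J (inst d code pos θ u ∅)) ∨
      C.Acc (P.groupA ⟨0, hn⟩) J0 (inst d code pos θ u G) := by
  have h1 : ∀ I ≠ P.groupA ⟨0, hn⟩, ∀ J, (C.Acc I J (inst d code pos θ u G) ↔
      C.Acc I J (inst d code pos θ (fun _ => false) G)) := by
    intro I hI J
    apply acc_congr
    · intro i hi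
      have h2 : ¬ i.1 = 0 := by
        intro h3
        apply hI
        rw [← hi]
        congr 1
        exact Fin.ext h3
      show vecA d code θ u i = vecA d code θ (fun _ => false) i
      unfold vecA
      rw [if_neg h2, if_neg h2]
    · intro i _
      rfl
  have h2 : ∀ J ≠ J0, (C.Acc (P.groupA ⟨0, hn⟩) J (inst d code pos θ u G) ↔
      C.Acc (P.groupA ⟨0, hn⟩) J (inst d code pos θ u ∅)) := by
    intro J hJ
    apply acc_congr
    · intro i _
      rfl
    · intro i hi
      show vecB d code pos θ G i = vecB d code pos θ ∅ i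
      unfold vecB
      have h3 : ¬ ∃ v ∈ G, pos v = i := by
        rintro ⟨v, _, rfl⟩
        exact hJ (hi.symm.trans (hJ0 v))
      have h4 : ¬ ∃ v ∈ (∅ : Finset (Fin k → Bool)), pos v = i := by simp
      simp only [h3, h4]
  constructor
  · rintro ⟨I, J, h⟩
    by_cases hI : I = P.groupA ⟨0, hn⟩
    · subst hI
      by_cases hJ : J = J0
      · subst hJ
        exact Or.inr (Or.inr h)
      · exact Or.inr (Or.inl ⟨J, hJ, (h2 J hJ).1 h⟩)
    · exact Or.inl ⟨I, hI, J, (h1 I hI J).1 h⟩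
  · rintro (⟨I, hI, J, h⟩ | ⟨J, hJ, h⟩ | h)
    · exact ⟨I, J, (h1 I hI J).2 h⟩
    · exact ⟨_, J, (h2 J hJ).2 h⟩
    · exact ⟨_, J0, h⟩

end hard

/-! ### Features under restrictions -/

section feat

variable {k D L : ℕ} {code : Fin n → Fin L → Bool} {pos : (Fin k → Bool) → Fin n}

open Classical in
/-- The literals of a feature at the data coordinates of the vector at position `0`. -/
noncomputable def dlits (C : Algorithm F n d m q w pA pB P) (hn : 0 < n)
    (hd : L + 2 + Fintype.card ((Fin k × Bool) × Fin D) ≤ d) (l : Fin m) :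
    Finset (((Fin k × Bool) × Fin D) × Bool) :=
  Finset.univ.filter fun t => ((⟨0, hn⟩ : Fin n),
    (⟨L + 2 + (Fintype.equivFin _ t.1).1, by
      have := (Fintype.equivFin _ t.1).2
      omega⟩ : Fin d), t.2) ∈ C.lits (P.groupA ⟨0, hn⟩) l

/-- The base vectors of `A`, without data. -/
def vecA0 (d : ℕ) {L : ℕ} (code : Fin n → Fin L → Bool) (i : Fin n) : Vec d :=
  if i.1 = 0 then lay d false (fun _ : Fin L => false) true (fun _ : Fin 0 => false)
  else lay d true (code i) false (fun _ : Fin 0 => false)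

theorem lay_nodat (c0 : Bool) (cnt : Fin L → Bool) (fl : Bool) {M : ℕ}
    (dt : Fin M → Bool) (x : Fin d) (hx : (∀ e : Fin M, x.1 ≠ L + 2 + e.1) ∨ ∀ e, dt e = false) :
    lay d c0 cnt fl dt x = lay d c0 cnt fl (fun _ : Fin 0 => false) x := by
  unfold lay
  by_cases h1 : x.1 = 0
  · rw [if_pos h1, if_pos h1]
  rw [if_neg h1, if_neg h1]
  by_cases h2 : x.1 - 1 < L
  · rw [dif_pos h2, dif_pos h2]
  rw [dif_neg h2, dif_neg h2]
  by_cases h3 : x.1 = L + 1
  · rw [if_pos h3, if_pos h3]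
  rw [if_neg h3, if_neg h3, dif_neg (Nat.not_lt_zero _)]
  by_cases h4 : x.1 - (L + 2) < M
  · rw [dif_pos h4]
    rcases hx with hx | hx
    · exact absurd (show x.1 = L + 2 + (x.1 - (L + 2)) by omega) (hx ⟨x.1 - (L + 2), h4⟩)
    · exact hx _
  · rw [dif_neg h4]

theorem feature_inst (C : Algorithm F n d m q w pA pB P) (hn : 0 < n)
    (hd : L + 2 + Fintype.card ((Fin k × Bool) × Fin D) ≤ d) (l : Fin m) :
    ∃ K : Prop, ∀ (θ : Res (Fin k × Bool) D) (u : Fin k → Bool) (G : Finset (Fin k → Bool)),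
      (∀ t ∈ C.lits (P.groupA ⟨0, hn⟩) l, inst d code pos θ u G (false, t.1) t.2.1 = t.2.2) ↔
        K ∧ ∀ t ∈ dlits C hn hd l, encA θ u t.1 = t.2 := by
  classical
  refine ⟨∀ t ∈ C.lits (P.groupA ⟨0, hn⟩) l, ¬ (t.1.1 = 0 ∧
    ∃ e : Fin (Fintype.card ((Fin k × Bool) × Fin D)), t.2.1.1 = L + 2 + e.1) →
      vecA0 d code t.1 t.2.1 = t.2.2, ?_⟩
  intro θ u G
  constructor
  · intro h
    constructor
    · rintro ⟨i, x, s⟩ ht hnot
      have h1 : vecA d code θ u i x = s := h _ ht
      simp only at hnot ⊢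
      rw [← h1]
      unfold vecA vecA0
      by_cases hi : i.1 = 0
      · rw [if_pos hi, if_pos hi]
        symm
        apply lay_nodat
        left
        intro e he
        exact hnot ⟨hi, e, he⟩
      · rw [if_neg hi, if_neg hi]
        symm
        apply lay_nodat
        right
        intro e
        rfl
    · intro t ht
      have h1 := (Finset.mem_filter.1 ht).2
      have h2 := h _ h1
      change vecA d code θ u ⟨0, hn⟩ _ = t.2 at h2
      unfold vecA at h2
      simp only [if_true] at h2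
      rw [lay_dat hd] at h2
      unfold dat at h2
      rwa [Equiv.symm_apply_apply] at h2
  · rintro ⟨hK, hE⟩ ⟨i, x, s⟩ ht
    show vecA d code θ u i x = s
    by_cases hc : i.1 = 0 ∧
      ∃ e : Fin (Fintype.card ((Fin k × Bool) × Fin D)), x.1 = L + 2 + e.1
    · obtain ⟨hi, e, he⟩ := hc
      have hi' : i = ⟨0, hn⟩ := Fin.ext hi
      subst hi'
      have hlt : L + 2 + e.1 < d := by
        have := e.2
        omega
      have hx : x = ⟨L + 2 + e.1, hlt⟩ := Fin.ext he
      subst hx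
      unfold vecA
      simp only [if_true]
      rw [lay_dat hd]
      unfold dat
      apply hE ((Fintype.equivFin _).symm e, s)
      unfold dlits
      rw [Finset.mem_filter]
      refine ⟨Finset.mem_univ _, ?_⟩
      simp only [Equiv.apply_symm_apply]
      exact ht
    · have hb := hK (i, x, s) ht hc
      simp only at hb
      rw [← hb]
      unfold vecA vecA0
      by_cases hi : i.1 = 0
      · rw [if_pos hi, if_pos hi]
        apply lay_nodat
        left
        intro e he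
        exact hc ⟨hi, e, he⟩
      · rw [if_neg hi, if_neg hi]
        apply lay_nodat
        right
        intro e
        rfl

open Classical in
/-- The entries for the relevant pair of groups are combinations of few conjunctions. -/
theorem entry_inst (C : Algorithm F n d m q w pA pB P) (hn : 0 < n)
    (hd : L + 2 + Fintype.card ((Fin k × Bool) × Fin D) ≤ d) (t : ℕ) (J : Fin pB) (j : Fin q)
    (θ : Res (Fin k × Bool) D) (hθ : ∀ l, ¬ Bad (dlits C hn hd l) t θ)
    (G : Finset (Fin k → Bool)) :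
    ∃ c : {τ : Fin k → Option Bool // size τ ≤ t} → F, ∀ u : Fin k → Bool,
      C.entry (P.groupA ⟨0, hn⟩) J j (inst d code pos θ u G) =
        ∑ τ, c τ * (if Val τ.1 u then 1 else 0) := by
  have h1 : ∀ l : Fin m, ∃ c : {τ : Fin k → Option Bool // size τ ≤ t} → F, ∀ u : Fin k → Bool,
      C.feature (P.groupA ⟨0, hn⟩) l (inst d code pos θ u G) =
        ∑ τ, c τ * (if Val τ.1 u then 1 else 0) := by
    intro l
    obtain ⟨K, hK⟩ := feature_inst (code := code) (pos := pos) C hn hd l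
    have hzero : (∀ u, ¬ (K ∧ ∀ x ∈ dlits C hn hd l, encA θ u x.1 = x.2)) →
        ∃ c : {τ : Fin k → Option Bool // size τ ≤ t} → F, ∀ u : Fin k → Bool,
      C.feature (P.groupA ⟨0, hn⟩) l (inst d code pos θ u G) =
        ∑ τ, c τ * (if Val τ.1 u then 1 else 0) := by
      intro h
      refine ⟨fun _ => 0, fun u => ?_⟩
      unfold Algorithm.feature
      rw [if_neg (fun h2 => h u ((hK θ u G).1 h2))]
      simp
    by_cases hKK : K
    · rcases exists_term _ θ t (hθ l) with h | ⟨τ, hτ, h⟩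
      · exact hzero fun u hu => h u hu.2
      · refine ⟨fun τ' => if τ' = ⟨τ, hτ⟩ then 1 else 0, fun u => ?_⟩
        unfold Algorithm.feature
        have h2 : (∀ t ∈ C.lits (P.groupA ⟨0, hn⟩) l,
            inst d code pos θ u G (false, t.1) t.2.1 = t.2.2) ↔ Val τ u := by
          rw [hK θ u G, h u]
          exact ⟨fun h3 => h3.2, fun h3 => ⟨hKK, h3⟩⟩
        simp only [h2, ite_mul, one_mul, zero_mul, Finset.sum_ite_eq', Finset.mem_univ, if_true]
    · exact hzero fun u hu => hKK hu.1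
  choose c hc using h1
  refine ⟨fun τ => ∑ l, c l τ * C.weight J j l (fun i => vecB d code pos θ G i), fun u => ?_⟩
  unfold Algorithm.entry
  have h2 : ∀ l, C.feature (P.groupA ⟨0, hn⟩) l (inst d code pos θ u G) *
      C.weight J j l (fun i => inst d code pos θ u G (true, i)) =
      ∑ τ : {τ : Fin k → Option Bool // size τ ≤ t},
        c l τ * C.weight J j l (fun i => vecB d code pos θ G i) *
          (if Val τ.1 u then 1 else 0) := by
    intro l
    rw [hc l u, Finset.sum_mul]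
    apply Finset.sum_congr rfl
    intro τ _
    have h3 : (fun i => inst d code pos θ u G (true, i)) = fun i => vecB d code pos θ G i := rfl
    rw [h3]
    ring
  simp_rw [h2]
  rw [Finset.sum_comm]
  apply Finset.sum_congr rfl
  intro τ _
  rw [Finset.sum_mul]

end feat

/-! ### Counting -/

section count

variable {j D L : ℕ} {code : Fin n → Fin L → Bool} {pos : (Fin (8 * j) → Bool) → Fin n}

open Classical in
theorem card_family {α ι : Type} [Fintype α] [Fintype ι] (R : F → Prop) (hR : IsTest w R)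
    (φ : ι → α → F) {N0 : ℕ} (hα : Fintype.card α + 1 ≤ 2 ^ N0) (𝒜 : Finset (Finset α))
    (h𝒜 : ∀ S ∈ 𝒜, ∃ c : ι → F, ∀ x, x ∈ S ↔ R (∑ i, c i * φ i x)) :
    𝒜.card ≤ 2 ^ (max N0 w * Fintype.card ι) := by
  have h1 : (Fintype.card α + 1) ^ Fintype.card ι ≤ 2 ^ (max N0 w * Fintype.card ι) := by
    rw [pow_mul]
    exact Nat.pow_le_pow_left (hα.trans (Nat.pow_le_pow_right (by norm_num) (le_max_left _ _))) _
  rcases hR with h | ⟨hO, hS, h⟩ | ⟨hF, h⟩
  · refine (card_ne φ 𝒜 fun S hS => ?_).trans h1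
    obtain ⟨c, hc⟩ := h𝒜 S hS
    exact ⟨c, fun x => (hc x).trans (h _)⟩
  · refine (card_pos' φ 𝒜 fun S hS => ?_).trans h1
    obtain ⟨c, hc⟩ := h𝒜 S hS
    exact ⟨c, fun x => (hc x).trans (h _)⟩
  · refine (card_fin φ R 𝒜 h𝒜).trans ?_
    rw [pow_mul]
    exact Nat.pow_le_pow_left (h.trans (Nat.pow_le_pow_right (by norm_num) (le_max_right _ _))) _

open Classical in
theorem good_theta (C : Algorithm F n d m q w pA pB P) (hn : 0 < n) (hj : 1 ≤ j)
    (hd : L + 2 + Fintype.card ((Fin (8 * j) × Bool) × Fin D) ≤ d) (J0 : Fin pB)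
    (hJ0 : ∀ v, P.groupB (pos v) = J0) (hpos : Function.Injective pos)
    (θ : Res (Fin (8 * j) × Bool) D) (hθ : ∀ l, ¬ Bad (dlits C hn hd l) j θ) :
    (∑ G : Finset (Fin (8 * j) → Bool),
      ((Finset.univ.filter fun u => C.CorrectOn (inst d code pos θ u G)).card : ℝ)) ≤
    2 ^ 2 ^ (8 * j) * 2 ^ (8 * j) *
      (5 / 8 + (2 * (2 ^ (max (8 * j + 1) w * 64 ^ j)) ^ q) / 2 ^ 2 ^ (8 * j - 5)) := by
  set I0 := P.groupA ⟨0, hn⟩ with hI0
  let φ : {τ : Fin (8 * j) → Option Bool // size τ ≤ j} → (Fin (8 * j) → Bool) → F :=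
    fun τ u => if Val τ.1 u then 1 else 0
  let 𝒜 : Fin q → Finset (Finset (Fin (8 * j) → Bool)) := fun j' =>
    Finset.univ.filter fun S =>
      ∃ c : {τ : Fin (8 * j) → Option Bool // size τ ≤ j} → F,
        ∀ x, x ∈ S ↔ C.test I0 J0 j' (∑ τ, c τ * φ τ x)
  let ψ : (Fin (8 * j) → Bool) → Prop := fun u =>
    ∃ J ≠ J0, C.Acc I0 J (inst d code pos θ u ∅)
  let ℱ : Finset (Finset (Fin (8 * j) → Bool)) :=
    ((Finset.univ : Finset Bool) ×ˢ Fintype.piFinset 𝒜).image
      (fun x => Finset.univ.filter fun u =>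
        x.1 = true ∨ ψ u ∨ C.decide I0 J0 (fun j' => u ∈ x.2 j'))
  let p : Finset (Fin (8 * j) → Bool) → Finset (Fin (8 * j) → Bool) := fun G =>
    Finset.univ.filter fun u => C.Accepts (inst d code pos θ u G)
  have hcardα : Fintype.card (Fin (8 * j) → Bool) = 2 ^ (8 * j) := by simp
  have h𝒜 : ∀ j', (𝒜 j').card ≤ 2 ^ (max (8 * j + 1) w * 64 ^ j) := by
    intro j'
    refine (card_family (C.test I0 J0 j') (C.isTest I0 J0 j') φ (N0 := 8 * j + 1) ?_ (𝒜 j')
      fun S hS => (Finset.mem_filter.1 hS).2).trans ?_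
    · rw [hcardα, pow_succ]
      have : 1 ≤ 2 ^ (8 * j) := Nat.one_le_two_pow
      omega
    · exact Nat.pow_le_pow_right (by norm_num) (Nat.mul_le_mul_left _ (card_terms j))
  have hℱ : ℱ.card ≤ 2 * (2 ^ (max (8 * j + 1) w * 64 ^ j)) ^ q := by
    refine Finset.card_image_le.trans ?_
    rw [Finset.card_product, Finset.card_univ, Fintype.card_bool, Fintype.card_piFinset]
    apply Nat.mul_le_mul_left
    calc ∏ j', (𝒜 j').card ≤ ∏ _j' : Fin q, 2 ^ (max (8 * j + 1) w * 64 ^ j) :=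
          Finset.prod_le_prod' fun j' _ => h𝒜 j'
      _ = _ := by rw [Finset.prod_const, Finset.card_univ, Fintype.card_fin]
  have hp : ∀ G, p G ∈ ℱ := by
    intro G
    rw [Finset.mem_image]
    refine ⟨(decide (∃ I ≠ I0, ∃ J, C.Acc I J (inst d code pos θ (fun _ => false) G)),
      fun j' => Finset.univ.filter fun u =>
        C.test I0 J0 j' (C.entry I0 J0 j' (inst d code pos θ u G))), ?_, ?_⟩
    · rw [Finset.mem_product]
      refine ⟨Finset.mem_univ _, ?_⟩
      rw [Fintype.mem_piFinset]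
      intro j'
      rw [Finset.mem_filter]
      refine ⟨Finset.mem_univ _, ?_⟩
      obtain ⟨c, hc⟩ := entry_inst (code := code) (pos := pos) C hn hd j J0 j' θ hθ G
      refine ⟨c, fun x => ?_⟩
      simp only [Finset.mem_filter, Finset.mem_univ, true_and]
      rw [hc x]
    · ext u
      simp only [p, Finset.mem_filter, Finset.mem_univ, true_and]
      rw [accepts_iff C hn J0 hJ0 θ u G]
      simp only [decide_eq_true_eq]
      rfl
  have hco : ∀ G u, C.CorrectOn (inst d code pos θ u G) ↔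
      (C.Accepts (inst d code pos θ u G) ↔ u ∈ G) := by
    intro G u
    unfold Algorithm.CorrectOn
    rw [inst_orth hn hpos hd θ u G]
  have hagree : ∀ G, (Finset.univ.filter fun u => C.CorrectOn (inst d code pos θ u G)).card =
      agree G (p G) := by
    intro G
    apply card_eq_agree
    intro u
    rw [Finset.mem_filter, hco]
    simp only [Finset.mem_filter, Finset.mem_univ, true_and, p]
    exact ⟨fun h => h.symm, fun h => h.symm⟩
  have hN : Fintype.card (Fin (8 * j) → Bool) = 32 * 2 ^ (8 * j - 5) := by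
    rw [hcardα, show (32 : ℕ) = 2 ^ 5 by norm_num, ← pow_add]
    congr 1
    omega
  have hb := agree_bound hN ℱ hℱ p hp
  rw [hcardα] at hb
  simp_rw [hagree]
  push_cast at hb
  exact hb

theorem small_term (hj : 14 ≤ j) (hq : q ^ 2 ≤ 2 ^ j) (hw : w ^ 2 ≤ 2 ^ j) :
    (2 * ((2 : ℝ) ^ (max (8 * j + 1) w * 64 ^ j)) ^ q) / 2 ^ 2 ^ (8 * j - 5) ≤ 1 / 48 := by
  have h8 : (8 * j + 1) ^ 2 ≤ 2 ^ j := by
    obtain ⟨i, rfl⟩ : ∃ i, j = 14 + i := ⟨j - 14, by omega⟩
    clear hq hw hj
    induction i with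
    | zero => norm_num
    | succ i ih =>
      have h1 : (8 * (14 + (i + 1)) + 1) ^ 2 ≤ 2 * (8 * (14 + i) + 1) ^ 2 := by
        have h2 : 2 * (8 * (14 + i) + 1) ^ 2 =
            (8 * (14 + (i + 1)) + 1) ^ 2 + (10897 + 1680 * i + 64 * i ^ 2) := by ring
        omega
      calc (8 * (14 + (i + 1)) + 1) ^ 2 ≤ 2 * (8 * (14 + i) + 1) ^ 2 := h1
        _ ≤ 2 * 2 ^ (14 + i) := by omega
        _ = 2 ^ (14 + (i + 1)) := by ring
  have hW : (max (8 * j + 1) w) ^ 2 ≤ 2 ^ j := by
    rcases max_choice (8 * j + 1) w with h | h <;> rw [h]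
    · exact h8
    · exact hw
  have hqW : q * max (8 * j + 1) w ≤ 2 ^ j := by
    have h1 : (q * max (8 * j + 1) w) ^ 2 ≤ (2 ^ j) ^ 2 := by
      rw [mul_pow, sq (2 ^ j)]
      exact Nat.mul_le_mul hq hW
    exact (Nat.pow_le_pow_iff_left (by norm_num)).1 h1
  have hexp : 1 + max (8 * j + 1) w * 64 ^ j * q + 6 ≤ 2 ^ (8 * j - 5) := by
    have h1 : max (8 * j + 1) w * 64 ^ j * q ≤ 2 ^ (7 * j) := by
      calc max (8 * j + 1) w * 64 ^ j * q = q * max (8 * j + 1) w * 64 ^ j := by ring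
        _ ≤ 2 ^ j * 64 ^ j := Nat.mul_le_mul_right _ hqW
        _ = 2 ^ (7 * j) := by
            rw [← mul_pow, pow_mul]
            norm_num
    have h2 : 2 ^ (8 * j - 5) = 2 ^ (7 * j) * 2 ^ (j - 5) := by
      rw [← pow_add]; congr 1; omega
    have h3 : 2 ≤ 2 ^ (j - 5) := by
      calc 2 = 2 ^ 1 := by norm_num
        _ ≤ 2 ^ (j - 5) := Nat.pow_le_pow_right (by norm_num) (by omega)
    have h4 : 7 ≤ 2 ^ (7 * j) := by
      calc 7 ≤ 2 ^ 3 := by norm_num
        _ ≤ 2 ^ (7 * j) := Nat.pow_le_pow_right (by norm_num) (by omega)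
    rw [h2]
    nlinarith
  rw [← pow_mul, ← pow_succ']
  rw [div_le_div_iff₀ (by positivity) (by norm_num), one_mul]
  calc (2 : ℝ) ^ (max (8 * j + 1) w * 64 ^ j * q + 1) * 48
      ≤ (2 : ℝ) ^ (max (8 * j + 1) w * 64 ^ j * q + 1) * 2 ^ 6 := by
        gcongr; norm_num
    _ = 2 ^ (max (8 * j + 1) w * 64 ^ j * q + 1 + 6) := by rw [← pow_add]
    _ ≤ 2 ^ 2 ^ (8 * j - 5) := by
        apply pow_le_pow_right₀ (by norm_num)
        omega

/-- The parameters of the hard inputs. -/
abbrev Trip (j D : ℕ) : Type :=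
  Res (Fin (8 * j) × Bool) D × (Fin (8 * j) → Bool) × Finset (Fin (8 * j) → Bool)

open Classical in
theorem card_trip : (Fintype.card (Trip j D) : ℝ) =
    Fintype.card (Res (Fin (8 * j) × Bool) D) * (2 ^ (8 * j) * 2 ^ 2 ^ (8 * j)) := by
  rw [Fintype.card_prod, Fintype.card_prod, Fintype.card_finset]
  have h1 : Fintype.card (Fin (8 * j) → Bool) = 2 ^ (8 * j) := by simp
  rw [h1]
  push_cast
  rfl

open Classical in
theorem sum_trip (A : Trip j D → Prop) :
    ((Finset.univ.filter A).card : ℝ) =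
      ∑ θ : Res (Fin (8 * j) × Bool) D, ∑ G : Finset (Fin (8 * j) → Bool),
      ((Finset.univ.filter fun u => A (θ, u, G)).card : ℝ) := by
  rw [Finset.card_filter]
  push_cast
  rw [Fintype.sum_prod_type]
  apply Finset.sum_congr rfl
  intro θ _
  rw [Fintype.sum_prod_type, Finset.sum_comm]
  apply Finset.sum_congr rfl
  intro G _
  rw [Finset.card_filter]
  push_cast
  rfl

theorem card_some_bad (hD : 2 ≤ D) {ι : Type} [Fintype ι]
    (E : ι → Finset (((Fin (8 * j) × Bool) × Fin D) × Bool))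
    (ℬ : Finset (Res (Fin (8 * j) × Bool) D)) (hℬ : ∀ θ ∈ ℬ, ∃ l, Bad (E l) j θ) :
    ((D : ℝ) / 2) ^ (j + 1) * (ℬ.card : ℝ) ≤
      Fintype.card ι * Fintype.card (Res (Fin (8 * j) × Bool) D) := by
  classical
  have h1 : ℬ ⊆ Finset.univ.biUnion fun l : ι =>
      Finset.univ.filter fun θ : Res (Fin (8 * j) × Bool) D => Bad (E l) j θ := by
    intro θ hθ
    obtain ⟨l, hl⟩ := hℬ θ hθ
    exact Finset.mem_biUnion.2 ⟨l, Finset.mem_univ _, Finset.mem_filter.2 ⟨Finset.mem_univ _, hl⟩⟩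
  have h2 : ℬ.card ≤ ∑ l : ι, (Finset.univ.filter fun θ :
        Res (Fin (8 * j) × Bool) D => Bad (E l) j θ).card :=
    (Finset.card_le_card h1).trans Finset.card_biUnion_le
  have h3 : (ℬ.card : ℝ) ≤ ∑ l : ι, ((Finset.univ.filter fun θ :
        Res (Fin (8 * j) × Bool) D => Bad (E l) j θ).card : ℝ) := by
    rw [← Nat.cast_sum]
    exact Nat.cast_le.2 h2
  have hDp : (0 : ℝ) ≤ ((D : ℝ) / 2) ^ (j + 1) := by positivity
  refine (mul_le_mul_of_nonneg_left h3 hDp).trans ?_
  rw [Finset.mul_sum]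
  have h4 : ∀ l : ι, ((D : ℝ) / 2) ^ (j + 1) * ((Finset.univ.filter fun θ :
        Res (Fin (8 * j) × Bool) D => Bad (E l) j θ).card : ℝ) ≤
        (Fintype.card (Res (Fin (8 * j) × Bool) D) : ℝ) := by
    intro l
    exact card_bad_le hD (E l) j _ fun θ hθ => (Finset.mem_filter.1 hθ).2
  refine (Finset.sum_le_sum fun l _ => h4 l).trans (le_of_eq ?_)
  rw [Finset.sum_const, Finset.card_univ, nsmul_eq_mul]

theorem arith_core {R N W X Y B m : ℝ} (hR : 0 < R) (hN : 0 < N) (hW : 0 < W)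
    (hX : 0 ≤ X) (h1 : 2 / 3 * (R * (N * W)) ≤ Y)
    (h2 : Y ≤ R * (W * N * (31 / 48)) + B * (W * N)) (h3 : X * B ≤ m * R) :
    X ≤ 48 * m := by
  have hBlow : R ≤ 48 * B := by
    have h4 : (0 : ℝ) < W * N := by positivity
    have h5 : R * (W * N) ≤ 48 * B * (W * N) := by nlinarith
    exact le_of_mul_le_mul_right h5 h4
  have h6 : X * R ≤ 48 * m * R := by
    calc X * R ≤ X * (48 * B) := mul_le_mul_of_nonneg_left hBlow hX
      _ = 48 * (X * B) := by ring
      _ ≤ 48 * (m * R) := by linarith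
      _ = 48 * m * R := by ring
  exact le_of_mul_le_mul_right h6 hR

theorem arith_corr {a b t R N W : ℝ} (h1 : a + b = t) (h2 : 3 * b ≤ t) (h3 : t = R * (N * W)) :
    2 / 3 * (R * (N * W)) ≤ a := by
  subst h3
  linarith

open Classical in
theorem correct_ge (A : Trip j D → Prop)
    (hC : 3 * (Finset.univ.filter fun τ => ¬ A τ).card ≤ Fintype.card (Trip j D)) :
    2 / 3 * ((Fintype.card (Res (Fin (8 * j) × Bool) D) : ℝ) *
      (2 ^ (8 * j) * 2 ^ 2 ^ (8 * j))) ≤
    ∑ θ : Res (Fin (8 * j) × Bool) D, ∑ G : Finset (Fin (8 * j) → Bool),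
      ((Finset.univ.filter fun u => A (θ, u, G)).card : ℝ) := by
  rw [← sum_trip]
  refine arith_corr (b := ((Finset.univ.filter fun τ => ¬ A τ).card : ℝ)) ?_ ?_ card_trip
  · rw [← Nat.cast_add, Finset.card_filter_add_card_filter_not, Finset.card_univ]
  · have h1 := (Nat.cast_le (α := ℝ)).2 hC
    rw [Nat.cast_mul] at h1
    exact h1

open Classical in
theorem upper_theta (C : Algorithm F n d m q w pA pB P) (hn : 0 < n) (hj : 14 ≤ j)
    (hq : q ^ 2 ≤ 2 ^ j) (hw : w ^ 2 ≤ 2 ^ j)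
    (hd : L + 2 + Fintype.card ((Fin (8 * j) × Bool) × Fin D) ≤ d) (J0 : Fin pB)
    (hJ0 : ∀ v, P.groupB (pos v) = J0) (hpos : Function.Injective pos)
    (ℬ : Finset (Res (Fin (8 * j) × Bool) D))
    (hℬ : ∀ θ, (∃ l, Bad (dlits C hn hd l) j θ) → θ ∈ ℬ)
    (θ : Res (Fin (8 * j) × Bool) D) :
    ∑ G : Finset (Fin (8 * j) → Bool),
      ((Finset.univ.filter fun u => C.CorrectOn (inst d code pos θ u G)).card : ℝ) ≤
      2 ^ 2 ^ (8 * j) * 2 ^ (8 * j) * (31 / 48) +
        (if θ ∈ ℬ then 2 ^ 2 ^ (8 * j) * 2 ^ (8 * j) else 0) := by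
  obtain ⟨N, hN⟩ : ∃ N : ℝ, N = 2 ^ (8 * j) := ⟨_, rfl⟩
  obtain ⟨W, hW⟩ : ∃ W : ℝ, W = 2 ^ 2 ^ (8 * j) := ⟨_, rfl⟩
  have hWN : 0 ≤ W * N := by rw [hN, hW]; positivity
  by_cases hθ : θ ∈ ℬ
  · rw [if_pos hθ]
    have h1 : ∑ G : Finset (Fin (8 * j) → Bool),
        ((Finset.univ.filter fun u => C.CorrectOn (inst d code pos θ u G)).card : ℝ) ≤
        ∑ _G : Finset (Fin (8 * j) → Bool), N := by
      apply Finset.sum_le_sum
      intro G _
      have h2 : (Finset.univ.filter fun u => C.CorrectOn (inst d code pos θ u G)).card ≤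
          2 ^ (8 * j) := by
        refine (Finset.card_le_univ _).trans ?_
        simp
      rw [hN]
      exact_mod_cast h2
    rw [Finset.sum_const, Finset.card_univ, Fintype.card_finset, nsmul_eq_mul] at h1
    have h2 : Fintype.card (Fin (8 * j) → Bool) = 2 ^ (8 * j) := by simp
    rw [h2] at h1
    push_cast at h1
    rw [← hW] at h1
    rw [← hN, ← hW]
    refine h1.trans ?_
    have h3 : 0 ≤ W * N * (31 / 48) := by positivity
    linarith
  · rw [if_neg hθ, add_zero]
    have hθ' : ∀ l, ¬ Bad (dlits C hn hd l) j θ := by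
      intro l hl
      exact hθ (hℬ θ ⟨l, hl⟩)
    refine (good_theta C hn (le_trans (by norm_num) hj) hd J0 hJ0 hpos θ hθ').trans ?_
    have h1 := small_term (q := q) (w := w) hj hq hw
    rw [← hN, ← hW]
    apply mul_le_mul_of_nonneg_left _ hWN
    linarith

open Classical in
/-- The number of features of an algorithm which is correct on two thirds of the hard inputs. -/
theorem core (C : Algorithm F n d m q w pA pB P) (hn : 0 < n) (hj : 14 ≤ j) (hD : 2 ≤ D)
    (hq : q ^ 2 ≤ 2 ^ j) (hw : w ^ 2 ≤ 2 ^ j)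
    (hd : L + 2 + Fintype.card ((Fin (8 * j) × Bool) × Fin D) ≤ d) (J0 : Fin pB)
    (hJ0 : ∀ v, P.groupB (pos v) = J0) (hpos : Function.Injective pos)
    (hC : 3 * (Finset.univ.filter fun τ : Trip j D =>
      ¬ C.CorrectOn (inst d code pos τ.1 τ.2.1 τ.2.2)).card ≤ Fintype.card (Trip j D)) :
    ((D : ℝ) / 2) ^ (j + 1) ≤ 48 * m := by
  have hcorr := correct_ge (fun τ : Trip j D => C.CorrectOn (inst d code pos τ.1 τ.2.1 τ.2.2)) hC
  clear hC
  let ℬ : Finset (Res (Fin (8 * j) × Bool) D) := Finset.univ.filter fun θ =>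
    ∃ l, Bad (dlits C hn hd l) j θ
  have hmem : ∀ θ, θ ∈ ℬ ↔ ∃ l, Bad (dlits C hn hd l) j θ := by
    intro θ
    simp only [ℬ, Finset.mem_filter, Finset.mem_univ, true_and]
  have hupper := upper_theta (code := code) (pos := pos) C hn hj hq hw hd J0 hJ0 hpos ℬ
    (fun θ h => (hmem θ).2 h)
  have hcard := card_some_bad hD (fun l : Fin m => dlits C hn hd l) ℬ (fun θ h => (hmem θ).1 h)
  rw [Fintype.card_fin] at hcard
  have hRpos : (0 : ℝ) < Fintype.card (Res (Fin (8 * j) × Bool) D) := by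
    have : Nonempty (Res (Fin (8 * j) × Bool) D) :=
      ⟨fun _ => (⟨0, lt_of_lt_of_le (by norm_num) hD⟩, fun _ => false)⟩
    exact Nat.cast_pos.2 Fintype.card_pos
  refine arith_core hRpos (show (0 : ℝ) < 2 ^ (8 * j) by positivity)
    (show (0 : ℝ) < 2 ^ 2 ^ (8 * j) by positivity) (by positivity) hcorr ?_ hcard
  refine (Finset.sum_le_sum fun θ _ => hupper θ).trans (le_of_eq ?_)
  rw [Finset.sum_add_distrib, ← Finset.sum_filter, Finset.sum_const, Finset.sum_const,
    Finset.card_univ, nsmul_eq_mul, nsmul_eq_mul]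
  congr 3
  congr 1
  ext θ
  simp

end count

/-! ### Numerics -/

theorem exists_group (P : Partition n pA pB) (hn : 0 < n) :
    ∃ J0 : Fin pB, n ≤ pB * (Finset.univ.filter fun i => P.groupB i = J0).card := by
  by_contra hcon
  push Not at hcon
  have h1 : ∑ J : Fin pB, (Finset.univ.filter fun i => P.groupB i = J).card = n := by
    have h2 := Finset.card_eq_sum_card_fiberwise (f := P.groupB) (s := Finset.univ)
      (t := Finset.univ) (fun _ _ => Finset.mem_coe.2 (Finset.mem_univ _))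
    rw [Finset.card_univ, Fintype.card_fin] at h2
    exact h2.symm
  have hpB : 0 < pB := lt_of_le_of_lt (Nat.zero_le _) (P.groupB ⟨0, hn⟩).2
  have h3 : ∑ J : Fin pB, pB * (Finset.univ.filter fun i => P.groupB i = J).card < pB * n := by
    calc ∑ J : Fin pB, pB * (Finset.univ.filter fun i => P.groupB i = J).card
        < ∑ _J : Fin pB, n := by
          apply Finset.sum_lt_sum_of_nonempty
          · exact ⟨⟨0, hpB⟩, Finset.mem_univ _⟩
          · intro J _
            exact hcon J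
      _ = pB * n := by rw [Finset.sum_const, Finset.card_univ, Fintype.card_fin, smul_eq_mul]
  rw [← Finset.mul_sum, h1] at h3
  exact lt_irrefl _ h3

/-- The two cases with few groups and with short keys. -/
theorem few_groups {n pA pB s : ℕ} {x : ℝ} (hs : n ≤ pB * s) (hpp : pB ≤ pA)
    (hx : (s : ℝ) ≤ x) : (n : ℝ) ^ 2 ≤ pA * pB * x ^ 2 := by
  have h1 : (n : ℝ) ≤ pB * s := by exact_mod_cast hs
  have h2 : (pB : ℝ) ≤ pA := by exact_mod_cast hpp
  have h3 : (n : ℝ) ≤ pB * x := h1.trans (mul_le_mul_of_nonneg_left hx (Nat.cast_nonneg _))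
  have h4 : (0 : ℝ) ≤ n := Nat.cast_nonneg _
  calc (n : ℝ) ^ 2 ≤ (pB * x) ^ 2 := pow_le_pow_left₀ h4 h3 2
    _ = pB * pB * x ^ 2 := by ring
    _ ≤ pA * pB * x ^ 2 := by
        have : (0 : ℝ) ≤ pB := Nat.cast_nonneg _
        gcongr

/-- The numbers in the main case. -/
theorem main_case {c ℓ Lc : ℝ} {j D n m : ℕ} (hc : (2 : ℝ) ^ (16 : ℕ) ≤ c)
    (hLc : Lc = Real.logb 2 c) (hℓ : ℓ = Real.logb 2 n) (hn : 2 ≤ n) (hℓ2 : 112 ≤ ℓ)
    (hjL : 3 * ℓ < (j + 1) * Lc) (hD : c / 4 ≤ D) (hm : ((D : ℝ) / 2) ^ (j + 1) ≤ 48 * m) :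
    (n : ℝ) ^ 2 ≤ m := by
  have hcpos : 0 < c := lt_of_lt_of_le (by positivity) hc
  have hnpos : (0 : ℝ) < n := by exact_mod_cast (by omega : 0 < n)
  have hLc16 : 16 ≤ Lc := by
    rw [hLc, Real.le_logb_iff_rpow_le (by norm_num) hcpos]
    calc (2 : ℝ) ^ (16 : ℝ) = 2 ^ (16 : ℕ) := by norm_cast
      _ ≤ c := hc
  have hc2 : c = (2 : ℝ) ^ Lc := by
    rw [hLc, Real.rpow_logb (by norm_num) (by norm_num) hcpos]
  have hn2 : (n : ℝ) = (2 : ℝ) ^ ℓ := by
    rw [hℓ, Real.rpow_logb (by norm_num) (by norm_num) hnpos]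
  have h1 : (2 : ℝ) ^ ((Lc - 3) * (j + 1)) ≤ ((D : ℝ) / 2) ^ (j + 1) := by
    have h2 : (2 : ℝ) ^ (Lc - 3) = c / 8 := by
      rw [Real.rpow_sub (by norm_num), ← hc2]
      norm_num
    have h3 : (2 : ℝ) ^ ((Lc - 3) * (j + 1)) = (c / 8) ^ (j + 1) := by
      rw [Real.rpow_mul (by norm_num), h2, ← Nat.cast_one, ← Nat.cast_add, Real.rpow_natCast]
    rw [h3]
    apply pow_le_pow_left₀ (by positivity)
    linarith
  have h2 : (2 : ℝ) ^ (2 * ℓ + 6) ≤ (2 : ℝ) ^ ((Lc - 3) * (j + 1)) := by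
    apply Real.rpow_le_rpow_of_exponent_le (by norm_num)
    have h3 : (13 / 16 : ℝ) * Lc ≤ Lc - 3 := by linarith
    have h4 : (0 : ℝ) < j + 1 := by positivity
    have h5 : (13 / 16 : ℝ) * Lc * (j + 1) ≤ (Lc - 3) * (j + 1) :=
      mul_le_mul_of_nonneg_right h3 h4.le
    nlinarith
  have h3 : (2 : ℝ) ^ (2 * ℓ + 6) = 64 * (n : ℝ) ^ 2 := by
    rw [Real.rpow_add (by norm_num), mul_comm (2 : ℝ) ℓ, Real.rpow_mul (by norm_num), ← hn2]
    have h4 : ((n : ℝ) ^ (2 : ℝ)) = (n : ℝ) ^ (2 : ℕ) := by norm_cast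
    have h5 : ((2 : ℝ) ^ (6 : ℝ)) = 64 := by
      rw [show (6 : ℝ) = ((6 : ℕ) : ℝ) by norm_num, Real.rpow_natCast]
      norm_num
    rw [h4, h5]
    ring
  have h4 : 64 * (n : ℝ) ^ 2 ≤ 48 * m := by
    rw [← h3]
    exact h2.trans (h1.trans hm)
  have h5 : (0 : ℝ) ≤ (n : ℝ) ^ 2 := by positivity
  linarith

theorem sq_le_two_pow {q j n : ℕ} {ℓ Lc : ℝ} (hℓ : ℓ = Real.logb 2 n) (hn : 2 ≤ n)
    (hq : (q : ℝ) ≤ n ^ (1 / Lc)) (hLc : 0 < Lc) (hj : 2 ≤ j) (hjL : 3 * ℓ < (j + 1) * Lc) :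
    q ^ 2 ≤ 2 ^ j := by
  have hnpos : (0 : ℝ) < n := by exact_mod_cast (by omega : 0 < n)
  have hn2 : (n : ℝ) = (2 : ℝ) ^ ℓ := by
    rw [hℓ, Real.rpow_logb (by norm_num) (by norm_num) hnpos]
  have h1 : (q : ℝ) ^ 2 ≤ 2 ^ j := by
    calc (q : ℝ) ^ 2 ≤ ((n : ℝ) ^ (1 / Lc)) ^ 2 := pow_le_pow_left₀ (Nat.cast_nonneg _) hq 2
      _ = (2 : ℝ) ^ (2 * ℓ / Lc) := by
          rw [hn2, ← Real.rpow_mul (by norm_num), ← Real.rpow_natCast, ← Real.rpow_mul
            (by norm_num)]
          congr 1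
          push_cast
          ring
      _ ≤ (2 : ℝ) ^ (j : ℝ) := by
          apply Real.rpow_le_rpow_of_exponent_le (by norm_num)
          rw [div_le_iff₀ hLc]
          have h2 : (2 : ℝ) ≤ j := by exact_mod_cast hj
          nlinarith
      _ = 2 ^ j := Real.rpow_natCast _ _
  exact_mod_cast h1

theorem D_large {c ℓ : ℝ} {j d L : ℕ} (hc : 12 ≤ c) (hℓ : 1 ≤ ℓ) (hd : c * ℓ ≤ d)
    (hL : (L : ℝ) ≤ ℓ + 1) (hj : (8 * j : ℝ) ≤ ℓ) (hj0 : 0 < j) (hLd : L + 2 ≤ d) :
    c / 4 ≤ ((d - (L + 2)) / (16 * j) : ℕ) := by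
  set D := (d - (L + 2)) / (16 * j) with hD
  have h1 : d - (L + 2) < 16 * j * (D + 1) := by
    rw [hD]
    exact Nat.lt_mul_div_succ _ (by positivity)
  have h2 : ((d : ℝ) - (L + 2)) ≤ 16 * j * (D + 1) := by
    have h3 : ((d - (L + 2) : ℕ) : ℝ) ≤ ((16 * j * (D + 1) : ℕ) : ℝ) := by
      exact_mod_cast h1.le
    rw [Nat.cast_sub hLd] at h3
    push_cast at h3
    linarith
  by_contra hcon
  push Not at hcon
  have hD0 : (0 : ℝ) ≤ D := Nat.cast_nonneg _
  have h3 : (16 * j * (D + 1) : ℝ) ≤ 2 * ℓ * (D + 1) := by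
    have h4 : (16 * j : ℝ) ≤ 2 * ℓ := by linarith
    exact mul_le_mul_of_nonneg_right h4 (by linarith)
  have h4 : 2 * ℓ * (D + 1) ≤ 2 * ℓ * (c / 4 + 1) := by
    apply mul_le_mul_of_nonneg_left _ (by linarith)
    linarith
  nlinarith

/-! ### The algorithm of Abboud, Williams and Yu -/

section upper

/-- The partition into consecutive groups of `s` positions. -/
def part (n s : ℕ) : Partition n ((n - 1) / s + 1) ((n - 1) / s + 1) where
  groupA i := ⟨i.1 / s, Nat.lt_succ_of_le (Nat.div_le_div_right (by have := i.2; omega))⟩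
  groupB i := ⟨i.1 / s, Nat.lt_succ_of_le (Nat.div_le_div_right (by have := i.2; omega))⟩

/-- The positions of a group. -/
def posn (n s : ℕ) (hn : 0 < n) (I : Fin ((n - 1) / s + 1)) (a : Fin s) : Fin n :=
  if h : I.1 * s + a.1 < n then ⟨I.1 * s + a.1, h⟩
  else ⟨I.1 * s, by
    have h1 : I.1 * s ≤ (n - 1) / s * s := Nat.mul_le_mul_right _ (Nat.lt_succ_iff.1 I.2)
    have h2 := Nat.div_mul_le_self (n - 1) s
    omega⟩

theorem posn_div {n s : ℕ} (hn : 0 < n) (I : Fin ((n - 1) / s + 1)) (a : Fin s) :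
    (posn n s hn I a).1 / s = I.1 := by
  have hs : 0 < s := lt_of_le_of_lt (Nat.zero_le _) a.2
  unfold posn
  by_cases h : I.1 * s + a.1 < n
  · rw [dif_pos h]
    show (I.1 * s + a.1) / s = I.1
    rw [mul_comm, Nat.mul_add_div hs, Nat.div_eq_of_lt a.2, add_zero]
  · rw [dif_neg h]
    show I.1 * s / s = I.1
    exact Nat.mul_div_cancel _ hs

theorem posn_surj {n s : ℕ} (hn : 0 < n) (hs : 0 < s) (i : Fin n) :
    posn n s hn ⟨i.1 / s, Nat.lt_succ_of_le (Nat.div_le_div_right (by have := i.2; omega))⟩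
      ⟨i.1 % s, Nat.mod_lt _ hs⟩ = i := by
  have h1 : i.1 / s * s + i.1 % s = i.1 := by
    rw [mul_comm]
    exact Nat.div_add_mod _ _
  unfold posn
  rw [dif_pos (by show i.1 / s * s + i.1 % s < n; rw [h1]; exact i.2)]
  exact Fin.ext h1

/-- The numbering of the features. -/
noncomputable def num (d s t : ℕ) :
    (Fin s × {T : Finset (Fin d) // T.card ≤ t}) ≃
      Fin (Fintype.card (Fin s × {T : Finset (Fin d) // T.card ≤ t})) :=
  Fintype.equivFin _

open Classical in
/-- The algorithm with the random choices `f`. -/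
noncomputable def awy (n d s t q' : ℕ) (hn : 0 < n) (f : Fin (8 * q') → Om d s t) :
    Algorithm (ZMod 2) n d (Fintype.card (Fin s × {T : Finset (Fin d) // T.card ≤ t})) (8 * q') 0
      ((n - 1) / s + 1) ((n - 1) / s + 1) (part n s) where
  lits I l := ((num d s t).symm l).2.1.image fun k => (posn n s hn I ((num d s t).symm l).1, k, true)
  lits_group I l x hx := by
    obtain ⟨k, _, rfl⟩ := Finset.mem_image.1 hx
    exact Fin.ext (posn_div hn I _)
  weight J j l y := (f j).2.1 ((num d s t).symm l).1 *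
    coef (f j).1 (f j).2.2 (fun b => y (posn n s hn J b)) ((num d s t).symm l).2
  weight_group J j l y y' h := by
    have h1 : (fun b => y (posn n s hn J b)) = fun b => y' (posn n s hn J b) := by
      funext b
      exact h _ (Fin.ext (posn_div hn J b))
    rw [h1]
  test _ _ _ v := v ≠ 0
  isTest _ _ _ := Or.inl fun _ => Iff.rfl
  decide _ _ o := q' ≤ (Finset.univ.filter fun j => o j).card

theorem awy_entry {s t q' : ℕ} (hn : 0 < n) (f : Fin (8 * q') → Om d s t)
    (I J : Fin ((n - 1) / s + 1)) (j : Fin (8 * q')) (x : Input n d) :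
    (awy n d s t q' hn f).entry I J j x =
      form (f j) (fun a => x (false, posn n s hn I a)) (fun b => x (true, posn n s hn J b)) := by
  classical
  rw [form_eq]
  unfold Algorithm.entry
  rw [← Equiv.sum_comp (num d s t)]
  apply Finset.sum_congr rfl
  rintro ⟨a, T⟩ _
  have h1 : (awy n d s t q' hn f).feature I (num d s t (a, T)) x =
      mono T.1 (x (false, posn n s hn I a)) := by
    unfold Algorithm.feature mono
    have h2 : (∀ z ∈ (awy n d s t q' hn f).lits I (num d s t (a, T)),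
        x (false, z.1) z.2.1 = z.2.2) ↔ ∀ k ∈ T.1, x (false, posn n s hn I a) k = true := by
      unfold awy
      simp only [Equiv.symm_apply_apply, Finset.mem_image]
      constructor
      · intro h k hk
        exact h _ ⟨k, hk, rfl⟩
      · rintro h _ ⟨k, hk, rfl⟩
        exact h k hk
    by_cases h3 : ∀ k ∈ T.1, x (false, posn n s hn I a) k = true
    · rw [if_pos (h2.2 h3), Finset.prod_eq_one]
      intro k hk
      rw [h3 k hk]
      rfl
    · rw [if_neg (fun h => h3 (h2.1 h))]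
      push Not at h3
      obtain ⟨k, hk, hk2⟩ := h3
      symm
      apply Finset.prod_eq_zero hk
      have h4 : x (false, posn n s hn I a) k = false := by simpa using hk2
      rw [h4]
      rfl
  rw [h1]
  have h2 : (awy n d s t q' hn f).weight J j (num d s t (a, T)) (fun i => x (true, i)) =
      (f j).2.1 a * coef (f j).1 (f j).2.2 (fun b => x (true, posn n s hn J b)) T := by
    show (f j).2.1 ((num d s t).symm (num d s t (a, T))).1 *
      coef (f j).1 (f j).2.2 (fun b => x (true, posn n s hn J b))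
        ((num d s t).symm (num d s t (a, T))).2 = _
    rw [Equiv.symm_apply_apply]
  rw [h2]

theorem awy_acc {s t q' : ℕ} (hn : 0 < n) (f : Fin (8 * q') → Om d s t)
    (I J : Fin ((n - 1) / s + 1)) (x : Input n d) :
    (awy n d s t q' hn f).Acc I J x ↔ q' ≤ succ (fun ω : Om d s t =>
      form ω (fun a => x (false, posn n s hn I a)) (fun b => x (true, posn n s hn J b)) ≠ 0) f := by
  have h1 : (@Finset.filter _ (fun j => (awy n d s t q' hn f).entry I J j x ≠ 0)
      (fun _ => Classical.propDecidable _) Finset.univ) = Finset.univ.filter fun j =>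
        form (f j) (fun a => x (false, posn n s hn I a))
          (fun b => x (true, posn n s hn J b)) ≠ 0 := by
    ext j
    simp only [Finset.mem_filter, Finset.mem_univ, true_and, awy_entry]
  unfold succ
  rw [← h1]
  exact Iff.rfl

theorem orth_iff (x : Input n d) (i j : Fin n) :
    ∑ k : Fin d, (x (false, i) k).toNat * (x (true, j) k).toNat = 0 ↔
      ∀ k, ¬ (x (false, i) k = true ∧ x (true, j) k = true) :=
  sum_toNat_eq_zero_iff _ _

theorem awy_correct {s t q' : ℕ} (hn : 0 < n) (hs : 0 < s) (f : Fin (8 * q') → Om d s t)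
    (x : Input n d)
    (h : ∀ I J : Fin ((n - 1) / s + 1), ((awy n d s t q' hn f).Acc I J x ↔
      ∃ a b : Fin s, ∀ k, ¬ (x (false, posn n s hn I a) k = true ∧
        x (true, posn n s hn J b) k = true))) :
    (awy n d s t q' hn f).CorrectOn x := by
  unfold Algorithm.CorrectOn HasOrthogonalPair
  simp only [orth_iff]
  constructor
  · rintro ⟨I, J, hIJ⟩
    obtain ⟨a, b, hab⟩ := (h I J).1 hIJ
    exact ⟨_, _, hab⟩
  · rintro ⟨i, j, hij⟩
    refine ⟨_, _, (h ⟨i.1 / s, Nat.lt_succ_of_le (Nat.div_le_div_right (by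
      have := i.2; omega))⟩ ⟨j.1 / s, Nat.lt_succ_of_le (Nat.div_le_div_right (by
      have := j.2; omega))⟩).2 ⟨⟨i.1 % s, Nat.mod_lt _ hs⟩, ⟨j.1 % s, Nat.mod_lt _ hs⟩, ?_⟩⟩
    rw [posn_surj hn hs, posn_surj hn hs]
    exact hij

open Classical in
/-- The failures for a pair of groups. -/
theorem awy_bad {s t q' : ℕ} (hn : 0 < n) (ht : 64 * s ^ 2 ≤ 2 ^ t) (x : Input n d)
    (I J : Fin ((n - 1) / s + 1)) :
    ((Finset.univ.filter fun f : Fin (8 * q') → Om d s t =>
      ¬ ((awy n d s t q' hn f).Acc I J x ↔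
        ∃ a b : Fin s, ∀ k, ¬ (x (false, posn n s hn I a) k = true ∧
          x (true, posn n s hn J b) k = true))).card : ℝ) ≤
      (7 / 10) ^ q' * (Fintype.card (Om d s t) : ℝ) ^ (8 * q') := by
  by_cases h : ∃ a b : Fin s, ∀ k, ¬ (x (false, posn n s hn I a) k = true ∧
      x (true, posn n s hn J b) k = true)
  · obtain ⟨a, b, hab⟩ := id h
    have h1 := card_few (q' := q') (fun ω : Om d s t =>
      form ω (fun a => x (false, posn n s hn I a)) (fun b => x (true, posn n s hn J b)) ≠ 0)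
      (card_form_yes (X := fun a => x (false, posn n s hn I a))
        (Y := fun b => x (true, posn n s hn J b)) hab)
    refine le_trans ?_ h1
    have h2 : (Finset.univ.filter fun f : Fin (8 * q') → Om d s t =>
      ¬ ((awy n d s t q' hn f).Acc I J x ↔
        ∃ a b : Fin s, ∀ k, ¬ (x (false, posn n s hn I a) k = true ∧
          x (true, posn n s hn J b) k = true))) ⊆
        Finset.univ.filter fun f : Fin (8 * q') → Om d s t =>
          ¬ q' ≤ succ (fun ω : Om d s t => form ω (fun a => x (false, posn n s hn I a))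
            (fun b => x (true, posn n s hn J b)) ≠ 0) f := by
      intro f hf
      have h3 := (Finset.mem_filter.1 hf).2
      refine Finset.mem_filter.2 ⟨Finset.mem_univ _, fun h4 => h3 ⟨fun _ => h, fun _ => ?_⟩⟩
      exact (awy_acc hn f I J x).2 h4
    exact_mod_cast Finset.card_le_card h2
  · have h0 : ∀ a b : Fin s, ∃ k, x (false, posn n s hn I a) k = true ∧
        x (true, posn n s hn J b) k = true := by
      push Not at h
      intro a b
      obtain ⟨k, hk⟩ := h a b
      exact ⟨k, hk⟩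
    have hno := card_form_no (t := t) (X := fun a => x (false, posn n s hn I a))
      (Y := fun b => x (true, posn n s hn J b)) h0
    have hs : 0 < s ∨ s = 0 := by omega
    have h64 : 64 * (Finset.univ.filter fun ω : Om d s t =>
        form ω (fun a => x (false, posn n s hn I a)) (fun b => x (true, posn n s hn J b)) ≠ 0).card
        ≤ Fintype.card (Om d s t) := by
      rcases hs with hs | hs
      · have h5 : s ^ 2 * (64 * (Finset.univ.filter fun ω : Om d s t =>
          form ω (fun a => x (false, posn n s hn I a))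
            (fun b => x (true, posn n s hn J b)) ≠ 0).card) ≤
            s ^ 2 * Fintype.card (Om d s t) := by
          refine le_trans ?_ hno
          rw [← mul_assoc, mul_comm (s ^ 2) 64]
          exact Nat.mul_le_mul_right _ ht
        exact Nat.le_of_mul_le_mul_left h5 (by positivity)
      · subst hs
        have h5 : (Finset.univ.filter fun ω : Om d 0 t =>
          form ω (fun a => x (false, posn n 0 hn I a))
            (fun b => x (true, posn n 0 hn J b)) ≠ 0) = ∅ := by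
          apply Finset.filter_eq_empty_iff.2
          intro ω _ h6
          apply h6
          unfold form
          simp
        rw [h5]
        simp
    have h1 := card_many (q' := q') (fun ω : Om d s t =>
      form ω (fun a => x (false, posn n s hn I a)) (fun b => x (true, posn n s hn J b)) ≠ 0) h64
    refine le_trans ?_ h1
    have h2 : (Finset.univ.filter fun f : Fin (8 * q') → Om d s t =>
      ¬ ((awy n d s t q' hn f).Acc I J x ↔
        ∃ a b : Fin s, ∀ k, ¬ (x (false, posn n s hn I a) k = true ∧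
          x (true, posn n s hn J b) k = true))) ⊆
        Finset.univ.filter fun f : Fin (8 * q') → Om d s t =>
          q' ≤ succ (fun ω : Om d s t => form ω (fun a => x (false, posn n s hn I a))
            (fun b => x (true, posn n s hn J b)) ≠ 0) f := by
      intro f hf
      have h3 := (Finset.mem_filter.1 hf).2
      refine Finset.mem_filter.2 ⟨Finset.mem_univ _, ?_⟩
      by_contra h4
      apply h3
      constructor
      · intro h5
        exact absurd ((awy_acc hn f I J x).1 h5) h4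
      · intro h5
        exact absurd h5 h
    exact_mod_cast Finset.card_le_card h2

/-- The probability of success. -/
theorem awy_prob {s t : ℕ} (hn : 0 < n) (hs : 0 < s) (ht : 64 * s ^ 2 ≤ 2 ^ t) (x : Input n d) :
    2 / 3 ≤ ((PMF.uniformOfFintype (Fin (8 * (4 * Nat.clog 2 n + 4)) → Om d s t)).map
      (awy n d s t (4 * Nat.clog 2 n + 4) hn)).toOuterMeasure {C | C.CorrectOn x} := by
  classical
  obtain ⟨q', hq'⟩ : ∃ q', q' = 4 * Nat.clog 2 n + 4 := ⟨_, rfl⟩
  rw [← hq']
  obtain ⟨bad, hbad⟩ : ∃ bad, bad = Finset.univ.filter fun f : Fin (8 * q') → Om d s t =>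
    ¬ (awy n d s t q' hn f).CorrectOn x := ⟨_, rfl⟩
  have h1 : bad ⊆ (Finset.univ : Finset (Fin ((n - 1) / s + 1) × Fin ((n - 1) / s + 1))).biUnion
      fun IJ => Finset.univ.filter fun f : Fin (8 * q') → Om d s t =>
        ¬ ((awy n d s t q' hn f).Acc IJ.1 IJ.2 x ↔
        ∃ a b : Fin s, ∀ k, ¬ (x (false, posn n s hn IJ.1 a) k = true ∧
          x (true, posn n s hn IJ.2 b) k = true)) := by
    intro f hf
    rw [hbad] at hf
    have h2 := (Finset.mem_filter.1 hf).2
    by_contra h3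
    apply h2
    apply awy_correct hn hs
    intro I J
    by_contra h4
    apply h3
    exact Finset.mem_biUnion.2 ⟨(I, J), Finset.mem_univ _,
      Finset.mem_filter.2 ⟨Finset.mem_univ _, h4⟩⟩
  have hp : (n - 1) / s + 1 ≤ n := by
    have := Nat.div_le_self (n - 1) s
    omega
  have h2 : (bad.card : ℝ) ≤ (n : ℝ) ^ 2 *
      ((7 / 10) ^ q' * (Fintype.card (Om d s t) : ℝ) ^ (8 * q')) := by
    have h3 : (bad.card : ℝ) ≤ ∑ IJ : Fin ((n - 1) / s + 1) × Fin ((n - 1) / s + 1),
        ((Finset.univ.filter fun f : Fin (8 * q') → Om d s t =>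
        ¬ ((awy n d s t q' hn f).Acc IJ.1 IJ.2 x ↔
        ∃ a b : Fin s, ∀ k, ¬ (x (false, posn n s hn IJ.1 a) k = true ∧
          x (true, posn n s hn IJ.2 b) k = true))).card : ℝ) := by
      exact_mod_cast (Finset.card_le_card h1).trans Finset.card_biUnion_le
    refine h3.trans ((Finset.sum_le_sum fun IJ _ => awy_bad hn ht x IJ.1 IJ.2).trans ?_)
    rw [Finset.sum_const, Finset.card_univ, Fintype.card_prod, Fintype.card_fin, nsmul_eq_mul]
    apply mul_le_mul_of_nonneg_right _ (by positivity)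
    push_cast
    rw [sq]
    have h4 : (((n - 1) / s : ℕ) : ℝ) + 1 ≤ n := by exact_mod_cast hp
    exact mul_le_mul h4 h4 (by positivity) (by positivity)
  have h3 : (n : ℝ) ^ 2 * (7 / 10) ^ q' ≤ 1 / 3 := by
    have h4 : (n : ℝ) ≤ 2 ^ Nat.clog 2 n := by
      exact_mod_cast Nat.le_pow_clog (by norm_num) n
    calc (n : ℝ) ^ 2 * (7 / 10) ^ q' ≤ (2 ^ Nat.clog 2 n) ^ 2 * (1 / 4) ^ (Nat.clog 2 n + 1) := by
          have h5 : ((7 : ℝ) / 10) ^ q' ≤ (1 / 4) ^ (Nat.clog 2 n + 1) := by
            rw [hq', show 4 * Nat.clog 2 n + 4 = 4 * (Nat.clog 2 n + 1) by ring, pow_mul]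
            apply pow_le_pow_left₀ (by positivity)
            norm_num
          gcongr
      _ = (4 * (1 / 4)) ^ Nat.clog 2 n * (1 / 4) := by
          rw [mul_pow, ← pow_mul, mul_comm (Nat.clog 2 n) 2, pow_mul, pow_succ]
          norm_num
          ring
      _ ≤ 1 / 3 := by norm_num
  have hΩ : (0 : ℝ) < (Fintype.card (Om d s t) : ℝ) ^ (8 * q') := by
    have : 0 < Fintype.card (Om d s t) := Fintype.card_pos
    positivity
  have h4 : 3 * (bad.card : ℝ) ≤ (Fintype.card (Om d s t) : ℝ) ^ (8 * q') := by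
    have h5 := mul_le_mul_of_nonneg_right h3 hΩ.le
    nlinarith
  have hcard : Fintype.card (Fin (8 * q') → Om d s t) = Fintype.card (Om d s t) ^ (8 * q') := by
    rw [Fintype.card_fun, Fintype.card_fin]
  have h5 : 3 * bad.card ≤ Fintype.card (Fin (8 * q') → Om d s t) := by
    rw [hcard]
    exact_mod_cast h4
  rw [PMF.toOuterMeasure_map_apply, PMF.toOuterMeasure_uniformOfFintype_apply]
  have h6 : Fintype.card ((awy n d s t q' hn) ⁻¹' {C | C.CorrectOn x} : Set _) + bad.card =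
      Fintype.card (Fin (8 * q') → Om d s t) := by
    have h7 := Finset.card_filter_add_card_filter_not
      (s := (Finset.univ : Finset (Fin (8 * q') → Om d s t)))
      (fun f => (awy n d s t q' hn f).CorrectOn x)
    rw [← hbad, Finset.card_univ] at h7
    rw [← h7, Fintype.card_subtype]
    rfl
  obtain ⟨X, hX⟩ : ∃ X, X = Fintype.card ((awy n d s t q' hn) ⁻¹' {C | C.CorrectOn x} : Set _) :=
    ⟨_, rfl⟩
  obtain ⟨Y, hY⟩ : ∃ Y, Y = Fintype.card (Fin (8 * q') → Om d s t) := ⟨_, rfl⟩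
  rw [← hX, ← hY] at h6 ⊢
  rw [← hY] at h5
  have hY0 : Y ≠ 0 := by
    rw [hY]
    exact Fintype.card_ne_zero
  have h8 : 2 * Y ≤ 3 * X := by omega
  rw [ENNReal.le_div_iff_mul_le (Or.inl (by exact_mod_cast hY0)) (Or.inl (ENNReal.natCast_ne_top _))]
  rw [ENNReal.div_eq_inv_mul, mul_assoc, mul_comm, ← div_eq_mul_inv]
  apply ENNReal.div_le_of_le_mul
  have h9 : ((2 * Y : ℕ) : ENNReal) ≤ ((3 * X : ℕ) : ENNReal) := by exact_mod_cast h8
  push_cast at h9
  rw [mul_comm (X : ENNReal) 3]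
  exact h9

end upper

/-! ### The result -/

/-- The lower bound. -/
theorem lower : ∃ K κ : ℝ, 0 < K ∧ 0 < κ ∧ ∀ (c : ℝ), 2 ≤ c →
    ∀ (n d m q w pA pB : ℕ) (P : Partition n pA pB) (F : Type) [Field F],
      2 ≤ n → c * Real.logb 2 n ≤ d → (q : ℝ) ≤ n ^ (1 / Real.logb 2 c) →
      (w : ℝ) ≤ n ^ (1 / Real.logb 2 c) → pB ≤ pA →
      ∀ μ : PMF (Algorithm F n d m q w pA pB P),
        (∀ x : Input n d, IsValid x → 2 / 3 ≤ μ.toOuterMeasure {C | C.CorrectOn x}) →
        κ * (n : ℝ) ^ (2 - K / Real.logb 2 c) ≤ (pA : ℝ) * pB + m := by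
  classical
  refine ⟨48, (1 / 2) ^ 224, by norm_num, by positivity, ?_⟩
  intro c hc n d m q w pA pB P F _ hn hd hq hw hpp μ hμ
  obtain ⟨Lc, hLc⟩ : ∃ Lc, Lc = Real.logb 2 c := ⟨_, rfl⟩
  obtain ⟨ℓ, hℓ⟩ : ∃ ℓ, ℓ = Real.logb 2 n := ⟨_, rfl⟩
  rw [← hLc] at hq hw ⊢
  rw [← hℓ] at hd
  have hcpos : 0 < c := by linarith
  have hnpos : (0 : ℝ) < n := by exact_mod_cast (by omega : 0 < n)
  have hn1 : (1 : ℝ) ≤ n := by exact_mod_cast (by omega : 1 ≤ n)
  have hn0 : 0 < n := by omega
  have hLc1 : 1 ≤ Lc := by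
    rw [hLc, Real.le_logb_iff_rpow_le (by norm_num) hcpos]
    simpa using hc
  have hLcpos : 0 < Lc := by linarith
  have hℓ1 : 1 ≤ ℓ := by
    rw [hℓ, Real.le_logb_iff_rpow_le (by norm_num) hnpos]
    simpa using (by exact_mod_cast hn : (2 : ℝ) ≤ n)
  have hn2 : (n : ℝ) = (2 : ℝ) ^ ℓ := by
    rw [hℓ, Real.rpow_logb (by norm_num) (by norm_num) hnpos]
  have hpB : (1 : ℝ) ≤ pB := by
    have : 0 < pB := lt_of_le_of_lt (Nat.zero_le _) (P.groupB ⟨0, hn0⟩).2
    exact_mod_cast this
  have hpA : (1 : ℝ) ≤ pA := hpB.trans (by exact_mod_cast hpp)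
  have hm0 : (0 : ℝ) ≤ m := Nat.cast_nonneg _
  have hpp1 : (1 : ℝ) ≤ (pA : ℝ) * pB := by nlinarith
  have hκ1 : ((1 : ℝ) / 2) ^ 224 ≤ 1 := pow_le_one₀ (by norm_num) (by norm_num)
  have hexp : (n : ℝ) ^ (2 - 48 / Lc) ≤ (n : ℝ) ^ 2 := by
    have h1 : (n : ℝ) ^ (2 : ℝ) = (n : ℝ) ^ (2 : ℕ) := by norm_cast
    rw [← h1]
    apply Real.rpow_le_rpow_of_exponent_le hn1
    have : 0 ≤ 48 / Lc := by positivity
    linarith
  -- the trivial case
  by_cases hLc16 : Lc < 16
  · have h1 : (n : ℝ) ^ (2 - 48 / Lc) ≤ 1 := by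
      apply Real.rpow_le_one_of_one_le_of_nonpos hn1
      have h2 : 3 ≤ 48 / Lc := by
        rw [le_div_iff₀ hLcpos]
        linarith
      linarith
    have h2 : ((1 : ℝ) / 2) ^ 224 * (n : ℝ) ^ (2 - 48 / Lc) ≤ 1 := by
      calc ((1 : ℝ) / 2) ^ 224 * (n : ℝ) ^ (2 - 48 / Lc) ≤ 1 * 1 := by
            gcongr
        _ = 1 := by norm_num
    linarith
  push Not at hLc16
  have hc16 : (2 : ℝ) ^ (16 : ℕ) ≤ c := by
    have h1 := (Real.le_logb_iff_rpow_le (b := 2) (by norm_num) hcpos).1 (hLc ▸ hLc16)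
    calc (2 : ℝ) ^ (16 : ℕ) = (2 : ℝ) ^ (16 : ℝ) := by norm_cast
      _ ≤ c := h1
  obtain ⟨J0, hJ0⟩ := exists_group P hn0
  obtain ⟨s, hs⟩ : ∃ s, s = (Finset.univ.filter fun i => P.groupB i = J0).card := ⟨_, rfl⟩
  rw [← hs] at hJ0
  have hs0 : s ≠ 0 := by
    rintro rfl
    omega
  have hsn : s ≤ n := by
    rw [hs]
    refine (Finset.card_le_univ _).trans ?_
    simp
  obtain ⟨j, hj⟩ : ∃ j, j = Nat.log 2 s / 8 := ⟨_, rfl⟩
  have hj1 : 2 ^ (8 * j) ≤ s := by
    calc 2 ^ (8 * j) ≤ 2 ^ Nat.log 2 s := Nat.pow_le_pow_right (by norm_num) (by omega)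
      _ ≤ s := Nat.pow_log_le_self 2 hs0
  have hj2 : s ≤ 2 ^ (8 * j + 8) := by
    calc s ≤ 2 ^ (Nat.log 2 s + 1) := (Nat.lt_pow_succ_log_self (by norm_num) s).le
      _ ≤ 2 ^ (8 * j + 8) := Nat.pow_le_pow_right (by norm_num) (by omega)
  -- short keys
  by_cases hj14 : j < 14
  · have h1 : (s : ℝ) ≤ 2 ^ 112 := by
      have h2 : s ≤ 2 ^ 112 := hj2.trans (Nat.pow_le_pow_right (by norm_num) (by omega))
      exact_mod_cast h2
    have h2 := few_groups hJ0 hpp h1
    have h3 : ((1 : ℝ) / 2) ^ 224 * (n : ℝ) ^ 2 ≤ pA * pB := by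
      have h4 : ((1 : ℝ) / 2) ^ 224 * ((2 : ℝ) ^ 112) ^ 2 = 1 := by norm_num
      calc ((1 : ℝ) / 2) ^ 224 * (n : ℝ) ^ 2
          ≤ ((1 : ℝ) / 2) ^ 224 * (pA * pB * (2 ^ 112) ^ 2) := by gcongr
        _ = pA * pB * (((1 : ℝ) / 2) ^ 224 * ((2 : ℝ) ^ 112) ^ 2) := by ring
        _ = pA * pB := by rw [h4, mul_one]
    have h5 : ((1 : ℝ) / 2) ^ 224 * (n : ℝ) ^ (2 - 48 / Lc) ≤
        ((1 : ℝ) / 2) ^ 224 * (n : ℝ) ^ 2 := by gcongr
    linarith
  push Not at hj14
  -- small groups
  by_cases hjL : ((j : ℝ) + 1) * Lc ≤ 3 * ℓ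
  · have h1 : (s : ℝ) ≤ (n : ℝ) ^ (24 / Lc) := by
      have h2 : (s : ℝ) ≤ (2 : ℝ) ^ ((8 * j + 8 : ℕ) : ℝ) := by
        rw [Real.rpow_natCast]
        exact_mod_cast hj2
      refine h2.trans ?_
      rw [hn2, ← Real.rpow_mul (by norm_num)]
      apply Real.rpow_le_rpow_of_exponent_le (by norm_num)
      rw [← mul_div_assoc, le_div_iff₀ hLcpos]
      push_cast
      linarith
    have h2 := few_groups hJ0 hpp h1
    have h3 : (n : ℝ) ^ (2 - 48 / Lc) ≤ pA * pB := by
      have h4 : ((n : ℝ) ^ (24 / Lc)) ^ 2 = (n : ℝ) ^ (48 / Lc) := by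
        rw [← Real.rpow_natCast, ← Real.rpow_mul hnpos.le]
        congr 1
        push_cast
        ring
      rw [h4] at h2
      have h5 : (0 : ℝ) < (n : ℝ) ^ (48 / Lc) := Real.rpow_pos_of_pos hnpos _
      rw [Real.rpow_sub hnpos, div_le_iff₀ h5]
      have h6 : (n : ℝ) ^ (2 : ℝ) = (n : ℝ) ^ (2 : ℕ) := by norm_cast
      rw [h6]
      exact h2
    have h6 : ((1 : ℝ) / 2) ^ 224 * (n : ℝ) ^ (2 - 48 / Lc) ≤ (n : ℝ) ^ (2 - 48 / Lc) := by
      have h7 : (0 : ℝ) ≤ (n : ℝ) ^ (2 - 48 / Lc) := Real.rpow_nonneg hnpos.le _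
      calc ((1 : ℝ) / 2) ^ 224 * (n : ℝ) ^ (2 - 48 / Lc) ≤ 1 * (n : ℝ) ^ (2 - 48 / Lc) := by
            gcongr
        _ = _ := one_mul _
    linarith
  push Not at hjL
  -- the main case
  have hjℓ : (8 * j : ℝ) ≤ ℓ := by
    have h1 : ((2 : ℝ) ^ (8 * j) : ℝ) ≤ n := by exact_mod_cast hj1.trans hsn
    rw [hℓ, Real.le_logb_iff_rpow_le (by norm_num) hnpos]
    have h2 : (2 : ℝ) ^ ((8 : ℝ) * j) = (2 : ℝ) ^ (8 * j) := by
      rw [← Real.rpow_natCast]
      congr 1
      push_cast
      ring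
    rw [h2]
    exact h1
  have hj14r : (14 : ℝ) ≤ j := by exact_mod_cast hj14
  have hℓ112 : 112 ≤ ℓ := by linarith
  obtain ⟨L, hL⟩ : ∃ L, L = Nat.clog 2 n := ⟨_, rfl⟩
  have hnL : n ≤ 2 ^ L := by rw [hL]; exact Nat.le_pow_clog (by norm_num) n
  have hLℓ : (L : ℝ) ≤ ℓ + 1 := by
    have h1 : 2 ^ (L - 1) < n := by
      rw [hL]
      exact Nat.pow_pred_clog_lt_self (by norm_num) (by omega)
    have h2 : ((L - 1 : ℕ) : ℝ) ≤ ℓ := by
      rw [hℓ, Real.le_logb_iff_rpow_le (by norm_num) hnpos, Real.rpow_natCast]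
      exact_mod_cast h1.le
    have h3 : (L : ℝ) ≤ ((L - 1 : ℕ) : ℝ) + 1 := by
      have : L ≤ L - 1 + 1 := by omega
      exact_mod_cast this
    linarith
  have hc12 : 12 ≤ c := le_trans (by norm_num) hc16
  have hLd : L + 2 ≤ d := by
    have h1 : ((L + 2 : ℕ) : ℝ) ≤ d := by
      push_cast
      refine le_trans ?_ hd
      nlinarith
    exact_mod_cast h1
  have hDl := D_large hc12 hℓ1 hd hLℓ hjℓ (by omega) hLd
  obtain ⟨D, hD⟩ : ∃ D, D = (d - (L + 2)) / (16 * j) := ⟨_, rfl⟩
  rw [← hD] at hDl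
  have hD2 : 2 ≤ D := by
    have h1 : (2 : ℝ) ≤ D := by
      refine le_trans ?_ hDl
      have : (8 : ℝ) ≤ c := by linarith
      linarith
    exact_mod_cast h1
  have hdD : L + 2 + Fintype.card ((Fin (8 * j) × Bool) × Fin D) ≤ d := by
    simp only [Fintype.card_prod, Fintype.card_fin, Fintype.card_bool]
    have h1 : 16 * j * D ≤ d - (L + 2) := by
      rw [hD]
      exact Nat.mul_div_le _ _
    have h2 : 8 * j * 2 * D = 16 * j * D := by ring
    rw [h2]
    omega
  obtain ⟨code, hcode⟩ := exists_code hnL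
  obtain ⟨⟨e, he⟩⟩ : Nonempty ((Fin (8 * j) → Bool) ↪ {i : Fin n // P.groupB i = J0}) := by
    apply Function.Embedding.nonempty_of_card_le
    rw [Fintype.card_subtype, ← hs]
    simpa using hj1
  have hpos : Function.Injective fun v => (e v).1 := fun v v' h => he (Subtype.ext h)
  obtain ⟨C, -, hC⟩ := exists_good μ
    (fun C (τ : Trip j D) => C.CorrectOn (inst d code (fun v => (e v).1) τ.1 τ.2.1 τ.2.2))
    (fun τ => hμ _ (inst_valid hcode hdD τ.1 τ.2.1 τ.2.2))
  have hq2 := sq_le_two_pow hℓ hn hq hLcpos (by omega) hjL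
  have hw2 := sq_le_two_pow hℓ hn hw hLcpos (by omega) hjL
  have hcore := core (code := code) (pos := fun v => (e v).1) C hn0 hj14 hD2 hq2 hw2 hdD J0
    (fun v => (e v).2) hpos hC
  have hfin := main_case hc16 hLc hℓ hn hℓ112 hjL hDl hcore
  have h5 : ((1 : ℝ) / 2) ^ 224 * (n : ℝ) ^ (2 - 48 / Lc) ≤ 1 * (n : ℝ) ^ 2 := by
    gcongr
  linarith

/-- The upper bound. -/
theorem upper : ∃ δ : ℝ, 0 < δ ∧ ∀ (c : ℝ), 2 ≤ c → ∃ n0 : ℕ, ∀ n d : ℕ, n0 ≤ n →
    (d : ℝ) ≤ c * Real.logb 2 n →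
    ∃ (m q p : ℕ) (P : Partition n p p) (μ : PMF (Algorithm (ZMod 2) n d m q 0 p p P)),
      (q : ℝ) ≤ n ^ (1 / Real.logb 2 c) ∧
      (∀ x : Input n d, 2 / 3 ≤ μ.toOuterMeasure {C | C.CorrectOn x}) ∧
      (p : ℝ) * p + m ≤ n ^ (2 - δ / Real.logb 2 c) := by
  refine ⟨1 / 64, by norm_num, fun c hc => ?_⟩
  obtain ⟨n0, hn0, hpar⟩ := exists_params hc
  refine ⟨n0, fun n d hn hd => ?_⟩
  obtain ⟨g, r, hgn, hdim, hq, hcost⟩ := hpar n hn
  have hn' : 0 < n := by omega
  have hs : 0 < 2 ^ g := by positivity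
  have ht : 64 * (2 ^ g) ^ 2 ≤ 2 ^ (2 * g + 6) := by
    rw [pow_add, mul_comm 2 g, pow_mul]
    norm_num
    rw [mul_comm]
  have hdt : d ≤ 2 ^ r * (2 * g + 6) := by
    have h1 : (d : ℝ) ≤ 2 ^ r * (2 * g + 6 : ℕ) := hd.trans hdim
    exact_mod_cast h1
  refine ⟨_, _, _, _, (PMF.uniformOfFintype
    (Fin (8 * (4 * Nat.clog 2 n + 4)) → Om d (2 ^ g) (2 * g + 6))).map
      (awy n d (2 ^ g) (2 * g + 6) (4 * Nat.clog 2 n + 4) hn'), hq,
      fun x => awy_prob hn' hs ht x, ?_⟩
  refine le_trans ?_ hcost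
  have h1 : Fintype.card (Fin (2 ^ g) × {T : Finset (Fin d) // T.card ≤ 2 * g + 6}) ≤
      2 ^ g * 2 ^ ((r + 2) * (2 * g + 6)) := by
    rw [Fintype.card_prod, Fintype.card_fin]
    exact Nat.mul_le_mul_left _ (card_low hdt)
  have h2 : ((Fintype.card (Fin (2 ^ g) × {T : Finset (Fin d) // T.card ≤ 2 * g + 6}) : ℕ) : ℝ) ≤
      ((2 ^ g * 2 ^ ((r + 2) * (2 * g + 6)) : ℕ) : ℝ) := by exact_mod_cast h1
  linarith

/-- **The Orthogonal Vectors hypothesis for the polynomial method, with the optimal exponent.** -/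
theorem result :
    (∃ K κ : ℝ, 0 < K ∧ 0 < κ ∧ ∀ (c : ℝ), 2 ≤ c →
      ∀ (n d m q w pA pB : ℕ) (P : Partition n pA pB) (F : Type) [Field F],
        2 ≤ n → c * Real.logb 2 n ≤ d → (q : ℝ) ≤ n ^ (1 / Real.logb 2 c) →
        (w : ℝ) ≤ n ^ (1 / Real.logb 2 c) → pB ≤ pA →
        ∀ μ : PMF (Algorithm F n d m q w pA pB P),
          (∀ x : Input n d, IsValid x → 2 / 3 ≤ μ.toOuterMeasure {C | C.CorrectOn x}) →
          κ * (n : ℝ) ^ (2 - K / Real.logb 2 c) ≤ (pA : ℝ) * pB + m) ∧
    (∃ δ : ℝ, 0 < δ ∧ ∀ (c : ℝ), 2 ≤ c → ∃ n0 : ℕ, ∀ n d : ℕ, n0 ≤ n →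
      (d : ℝ) ≤ c * Real.logb 2 n →
      ∃ (m q p : ℕ) (P : Partition n p p) (μ : PMF (Algorithm (ZMod 2) n d m q 0 p p P)),
        (q : ℝ) ≤ n ^ (1 / Real.logb 2 c) ∧
        (∀ x : Input n d, 2 / 3 ≤ μ.toOuterMeasure {C | C.CorrectOn x}) ∧
        (p : ℝ) * p + m ≤ n ^ (2 - δ / Real.logb 2 c)) :=
  ⟨lower, upper⟩

end Pool.Agent.Results.MP_0f984e_lc.PolynomialMethod
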