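import Mathlib

set_option autoImplicit false

namespace Pool.Agent.H58.Old.RandomizedBranching

/-! ### Orthogonal Vectors -/

/-- Positions of the `2n` input vectors: `(false, i)` is the `i`-th vector of `A`, and
`(true, j)` is the `j`-th vector of `B`. -/
abbrev Pos (n : ℕ) : Type := Bool × Fin n

/-- Vectors in `{0,1}^d`. -/
abbrev Vec (d : ℕ) : Type := Fin d → Bool

/-- An input: `n` vectors of `A` and `n` vectors of `B`, all in `{0,1}^d`. -/
abbrev Input (n d : ℕ) : Type := Pos n → Vec d

/-- Valid inputs: each of the two sets is listed in strictly increasing lexicographic order (so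
each consists of exactly `n` distinct vectors, written in the canonical order). -/
def IsValid {n d : ℕ} (x : Input n d) : Prop :=
  StrictMono (fun i : Fin n => toLex (x (false, i))) ∧
  StrictMono (fun j : Fin n => toLex (x (true, j)))

/-- The answer to the Orthogonal Vectors question: some vector of `A` and some vector of `B` have
inner product `0` over the integers. -/
def HasOrthogonalPair {n d : ℕ} (x : Input n d) : Prop :=
  ∃ i j : Fin n, ∑ k : Fin d, (x (false, i) k).toNat * (x (true, j) k).toNat = 0

/-! ### Branching programs -/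

/-- A branching program with `size` inner nodes. Every inner node evaluates an arbitrary
`R`-valued function `query` of one whole input vector (the one at position `pos`), and moves,
according to the value, to another inner node or to one of the two outputs. Cycles are
allowed. -/
structure Program (n d R : ℕ) where
  /-- number of inner nodes -/
  size : ℕ
  /-- the position of the vector which is looked at -/
  pos : Fin size → Pos n
  /-- the function of this vector which is evaluated -/
  query : Fin size → Vec d → Fin R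
  /-- the next node, or an output -/
  next : Fin size → Fin R → Fin size ⊕ Bool
  /-- the start node (or a constant output) -/
  start : Fin size ⊕ Bool

variable {n d R : ℕ}

/-- One step of the computation on input `x`; outputs are final. -/
def Program.step (P : Program n d R) (x : Input n d) :
    Fin P.size ⊕ Bool → Fin P.size ⊕ Bool
  | Sum.inl v => P.next v (P.query v (x (P.pos v)))
  | Sum.inr b => Sum.inr b

/-- The program reaches the output `b` on input `x`. -/
def Program.Outputs (P : Program n d R) (x : Input n d) (b : Bool) : Prop :=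
  ∃ t : ℕ, (P.step x)^[t] P.start = Sum.inr b

/-- The program answers the Orthogonal Vectors question correctly on input `x`. -/
def Program.CorrectOn (P : Program n d R) (x : Input n d) : Prop :=
  (HasOrthogonalPair x → P.Outputs x true) ∧ (¬ HasOrthogonalPair x → P.Outputs x false)

/-! ### Restriction to one vector -/

theorem Program.iterate_step_inr (P : Program n d R) (x : Input n d) (b : Bool) (t : ℕ) :
    (P.step x)^[t] (Sum.inr b) = Sum.inr b := by
  induction t with
  | zero => rfl
  | succ t ih => rw [Function.iterate_succ_apply']; rw [ih]; rfl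

theorem Program.outputs_unique (P : Program n d R) (x : Input n d) {b c : Bool}
    (hb : P.Outputs x b) (hc : P.Outputs x c) : b = c := by
  obtain ⟨t, ht⟩ := hb
  obtain ⟨u, hu⟩ := hc
  have h1 : (P.step x)^[u + t] P.start = Sum.inr b := by
    rw [Function.iterate_add_apply, ht, P.iterate_step_inr]
  have h2 : (P.step x)^[u + t] P.start = Sum.inr c := by
    rw [add_comm, Function.iterate_add_apply, hu, P.iterate_step_inr]
  rw [h1] at h2
  exact Sum.inr.inj h2

/-- Nodes which look at position `p`. -/
abbrev Program.NodesAt (P : Program n d R) (p : Pos n) : Type := {v : Fin P.size // P.pos v = p}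

/-- The step which stops at nodes looking at `p`. -/
def Program.skipStep (P : Program n d R) (p : Pos n) (x : Input n d) :
    Fin P.size ⊕ Bool → Fin P.size ⊕ Bool
  | Sum.inl v => if P.pos v = p then Sum.inl v else P.next v (P.query v (x (P.pos v)))
  | Sum.inr b => Sum.inr b

def Program.toStop (P : Program n d R) (p : Pos n) :
    Fin P.size ⊕ Bool → Option (P.NodesAt p ⊕ Bool)
  | Sum.inl v => if h : P.pos v = p then some (Sum.inl ⟨v, h⟩) else none
  | Sum.inr b => some (Sum.inr b)

theorem Program.toStop_inj (P : Program n d R) (p : Pos n) {z z' : Fin P.size ⊕ Bool}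
    {σ : P.NodesAt p ⊕ Bool} (h : P.toStop p z = some σ) (h' : P.toStop p z' = some σ) :
    z = z' := by
  rcases z with v | b <;> rcases z' with v' | b'
  · by_cases hv : P.pos v = p <;> by_cases hv' : P.pos v' = p
    · simp only [Program.toStop, hv, hv', dif_pos] at h h'
      rw [← h'] at h
      simp at h
      rw [h]
    · simp [Program.toStop, hv'] at h'
    · simp [Program.toStop, hv] at h
    · simp [Program.toStop, hv] at h
  · by_cases hv : P.pos v = p
    · simp only [Program.toStop, hv, dif_pos] at h h'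
      rw [← h'] at h
      simp at h
    · simp [Program.toStop, hv] at h
  · by_cases hv' : P.pos v' = p
    · simp only [Program.toStop, hv', dif_pos] at h h'
      rw [← h'] at h
      simp at h
    · simp [Program.toStop, hv'] at h'
  · simp only [Program.toStop] at h h'
    rw [← h'] at h
    simpa using h

open Classical in
/-- Follow the computation until a node looking at `p` or an output is reached. -/
noncomputable def Program.skip (P : Program n d R) (p : Pos n) (x : Input n d)
    (w : Fin P.size ⊕ Bool) : Option (P.NodesAt p ⊕ Bool) :=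
  if h : ∃ k, (P.toStop p ((P.skipStep p x)^[k] w)).isSome then
    P.toStop p ((P.skipStep p x)^[Nat.find h] w) else none

theorem Program.skipStep_congr (P : Program n d R) (p : Pos n) {x y : Input n d}
    (h : ∀ q, q ≠ p → x q = y q) : P.skipStep p x = P.skipStep p y := by
  funext w
  rcases w with v | b
  · by_cases hv : P.pos v = p
    · simp [Program.skipStep, hv]
    · simp [Program.skipStep, hv, h _ hv]
  · rfl

theorem Program.iterate_step_eq (P : Program n d R) (p : Pos n) (x : Input n d)
    (w : Fin P.size ⊕ Bool) (k : ℕ)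
    (h : ∀ i < k, ¬ (P.toStop p ((P.skipStep p x)^[i] w)).isSome) :
    (P.step x)^[k] w = (P.skipStep p x)^[k] w := by
  induction k with
  | zero => rfl
  | succ k ih =>
    rw [Function.iterate_succ_apply', Function.iterate_succ_apply', ih (fun i hi => h i (by omega))]
    have hk := h k (by omega)
    generalize (P.skipStep p x)^[k] w = z at hk
    rcases z with v | b
    · by_cases hv : P.pos v = p
      · simp [Program.toStop, hv] at hk
      · simp [Program.step, Program.skipStep, hv]
    · simp [Program.toStop] at hk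

/-- The signature of the restriction of the program to the vector at position `p`. -/
noncomputable def Program.sig (P : Program n d R) (p : Pos n) (x : Input n d) :
    Option (P.NodesAt p ⊕ Bool) × (P.NodesAt p → Fin R → Option (P.NodesAt p ⊕ Bool)) :=
  (P.skip p x P.start, fun v r => P.skip p x (P.next v.1 r))

theorem Program.skip_spec (P : Program n d R) (p : Pos n) (x : Input n d)
    (w : Fin P.size ⊕ Bool) {σ : P.NodesAt p ⊕ Bool} (h : P.skip p x w = some σ) :
    ∃ k, (P.step x)^[k] w = (P.skipStep p x)^[k] w ∧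
      P.toStop p ((P.step x)^[k] w) = some σ := by
  classical
  unfold Program.skip at h
  split_ifs at h with hex
  have h1 := P.iterate_step_eq p x w (Nat.find hex) (fun i hi => Nat.find_min hex hi)
  exact ⟨_, h1, by rw [h1]; convert h⟩

theorem Program.outputs_aux (P : Program n d R) (p : Pos n) (x y : Input n d)
    (hp : x p = y p)
    (hnext : ∀ (v : P.NodesAt p) (r : Fin R),
      P.skip p x (P.next v.1 r) = P.skip p y (P.next v.1 r)) (b : Bool) :
    ∀ (t : ℕ) (w w' : Fin P.size ⊕ Bool), P.skip p x w = P.skip p y w' →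
      (P.step x)^[t] w = Sum.inr b → ∃ t', (P.step y)^[t'] w' = Sum.inr b := by
  classical
  intro t
  induction t using Nat.strong_induction_on with
  | _ t ih =>
    intro w w' hww ht
    have hex : ∃ k, (P.toStop p ((P.skipStep p x)^[k] w)).isSome := by
      by_contra hcon
      push Not at hcon
      have h1 := P.iterate_step_eq p x w t (fun i _ => hcon i)
      have h2 := hcon t
      rw [← h1, ht] at h2
      simp [Program.toStop] at h2
    have hkt : Nat.find hex ≤ t := by
      by_contra hcon
      rw [not_le] at hcon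
      have h1 := P.iterate_step_eq p x w t (fun i hi => Nat.find_min hex (hi.trans hcon))
      have h2 := Nat.find_min hex hcon
      rw [← h1, ht] at h2
      simp [Program.toStop] at h2
    have hgk := P.iterate_step_eq p x w (Nat.find hex) (fun i hi => Nat.find_min hex hi)
    obtain ⟨σ, hσ⟩ := Option.isSome_iff_exists.1 (Nat.find_spec hex)
    have hskip : P.skip p x w = some σ := by
      unfold Program.skip
      rw [dif_pos hex]
      convert hσ
    rw [hskip] at hww
    obtain ⟨k', hk1, hk2⟩ := P.skip_spec p y w' hww.symm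
    set k := Nat.find hex with hk
    rw [← hgk] at hσ
    have hzz := P.toStop_inj p hσ hk2
    obtain ⟨u, rfl⟩ := Nat.exists_eq_add_of_le hkt
    rw [add_comm, Function.iterate_add_apply] at ht
    rcases hz : (P.step x)^[k] w with v | c
    · -- a node looking at `p`
      rw [hz] at ht hzz hσ
      have hv : P.pos v = p := by
        by_contra hv
        simp [Program.toStop, hv] at hσ
      rcases u with _ | u
      · simp at ht
      · rw [Function.iterate_succ_apply] at ht
        have hstep : P.step x (Sum.inl v) = P.next v (P.query v (x (P.pos v))) := rfl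
        rw [hstep, hv] at ht
        obtain ⟨t', ht'⟩ := ih u (by omega) _ _ (hnext ⟨v, hv⟩ (P.query v (x p))) ht
        refine ⟨t' + (k' + 1), ?_⟩
        rw [Function.iterate_add_apply, Function.iterate_succ_apply', ← hzz]
        have hstep' : P.step y (Sum.inl v) = P.next v (P.query v (y (P.pos v))) := rfl
        rw [hstep', hv, ← hp]
        exact ht'
    · rw [hz, P.iterate_step_inr] at ht
      rw [hz, ht] at hzz
      exact ⟨k', hzz.symm⟩

/-- Programs with equal signatures at `p` and equal vectors at `p` have equal outputs. -/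
theorem Program.outputs_of_sig (P : Program n d R) (p : Pos n) (x y : Input n d)
    (hp : x p = y p) (hsig : P.sig p x = P.sig p y) (b : Bool) (h : P.Outputs x b) :
    P.Outputs y b := by
  obtain ⟨t, ht⟩ := h
  have h1 : P.skip p x P.start = P.skip p y P.start := (Prod.ext_iff.1 hsig).1
  have h2 := (Prod.ext_iff.1 hsig).2
  exact P.outputs_aux p x y hp (fun v r => congrFun (congrFun h2 v) r) b t _ _ h1 ht

theorem Program.sig_congr (P : Program n d R) (p : Pos n) {x y : Input n d}
    (h : ∀ q, q ≠ p → x q = y q) : P.sig p x = P.sig p y := by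
  unfold Program.sig Program.skip
  rw [P.skipStep_congr p h]


/-! ### The hard instances -/

/-- A strictly increasing list of `n ≤ 2^m` vectors of length `m`. -/
theorem exists_code {n m : ℕ} (h : n ≤ 2 ^ m) :
    ∃ code : Fin n → Fin m → Bool, ∀ i j, i < j →
      ∃ k : Fin m, (∀ l < k, code i l = code j l) ∧ code i k = false ∧ code j k = true := by
  classical
  have hcard : Fintype.card (Lex (Fin m → Bool)) = 2 ^ m := by
    rw [Fintype.card_lex, Fintype.card_fun, Fintype.card_bool, Fintype.card_fin]
  let e : Fin (2 ^ m) ≃o Lex (Fin m → Bool) := Fintype.orderIsoFinOfCardEq _ hcard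
  refine ⟨fun i => ofLex (e (Fin.castLE h i)), fun i j hij => ?_⟩
  have h1 := e.strictMono (show Fin.castLE h i < Fin.castLE h j from hij)
  obtain ⟨k, hk1, hk2⟩ := h1
  refine ⟨k, hk1, ?_⟩
  have hk3 : (ofLex (e (Fin.castLE h i)) k : Bool) < ofLex (e (Fin.castLE h j)) k := hk2
  rw [Bool.lt_iff] at hk3
  exact hk3

/-- The vectors of `A` in the hard instances. -/
def vecA {n m : ℕ} (d : ℕ) (code : Fin n → Fin m → Bool) (b : Fin n → Bool) (j : Fin n) :
    Vec d := fun k =>
  if k.1 = m then true
  else if h : m + 1 ≤ k.1 ∧ k.1 < 2 * m + 1 then code j ⟨k.1 - (m + 1), by omega⟩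
  else if h : 2 * m + 1 ≤ k.1 ∧ k.1 < 3 * m + 1 then !(code j ⟨k.1 - (2 * m + 1), by omega⟩)
  else if k.1 = 3 * m + 1 then !(b j)
  else false

/-- The vectors of `B` which meet all vectors of `A`. -/
def vecB {n m : ℕ} (d : ℕ) (code : Fin n → Fin m → Bool) (q : Fin n) : Vec d := fun k =>
  if h : k.1 < m then code q ⟨k.1, h⟩
  else if k.1 = m then true
  else false

/-- The special vector of `B`. -/
def vecS {n m : ℕ} (d : ℕ) (code : Fin n → Fin m → Bool) (i j : Fin n) : Vec d := fun k =>
  if h : k.1 < m then code i ⟨k.1, h⟩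
  else if h : m + 1 ≤ k.1 ∧ k.1 < 2 * m + 1 then !(code j ⟨k.1 - (m + 1), by omega⟩)
  else if h : 2 * m + 1 ≤ k.1 ∧ k.1 < 3 * m + 1 then code j ⟨k.1 - (2 * m + 1), by omega⟩
  else if k.1 = 3 * m + 1 then true
  else false

/-- The hard instances. -/
def hard {n m : ℕ} (d : ℕ) (code : Fin n → Fin m → Bool) (i : Fin n) (b : Fin n → Bool)
    (j : Fin n) : Input n d := fun q =>
  if q.1 = false then vecA d code b q.2
  else if q.2 = i then vecS d code i j else vecB d code q.2

theorem sum_toNat_eq_zero_iff {d : ℕ} (u v : Vec d) :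
    ∑ k : Fin d, (u k).toNat * (v k).toNat = 0 ↔ ∀ k, ¬ (u k = true ∧ v k = true) := by
  rw [Finset.sum_eq_zero_iff]
  constructor
  · intro h k ⟨h1, h2⟩
    have := h k (Finset.mem_univ k)
    simp [h1, h2] at this
  · intro h k _
    have := h k
    cases hu : u k <;> cases hv : v k <;> simp_all

theorem hard_valid {n m d : ℕ} (hd : 3 * m + 2 ≤ d) (code : Fin n → Fin m → Bool)
    (hcode : ∀ i j, i < j →
      ∃ k : Fin m, (∀ l < k, code i l = code j l) ∧ code i k = false ∧ code j k = true)
    (i : Fin n) (b : Fin n → Bool) (j : Fin n) : IsValid (hard d code i b j) := by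
  constructor
  · intro p q hpq
    obtain ⟨k, hk1, hk2, hk3⟩ := hcode p q hpq
    refine ⟨⟨m + 1 + k.1, by omega⟩, ?_, ?_⟩
    · intro l hl
      have hl' : l.1 < m + 1 + k.1 := hl
      show vecA d code b p l = vecA d code b q l
      unfold vecA
      by_cases h1 : l.1 = m
      · simp [h1]
      · simp only [h1, if_false]
        by_cases h2 : m + 1 ≤ l.1 ∧ l.1 < 2 * m + 1
        · simp only [h2, dif_pos, and_self]
          exact hk1 ⟨l.1 - (m + 1), by omega⟩ (by rw [Fin.lt_def]; simp; omega)
        · have h3 : ¬ (2 * m + 1 ≤ l.1 ∧ l.1 < 3 * m + 1) := by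
            have := k.2
            omega
          have h4 : ¬ (l.1 = 3 * m + 1) := by
            have := k.2
            omega
          rw [dif_neg h2, dif_neg h3, if_neg h4, dif_neg h2, dif_neg h3, if_neg h4]
    · show vecA d code b p _ < vecA d code b q _
      have h1 : ¬ (m + 1 + k.1 = m) := by omega
      have h2 : m + 1 ≤ m + 1 + k.1 ∧ m + 1 + k.1 < 2 * m + 1 := by
        have := k.2
        omega
      unfold vecA
      simp only [h1, if_false, h2, and_self, dif_pos]
      have h3 : (⟨m + 1 + k.1 - (m + 1), by omega⟩ : Fin m) = k := by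
        ext; simp
      rw [h3, hk2, hk3]
      decide
  · intro p q hpq
    obtain ⟨k, hk1, hk2, hk3⟩ := hcode p q hpq
    have hpre : ∀ (r : Fin n) (l : Fin d) (hl : l.1 < m),
        hard d code i b j (true, r) l = code r ⟨l.1, hl⟩ := by
      intro r l hl
      by_cases hr : r = i
      · subst hr
        simp [hard, vecS, hl]
      · simp [hard, hr, vecB, hl]
    refine ⟨⟨k.1, by omega⟩, ?_, ?_⟩
    · intro l hl
      have hl' : l.1 < k.1 := hl
      show hard d code i b j (true, p) l = hard d code i b j (true, q) l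
      rw [hpre p l (by omega), hpre q l (by omega)]
      exact hk1 _ (by rw [Fin.lt_def]; exact hl')
    · show hard d code i b j (true, p) _ < hard d code i b j (true, q) _
      rw [hpre p _ k.2, hpre q _ k.2]
      have h3 : (⟨k.1, k.2⟩ : Fin m) = k := rfl
      rw [h3, hk2, hk3]
      decide

theorem hard_hasOrthogonalPair {n m d : ℕ} (hd : 3 * m + 2 ≤ d) (code : Fin n → Fin m → Bool)
    (hcode : ∀ i j, i < j →
      ∃ k : Fin m, (∀ l < k, code i l = code j l) ∧ code i k = false ∧ code j k = true)
    (i : Fin n) (b : Fin n → Bool) (j : Fin n) :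
    HasOrthogonalPair (hard d code i b j) ↔ b j = true := by
  have hinj : ∀ p q, code p = code q → p = q := by
    intro p q hpq
    rcases lt_trichotomy p q with h | h | h
    · obtain ⟨k, _, h2, h3⟩ := hcode p q h
      rw [hpq, h3] at h2
      simp at h2
    · exact h
    · obtain ⟨k, _, h2, h3⟩ := hcode q p h
      rw [hpq, h2] at h3
      simp at h3
  unfold HasOrthogonalPair
  simp only [sum_toNat_eq_zero_iff]
  constructor
  · rintro ⟨p, q, hpq⟩
    have hq : q = i := by
      by_contra hq
      apply hpq ⟨m, by omega⟩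
      constructor
      · simp [hard, vecA]
      · simp [hard, hq, vecB]
    subst hq
    have hA : ∀ k, hard d code q b j (false, p) k = vecA d code b p k := fun k => by simp [hard]
    have hS : ∀ k, hard d code q b j (true, q) k = vecS d code q j k := fun k => by simp [hard]
    simp only [hA, hS] at hpq
    have hpj : p = j := by
      apply hinj
      funext k
      have hk := k.2
      have h1 := hpq ⟨m + 1 + k.1, by omega⟩
      have h2 := hpq ⟨2 * m + 1 + k.1, by omega⟩
      have e1 : vecA d code b p ⟨m + 1 + k.1, by omega⟩ = code p k := by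
        have c1 : ¬ (m + 1 + k.1 = m) := by omega
        have c2 : m + 1 ≤ m + 1 + k.1 ∧ m + 1 + k.1 < 2 * m + 1 := by omega
        have c3 : (⟨m + 1 + k.1 - (m + 1), by omega⟩ : Fin m) = k := by ext; simp
        unfold vecA
        simp only [c1, if_false, c2, and_self, dif_pos]
        rw [c3]
      have e2 : vecS d code q j ⟨m + 1 + k.1, by omega⟩ = !(code j k) := by
        have c1 : ¬ (m + 1 + k.1 < m) := by omega
        have c2 : m + 1 ≤ m + 1 + k.1 ∧ m + 1 + k.1 < 2 * m + 1 := by omega
        have c3 : (⟨m + 1 + k.1 - (m + 1), by omega⟩ : Fin m) = k := by ext; simp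
        unfold vecS
        simp only [c1, c2, and_self, dif_pos, dif_neg, not_false_iff]
        rw [c3]
      have e3 : vecA d code b p ⟨2 * m + 1 + k.1, by omega⟩ = !(code p k) := by
        have c1 : ¬ (2 * m + 1 + k.1 = m) := by omega
        have c2 : ¬ (m + 1 ≤ 2 * m + 1 + k.1 ∧ 2 * m + 1 + k.1 < 2 * m + 1) := by omega
        have c4 : 2 * m + 1 ≤ 2 * m + 1 + k.1 ∧ 2 * m + 1 + k.1 < 3 * m + 1 := by omega
        have c3 : (⟨2 * m + 1 + k.1 - (2 * m + 1), by omega⟩ : Fin m) = k := by ext; simp
        unfold vecA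
        simp only [c1, if_false, c2, dif_neg, not_false_iff, c4, and_self, dif_pos]
        rw [c3]
      have e4 : vecS d code q j ⟨2 * m + 1 + k.1, by omega⟩ = code j k := by
        have c1 : ¬ (2 * m + 1 + k.1 < m) := by omega
        have c2 : ¬ (m + 1 ≤ 2 * m + 1 + k.1 ∧ 2 * m + 1 + k.1 < 2 * m + 1) := by omega
        have c4 : 2 * m + 1 ≤ 2 * m + 1 + k.1 ∧ 2 * m + 1 + k.1 < 3 * m + 1 := by omega
        have c3 : (⟨2 * m + 1 + k.1 - (2 * m + 1), by omega⟩ : Fin m) = k := by ext; simp
        unfold vecS
        simp only [c1, c2, dif_neg, not_false_iff, c4, and_self, dif_pos]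
        rw [c3]
      rw [e1, e2] at h1
      rw [e3, e4] at h2
      cases hc1 : code p k <;> cases hc2 : code j k <;> simp_all
    subst hpj
    have h1 := hpq ⟨3 * m + 1, by omega⟩
    have e1 : vecA d code b p ⟨3 * m + 1, by omega⟩ = !(b p) := by
      have c1 : ¬ (3 * m + 1 = m) := by omega
      have c2 : ¬ (m + 1 ≤ 3 * m + 1 ∧ 3 * m + 1 < 2 * m + 1) := by omega
      have c4 : ¬ (2 * m + 1 ≤ 3 * m + 1 ∧ 3 * m + 1 < 3 * m + 1) := by omega
      unfold vecA
      simp only [c1, if_false, c2, dif_neg, not_false_iff, c4, if_true]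
    have e2 : vecS d code q p ⟨3 * m + 1, by omega⟩ = true := by
      have c1 : ¬ (3 * m + 1 < m) := by omega
      have c2 : ¬ (m + 1 ≤ 3 * m + 1 ∧ 3 * m + 1 < 2 * m + 1) := by omega
      have c4 : ¬ (2 * m + 1 ≤ 3 * m + 1 ∧ 3 * m + 1 < 3 * m + 1) := by omega
      unfold vecS
      simp only [c1, c2, dif_neg, not_false_iff, c4, if_true]
    rw [e1, e2] at h1
    cases hb : b p
    · simp [hb] at h1
    · rfl
  · intro hb
    refine ⟨j, i, ?_⟩
    intro k
    have hA : hard d code i b j (false, j) k = vecA d code b j k := by simp [hard]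
    have hS : hard d code i b j (true, i) k = vecS d code i j k := by simp [hard]
    rw [hA, hS]
    rintro ⟨h1, h2⟩
    unfold vecA at h1
    unfold vecS at h2
    by_cases c0 : k.1 = m
    · have c1 : ¬ (k.1 < m) := by omega
      have c2 : ¬ (m + 1 ≤ k.1 ∧ k.1 < 2 * m + 1) := by omega
      have c3 : ¬ (2 * m + 1 ≤ k.1 ∧ k.1 < 3 * m + 1) := by omega
      have c4 : ¬ (k.1 = 3 * m + 1) := by omega
      simp only [c1, c2, c3, c4, dif_neg, not_false_iff, if_false] at h2
      exact absurd h2 (by simp)
    · simp only [c0, if_false] at h1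
      by_cases c2 : m + 1 ≤ k.1 ∧ k.1 < 2 * m + 1
      · have c1 : ¬ (k.1 < m) := by omega
        simp only [c1, c2, and_self, dif_pos, dif_neg, not_false_iff] at h1 h2
        rw [h1] at h2
        simp at h2
      · by_cases c3 : 2 * m + 1 ≤ k.1 ∧ k.1 < 3 * m + 1
        · have c1 : ¬ (k.1 < m) := by omega
          simp only [c1, c2, c3, and_self, dif_pos, dif_neg, not_false_iff] at h1 h2
          rw [h2] at h1
          simp at h1
        · by_cases c4 : k.1 = 3 * m + 1
          · rw [dif_neg c2, dif_neg c3, if_pos c4, hb] at h1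
            simp at h1
          · simp only [c2, c3, dif_neg, not_false_iff, c4, if_false] at h1
            exact absurd h1 (by simp)


/-! ### Counting -/

open Classical in
/-- Hamming balls of radius `2n/5` are small. -/
theorem ball_card {n : ℕ} (g : Fin n → Bool) :
    (Finset.univ.filter fun b : Fin n → Bool =>
      5 * (Finset.univ.filter fun j => g j ≠ b j).card ≤ 2 * n).card ^ 5 ≤ 29 ^ n := by
  set B := Finset.univ.filter fun b : Fin n → Bool =>
      5 * (Finset.univ.filter fun j => g j ≠ b j).card ≤ 2 * n with hB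
  have hsum : ∑ b : Fin n → Bool, ∏ j, (if g j ≠ b j then (2 / 3 : ℝ) else 1) = (5 / 3) ^ n := by
    have h1 := Finset.prod_univ_sum (fun _ : Fin n => (Finset.univ : Finset Bool))
      (fun j c => (if g j ≠ c then (2 / 3 : ℝ) else 1))
    rw [Fintype.piFinset_univ] at h1
    rw [← h1]
    have h2 : ∀ j : Fin n, ∑ c : Bool, (if g j ≠ c then (2 / 3 : ℝ) else 1) = 5 / 3 := by
      intro j
      cases g j <;> simp <;> norm_num
    rw [Finset.prod_congr rfl (fun j _ => h2 j), Finset.prod_const, Finset.card_univ,
      Fintype.card_fin]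
  have hprod : ∀ b : Fin n → Bool, ∏ j, (if g j ≠ b j then (2 / 3 : ℝ) else 1)
      = (2 / 3) ^ (Finset.univ.filter fun j => g j ≠ b j).card := by
    intro b
    rw [Finset.prod_ite, Finset.prod_const, Finset.prod_const, one_pow, mul_one]
  let r := 2 * n / 5
  have hle : (B.card : ℝ) * (2 / 3) ^ r ≤ (5 / 3) ^ n := by
    rw [← hsum]
    calc (B.card : ℝ) * (2 / 3) ^ r = ∑ _b ∈ B, (2 / 3 : ℝ) ^ r := by
            rw [Finset.sum_const, nsmul_eq_mul]
      _ ≤ ∑ b ∈ B, ∏ j, (if g j ≠ b j then (2 / 3 : ℝ) else 1) := by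
            apply Finset.sum_le_sum
            intro b hb
            rw [hprod b]
            have hb' : 5 * (Finset.univ.filter fun j => g j ≠ b j).card ≤ 2 * n := by
              simpa [hB] using hb
            apply pow_le_pow_of_le_one (by norm_num) (by norm_num)
            omega
      _ ≤ ∑ b : Fin n → Bool, ∏ j, (if g j ≠ b j then (2 / 3 : ℝ) else 1) := by
            apply Finset.sum_le_sum_of_subset_of_nonneg (Finset.subset_univ _)
            intro b _ _
            apply Finset.prod_nonneg
            intro j _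
            split_ifs <;> norm_num
  have h5 : (B.card : ℝ) ^ 5 * (2 / 3) ^ (2 * n) ≤ (5 / 3) ^ (5 * n) := by
    have h6 : (2 / 3 : ℝ) ^ (2 * n) ≤ ((2 / 3) ^ r) ^ 5 := by
      rw [← pow_mul]
      apply pow_le_pow_of_le_one (by norm_num) (by norm_num)
      omega
    calc (B.card : ℝ) ^ 5 * (2 / 3) ^ (2 * n) ≤ (B.card : ℝ) ^ 5 * ((2 / 3) ^ r) ^ 5 := by
            apply mul_le_mul_of_nonneg_left h6 (by positivity)
      _ = ((B.card : ℝ) * (2 / 3) ^ r) ^ 5 := by rw [mul_pow]
      _ ≤ ((5 / 3) ^ n) ^ 5 := by
            apply pow_le_pow_left₀ (by positivity) hle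
      _ = (5 / 3) ^ (5 * n) := by rw [← pow_mul, mul_comm]
  have h7 : (B.card : ℝ) ^ 5 ≤ 29 ^ n := by
    have h8 : (B.card : ℝ) ^ 5 = ((B.card : ℝ) ^ 5 * (2 / 3) ^ (2 * n)) * (3 / 2) ^ (2 * n) := by
      rw [mul_assoc, ← mul_pow]
      norm_num
    rw [h8]
    calc ((B.card : ℝ) ^ 5 * (2 / 3) ^ (2 * n)) * (3 / 2) ^ (2 * n)
        ≤ (5 / 3) ^ (5 * n) * (3 / 2) ^ (2 * n) := by
            apply mul_le_mul_of_nonneg_right h5 (by positivity)
      _ = ((5 / 3) ^ 5 * (3 / 2) ^ 2) ^ n := by rw [pow_mul, pow_mul, ← mul_pow]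
      _ ≤ 29 ^ n := by
            apply pow_le_pow_left₀ (by norm_num)
            norm_num
  exact_mod_cast h7

open Classical in
theorem fiber_card (P : Program n d R) {m : ℕ} (code : Fin n → Fin m → Bool) (i : Fin n)
    (σ : Option (P.NodesAt (true, i) ⊕ Bool) ×
      (P.NodesAt (true, i) → Fin R → Option (P.NodesAt (true, i) ⊕ Bool)))
    (hcorrect : ∀ b j, (HasOrthogonalPair (hard d code i b j) ↔ b j = true)) :
    (Finset.univ.filter fun b : Fin n → Bool =>
      5 * (Finset.univ.filter fun j => ¬ P.CorrectOn (hard d code i b j)).card ≤ 2 * n ∧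
      ∀ j, P.sig (true, i) (hard d code i b j) = σ).card ^ 5 ≤ 29 ^ n := by
  set B := Finset.univ.filter fun b : Fin n → Bool =>
      5 * (Finset.univ.filter fun j => ¬ P.CorrectOn (hard d code i b j)).card ≤ 2 * n ∧
      ∀ j, P.sig (true, i) (hard d code i b j) = σ with hB
  rcases B.eq_empty_or_nonempty with hemp | ⟨b0, hb0⟩
  · rw [hemp]
    simp
  · have hb0' : 5 * (Finset.univ.filter fun j => ¬ P.CorrectOn (hard d code i b0 j)).card ≤ 2 * n ∧
      ∀ j, P.sig (true, i) (hard d code i b0 j) = σ := by simpa [hB] using hb0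
    let g : Fin n → Bool := fun j => decide (P.Outputs (hard d code i b0 j) true)
    refine le_trans (Nat.pow_le_pow_left (Finset.card_le_card ?_) 5) (ball_card g)
    intro b hb
    have hb' : 5 * (Finset.univ.filter fun j => ¬ P.CorrectOn (hard d code i b j)).card ≤ 2 * n ∧
      ∀ j, P.sig (true, i) (hard d code i b j) = σ := by simpa [hB] using hb
    simp only [Finset.mem_filter, Finset.mem_univ, true_and]
    refine le_trans (Nat.mul_le_mul_left 5 (Finset.card_le_card ?_)) hb'.1
    intro j hj
    simp only [Finset.mem_filter, Finset.mem_univ, true_and] at hj ⊢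
    intro hc
    apply hj
    have hsame : ∀ c, P.Outputs (hard d code i b j) c → P.Outputs (hard d code i b0 j) c := by
      intro c h
      refine P.outputs_of_sig (true, i) _ _ ?_ ((hb'.2 j).trans (hb0'.2 j).symm) c h
      simp [hard]
    cases hbj : b j
    · have h1 : ¬ HasOrthogonalPair (hard d code i b j) := by
        rw [hcorrect, hbj]
        simp
      have h2 := hsame _ (hc.2 h1)
      have h3 : ¬ P.Outputs (hard d code i b0 j) true := by
        intro h4
        have := P.outputs_unique _ h2 h4
        simp at this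
      simp [g, h3]
    · have h1 : HasOrthogonalPair (hard d code i b j) := by
        rw [hcorrect, hbj]
      have h2 := hsame _ (hc.1 h1)
      simp [g, h2]

theorem card_sig (P : Program n d R) (p : Pos n) [Fintype (P.NodesAt p)] :
    Fintype.card (Option (P.NodesAt p ⊕ Bool) ×
      (P.NodesAt p → Fin R → Option (P.NodesAt p ⊕ Bool))) =
    (Fintype.card (P.NodesAt p) + 3) * ((Fintype.card (P.NodesAt p) + 3) ^ R) ^
      Fintype.card (P.NodesAt p) := by
  classical
  simp [Fintype.card_prod, Fintype.card_option, Fintype.card_sum, add_assoc]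


open Classical in
/-- The average-case lower bound for deterministic programs, in combinatorial form. -/
theorem deterministic_bound (P : Program n d R) {m : ℕ} (code : Fin n → Fin m → Bool)
    (hn : 1 ≤ n)
    (hcorrect : ∀ i b j, (HasOrthogonalPair (hard d code i b j) ↔ b j = true))
    (herr : 3 * (Finset.univ.filter fun τ : Fin n × (Fin n → Bool) × Fin n =>
      ¬ P.CorrectOn (hard d code τ.1 τ.2.1 τ.2.2)).card ≤ n * (2 ^ n * n)) :
    ∃ t : ℕ, t * n ≤ 9 * P.size ∧
      32 ^ n ≤ 16 ^ 5 * ((t + 3) * ((t + 3) ^ R) ^ t) ^ 5 * 29 ^ n := by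
  let E : Fin n → ℕ := fun i => (Finset.univ.filter fun τ : (Fin n → Bool) × Fin n =>
      ¬ P.CorrectOn (hard d code i τ.1 τ.2)).card
  have hE : (Finset.univ.filter fun τ : Fin n × (Fin n → Bool) × Fin n =>
      ¬ P.CorrectOn (hard d code τ.1 τ.2.1 τ.2.2)).card = ∑ i, E i := by
    simp only [E, Finset.card_filter, Fintype.sum_prod_type]
  rw [hE] at herr
  let G : Finset (Fin n) := Finset.univ.filter fun i => 8 * E i ≤ 3 * (2 ^ n * n)
  have hG : n ≤ 9 * G.card := by
    have h1 : (Gᶜ).card * (3 * (2 ^ n * n)) ≤ 8 * ∑ i, E i := by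
      calc (Gᶜ).card * (3 * (2 ^ n * n)) = ∑ _i ∈ Gᶜ, 3 * (2 ^ n * n) := by
            rw [Finset.sum_const, smul_eq_mul]
        _ ≤ ∑ i ∈ Gᶜ, 8 * E i := by
            apply Finset.sum_le_sum
            intro i hi
            simp only [G, Finset.mem_compl, Finset.mem_filter, Finset.mem_univ, true_and,
              not_le] at hi
            exact hi.le
        _ ≤ ∑ i, 8 * E i := Finset.sum_le_sum_of_subset (Finset.subset_univ _)
        _ = 8 * ∑ i, E i := by rw [Finset.mul_sum]
    have h2 : (Gᶜ).card + G.card = n := by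
      rw [Finset.card_compl_add_card, Fintype.card_fin]
    have h3 : 9 * (Gᶜ).card * (2 ^ n * n) ≤ 8 * n * (2 ^ n * n) := by
      calc 9 * (Gᶜ).card * (2 ^ n * n) = 3 * ((Gᶜ).card * (3 * (2 ^ n * n))) := by ring
        _ ≤ 3 * (8 * ∑ i, E i) := Nat.mul_le_mul_left 3 h1
        _ = 8 * (3 * ∑ i, E i) := by ring
        _ ≤ 8 * (n * (2 ^ n * n)) := Nat.mul_le_mul_left 8 herr
        _ = 8 * n * (2 ^ n * n) := by ring
    have h4 : 9 * (Gᶜ).card ≤ 8 * n := Nat.le_of_mul_le_mul_right h3 (by positivity)
    omega
  have hsize : ∑ i : Fin n, Fintype.card (P.NodesAt (true, i)) ≤ P.size := by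
    rw [← Fintype.card_sigma]
    conv_rhs => rw [← Fintype.card_fin P.size]
    apply Fintype.card_le_of_injective
      (fun a : (i : Fin n) × P.NodesAt (true, i) => a.2.1)
    rintro ⟨i, v, hv⟩ ⟨i', v', hv'⟩ h
    simp only at h
    subst h
    rw [hv] at hv'
    have : i = i' := by simpa using hv'
    subst this
    rfl
  obtain ⟨i, hiG, hi⟩ : ∃ i ∈ G, Fintype.card (P.NodesAt (true, i)) * n ≤ 9 * P.size := by
    by_contra hcon
    push Not at hcon
    have h1 : G.card * (9 * P.size + 1) ≤ P.size * n := by
      calc G.card * (9 * P.size + 1) = ∑ _i ∈ G, (9 * P.size + 1) := by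
            rw [Finset.sum_const, smul_eq_mul]
        _ ≤ ∑ i ∈ G, Fintype.card (P.NodesAt (true, i)) * n :=
            Finset.sum_le_sum fun i hi => hcon i hi
        _ ≤ ∑ i, Fintype.card (P.NodesAt (true, i)) * n :=
            Finset.sum_le_sum_of_subset (Finset.subset_univ _)
        _ = (∑ i, Fintype.card (P.NodesAt (true, i))) * n := by rw [Finset.sum_mul]
        _ ≤ P.size * n := Nat.mul_le_mul_right n hsize
    have h2 : n * (9 * P.size + 1) ≤ 9 * (P.size * n) := by
      calc n * (9 * P.size + 1) ≤ 9 * G.card * (9 * P.size + 1) := Nat.mul_le_mul_right _ hG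
        _ = 9 * (G.card * (9 * P.size + 1)) := by ring
        _ ≤ 9 * (P.size * n) := Nat.mul_le_mul_left 9 h1
    nlinarith
  refine ⟨Fintype.card (P.NodesAt (true, i)), hi, ?_⟩
  -- good strings
  have hEi : 8 * E i ≤ 3 * (2 ^ n * n) := by simpa [G] using hiG
  let e : (Fin n → Bool) → ℕ := fun b =>
    (Finset.univ.filter fun j => ¬ P.CorrectOn (hard d code i b j)).card
  have he : E i = ∑ b, e b := by
    simp only [E, e, Finset.card_filter, Fintype.sum_prod_type]
  let Gb : Finset (Fin n → Bool) := Finset.univ.filter fun b => 5 * e b ≤ 2 * n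
  have hGb : 2 ^ n ≤ 16 * Gb.card := by
    have h1 : (Gbᶜ).card * (2 * n) ≤ 5 * E i := by
      calc (Gbᶜ).card * (2 * n) = ∑ _b ∈ Gbᶜ, 2 * n := by
            rw [Finset.sum_const, smul_eq_mul]
        _ ≤ ∑ b ∈ Gbᶜ, 5 * e b := by
            apply Finset.sum_le_sum
            intro b hb
            simp only [Gb, Finset.mem_compl, Finset.mem_filter, Finset.mem_univ, true_and,
              not_le] at hb
            exact hb.le
        _ ≤ ∑ b, 5 * e b := Finset.sum_le_sum_of_subset (Finset.subset_univ _)
        _ = 5 * E i := by rw [he, Finset.mul_sum]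
    have h2 : (Gbᶜ).card + Gb.card = 2 ^ n := by
      rw [Finset.card_compl_add_card]
      simp
    have h3 : (16 * (Gbᶜ).card) * n ≤ (15 * 2 ^ n) * n := by
      calc (16 * (Gbᶜ).card) * n = 8 * ((Gbᶜ).card * (2 * n)) := by ring
        _ ≤ 8 * (5 * E i) := Nat.mul_le_mul_left 8 h1
        _ = 5 * (8 * E i) := by ring
        _ ≤ 5 * (3 * (2 ^ n * n)) := Nat.mul_le_mul_left 5 hEi
        _ = (15 * 2 ^ n) * n := by ring
    have h4 : 16 * (Gbᶜ).card ≤ 15 * 2 ^ n := Nat.le_of_mul_le_mul_right h3 (by omega)
    omega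
  -- split according to the signature
  let S : Type := Option (P.NodesAt (true, i) ⊕ Bool) ×
      (P.NodesAt (true, i) → Fin R → Option (P.NodesAt (true, i) ⊕ Bool))
  let fib : S → Finset (Fin n → Bool) := fun σ => Finset.univ.filter fun b : Fin n → Bool =>
      5 * (Finset.univ.filter fun j => ¬ P.CorrectOn (hard d code i b j)).card ≤ 2 * n ∧
      ∀ j, P.sig (true, i) (hard d code i b j) = σ
  have hfib : ∀ σ, (fib σ).card ^ 5 ≤ 29 ^ n := fun σ => fiber_card P code i σ (hcorrect i)
  have hcover : Gb ⊆ Finset.univ.biUnion fib := by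
    intro b hb
    have hb' : 5 * e b ≤ 2 * n := by simpa [Gb] using hb
    rw [Finset.mem_biUnion]
    refine ⟨P.sig (true, i) (hard d code i b ⟨0, by omega⟩), Finset.mem_univ _, ?_⟩
    simp only [fib, Finset.mem_filter, Finset.mem_univ, true_and]
    refine ⟨hb', fun j => P.sig_congr _ ?_⟩
    intro q hq
    unfold hard
    split_ifs with h1 h2
    · rfl
    · exfalso
      apply hq
      ext1
      · simpa using h1
      · exact h2
    · rfl
  obtain ⟨D, hD1, hD2⟩ : ∃ D : ℕ, D ^ 5 ≤ 29 ^ n ∧ ∀ σ, (fib σ).card ≤ D := by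
    obtain ⟨σ, _, hσ⟩ := Finset.exists_max_image (Finset.univ : Finset S)
      (fun σ => (fib σ).card) ⟨(none, fun _ _ => none), Finset.mem_univ _⟩
    exact ⟨(fib σ).card, hfib σ, fun τ => hσ τ (Finset.mem_univ _)⟩
  have hGb2 : Gb.card ≤ Fintype.card S * D := by
    calc Gb.card ≤ (Finset.univ.biUnion fib).card := Finset.card_le_card hcover
      _ ≤ Finset.univ.card * D := Finset.card_biUnion_le_card_mul _ _ _ fun σ _ => hD2 σ
      _ = Fintype.card S * D := by rw [Finset.card_univ]
  rw [← card_sig]
  have h32 : (32 : ℕ) ^ n = (2 ^ n) ^ 5 := by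
    rw [← pow_mul, mul_comm, pow_mul]
    norm_num
  calc 32 ^ n = (2 ^ n) ^ 5 := h32
    _ ≤ (16 * (Fintype.card S * D)) ^ 5 :=
        Nat.pow_le_pow_left (hGb.trans (Nat.mul_le_mul_left 16 hGb2)) 5
    _ = 16 ^ 5 * (Fintype.card S) ^ 5 * D ^ 5 := by ring
    _ ≤ 16 ^ 5 * (Fintype.card S) ^ 5 * 29 ^ n := Nat.mul_le_mul_left _ hD1


/-! ### Averaging over the random choices -/

open Classical in
theorem exists_good_program (μ : PMF (Program n d R)) {T : Type} [Fintype T]
    (x : T → Input n d)
    (hx : ∀ τ, (2 / 3 : ENNReal) ≤ μ.toOuterMeasure {P | P.CorrectOn (x τ)}) :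
    ∃ P ∈ μ.support,
      3 * (Finset.univ.filter fun τ => ¬ P.CorrectOn (x τ)).card ≤ Fintype.card T := by
  by_contra hcon
  push Not at hcon
  have herr : ∀ τ, μ.toOuterMeasure {P | ¬ P.CorrectOn (x τ)} ≤ 1 / 3 := by
    intro τ
    have h1 : μ.toOuterMeasure {P | P.CorrectOn (x τ)} +
        μ.toOuterMeasure {P | ¬ P.CorrectOn (x τ)} = 1 := by
      rw [PMF.toOuterMeasure_apply, PMF.toOuterMeasure_apply, ← ENNReal.tsum_add,
        ← PMF.tsum_coe μ]
      congr 1
      funext P
      by_cases h : P.CorrectOn (x τ) <;> simp [Set.indicator, h]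
    have h2 : (2 / 3 : ENNReal) + μ.toOuterMeasure {P | ¬ P.CorrectOn (x τ)} ≤
        2 / 3 + 1 / 3 := by
      calc (2 / 3 : ENNReal) + μ.toOuterMeasure {P | ¬ P.CorrectOn (x τ)}
          ≤ μ.toOuterMeasure {P | P.CorrectOn (x τ)} +
            μ.toOuterMeasure {P | ¬ P.CorrectOn (x τ)} := by gcongr; exact hx τ
        _ = 1 := h1
        _ = 2 / 3 + 1 / 3 := by
            rw [← ENNReal.add_div]
            norm_num
            rw [ENNReal.div_self (by norm_num) (by norm_num)]
    exact (ENNReal.add_le_add_iff_left (ENNReal.div_ne_top (by norm_num) (by norm_num))).1 h2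
  have hlow : ((Fintype.card T : ENNReal) + 1) ≤
      ∑' P, μ P * (3 * ((Finset.univ.filter fun τ => ¬ P.CorrectOn (x τ)).card : ENNReal)) := by
    calc ((Fintype.card T : ENNReal) + 1) = ∑' P, μ P * ((Fintype.card T : ENNReal) + 1) := by
          rw [ENNReal.tsum_mul_right, PMF.tsum_coe, one_mul]
      _ ≤ _ := by
          apply ENNReal.tsum_le_tsum
          intro P
          by_cases hP : μ P = 0
          · simp [hP]
          · have h1 := hcon P ((PMF.mem_support_iff μ P).2 hP)
            gcongr
            exact_mod_cast h1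
  have hup : ∑' P, μ P * (3 * ((Finset.univ.filter fun τ => ¬ P.CorrectOn (x τ)).card : ENNReal))
      ≤ Fintype.card T := by
    have h1 : ∀ P : Program n d R,
        μ P * (3 * ((Finset.univ.filter fun τ => ¬ P.CorrectOn (x τ)).card : ENNReal)) =
        3 * ∑ τ : T, {P | ¬ P.CorrectOn (x τ)}.indicator μ P := by
      intro P
      rw [Finset.card_filter]
      push_cast
      rw [← mul_assoc, mul_comm (μ P) 3, mul_assoc, Finset.mul_sum]
      congr 1
      apply Finset.sum_congr rfl
      intro τ _
      by_cases h : P.CorrectOn (x τ) <;> simp [Set.indicator, h]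
    calc ∑' P, μ P * (3 * ((Finset.univ.filter fun τ => ¬ P.CorrectOn (x τ)).card : ENNReal))
        = ∑' P, 3 * ∑ τ : T, {P | ¬ P.CorrectOn (x τ)}.indicator μ P := by
          congr 1
          funext P
          exact h1 P
      _ = 3 * ∑ τ : T, μ.toOuterMeasure {P | ¬ P.CorrectOn (x τ)} := by
          rw [ENNReal.tsum_mul_left, Summable.tsum_finsetSum (fun _ _ => ENNReal.summable)]
          simp only [PMF.toOuterMeasure_apply]
      _ ≤ 3 * ∑ _τ : T, (1 / 3 : ENNReal) := by
          gcongr with τ _
          exact herr τ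
      _ = Fintype.card T := by
          rw [Finset.sum_const, Finset.card_univ, nsmul_eq_mul, mul_comm, mul_assoc]
          rw [ENNReal.div_mul_cancel (by norm_num) (by norm_num), mul_one]
  have h3 := hlow.trans hup
  have h4 : (Fintype.card T + 1 : ℕ) ≤ Fintype.card T := by exact_mod_cast h3
  omega

/-! ### Numerics -/

theorem numeric {n R t s : ℕ} (hn : 1000 ≤ n) (hR : 1 ≤ R) (ht : t * n ≤ 9 * s)
    (h : 32 ^ n ≤ 16 ^ 5 * ((t + 3) * ((t + 3) ^ R) ^ t) ^ 5 * 29 ^ n) :
    (1 / 10 ^ 7 : ℝ) * n ^ 2 / (R * Real.log n) ≤ s := by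
  have hn' : (1000 : ℝ) ≤ n := by exact_mod_cast hn
  have hn0 : (0 : ℝ) < n := by linarith
  have hR' : (1 : ℝ) ≤ R := by exact_mod_cast hR
  have hR0 : (0 : ℝ) < R := by linarith
  have hlog2 : Real.log 2 < 0.6931471808 := Real.log_two_lt_d9
  have hL1 : (1 : ℝ) ≤ Real.log n := by
    rw [Real.le_log_iff_exp_le hn0]
    have := Real.exp_one_lt_d9
    linarith
  have hL0 : 0 < Real.log n := by linarith
  by_contra hcon
  rw [not_le] at hcon
  have hs : (s : ℝ) * (R * Real.log n) < 1 / 10 ^ 7 * n ^ 2 := by
    rwa [lt_div_iff₀ (by positivity)] at hcon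
  have ht' : (t : ℝ) * n ≤ 9 * s := by exact_mod_cast ht
  -- `t R log n` is small
  have hsmall : (t : ℝ) * R * Real.log n < 9 / 10 ^ 7 * n := by
    have h1 : ((t : ℝ) * R * Real.log n) * n ≤ 9 * ((s : ℝ) * (R * Real.log n)) := by
      have : ((t : ℝ) * R * Real.log n) * n = (t * n) * (R * Real.log n) := by ring
      rw [this]
      have h2 : (0 : ℝ) ≤ R * Real.log n := by positivity
      calc (t : ℝ) * n * (R * Real.log n) ≤ 9 * s * (R * Real.log n) :=
            mul_le_mul_of_nonneg_right ht' h2
        _ = 9 * ((s : ℝ) * (R * Real.log n)) := by ring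
    have h2 : ((t : ℝ) * R * Real.log n) * n < (9 / 10 ^ 7 * n) * n := by
      calc ((t : ℝ) * R * Real.log n) * n ≤ 9 * ((s : ℝ) * (R * Real.log n)) := h1
        _ < 9 * (1 / 10 ^ 7 * n ^ 2) := by linarith
        _ = (9 / 10 ^ 7 * n) * n := by ring
    exact lt_of_mul_lt_mul_right h2 hn0.le
  have ht0 : (0 : ℝ) ≤ t := Nat.cast_nonneg t
  have htn : (t : ℝ) + 3 ≤ n := by
    have h1 : (t : ℝ) ≤ t * R * Real.log n := by
      have h2 : (1 : ℝ) ≤ R * Real.log n := by nlinarith
      calc (t : ℝ) = t * 1 := by ring
        _ ≤ t * (R * Real.log n) := mul_le_mul_of_nonneg_left h2 ht0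
        _ = t * R * Real.log n := by ring
    have h3 : (9 : ℝ) / 10 ^ 7 * n ≤ n - 3 := by
      have : (9 : ℝ) / 10 ^ 7 ≤ 1 / 2 := by norm_num
      nlinarith
    linarith
  have hlogt : Real.log ((t : ℝ) + 3) ≤ Real.log n := Real.log_le_log (by linarith) htn
  -- take logarithms
  have hreal : (32 : ℝ) ^ n ≤ 16 ^ 5 * (((t : ℝ) + 3) * (((t : ℝ) + 3) ^ R) ^ t) ^ 5 * 29 ^ n := by
    exact_mod_cast h
  have hlogs := Real.log_le_log (by positivity) hreal
  rw [Real.log_mul (by positivity) (by positivity), Real.log_mul (by positivity) (by positivity),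
    Real.log_pow, Real.log_pow, Real.log_pow, Real.log_pow,
    Real.log_mul (by positivity) (by positivity), Real.log_pow, Real.log_pow] at hlogs
  have hlog16 : Real.log 16 = 4 * Real.log 2 := by
    rw [show (16 : ℝ) = 2 ^ 4 by norm_num, Real.log_pow]
    norm_num
  have hdiff : (3 / 32 : ℝ) ≤ Real.log 32 - Real.log 29 := by
    rw [← Real.log_div (by norm_num) (by norm_num)]
    have := Real.one_sub_inv_le_log_of_pos (show (0 : ℝ) < 32 / 29 by norm_num)
    norm_num at this ⊢
    linarith
  have hlogn : Real.log n ≤ 6 + n / 1000 := by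
    have h1 : Real.log n = Real.log (n / 1000) + Real.log 1000 := by
      rw [← Real.log_mul (by positivity) (by norm_num)]
      congr 1
      field_simp
    have h2 : Real.log (n / 1000) ≤ n / 1000 - 1 := by
      have := Real.log_le_sub_one_of_pos (show (0 : ℝ) < n / 1000 by positivity)
      exact this
    have h3 : Real.log 1000 ≤ 10 * Real.log 2 := by
      have : Real.log 1000 ≤ Real.log (2 ^ 10) := Real.log_le_log (by norm_num) (by norm_num)
      rwa [Real.log_pow] at this
    rw [h1]
    linarith
  have hmain : (n : ℝ) * Real.log 32 ≤ 5 * Real.log 16 + 5 * (Real.log (t + 3) +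
      t * (R * Real.log (t + 3))) + n * Real.log 29 := by
    have : ((5 : ℕ) : ℝ) = 5 := by norm_num
    rw [this] at hlogs
    exact hlogs
  have hb : (t : ℝ) * (R * Real.log (t + 3)) ≤ t * R * Real.log n := by
    rw [← mul_assoc]
    exact mul_le_mul_of_nonneg_left hlogt (by positivity)
  have hc : (n : ℝ) * (3 / 32) ≤ n * (Real.log 32 - Real.log 29) :=
    mul_le_mul_of_nonneg_left hdiff hn0.le
  have hd : (n : ℝ) * (Real.log 32 - Real.log 29) = n * Real.log 32 - n * Real.log 29 := by ring
  rw [hlog16] at hmain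
  nlinarith

/-! ### The result -/

/-- The quadratic lower bound for randomized branching programs solving Orthogonal Vectors. -/
theorem result : ∃ c : ℝ, 0 < c ∧ ∀ (n d R s : ℕ), 2 ≤ n → 3 * Nat.clog 2 n + 2 ≤ d →
    ∀ μ : PMF (Program n d R), (∀ P ∈ μ.support, P.size ≤ s) →
      (∀ x : Input n d, IsValid x →
        (2 / 3 : ENNReal) ≤ μ.toOuterMeasure {P | P.CorrectOn x}) →
      c * n ^ 2 / (R * Real.log n) ≤ s := by
  classical
  refine ⟨1 / 10 ^ 7, by norm_num, ?_⟩
  intro n d R s hn hd μ hμ hx
  obtain ⟨code, hcode⟩ := exists_code (n := n) (m := Nat.clog 2 n)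
    (Nat.le_pow_clog (by norm_num) n)
  have hcorrect : ∀ i b j, (HasOrthogonalPair (hard d code i b j) ↔ b j = true) :=
    fun i b j => hard_hasOrthogonalPair hd code hcode i b j
  obtain ⟨P, hP, herr⟩ := exists_good_program μ
    (fun τ : Fin n × (Fin n → Bool) × Fin n => hard d code τ.1 τ.2.1 τ.2.2)
    (fun τ => hx _ (hard_valid hd code hcode _ _ _))
  have hcard : Fintype.card (Fin n × (Fin n → Bool) × Fin n) = n * (2 ^ n * n) := by
    simp [Fintype.card_prod]
  rw [hcard] at herr
  have hPs : P.size ≤ s := hμ P hP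
  have hn' : (2 : ℝ) ≤ n := by exact_mod_cast hn
  have hlogn : (0.6931471803 : ℝ) < Real.log n :=
    Real.log_two_gt_d9.trans_le (Real.log_le_log (by norm_num) hn')
  rcases Nat.eq_zero_or_pos R with hR | hR
  · subst hR
    simp
  · have hR' : (1 : ℝ) ≤ R := by exact_mod_cast hR
    rcases Nat.lt_or_ge n 1000 with hlt | hge
    · -- small `n`: the size is at least `1`
      have hs1 : 1 ≤ P.size := by
        by_contra hcon
        have hsz : P.size = 0 := by omega
        obtain ⟨c, hc⟩ : ∃ c, P.start = Sum.inr c := by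
          rcases hst : P.start with v | c
          · exact absurd v.2 (by omega)
          · exact ⟨c, rfl⟩
        have hout : ∀ x b, P.Outputs x b → b = c := by
          rintro x b ⟨t, ht⟩
          rw [hc, P.iterate_step_inr] at ht
          exact (Sum.inr.inj ht).symm
        -- flipping the string maps correct tests to incorrect ones
        let T := Fin n × (Fin n → Bool) × Fin n
        let bad : Finset T := Finset.univ.filter fun τ =>
          ¬ P.CorrectOn (hard d code τ.1 τ.2.1 τ.2.2)
        let flip : T → T := fun τ => (τ.1, (fun k => !(τ.2.1 k)), τ.2.2)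
        have hflip : Function.Injective flip := by
          rintro ⟨i, b, j⟩ ⟨i', b', j'⟩ h
          have h1 : i = i' := congrArg Prod.fst h
          have h2 : (fun k => !(b k)) = fun k => !(b' k) :=
            congrArg (fun z : T => z.2.1) h
          have h3 : j = j' := congrArg (fun z : T => z.2.2) h
          have h4 : b = b' := by
            funext k
            have := congrFun h2 k
            simpa using this
          rw [h1, h4, h3]
        have hmap : ∀ τ ∈ badᶜ, flip τ ∈ bad := by
          rintro ⟨i, b, j⟩ hτ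
          simp only [bad, Finset.mem_compl, Finset.mem_filter, Finset.mem_univ, true_and,
            not_not] at hτ
          simp only [bad, flip, Finset.mem_filter, Finset.mem_univ, true_and]
          intro hτ'
          have hb1 : b j = c := by
            cases hbj : b j
            · exact hout _ _ (hτ.2 (by rw [hcorrect, hbj]; simp))
            · exact hout _ _ (hτ.1 (by rw [hcorrect, hbj]))
          have hb2 : (!(b j)) = c := by
            cases hbj : b j
            · refine hout _ _ (hτ'.1 ?_)
              rw [hcorrect]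
              simp [hbj]
            · refine hout _ _ (hτ'.2 ?_)
              rw [hcorrect]
              simp [hbj]
          rw [hb1] at hb2
          cases c <;> simp at hb2
        have h1 : (badᶜ).card ≤ bad.card :=
          Finset.card_le_card_of_injOn flip hmap hflip.injOn
        have h2 : (badᶜ).card + bad.card = n * (2 ^ n * n) := by
          rw [Finset.card_compl_add_card]
          exact hcard
        have h3 : 3 * bad.card ≤ n * (2 ^ n * n) := herr
        have h4 : 0 < n * (2 ^ n * n) := by positivity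
        omega
      have hs : (1 : ℝ) ≤ s := by exact_mod_cast hs1.trans hPs
      have hn2 : (n : ℝ) ≤ 1000 := by exact_mod_cast hlt.le
      calc (1 / 10 ^ 7 : ℝ) * n ^ 2 / (R * Real.log n)
          ≤ 1 := by
            rw [div_le_one (by nlinarith)]
            nlinarith
        _ ≤ s := hs
    · obtain ⟨t, ht1, ht2⟩ := deterministic_bound P code (by omega) hcorrect herr
      have := numeric hge hR ht1 ht2
      exact this.trans (by exact_mod_cast hPs)

end Pool.Agent.H58.Old.RandomizedBranching
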