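import Mathlib
import Pool.Agent.H85.TC.Fin

/-!
# MP_cda23d_nt: nonsplit primes, the conductor of the minimal quadratic twist and the height of `j`
-/

set_option autoImplicit false

namespace Pool.Agent.Results.MP_cda23d_nt.TwistConductor

open Pool.Agent.H27.SU Pool.Agent.H26.EP Pool.Agent.H85.TC

/-- **Theorem.** For an elliptic curve `E/ℚ` let `j = a/b ≠ 0, 1728` in lowest terms, `H = max(|a|, b)`, `m = a - 1728 b` and let
`N = twistConductor j` be the product of `ℓ` over the primes `ℓ ≥ 5` dividing `b`, of `ℓ²` over the primes `ℓ ≥ 5` dividing `a` with `3 ∤ v_ℓ(a)` and of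
`q²` over the primes `q ≥ 5` with `v_q(m)` odd (the least prime-to-6 part of a conductor among the quadratic twists of `E`).  A prime `p` is nonsplit for
`E` if the image of `ρ_{E,p}` is contained in the normaliser of a nonsplit Cartan subgroup.  There is an absolute constant `C` such that for
all `E`:
* (1) For every nonsplit prime `p ≥ 29`: `A⁴ M³ ≤ C p²⁴ H`, where `A` is the product of the `ℓ^(v_ℓ(a))` with `3 ∤ v_ℓ(a)` and `M` the product of the
  `q^(v_q(m))` with `v_q(m)` odd, over the primes `≥ 5` different from `p`; and `N ≤ C p²⁰ H^(2/3 + 1/p)`.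
* (2) If `E` has no complex multiplication and `N > C H^(7/10)`, then no prime `p > 37` is nonsplit for `E`. -/
theorem result : ∃ C : ℝ, 1 ≤ C ∧
    (∀ (E : WeierstrassCurve ℚ) [E.IsElliptic], E.j ≠ 0 → E.j ≠ 1728 →
      ∀ (p : ℕ) [Fact p.Prime], 29 ≤ p → InNonsplitNormaliser E p →
      partOver E.j.num (fun ℓ => 5 ≤ ℓ ∧ ℓ ≠ p ∧ ¬ 3 ∣ padicValNat ℓ E.j.num.natAbs) ^ 4 *
          partOver (E.j.num - 1728 * E.j.den) (fun q => 5 ≤ q ∧ q ≠ p ∧
            ¬ 2 ∣ padicValNat q (E.j.num - 1728 * E.j.den).natAbs) ^ 3 ≤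
        C * (p : ℝ) ^ 24 * height E.j ∧
      (twistConductor E.j : ℝ) ≤ C * (p : ℝ) ^ 20 * height E.j ^ ((2 : ℝ) / 3 + 1 / p)) ∧
    (∀ (E : WeierstrassCurve ℚ) [E.IsElliptic], E.j ≠ 0 → E.j ≠ 1728 → NoComplexMult E →
      C * height E.j ^ ((7 : ℝ) / 10) < twistConductor E.j →
      ∀ (p : ℕ) [Fact p.Prime], 37 < p → ¬ InNonsplitNormaliser E p) :=
  Pool.Agent.H85.TC.tc_hand

end Pool.Agent.Results.MP_cda23d_nt.TwistConductor
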